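import Mathlib
import Pool.Agent.Lib.MP_44a246_ntNC.NC07

/-!
# The theorem of McQuillan and Yamanoi for the limit curve: a divisor given by several equations
-/

namespace Pool.Agent.Lib.MP_44a246_ntFB

open Pool.Agent.Lib.MP_e52354_nt
open Pool.Agent.Lib.MP_44a246_nt
open Pool.Agent.Lib.MP_44a246_ntL
open Pool.Agent.Lib.MP_44a246_ntR
open Pool.Agent.Lib.MP_44a246_ntY
open Pool.Agent.Lib.MP_44a246_ntS
open Pool.Agent.Lib.MP_44a246_ntSH
open Pool.Agent.Lib.MP_44a246_ntSM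
open Pool.Agent.Lib.MP_44a246_ntSF
open Pool.Agent.Lib.MP_44a246_ntUV
open Pool.Agent.Lib.MP_44a246_ntTM
open Pool.Agent.Lib.MP_44a246_ntMY
open Pool.Agent.Lib.MP_44a246_ntNC
open WithZero Module Polynomial

section Bdry

variable {κ K Ω : Type*} [Field κ] [IsAlgClosed κ] [CharZero κ] [Field K] [Algebra κ K]
  [Field Ω] [Algebra K Ω] [Algebra κ Ω] [IsScalarTower κ K Ω] {W : Tow κ K Ω}
  {E : ∀ N, IntermediateField (W.L N) Ω}

omit [IsAlgClosed κ] [CharZero κ] in
private theorem germ_inv' (f : ℕ → Ω) : germHom (fun N => (f N)⁻¹) = (germHom f)⁻¹ := rfl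

/-- near a place of the boundary the form `y` of degree `d` is small -/
theorem bdry_level' [IsAlgClosed Ω] {M : IntermediateField W.F0 (UP Ω)} (hM : IsFF W.F0 M)
    {u y : M} {k d : ℕ} {γ : Fin k → M} {l : Fin k} (hγ : γ l = 1) (hy : y ≠ 0)
    (h : ∀ v : Place W.F0 M, 1 < v.1 u → v.1 y < vmax v.1 γ ^ d) :
    ∃ S : Finset (UP Ω), (∀ s ∈ S, s ∈ W.F0) ∧
      ∀ (X : FX W E) (r : UP Ω → ∀ N, X.F N), Reps X r S →
        ∃ δ : ∀ N, Place κ (X.F N) → ℕ, SmallE X δ ∧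
          ∀ (ur yr : ∀ N, X.F N) (γr : Fin k → ∀ N, X.F N), germHom (fun N => (ur N : Ω)) = u →
            germHom (fun N => (yr N : Ω)) = y → (∀ i, germHom (fun N => (γr i N : Ω)) = γ i) →
            ∀ᶠ N in (Filter.hyperfilter ℕ : Filter ℕ), ∀ w : Place κ (X.F N), δ N w = 0 →
              vmax w.1 (fun i => γr i N) ^ d ≤ w.1 (yr N) → w.1 (ur N) ≤ 1 := by
  -- for every `i` with `γ i ≠ 0` the clause with `g = (γ j / γ i, j; γ i ^ d / y)` and `h = u`;
  -- at `w` take the `i` with `w (γr i N) = vmax`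
  classical
  have key : ∀ i : Fin k, ∃ S : Finset (UP Ω), (∀ s ∈ S, s ∈ W.F0) ∧
      ∀ (X : FX W E) (r : UP Ω → ∀ N, X.F N), Reps X r S →
        ∃ δ : ∀ N, Place κ (X.F N) → ℕ, SmallE X δ ∧ (γ i ≠ 0 →
          ∀ (ur yr : ∀ N, X.F N) (γr : Fin k → ∀ N, X.F N), germHom (fun N => (ur N : Ω)) = u →
            germHom (fun N => (yr N : Ω)) = y → (∀ i, germHom (fun N => (γr i N : Ω)) = γ i) →
            ∀ᶠ N in (Filter.hyperfilter ℕ : Filter ℕ), ∀ w : Place κ (X.F N), δ N w = 0 →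
              (∀ j, w.1 (γr j N * (γr i N)⁻¹) ≤ 1) → w.1 (γr i N ^ d * (yr N)⁻¹) ≤ 1 →
              w.1 (ur N) ≤ 1) := by
    intro i
    by_cases hi : γ i = 0
    · exact ⟨∅, by simp, fun X r _ => ⟨fun _ _ => 0, SmallE.zero X, fun h => absurd hi h⟩⟩
    have H : ∀ v : Place W.F0 M, (∀ j : Option (Fin k), v.1 (j.elim (γ i ^ d * y⁻¹)
        fun j => γ j * (γ i)⁻¹) ≤ 1) → ∃ _j : Unit, v.1 u ≤ 1 := by
      intro v hv
      refine ⟨(), ?_⟩
      by_contra hlt
      have h1 := h v (not_le.1 hlt)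
      have hvi : v.1 (γ i) ≠ 0 := (v.1.ne_zero_iff).2 hi
      have h2 : vmax v.1 γ ≤ v.1 (γ i) := by
        apply vmax_le
        intro j
        have h3 : v.1 (γ j * (γ i)⁻¹) ≤ 1 := hv (some j)
        rw [map_mul, map_inv₀] at h3
        calc v.1 (γ j) = v.1 (γ j) * (v.1 (γ i))⁻¹ * v.1 (γ i) := by
              rw [mul_assoc, inv_mul_cancel₀ hvi, mul_one]
          _ ≤ 1 * v.1 (γ i) := mul_le_mul' h3 le_rfl
          _ = _ := one_mul _
      have hvy : v.1 y ≠ 0 := (v.1.ne_zero_iff).2 hy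
      have h4 : v.1 (γ i ^ d * y⁻¹) ≤ 1 := hv none
      rw [map_mul, map_inv₀, map_pow] at h4
      have h5 : v.1 (γ i) ^ d ≤ v.1 y := by
        calc v.1 (γ i) ^ d = v.1 (γ i) ^ d * (v.1 y)⁻¹ * v.1 y := by
              rw [mul_assoc, inv_mul_cancel₀ hvy, mul_one]
          _ ≤ 1 * v.1 y := mul_le_mul' h4 le_rfl
          _ = _ := one_mul _
      have h6 : vmax v.1 γ ^ d ≤ v.1 (γ i) ^ d := pow_le_pow_left' h2 d
      exact absurd h1 (not_lt.2 (h6.trans h5))
    obtain ⟨S, hS, hc⟩ := clause_level (E := E) hM H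
    refine ⟨S, hS, fun X r hr => ?_⟩
    obtain ⟨δ, hδ, hd⟩ := hc X r hr
    refine ⟨δ, hδ, fun _ ur yr γr hur hyr hγr => ?_⟩
    have hg1 : germHom (fun N => ((γr i N ^ d * (yr N)⁻¹ : X.F N) : Ω)) =
        ((γ i ^ d * y⁻¹ : M) : UP Ω) := by
      have e1 : (fun N => ((γr i N ^ d * (yr N)⁻¹ : X.F N) : Ω)) =
          (fun N => (γr i N : Ω)) ^ d * fun N => ((fun N => (yr N : Ω)) N)⁻¹ := by
        funext N
        simp
      rw [e1, map_mul, map_pow, germ_inv', hyr, hγr]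
      simp
    have hg2 : ∀ j, germHom (fun N => ((γr j N * (γr i N)⁻¹ : X.F N) : Ω)) =
        ((γ j * (γ i)⁻¹ : M) : UP Ω) := by
      intro j
      have e1 : (fun N => ((γr j N * (γr i N)⁻¹ : X.F N) : Ω)) =
          (fun N => (γr j N : Ω)) * fun N => ((fun N => (γr i N : Ω)) N)⁻¹ := by
        funext N
        simp
      rw [e1, map_mul, germ_inv', hγr, hγr]
      simp
    have h1 := hd (fun j N => j.elim (γr i N ^ d * (yr N)⁻¹) fun j => γr j N * (γr i N)⁻¹)
      (fun _ N => ur N) (fun j => by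
        cases j
        · exact hg1
        · exact hg2 _) (fun _ => hur)
    filter_upwards [h1] with N e1 w hw ha hb
    obtain ⟨-, h2⟩ := e1 w (fun j => by
      cases j
      · exact hb
      · exact ha _)
    rwa [hw, Nat.cast_zero, exp_zero] at h2
  choose S hS hkey using key
  refine ⟨Finset.univ.biUnion S, fun s hs => ?_, fun X r hr => ?_⟩
  · obtain ⟨i, -, hi⟩ := Finset.mem_biUnion.1 hs
    exact hS i s hi
  have hr' : ∀ i, Reps X r (S i) := fun i =>
    hr.mono (Finset.subset_biUnion_of_mem S (Finset.mem_univ i))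
  choose δ hδ hd using fun i => hkey i X r (hr' i)
  refine ⟨fun N w => ∑ i, δ i N w, SmallE.finset_sum _ fun i _ => hδ i,
    fun ur yr γr hur hyr hγr => ?_⟩
  have h1 : ∀ᶠ N in (Filter.hyperfilter ℕ : Filter ℕ), ∀ i, γ i ≠ 0 →
      ∀ w : Place κ (X.F N), δ i N w = 0 → (∀ j, w.1 (γr j N * (γr i N)⁻¹) ≤ 1) →
      w.1 (γr i N ^ d * (yr N)⁻¹) ≤ 1 → w.1 (ur N) ≤ 1 := by
    refine Filter.eventually_all.2 fun i => ?_
    by_cases hi : γ i = 0
    · exact Filter.Eventually.of_forall fun N h => absurd hi h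
    · filter_upwards [hd i hi ur yr γr hur hyr hγr] with N e1 _
      exact e1
  have h2 : ∀ᶠ N in (Filter.hyperfilter ℕ : Filter ℕ), ∀ i, γ i = 0 → γr i N = 0 := by
    refine Filter.eventually_all.2 fun i => ?_
    by_cases hi : γ i = 0
    · have h3 := (germHom_eq_zero_iff (fun N => (γr i N : Ω))).1 (by
        rw [hγr, hi]; rfl)
      filter_upwards [h3] with N e1 _
      exact Subtype.ext e1
    · exact Filter.Eventually.of_forall fun N h => absurd h hi
  have h3 : ∀ᶠ N in (Filter.hyperfilter ℕ : Filter ℕ), γr l N = 1 := by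
    have h4 := (germHom_eq_iff (fun N => (γr l N : Ω)) (fun _ => (1 : Ω))).1 (by
      rw [hγr, hγ]
      exact (map_one (germHom (L := Ω))).symm)
    filter_upwards [h4] with N e1
    exact Subtype.ext e1
  filter_upwards [h1, h2, h3] with N e1 e2 e3 w hw hyw
  have hne : (Finset.univ : Finset (Fin k)).Nonempty := ⟨l, Finset.mem_univ _⟩
  obtain ⟨i, -, hi⟩ := Finset.exists_mem_eq_sup Finset.univ hne (fun j => w.1 (γr j N))
  have hi' : vmax w.1 (fun i => γr i N) = w.1 (γr i N) := hi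
  have h1le : 1 ≤ w.1 (γr i N) := by
    rw [← hi']
    have h4 := le_vmax w.1 (fun i => γr i N) l
    rwa [e3, map_one] at h4
  have hγi0 : w.1 (γr i N) ≠ 0 := (lt_of_lt_of_le zero_lt_one h1le).ne'
  have hγi : γ i ≠ 0 := by
    intro h0
    rw [e2 i h0, map_zero] at hγi0
    exact hγi0 rfl
  have hwi : δ i N w = 0 := by
    have h4 : δ i N w ≤ ∑ i, δ i N w :=
      Finset.single_le_sum (f := fun i => δ i N w) (fun _ _ => Nat.zero_le _) (Finset.mem_univ i)
    omega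
  refine e1 i hγi w hwi (fun j => ?_) ?_
  · rw [map_mul, map_inv₀]
    have h4 : w.1 (γr j N) ≤ w.1 (γr i N) := by
      rw [← hi']
      exact le_vmax w.1 (fun i => γr i N) j
    calc w.1 (γr j N) * (w.1 (γr i N))⁻¹ ≤ w.1 (γr i N) * (w.1 (γr i N))⁻¹ :=
          mul_le_mul' h4 le_rfl
      _ = 1 := mul_inv_cancel₀ hγi0
  · rw [hi'] at hyw
    rw [map_mul, map_inv₀, map_pow]
    have h5 : w.1 (yr N) ≠ 0 := (lt_of_lt_of_le (zero_lt_iff.2 (pow_ne_zero d hγi0)) hyw).ne'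
    calc w.1 (γr i N) ^ d * (w.1 (yr N))⁻¹ ≤ w.1 (yr N) * (w.1 (yr N))⁻¹ := mul_le_mul' hyw le_rfl
      _ = 1 := mul_inv_cancel₀ h5


end Bdry

theorem transfer_le {A B : Type*} [Field A] [Field B] (f : A →+* B) {v : Valuation A ℤᵐ⁰}
    {w : Valuation B ℤᵐ⁰} (h : ∀ y : A, v y ≤ 1 ↔ w (f y) ≤ 1) {k d : ℕ} {x : Fin k → A} {y : A}
    (hx : x ≠ 0) (hy : vmax v x ^ d ≤ v y) : vmax w (fun i => f (x i)) ^ d ≤ w (f y) := by
  classical
  obtain ⟨i₀, hi₀⟩ : ∃ i, x i ≠ 0 := by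
    by_contra hcon
    push Not at hcon
    exact hx (funext hcon)
  obtain ⟨i, -, hi⟩ := Finset.exists_max_image (Finset.univ : Finset (Fin k)) (fun i => v (x i))
    ⟨i₀, Finset.mem_univ _⟩
  have hvi : vmax v x = v (x i) :=
    le_antisymm (vmax_le _ fun j => hi j (Finset.mem_univ j)) (le_vmax _ _ _)
  have hxi : x i ≠ 0 := by
    intro h0
    have h1 := hi i₀ (Finset.mem_univ _)
    rw [h0, map_zero, le_zero_iff] at h1
    exact hi₀ ((Valuation.zero_iff _).1 h1)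
  have hvx : v (x i) ≠ 0 := (Valuation.ne_zero_iff _).2 hxi
  have hfx : f (x i) ≠ 0 := (map_ne_zero f).2 hxi
  have hwx : w (f (x i)) ≠ 0 := (Valuation.ne_zero_iff _).2 hfx
  have hwi : vmax w (fun i => f (x i)) = w (f (x i)) := by
    refine le_antisymm (vmax_le _ fun j => ?_) (le_vmax _ (fun i => f (x i)) i)
    have h1 : v (x j / x i) ≤ 1 := by
      rw [map_div₀, div_le_one₀ (zero_lt_iff.2 hvx)]
      exact hi j (Finset.mem_univ j)
    have h2 := (h _).1 h1
    rw [map_div₀, map_div₀, div_le_one₀ (zero_lt_iff.2 hwx)] at h2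
    exact h2
  rw [hvi] at hy
  have hy0 : v y ≠ 0 := (lt_of_lt_of_le (zero_lt_iff.2 (pow_ne_zero _ hvx)) hy).ne'
  have hyne : y ≠ 0 := (Valuation.ne_zero_iff _).1 hy0
  have hwy : w (f y) ≠ 0 := (Valuation.ne_zero_iff _).2 ((map_ne_zero f).2 hyne)
  rw [hwi]
  have h1 : v (x i ^ d / y) ≤ 1 := by
    rw [map_div₀, map_pow, div_le_one₀ (zero_lt_iff.2 hy0)]
    exact hy
  have h2 := (h _).1 h1
  rw [map_div₀, map_pow, map_div₀, map_pow, div_le_one₀ (zero_lt_iff.2 hwy)] at h2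
  exact h2

universe u v w

/-- **The theorem of McQuillan and Yamanoi for the limit curve.** -/
theorem limit_MYw {κ : Type u} {K : Type v} {Ω : Type w} [Field κ] [IsAlgClosed κ] [CharZero κ]
    [Field K] [Algebra κ K] [Field Ω] [Algebra K Ω] [Algebra κ Ω] [IsScalarTower κ K Ω]
    [IsAlgClosed Ω] [Algebra.IsAlgebraic K Ω] (hMY : MYP.{u, w} κ) (W : Tow κ K Ω)
    {E : ∀ N, IntermediateField (W.L N) Ω} [∀ N, FiniteDimensional (W.L N) (E N)] {c₀ : ℕ}
    (hE : ∀ N, finrank (W.L N) (E N) ≤ c₀) {M : IntermediateField W.F0 (UP Ω)}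
    [Algebra (RatFunc W.F0) M] [IsScalarTower W.F0 (RatFunc W.F0) M]
    [FiniteDimensional (RatFunc W.F0) M] (hM : ∀ u ∈ M, u ∈ tmE W E)
    {n : ℕ} {x : ∀ N, Fin (n + 1) → E N} {l : Fin (n + 1)} (hxl : ∀ N, x N l = 1)
    {γ : Fin (n + 1) → M} (hγ : ∀ i, (γ i : UP Ω) = germHom (fun N => (x N i : Ω)))
    (hγ0 : 0 < height W.F0 γ)
    {p : ℕ} {d : Fin p → ℕ} {y : Fin p → ∀ N, E N} {yg : Fin p → M}
    (hy : ∀ j, (yg j : UP Ω) = germHom (fun N => (y j N : Ω))) (hyne : ∀ j, yg j ≠ 0)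
    (B : Finset (Place W.F0 M))
    (hB : ∀ v ∈ B, ∀ j, v.1 (yg j) < vmax v.1 γ ^ d j)
    (Z : ∀ N, Finset (Place κ (E N)))
    (hZ : ∀ᶠ N in (Filter.hyperfilter ℕ : Filter ℕ), ∀ w : Place κ (E N), w ∉ Z N → ∃ j,
      vmax w.1 (x N) ^ d j ≤ w.1 (y j N)) {ε : ℝ} (hε : 0 < ε) :
    ∃ C : ℕ, ∀ᶠ N in (Filter.hyperfilter ℕ : Filter ℕ),
      ((ramDeg W.F0 M (RatFunc W.F0) : ℝ) - 2 * finrank (RatFunc W.F0) M + B.card - ε) *
        height κ (x N) ≤
      height W.F0 γ * ((Z N).card + ramDeg κ (E N) K) + C * W.T N := by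
  classical
  have hcΩ : CharZero Ω := charZero_of_injective_algebraMap (algebraMap κ Ω).injective
  have hMff : IsFF W.F0 M := isFF_of_ratFunc W.F0 M
  have hEF : ∀ N, IsFF κ (E N) := fun N => (W.ffL N).of_finite
  have hxne : ∀ N, x N ≠ 0 := fun N h0 => one_ne_zero ((hxl N).symm.trans (congrFun h0 l))
  have hγl : γ l = 1 := by
    apply Subtype.ext
    rw [hγ]
    have : (fun N => (x N l : Ω)) = 1 := funext fun N => by rw [hxl]; rfl
    rw [this, map_one]
    rfl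
  have hγne : γ ≠ 0 := fun h0 => one_ne_zero (hγl.symm.trans (congrFun h0 l))
  obtain ⟨X, q, β, Bt, hβ, hBBt, hBt, hX0, hHur⟩ := exists_targets (F := W.F0) (M := M) B
  -- the numbers
  obtain ⟨a, ha⟩ : ∃ a : ℝ, a = height W.F0 γ := ⟨_, rfl⟩
  obtain ⟨m, hm⟩ : ∃ m : ℝ, m = height W.F0 ![1, X] := ⟨_, rfl⟩
  have ha1 : 1 ≤ a := by
    rw [ha]
    exact_mod_cast hγ0
  have hm0 : 0 < m := by
    rw [hm]
    exact_mod_cast hX0
  have hHurR : (ramDeg W.F0 M (RatFunc W.F0) : ℝ) - 2 * finrank (RatFunc W.F0) M + Bt.card =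
      ((q : ℝ) - 2) * m := by
    rw [hm]
    exact_mod_cast hHur
  have hcardB : (B.card : ℝ) ≤ Bt.card := by exact_mod_cast Finset.card_le_card hBBt
  by_cases hq : q ≤ 2
  · refine ⟨0, Filter.Eventually.of_forall fun N => ?_⟩
    have h1 : (0 : ℝ) ≤ height κ (x N) := by exact_mod_cast (hEF N).height_nonneg (hxne N)
    have h2 : (q : ℝ) ≤ 2 := by exact_mod_cast hq
    have h3 : ((q : ℝ) - 2) * m ≤ 0 := mul_nonpos_of_nonpos_of_nonneg (by linarith) hm0.le
    have h4 : ((ramDeg W.F0 M (RatFunc W.F0) : ℝ) - 2 * finrank (RatFunc W.F0) M + B.card - ε) *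
        height κ (x N) ≤ 0 := mul_nonpos_of_nonpos_of_nonneg (by linarith) h1
    refine h4.trans ?_
    have h5 : (0 : ℝ) ≤ height W.F0 γ := by rw [← ha]; linarith
    positivity
  push Not at hq
  have hQ1 : (1 : ℝ) ≤ (q : ℝ) - 2 := by
    have : (3 : ℝ) ≤ q := by exact_mod_cast hq
    linarith
  -- the places over the targets
  obtain ⟨BB, hBB⟩ : ∃ BB : Finset {b // b ∈ Bt}, BB = Finset.univ.filter fun b => b.1 ∈ B :=
    ⟨_, rfl⟩
  obtain ⟨bt, hbt⟩ : ∃ bt : ℝ, bt = (BBᶜ).card := ⟨_, rfl⟩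
  have hbt0 : 0 ≤ bt := by rw [hbt]; positivity
  have hbt' : bt = Bt.card - B.card := by
    have h1 : BB.card = B.card := by
      have h2 : BB.image Subtype.val = B := by
        ext b
        constructor
        · intro hb
          obtain ⟨b', hb', rfl⟩ := Finset.mem_image.1 hb
          rw [hBB, Finset.mem_filter] at hb'
          exact hb'.2
        · intro hb
          refine Finset.mem_image.2 ⟨⟨b, hBBt hb⟩, ?_, rfl⟩
          rw [hBB, Finset.mem_filter]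
          exact ⟨Finset.mem_univ _, hb⟩
      rw [← h2, Finset.card_image_of_injective _ Subtype.val_injective]
    have h3 := Finset.card_add_card_compl BB
    rw [h1, Fintype.card_coe] at h3
    rw [hbt]
    have h4 : (B.card : ℝ) + (BBᶜ).card = Bt.card := by exact_mod_cast h3
    linarith
  obtain ⟨η, hη0, hη1, hη⟩ : ∃ η : ℝ, 0 < η ∧ η ≤ 1 ∧
      η * (m + ((q : ℝ) - 2) * m + bt) ≤ ε := by
    have h1 : 0 < m + ((q : ℝ) - 2) * m + bt := by
      have := mul_nonneg (by linarith : (0 : ℝ) ≤ (q : ℝ) - 2) hm0.le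
      linarith
    refine ⟨min 1 (ε / (m + ((q : ℝ) - 2) * m + bt)), lt_min one_pos (div_pos hε h1),
      min_le_left _ _, ?_⟩
    calc min 1 (ε / (m + ((q : ℝ) - 2) * m + bt)) * (m + ((q : ℝ) - 2) * m + bt)
        ≤ ε / (m + ((q : ℝ) - 2) * m + bt) * (m + ((q : ℝ) - 2) * m + bt) :=
          mul_le_mul_of_nonneg_right (min_le_right _ _) h1.le
      _ = ε := div_mul_cancel₀ _ h1.ne'
  -- the functions
  choose nn uu uu' hnn huu huu' hne hne' hht using fun b : Place W.F0 M => exists_nearC hMff b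
  have h1X : (![1, X] : Fin 2 → M) ≠ 0 := fun h0 => one_ne_zero (congrFun h0 0)
  have h1u : ∀ b, (![1, uu b] : Fin 2 → M) ≠ 0 := fun b h0 => one_ne_zero (congrFun h0 0)
  have hXβ : ∀ v, X ≠ algebraMap W.F0 M (β v) := by
    intro v h0
    rw [h0, height_one_const] at hX0
    exact lt_irrefl _ hX0
  -- the clauses
  obtain ⟨S1, hS1, hh1⟩ := height_compare (E := E) hMff hM hγne h1X hX0 hη0
  choose S2 hS2 hh2 using fun b : {b // b ∈ Bt} =>
    height_compare (E := E) hMff hM (h1u b.1) hγne hγ0 hη0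
  choose S3 hS3 hh3 using fun b : {b // b ∈ Bt} =>
    near_level (E := E) hMff (hnn b.1) (huu b.1) (huu' b.1) (hne b.1)
  choose S4 hS4 hh4 using fun v : Fin q =>
    meets_level (E := E) hMff (u := fun b : {b // b ∈ Bt} => uu b.1) (hXβ v) (fun w hw => by
      refine ⟨⟨w, (hBt w).2 ⟨v, hw⟩⟩, ?_⟩
      show 1 < w.1 (uu w)
      rw [huu, ← exp_zero, exp_lt_exp]
      exact_mod_cast hnn w)
  choose S5 hS5 hh5 using fun b : {b // b ∈ B} × Fin p =>
    bdry_level' (E := E) hMff (u := uu b.1.1) (d := d b.2) hγl (hyne b.2) (fun w hw => by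
      have hwb : w = b.1.1 := by
        by_contra hcon
        exact absurd (hne b.1.1 w hcon) (not_le.2 hw)
      rw [hwb]
      exact hB b.1.1 b.1.2 b.2)
  choose Sg hSg hgf using fun z : M => tmE_gf (hM z z.2)
  -- all the small germs
  obtain ⟨S, hSdef⟩ : ∃ S : Finset (UP Ω), S = S1 ∪ (Finset.univ.biUnion S2 ∪
      (Finset.univ.biUnion S3 ∪ (Finset.univ.biUnion S4 ∪ (Finset.univ.biUnion S5 ∪
      (Finset.univ.image (fun v => (β v : UP Ω)) ∪ (Sg X ∪
      (Finset.univ.biUnion (fun b : {b // b ∈ Bt} => Sg (uu b.1)) ∪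
      Finset.univ.biUnion fun b : {b // b ∈ Bt} => Sg (uu' b.1)))))))) := ⟨_, rfl⟩
  have hS : ∀ s ∈ S, s ∈ W.F0 := by
    intro s hs
    rw [hSdef] at hs
    simp only [Finset.mem_union, Finset.mem_biUnion, Finset.mem_image, Finset.mem_univ,
      true_and] at hs
    rcases hs with hs | ⟨b, hs⟩ | ⟨b, hs⟩ | ⟨v, hs⟩ | ⟨b, hs⟩ | ⟨v, rfl⟩ | hs | ⟨b, hs⟩ | ⟨b, hs⟩
    · exact hS1 s hs
    · exact hS2 b s hs
    · exact hS3 b s hs
    · exact hS4 v s hs
    · exact hS5 b s hs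
    · exact (β v).2
    · exact hSg _ s hs
    · exact hSg _ s hs
    · exact hSg _ s hs
  have i1 : S1 ⊆ S := fun s hs => by
    rw [hSdef]
    simp only [Finset.mem_union, Finset.mem_biUnion, Finset.mem_image, Finset.mem_univ, true_and]
    exact Or.inl hs
  have i2 : ∀ b, S2 b ⊆ S := fun b s hs => by
    rw [hSdef]
    simp only [Finset.mem_union, Finset.mem_biUnion, Finset.mem_image, Finset.mem_univ, true_and]
    exact Or.inr (Or.inl ⟨b, hs⟩)
  have i3 : ∀ b, S3 b ⊆ S := fun b s hs => by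
    rw [hSdef]
    simp only [Finset.mem_union, Finset.mem_biUnion, Finset.mem_image, Finset.mem_univ, true_and]
    exact Or.inr (Or.inr (Or.inl ⟨b, hs⟩))
  have i4 : ∀ b, S4 b ⊆ S := fun b s hs => by
    rw [hSdef]
    simp only [Finset.mem_union, Finset.mem_biUnion, Finset.mem_image, Finset.mem_univ, true_and]
    exact Or.inr (Or.inr (Or.inr (Or.inl ⟨b, hs⟩)))
  have i5 : ∀ b, S5 b ⊆ S := fun b s hs => by
    rw [hSdef]
    simp only [Finset.mem_union, Finset.mem_biUnion, Finset.mem_image, Finset.mem_univ, true_and]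
    exact Or.inr (Or.inr (Or.inr (Or.inr (Or.inl ⟨b, hs⟩))))
  have i6 : ∀ v, (β v : UP Ω) ∈ S := fun v => by
    rw [hSdef]
    simp only [Finset.mem_union, Finset.mem_biUnion, Finset.mem_image, Finset.mem_univ, true_and]
    exact Or.inr (Or.inr (Or.inr (Or.inr (Or.inr (Or.inl ⟨v, rfl⟩)))))
  have i7 : Sg X ⊆ S := fun s hs => by
    rw [hSdef]
    simp only [Finset.mem_union, Finset.mem_biUnion, Finset.mem_image, Finset.mem_univ, true_and]
    exact Or.inr (Or.inr (Or.inr (Or.inr (Or.inr (Or.inr (Or.inl hs))))))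
  have i8 : ∀ b : {b // b ∈ Bt}, Sg (uu b.1) ⊆ S := fun b s hs => by
    rw [hSdef]
    simp only [Finset.mem_union, Finset.mem_biUnion, Finset.mem_image, Finset.mem_univ, true_and]
    exact Or.inr (Or.inr (Or.inr (Or.inr (Or.inr (Or.inr (Or.inr (Or.inl ⟨b, hs⟩)))))))
  have i9 : ∀ b : {b // b ∈ Bt}, Sg (uu' b.1) ⊆ S := fun b s hs => by
    rw [hSdef]
    simp only [Finset.mem_union, Finset.mem_biUnion, Finset.mem_image, Finset.mem_univ, true_and]
    exact Or.inr (Or.inr (Or.inr (Or.inr (Or.inr (Or.inr (Or.inr (Or.inr ⟨b, hs⟩)))))))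
  -- the fields
  obtain ⟨Y, r, hr1, hr2⟩ := exists_FX E hE S hS
  have hR : Reps Y r S := fun s hs => ⟨hr1 s hs, Y.c, hr2 s hs⟩
  have hgfS : ∀ s ∈ S, s ∈ W.gf Y.F := fun s hs => ⟨r s, hr1 s hs⟩
  obtain ⟨Xr, hXr⟩ := hgf X Y.F Y.le fun s hs => hgfS s (i7 hs)
  choose ur hur using fun b : {b // b ∈ Bt} =>
    hgf (uu b.1) Y.F Y.le fun s hs => hgfS s (i8 b hs)
  choose ur' hur' using fun b : {b // b ∈ Bt} =>
    hgf (uu' b.1) Y.F Y.le fun s hs => hgfS s (i9 b hs)
  obtain ⟨γr, hγr'⟩ : ∃ γr : Fin (n + 1) → ∀ N, Y.F N,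
      γr = fun i N => IntermediateField.inclusion (Y.le N) (x N i) := ⟨_, rfl⟩
  have hγr : ∀ i, germHom (fun N => (γr i N : Ω)) = (γ i : UP Ω) := fun i => by
    rw [hγ, hγr']
    rfl
  obtain ⟨yr, hyr'⟩ : ∃ yr : Fin p → ∀ N, Y.F N,
      yr = fun j N => IntermediateField.inclusion (Y.le N) (y j N) :=
    ⟨_, rfl⟩
  have hyr : ∀ j, germHom (fun N => (yr j N : Ω)) = (yg j : UP Ω) := fun j => by
    rw [hy, hyr']
    rfl
  -- the heights
  obtain ⟨C1, hC1⟩ := hh1 Y r (hR.mono i1) γr ![fun _ => 1, Xr] hγr (by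
    intro i
    fin_cases i
    · exact map_one germHom
    · exact hXr)
  choose C2 hC2 using fun b : {b // b ∈ Bt} => hh2 b Y r (hR.mono (i2 b)) ![fun _ => 1, ur b] γr
    (by
      intro i
      fin_cases i
      · exact map_one germHom
      · exact hur b) hγr
  -- the errors
  choose δ3 hδ3 hd3 using fun b : {b // b ∈ Bt} => hh3 b Y r (hR.mono (i3 b))
  choose δ4 hδ4 hd4 using fun v : Fin q => hh4 v Y r (hR.mono (i4 v))
  choose δ5 hδ5 hd5 using fun b : {b // b ∈ B} × Fin p => hh5 b Y r (hR.mono (i5 b))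
  obtain ⟨δ, hδdef⟩ : ∃ δ : ∀ N, Place κ (Y.F N) → ℕ, δ = fun N w =>
      (∑ b, δ3 b N w + ∑ v, δ4 v N w) + ∑ b, δ5 b N w := ⟨_, rfl⟩
  have hδ : SmallE Y δ := by
    rw [hδdef]
    exact ((SmallE.finset_sum Finset.univ fun b _ => hδ3 b).add
      (SmallE.finset_sum Finset.univ fun v _ => hδ4 v)).add
      (SmallE.finset_sum Finset.univ fun b _ => hδ5 b)
  have hδ0 : ∀ N w, δ N w = 0 → (∀ b, δ3 b N w = 0) ∧ (∀ v, δ4 v N w = 0) ∧
      ∀ b, δ5 b N w = 0 := by
    intro N w h0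
    rw [hδdef] at h0
    have h1 : (∑ b, δ3 b N w + ∑ v, δ4 v N w) + ∑ b, δ5 b N w = 0 := h0
    obtain ⟨h2, h3⟩ := Nat.add_eq_zero_iff.1 h1
    obtain ⟨h4, h5⟩ := Nat.add_eq_zero_iff.1 h2
    exact ⟨fun b => Finset.sum_eq_zero_iff.1 h4 b (Finset.mem_univ b),
      fun b => Finset.sum_eq_zero_iff.1 h5 b (Finset.mem_univ b),
      fun b => Finset.sum_eq_zero_iff.1 h3 b (Finset.mem_univ b)⟩
  obtain ⟨C3, hC3⟩ := hδ.sum
  obtain ⟨CM, hCM⟩ := myk_of_myp hMY W.ff q hη0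
  -- the targets are distinct
  have hinj : ∀ᶠ N in (Filter.hyperfilter ℕ : Filter ℕ),
      Function.Injective fun v => r (β v : UP Ω) N := by
    have h1 : ∀ v v', ∀ᶠ N in (Filter.hyperfilter ℕ : Filter ℕ),
        r (β v : UP Ω) N = r (β v' : UP Ω) N → v = v' := by
      intro v v'
      by_cases hv : v = v'
      · exact Filter.Eventually.of_forall fun _ _ => hv
      · have h2 : ¬ ∀ᶠ N in (Filter.hyperfilter ℕ : Filter ℕ),
            (r (β v : UP Ω) N : Ω) = (r (β v' : UP Ω) N : Ω) := by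
          intro h3
          apply hv
          apply hβ
          apply Subtype.ext
          rw [← hr1 _ (i6 v), ← hr1 _ (i6 v')]
          exact (germHom_eq_iff _ _).2 h3
        filter_upwards [Ultrafilter.eventually_not.2 h2] with N h4 h5
        exact absurd (congrArg Subtype.val h5) h4
    filter_upwards [Filter.eventually_all.2 fun v => Filter.eventually_all.2 (h1 v)] with N hN
    exact fun v v' h => hN v v' h
  -- the constant
  obtain ⟨D, hD⟩ : ∃ D : ℝ, D = a * Y.c + (a * C3 + (∑ b : {b // b ∈ Bt}, (C2 b : ℝ)) +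
      a * (CM * (Y.c + q * Y.c)) + ((q : ℝ) - 2) * C1) := ⟨_, rfl⟩
  refine ⟨⌈D⌉₊, ?_⟩
  filter_upwards [hC1, Filter.eventually_all.2 hC2, hinj, hZ,
    Filter.eventually_all.2 fun b => hd3 b (ur b) (ur' b) (hur b) (hur' b),
    Filter.eventually_all.2 fun v => hd4 v ur Xr (r (β v : UP Ω)) hur hXr (hr1 _ (i6 v)),
    Filter.eventually_all.2 fun b : {b // b ∈ B} × Fin p => hd5 b (ur ⟨b.1.1, hBBt b.1.2⟩)
      (yr b.2) γr (hur ⟨b.1.1, hBBt b.1.2⟩) (hyr b.2) hγr] with N g1 g2 g3 g4 g5 g6 g7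
  have := W.fin N
  have := Y.fin N
  have hfK : FiniteDimensional K (Y.F N) := FiniteDimensional.trans K (W.L N) (Y.F N)
  have hYF : IsFF κ (Y.F N) := Y.ff N
  have hT0 : (0 : ℝ) ≤ W.T N := by positivity
  have e1 : (fun i => (![fun _ => 1, Xr] : Fin 2 → ∀ N, Y.F N) i N) = ![1, Xr N] := by
    funext i
    fin_cases i <;> rfl
  have e2 : ∀ b, (fun i => (![fun _ => 1, ur b] : Fin 2 → ∀ N, Y.F N) i N) = ![1, ur b N] := by
    intro b
    funext i
    fin_cases i <;> rfl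
  rw [e1, ← hm, ← ha] at g1
  -- the theorem of McQuillan and Yamanoi
  have k1 := hCM (Y.F N) (Xr N) (fun v => r (β v : UP Ω) N) g3
  obtain ⟨Z', hZ'1, hZ'2⟩ := exists_above_incl (κ := κ) (W.ffL N) (Y.le N) (Z N)
  have k2 := card_meets_le hYF (X := Xr N) (β := fun v => r (β v : UP Ω) N)
    (u := fun b : {b // b ∈ Bt} => ur b N) (n := fun b => nn b.1) (fun b => hnn b.1) BB (hδ.fin N) Z'
    (fun w hw v hv => g6 v w ((hδ0 N w hw).2.1 v) hv)
    (fun w hw b hb => g5 b w ((hδ0 N w hw).1 b) hb)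
    (fun w hw b hb hwb => by
      rw [hBB, Finset.mem_filter] at hb
      by_contra hcon
      obtain ⟨v, hvZ, hv⟩ := hZ'2 w hcon
      obtain ⟨jj, h1⟩ := g4 v hvZ
      have h2 := transfer_le (IntermediateField.inclusion (Y.le N)).toRingHom hv (hxne N) h1
      have h3 := g7 (⟨b.1, hb.2⟩, jj) w ((hδ0 N w hw).2.2 _) (by
        rw [hyr', hγr']
        exact h2)
      exact absurd h3 (not_le.2 hwb))
  -- the degrees
  have hdeg1 : (finrank K (Y.F N) : ℝ) ≤ Y.c * W.T N := by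
    have h1 : finrank K (Y.F N) ≤ Y.c * W.T N := by
      rw [← finrank_mul_finrank K (W.L N) (Y.F N), mul_comm]
      exact Nat.mul_le_mul (Y.deg N) (W.deg N)
    exact_mod_cast h1
  have hdeg2 : (∑ v, (height κ ![1, r (β v : UP Ω) N] : ℝ)) ≤ q * Y.c * W.T N := by
    have h1 : ∀ v ∈ (Finset.univ : Finset (Fin q)),
        (height κ ![1, r (β v : UP Ω) N] : ℝ) ≤ Y.c * W.T N := by
      intro v _
      exact_mod_cast hr2 _ (i6 v) N
    refine (Finset.sum_le_card_nsmul _ _ _ h1).trans (le_of_eq ?_)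
    rw [Finset.card_univ, Fintype.card_fin, nsmul_eq_mul]
    ring
  have hU : a * ∑ b ∈ BBᶜ, (height κ ![1, ur b N] : ℝ) / nn b.1 ≤
      bt * (1 + η) * height κ (fun i => γr i N) + (∑ b : {b // b ∈ Bt}, (C2 b : ℝ)) * W.T N := by
    have h1 : ∀ b ∈ BBᶜ, a * ((height κ ![1, ur b N] : ℝ) / nn b.1) ≤
        (1 + η) * height κ (fun i => γr i N) + C2 b * W.T N := by
      intro b _
      have h2 := g2 b
      rw [e2, hht, ← ha] at h2
      have h3 : (1 : ℝ) ≤ nn b.1 := by exact_mod_cast hnn b.1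
      have h4 : (0 : ℝ) ≤ height κ (fun i => γr i N) := by
        have h5 : (fun i => γr i N) ≠ 0 := by
          intro h0
          have h6 := congrFun h0 l
          rw [hγr'] at h6
          have h7 : IntermediateField.inclusion (Y.le N) (x N l) = 0 := h6
          rw [hxl, map_one] at h7
          exact one_ne_zero h7
        exact_mod_cast hYF.height_nonneg h5
      rw [mul_div_assoc', div_le_iff₀ (by linarith)]
      have h5 : (0 : ℝ) ≤ C2 b * W.T N := by positivity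
      have h6 : (((nn b.1 : ℕ) : ℤ) : ℝ) = nn b.1 := by norm_cast
      rw [h6] at h2
      refine h2.trans ?_
      have h7 : η * (height κ (fun i => γr i N) : ℝ) ≤
          η * (height κ (fun i => γr i N) : ℝ) * nn b.1 :=
        le_mul_of_one_le_right (mul_nonneg hη0.le h4) h3
      have h8 : (C2 b : ℝ) * W.T N ≤ C2 b * W.T N * nn b.1 := le_mul_of_one_le_right h5 h3
      linarith
    rw [Finset.mul_sum]
    refine (Finset.sum_le_sum h1).trans ?_
    rw [Finset.sum_add_distrib, Finset.sum_const, nsmul_eq_mul, ← hbt, Finset.sum_mul]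
    have h2 : ∑ b ∈ BBᶜ, (C2 b : ℝ) * W.T N ≤ ∑ b, (C2 b : ℝ) * W.T N :=
      Finset.sum_le_sum_of_subset_of_nonneg (Finset.subset_univ _) fun b _ _ => by positivity
    linarith
  have hδT : ((∑ᶠ w, δ N w : ℕ) : ℝ) ≤ C3 * W.T N := by exact_mod_cast hC3 N
  have hinc := height_incl (κ := κ) (W.ffL N) (Y.le N) (hxne N)
  have hγrN : (fun i => γr i N) = fun i => IntermediateField.inclusion (Y.le N) (x N i) := by
    rw [hγr']
  have hH' : (0 : ℝ) ≤ height κ (fun i => γr i N) := by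
    rw [hγrN]
    have h5 : (fun i => IntermediateField.inclusion (Y.le N) (x N i)) ≠ 0 := by
      intro h0
      have h7 : IntermediateField.inclusion (Y.le N) (x N l) = 0 := congrFun h0 l
      rw [hxl, map_one] at h7
      exact one_ne_zero h7
    exact_mod_cast hYF.height_nonneg h5
  have hee : finrank (W.L N) (E N) ≤ finrank (W.L N) (Y.F N) :=
    LinearMap.finrank_le_finrank_of_injective (f := (IntermediateField.inclusion
      (Y.le N)).toLinearMap) (IntermediateField.inclusion (Y.le N)).injective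
  have hfin := final_num (Q := (q : ℝ) - 2) (m := m) (a := a) (bt := bt) (η := η) (ε := ε)
    (T := W.T N) (e₀ := finrank (W.L N) (E N)) (e := finrank (W.L N) (Y.F N))
    (H := height κ (x N)) (H' := height κ (fun i => γr i N)) (h := height κ ![1, Xr N])
    (Z := (Z N).card) (Z' := Z'.card) (R := ramDeg κ (E N) K) (R' := ramDeg κ (Y.F N) K)
    (mt := Set.ncard {w : Place κ (Y.F N) | ∃ v, Meets w (Xr N) (r (β v : UP Ω) N)})
    (U := ∑ b ∈ BBᶜ, (height κ ![1, ur b N] : ℝ) / nn b.1)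
    (C₁ := C1) (C₂ := CM * (Y.c + q * Y.c)) (C₃ := C3) (C₄ := ∑ b : {b // b ∈ Bt}, (C2 b : ℝ))
    (c := Y.c) hQ1 hm0.le ha1 hbt0 hη0 hη1 hη hT0
    (by exact_mod_cast (finrank_pos : 0 < finrank (W.L N) (Y.F N)))
    (by exact_mod_cast (finrank_pos : 0 < finrank (W.L N) (E N)))
    (by exact_mod_cast hee) hH' (by positivity) (by positivity) (by positivity) (by positivity)
    (by positivity)
    (by
      rw [hγrN]
      exact_mod_cast hinc)
    (by exact_mod_cast hZ'1) (by exact_mod_cast Y.ram N) g1 (by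
      refine k1.trans ?_
      have h1 : (CM : ℝ) * ((finrank K (Y.F N) : ℝ) + ∑ v, (height κ ![1, r (β v : UP Ω) N] : ℝ)) ≤
          CM * (Y.c + q * Y.c) * W.T N := by
        rw [mul_assoc]
        refine mul_le_mul_of_nonneg_left ?_ (by positivity)
        linarith
      linarith) (by linarith) hU
  rw [← hD] at hfin
  have hk : (ramDeg W.F0 M (RatFunc W.F0) : ℝ) - 2 * finrank (RatFunc W.F0) M + B.card - ε =
      ((q : ℝ) - 2) * m - bt - ε := by
    rw [← hHurR, hbt']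
    ring
  rw [hk, ← ha]
  refine hfin.trans ?_
  have h1 : D * (W.T N : ℝ) ≤ (⌈D⌉₊ : ℝ) * W.T N :=
    mul_le_mul_of_nonneg_right (Nat.le_ceil _) hT0
  linarith

end Pool.Agent.Lib.MP_44a246_ntFB
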