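import Mathlib
import Pool.Agent.Lib.MP_44a246_nt.Defs

/-!
# Towers of families of curves: the definitions
-/

namespace Pool.Agent.Lib.MP_44a246_ntFB

open Pool.Agent.Lib.MP_44a246_nt
open WithZero MvPolynomial Module

/-- the point `(1 : x)` -/
def aff {τ L : Type*} [One L] (x : τ → L) : Option τ → L := fun o => o.elim 1 x

/-- the height of the point `(1 : x)` -/
noncomputable def hgt (κ : Type*) {τ L : Type*} [Field κ] [Field L] [Algebra κ L] [Fintype τ]
    (x : τ → L) : ℤ := height κ (aff x)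

/-- `c · deg ≤ 2g - 2 + #D` for the curve with the generic point `x₀` over the algebraic closure
`F` of `K(z₀)` in `Ω`, with the function field `M = F(x₀)`: `deg` is the degree of `x₀` (of the
point `(1 : x₀)` of a projective space), `g` is the genus (`2g - 2` is the degree of the
ramification over `F(t)` minus `2 [M : F(t)]`, for every `t` in `M` which is not in `F`), and `D`
is the set of the places at which `|H i (z₀, x₀)| < max (1, |x₀|) ^ (d i)` for all `i`. -/
def Slope (K : Type*) [Field K] {τ μ ι Ω : Type*} [Fintype μ] [Field Ω] [Algebra K Ω]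
    (z₀ : τ → Ω) (x₀ : μ → Ω) (H : ι → MvPolynomial (τ ⊕ μ) K) (d : ι → ℕ) (c : ℝ) : Prop :=
  ∀ (F : IntermediateField K Ω) (M : IntermediateField F Ω) [Algebra (RatFunc F) M]
    [IsScalarTower F (RatFunc F) M] [FiniteDimensional (RatFunc F) M] (x : μ → M) (h : ι → M),
    (∀ a : Ω, a ∈ F ↔ IsAlgebraic (IntermediateField.adjoin K (Set.range z₀)) a) →
    M = IntermediateField.adjoin F (Set.range x₀) → (∀ i, (x i : Ω) = x₀ i) →
    (∀ i, (h i : Ω) = aeval (Sum.elim z₀ x₀) (H i)) →
    c * hgt F x ≤ ramDeg F M (RatFunc F) - 2 * finrank (RatFunc F) M +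
      Set.ncard {v : Place F M | ∀ i, v.1 (h i) < vmax v.1 (aff x) ^ d i}

/-- The parameters `y` and the points `x 0, …, x (l - 1)`. -/
def low {σ L : Type*} {n : ℕ → ℕ} (y : σ → L) (x : ∀ l : ℕ, Fin (n l) → L) (l : ℕ) :
    σ ⊕ (Σ i : Fin l, Fin (n i)) → L := Sum.elim y fun q => x q.1 q.2

/-- The number of the places `w` of `L`, not over the set `S` of places of `K`, at which
`|H i (z, x)| < max (1, |x|) ^ (d i)` for all `i`. -/
noncomputable def meet (κ K : Type*) {L τ μ ι : Type*} [Field κ] [Field K] [Algebra κ K]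
    [Field L] [Algebra κ L] [Algebra K L] [Fintype μ] (H : ι → MvPolynomial (τ ⊕ μ) K)
    (d : ι → ℕ) (S : Set (Place κ K)) (z : τ → L) (x : μ → L) : ℕ :=
  Set.ncard {w : Place κ L | (∀ v ∈ S, ¬ (w.1.comap (algebraMap K L)).IsEquiv v.1) ∧
    ∀ i, w.1 (aeval (Sum.elim z x) (H i)) < vmax w.1 (aff x) ^ d i}

end Pool.Agent.Lib.MP_44a246_ntFB
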