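import Mathlib
import Pool.Agent.Lib.MP_44a246_ntFB.FB00
import Pool.Agent.Lib.MP_44a246_ntNC.NC08
import Pool.Agent.Lib.MP_44a246_ntSH.PJ02

/-!
# Towers of families of curves: algebra and heights
-/

namespace Pool.Agent.Lib.MP_44a246_ntFB

open Pool.Agent.Lib.MP_e52354_nt
open Pool.Agent.Lib.MP_44a246_nt
open Pool.Agent.Lib.MP_44a246_ntL
open Pool.Agent.Lib.MP_44a246_ntSH
open WithZero MvPolynomial Module

/-! ### Heights -/

theorem vmax_aff {L : Type*} [Field L] (v : Valuation L ℤᵐ⁰) {m : ℕ} (x : Fin m → L) :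
    vmax v (aff x) = vmax v (Fin.cons 1 x : Fin (m + 1) → L) := by
  apply le_antisymm
  · refine vmax_le v fun o => ?_
    cases o with
    | none => exact le_vmax v (Fin.cons 1 x : Fin (m + 1) → L) 0
    | some i => exact le_vmax v (Fin.cons 1 x : Fin (m + 1) → L) i.succ
  · refine vmax_le v fun i => ?_
    refine Fin.cases ?_ (fun i => ?_) i
    · exact le_vmax v (aff x) none
    · exact le_vmax v (aff x) (some i)

theorem hgt_eq {κ L : Type*} [Field κ] [Field L] [Algebra κ L] {m : ℕ} (x : Fin m → L) :
    hgt κ x = height κ (Fin.cons 1 x : Fin (m + 1) → L) := by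
  unfold hgt height
  exact finsum_congr fun w => by rw [vmax_aff]

theorem aff_ne_zero {τ L : Type*} [Field L] (x : τ → L) : aff x ≠ 0 := fun h0 =>
  one_ne_zero (α := L) (congrFun h0 none)

theorem one_le_vmax_aff {τ L : Type*} [Field L] [Fintype τ] (v : Valuation L ℤᵐ⁰) (x : τ → L) :
    1 ≤ vmax v (aff x) := by
  have h1 := le_vmax v (aff x) none
  have h2 : v (aff x none) = 1 := map_one v
  rwa [h2] at h1

theorem le_vmax_aff {τ L : Type*} [Field L] [Fintype τ] (v : Valuation L ℤᵐ⁰) (x : τ → L)
    (i : τ) : v (x i) ≤ vmax v (aff x) := le_vmax v (aff x) (some i)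

theorem vmax_aff_le {τ L : Type*} [Field L] [Fintype τ] (v : Valuation L ℤᵐ⁰) {x : τ → L}
    {b : ℤᵐ⁰} (h1 : 1 ≤ b) (h : ∀ i, v (x i) ≤ b) : vmax v (aff x) ≤ b := by
  refine vmax_le v fun o => ?_
  cases o with
  | none =>
    show v 1 ≤ b
    rwa [map_one]
  | some i => exact h i

section

variable {κ L : Type*} [Field κ] [IsAlgClosed κ] [CharZero κ] [Field L] [Algebra κ L]

theorem aff_support (h : IsFF κ L) {τ : Type*} [Fintype τ] (x : τ → L) :
    (Function.support fun w : Place κ L => log (vmax w.1 (aff x))).Finite :=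
  h.vmax_support (aff_ne_zero x)

theorem hgt_nonneg (h : IsFF κ L) {τ : Type*} [Fintype τ] (x : τ → L) : 0 ≤ hgt κ x :=
  h.height_nonneg (aff_ne_zero x)

theorem hgt_mono (h : IsFF κ L) {τ τ' : Type*} [Fintype τ] [Fintype τ'] {x : τ → L} {y : τ' → L}
    (hxy : ∀ w : Place κ L, vmax w.1 (aff x) ≤ vmax w.1 (aff y)) : hgt κ x ≤ hgt κ y := by
  refine finsum_mono (aff_support h x) (aff_support h y) fun w => ?_
  have h1 := one_le_vmax_aff w.1 x
  have h2 := one_le_vmax_aff w.1 y
  exact (log_le_log (lt_of_lt_of_le zero_lt_one h1).ne' (lt_of_lt_of_le zero_lt_one h2).ne').2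
    (hxy w)

theorem hgt_le_add (h : IsFF κ L) {τ τ' τ'' : Type*} [Fintype τ] [Fintype τ'] [Fintype τ'']
    {x : τ → L} {y : τ' → L} {z : τ'' → L}
    (hxy : ∀ w : Place κ L, vmax w.1 (aff x) ≤ vmax w.1 (aff y) * vmax w.1 (aff z)) :
    hgt κ x ≤ hgt κ y + hgt κ z := by
  have e1 : hgt κ y + hgt κ z =
      ∑ᶠ w : Place κ L, (log (vmax w.1 (aff y)) + log (vmax w.1 (aff z))) :=
    (finsum_add_distrib (aff_support h y) (aff_support h z)).symm
  rw [e1]
  refine finsum_mono (aff_support h x) (((aff_support h y).union (aff_support h z)).subset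
    (Function.support_add _ _)) fun w => ?_
  have h1 := (lt_of_lt_of_le zero_lt_one (one_le_vmax_aff w.1 x)).ne'
  have h2 := (lt_of_lt_of_le zero_lt_one (one_le_vmax_aff w.1 y)).ne'
  have h3 := (lt_of_lt_of_le zero_lt_one (one_le_vmax_aff w.1 z)).ne'
  rw [← log_mul h2 h3]
  exact (log_le_log h1 (mul_ne_zero h2 h3)).2 (hxy w)

theorem height_coord_le (h : IsFF κ L) {τ : Type*} [Fintype τ] (z : τ → L) (i : τ) :
    height κ ![1, z i] ≤ hgt κ z := by
  have h1 : (![1, z i] : Fin 2 → L) ≠ 0 := fun h0 => one_ne_zero (congrFun h0 0)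
  refine finsum_mono (h.vmax_support h1) (aff_support h z) fun w => ?_
  have h2 : vmax w.1 (![1, z i] : Fin 2 → L) ≠ 0 := by
    rw [Ne, vmax_eq_zero_iff]
    exact h1
  refine (log_le_log h2 (lt_of_lt_of_le zero_lt_one (one_le_vmax_aff w.1 z)).ne').2 ?_
  refine vmax_le w.1 fun j => ?_
  fin_cases j
  · show w.1 1 ≤ _
    rw [map_one]
    exact one_le_vmax_aff w.1 z
  · exact le_vmax_aff w.1 z i

end

/-! ### Algebraically dependent coordinates -/

theorem alg_of_dep {F U : Type*} [Field F] [Field U] [Algebra F U] {s t : U}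
    (hs : Transcendental F s) (h : ¬ AlgebraicIndependent F ![s, t]) :
    IsAlgebraic (IntermediateField.adjoin F {s}) t := by
  by_contra hcon
  apply h
  have hr : Set.range (fun _ : Unit => s) = {s} := by
    ext z
    simp [eq_comm]
  have h1 : Transcendental (Algebra.adjoin F (Set.range (fun _ : Unit => s))) t := by
    rw [hr]
    exact IntermediateField.transcendental_adjoin_iff.1 hcon
  have h2 : AlgebraicIndependent F (fun _ : Unit => s) :=
    algebraicIndependent_unique_type_iff.2 hs
  have h3 := (h2.option_iff_transcendental t).2 h1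
  have h4 := h3.comp (![some (), none] : Fin 2 → Option Unit) (by
    intro i j hij
    fin_cases i <;> fin_cases j <;> simp_all)
  have h5 : ((fun o : Option Unit => o.elim t fun _ => s) ∘
      (![some (), none] : Fin 2 → Option Unit)) = ![s, t] := by
    funext i
    fin_cases i <;> rfl
  rwa [h5] at h4

/-- the field generated by elements algebraic over the field generated by one of them -/
theorem isFF_of_alg {F U : Type*} [Field F] [IsAlgClosed F] [CharZero F] [Field U]
    [Algebra F U] {n : ℕ} {xg : Fin n → U} {jn : Fin n} (ht : Transcendental F (xg jn))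
    (halg : ∀ j, IsAlgebraic (IntermediateField.adjoin F {xg jn}) (xg j)) :
    IsFF F (IntermediateField.adjoin F (Set.range xg)) := by
  classical
  obtain ⟨M₀, hM₀⟩ : ∃ M₀ : IntermediateField F U,
      M₀ = IntermediateField.adjoin F {xg jn} := ⟨_, rfl⟩
  rw [← hM₀] at halg
  have htM : xg jn ∈ M₀ := by
    rw [hM₀]
    exact IntermediateField.mem_adjoin_simple_self F _
  have hFF : IsFF F M₀ := by
    obtain ⟨t', ht'⟩ : ∃ t' : M₀, t' = ⟨xg jn, htM⟩ := ⟨_, rfl⟩
    have htop : IntermediateField.adjoin F {t'} = ⊤ := by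
      rw [eq_top_iff]
      intro z _
      have h1 : IntermediateField.map M₀.val (IntermediateField.adjoin F {t'}) =
          IntermediateField.adjoin F {xg jn} := by
        rw [IntermediateField.adjoin_map, Set.image_singleton, ht']
        rfl
      have h2 : (z : U) ∈ IntermediateField.map M₀.val (IntermediateField.adjoin F {t'}) := by
        rw [h1, ← hM₀]
        exact z.2
      obtain ⟨z', hz', hzz⟩ := h2
      have h3 : z' = z := Subtype.ext hzz
      rw [← h3]
      exact hz'
    refine ⟨t', ?_, ?_⟩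
    · intro h1
      have h2 := h1.algebraMap (A := U)
      rw [ht'] at h2
      exact ht h2
    · rw [htop]
      exact Module.finite_of_finrank_pos (by
        rw [IntermediateField.finrank_top]
        exact one_pos)
  have hfin : FiniteDimensional M₀ (IntermediateField.adjoin M₀ (Set.range xg)) := by
    have : Finite (Set.range xg) := Set.finite_range _
    refine IntermediateField.finiteDimensional_adjoin fun z hz => ?_
    obtain ⟨j, rfl⟩ := hz
    exact (halg j).isIntegral
  have heq : IntermediateField.adjoin F (Set.range xg) =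
      (IntermediateField.adjoin M₀ (Set.range xg)).restrictScalars F := by
    apply le_antisymm
    · rw [IntermediateField.adjoin_le_iff]
      intro z hz
      exact IntermediateField.subset_adjoin M₀ _ hz
    · intro z hz
      rw [IntermediateField.mem_restrictScalars] at hz
      have hle : M₀ ≤ IntermediateField.adjoin F (Set.range xg) := by
        rw [hM₀, IntermediateField.adjoin_simple_le_iff]
        exact IntermediateField.subset_adjoin _ _ ⟨jn, rfl⟩
      induction hz using IntermediateField.adjoin_induction with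
      | mem z hz => exact IntermediateField.subset_adjoin _ _ hz
      | algebraMap z => exact hle z.2
      | add z z' _ _ h h' => exact add_mem h h'
      | inv z _ h => exact inv_mem h
      | mul z z' _ _ h h' => exact mul_mem h h'
  rw [heq]
  let iA : Algebra M₀ ((IntermediateField.adjoin M₀ (Set.range xg)).restrictScalars F) :=
    inferInstanceAs (Algebra M₀ (IntermediateField.adjoin M₀ (Set.range xg)))
  have t1 : IsScalarTower F M₀ ((IntermediateField.adjoin M₀ (Set.range xg)).restrictScalars F) :=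
    IsScalarTower.of_algebraMap_eq fun u => rfl
  have f1 : FiniteDimensional M₀
    ((IntermediateField.adjoin M₀ (Set.range xg)).restrictScalars F) := hfin
  exact IsFF.of_finite (K := M₀) hFF

/-- the field generated by a family is generated by the family -/
theorem adjoin_range_top {F U : Type*} [Field F] [Field U] [Algebra F U] {n : ℕ} {xg : Fin n → U}
    {M : IntermediateField F U} (hM : M = IntermediateField.adjoin F (Set.range xg))
    {γ : Fin n → M} (hγ : ∀ j, (γ j : U) = xg j) :
    IntermediateField.adjoin F (Set.range γ) = ⊤ := by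
  rw [eq_top_iff]
  intro z _
  have h1 : IntermediateField.map M.val (IntermediateField.adjoin F (Set.range γ)) =
      IntermediateField.adjoin F (Set.range xg) := by
    rw [IntermediateField.adjoin_map, ← Set.range_comp]
    congr 2
    exact funext hγ
  have h2 : (z : U) ∈ IntermediateField.map M.val (IntermediateField.adjoin F (Set.range γ)) := by
    rw [h1, ← hM]
    exact z.2
  obtain ⟨z', hz', hzz⟩ := h2
  have h3 : z' = z := Subtype.ext hzz
  rw [← h3]
  exact hz'

/-- a polynomial relation with polynomial coefficients -/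
theorem exists_rel {k E τ : Type*} {m : ℕ} [Field k] [Field E] [Algebra k E] {z₀ : τ → E}
    {x₀ : Fin m → E} {i j : Fin m}
    (h : ¬ AlgebraicIndependent (IntermediateField.adjoin k (Set.range z₀)) ![x₀ i, x₀ j]) :
    ∃ g : MvPolynomial (Fin 2) (MvPolynomial τ k), (∃ J, aeval z₀ (g.coeff J) ≠ 0) ∧
      eval ![x₀ i, x₀ j] (g.map (aeval z₀ : MvPolynomial τ k →ₐ[k] E).toRingHom) = 0 := by
  classical
  rw [algebraicIndependent_iff] at h
  push Not at h
  obtain ⟨Q, hQ, hQ0⟩ := h
  have hq : ∀ J, ∃ r s : MvPolynomial τ k, aeval z₀ s ≠ 0 ∧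
      ((Q.coeff J : IntermediateField.adjoin k (Set.range z₀)) : E) = aeval z₀ r / aeval z₀ s := by
    intro J
    obtain ⟨r, s, hrs⟩ := (IntermediateField.mem_adjoin_range_iff k z₀ _).1 (Q.coeff J).2
    by_cases hs : aeval z₀ s = 0
    · refine ⟨0, 1, ?_, ?_⟩
      · rw [map_one]
        exact one_ne_zero
      · rw [hrs, hs, div_zero, map_zero, zero_div]
    · exact ⟨r, s, hs, hrs⟩
  choose r s hs hrs using hq
  obtain ⟨c, hc⟩ : ∃ c : E, c = ∏ J ∈ Q.support, aeval z₀ (s J) := ⟨_, rfl⟩
  have hc0 : c ≠ 0 := by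
    rw [hc]
    exact Finset.prod_ne_zero_iff.2 fun J _ => hs J
  obtain ⟨g, hg⟩ : ∃ g : MvPolynomial (Fin 2) (MvPolynomial τ k),
      g = ∑ J ∈ Q.support, monomial J (r J * ∏ J' ∈ Q.support.erase J, s J') := ⟨_, rfl⟩
  have hgc : ∀ J, aeval z₀ (g.coeff J) =
      c * ((Q.coeff J : IntermediateField.adjoin k (Set.range z₀)) : E) := by
    intro J
    rw [hg, coeff_sum]
    simp only [coeff_monomial]
    rw [Finset.sum_ite_eq']
    split_ifs with hJ
    · rw [map_mul, map_prod, hc, ← Finset.mul_prod_erase _ _ hJ, hrs]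
      have h2 := hs J
      field_simp
    · rw [notMem_support_iff.1 hJ, map_zero, ZeroMemClass.coe_zero, mul_zero]
  refine ⟨g, ?_, ?_⟩
  · obtain ⟨J, hJ⟩ := MvPolynomial.ne_zero_iff.1 hQ0
    refine ⟨J, ?_⟩
    rw [hgc]
    exact mul_ne_zero hc0 fun h0 => hJ (Subtype.ext h0)
  · have h1 : g.map (aeval z₀ : MvPolynomial τ k →ₐ[k] E).toRingHom =
        C c * Q.map (algebraMap (IntermediateField.adjoin k (Set.range z₀)) E) := by
      ext J
      rw [coeff_map, coeff_C_mul, coeff_map]
      exact hgc J
    rw [h1, map_mul, eval_map]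
    have h2 : eval₂ (algebraMap (IntermediateField.adjoin k (Set.range z₀)) E) ![x₀ i, x₀ j] Q =
        0 := hQ
    rw [h2, mul_zero]

/-! ### Germs -/

/-- the value at a germ -/
theorem aeval_germ {k Ω σ : Type*} [Field k] [Field Ω] [Algebra k Ω] [Algebra k (UP Ω)]
    (hk : ∀ c : k, algebraMap k (UP Ω) c = constHom (algebraMap k Ω c)) (Y : ℕ → σ → Ω)
    (Q : MvPolynomial σ k) : aeval (fun s => (germHom (fun N => Y N s) : UP Ω)) Q =
      germHom (fun N => aeval (Y N) Q) := by
  induction Q using MvPolynomial.induction_on with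
  | C a =>
    rw [aeval_C, hk]
    have : (fun N => aeval (Y N) (C a : MvPolynomial σ k)) = fun _ => algebraMap k Ω a := by
      funext N
      rw [aeval_C]
    rw [this]
    rfl
  | add P Q hP hQ =>
    rw [map_add, hP, hQ, ← map_add]
    congr 1
    funext N
    rw [map_add]
    rfl
  | mul_X P s hP =>
    rw [map_mul, hP, aeval_X, ← map_mul]
    congr 1
    funext N
    rw [map_mul, aeval_X]
    rfl

end Pool.Agent.Lib.MP_44a246_ntFB
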