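import Mathlib
import Pool.Agent.Lib.MP_44a246_ntFB.FB02
import Pool.Agent.Lib.MP_44a246_ntMB.MB30
import Pool.Agent.Lib.MP_44a246_ntCE.CE30

/-!
# The inequality of a function field and the extension of the constants
-/

namespace Pool.Agent.Lib.MP_44a246_ntFB

open Pool.Agent.Lib.MP_44a246_nt
open Pool.Agent.Lib.MP_44a246_ntL
open Pool.Agent.Lib.MP_44a246_ntR
open Pool.Agent.Lib.MP_44a246_ntCE
open Pool.Agent.Lib.MP_44a246_ntMY
open Pool.Agent.Lib.MP_44a246_ntMB
open WithZero MvPolynomial Module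

universe v

/-- The point `(z, x)`, with coordinates in an extension field of `k`, has the same polynomial
relations over `k` as `(z₀, x₀)`. -/
def SameRel (k : Type*) {τ μ E L : Type*} [Field k] [Field E] [Algebra k E] [Field L] [Algebra k L]
    (z₀ : τ → E) (x₀ : μ → E) (z : τ → L) (x : μ → L) : Prop :=
  ∀ Q : MvPolynomial (τ ⊕ μ) k, aeval (Sum.elim z₀ x₀) Q = 0 ↔ aeval (Sum.elim z x) Q = 0

/-- (polynomials over a subfield `k`) The number of the places `w` of `L`, not over the set `S` of places of `K`, at which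
`|H i (z, x)| < max (1, |x|) ^ (d i)` for all `i`. -/
noncomputable def meetk (κ K : Type*) {k L τ μ ι : Type*} [Field κ] [Field K] [Algebra κ K]
    [Field k] [Field L] [Algebra κ L] [Algebra K L] [Algebra k L] [Fintype μ]
    (H : ι → MvPolynomial (τ ⊕ μ) k) (d : ι → ℕ) (S : Set (Place κ K)) (z : τ → L) (x : μ → L) :
    ℕ :=
  Set.ncard {w : Place κ L | (∀ v ∈ S, ¬ (w.1.comap (algebraMap K L)).IsEquiv v.1) ∧
    ∀ i, w.1 (aeval (Sum.elim z x) (H i)) < vmax w.1 (aff x) ^ d i}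

/-- `c · deg ≤ 2g - 2 + #D` for the function field `M` over `F`, computed with the function `t` -/
def SLX (F : Type*) {M μ ι : Type*} [Field F] [Field M] [Algebra F M] [Fintype μ] (t : M)
    (x : μ → M) (u : ι → M) (d : ι → ℕ) (c : ℝ) : Prop :=
  ∃ (_ : Algebra (RatFunc F) M) (_ : IsScalarTower F (RatFunc F) M)
    (_ : FiniteDimensional (RatFunc F) M), algebraMap (RatFunc F) M RatFunc.X = t ∧
    c * hgt F x ≤ ramDeg F M (RatFunc F) - 2 * finrank (RatFunc F) M +
      Set.ncard {v : Place F M | ∀ i, v.1 (u i) < vmax v.1 (aff x) ^ d i}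

/-- `c · deg ≤ 2g - 2 + #D` for all models of the geometric generic fibre -/
def SlopeJ (k : Type*) [Field k] {τ μ ι E : Type*} [Fintype μ] [Field E] [Algebra k E]
    (z₀ : τ → E) (x₀ : μ → E) (H : ι → MvPolynomial (τ ⊕ μ) k) (d : ι → ℕ) (c : ℝ) : Prop :=
  ∀ (F M : Type v) [Field F] [IsAlgClosed F] [Algebra k F] [Field M] [Algebra F M]
    [Algebra k M] [IsScalarTower k F M] (z : τ → F) (x : μ → M) (j : μ),
    SameRel k z₀ x₀ (fun i => algebraMap F M (z i)) x →
    IntermediateField.adjoin F (Set.range x) = ⊤ → Transcendental F (x j) →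
    SLX F (x j) x (fun i => aeval (Sum.elim (fun i => algebraMap F M (z i)) x) (H i)) d c

variable {κ₀ κ' L₀ L' : Type*} [Field κ₀] [IsAlgClosed κ₀] [CharZero κ₀] [Field κ'] [IsAlgClosed κ']
  [CharZero κ'] [Field L₀] [Field L'] [Algebra κ₀ κ'] [Algebra κ₀ L₀] [Algebra κ' L']
  [Algebra L₀ L'] [Algebra κ₀ L'] [IsScalarTower κ₀ κ' L'] [IsScalarTower κ₀ L₀ L']

theorem aff_alg {μ : Type*} (x : μ → L₀) : aff (fun i => algebraMap L₀ L' (x i)) =
    fun o => algebraMap L₀ L' (aff x o) := by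
  funext o
  cases o with
  | none => exact (map_one _).symm
  | some i => rfl

theorem ce_hgt (h : IsCE κ₀ κ' L₀ L') {μ : Type*} [Fintype μ] (x : μ → L₀) :
    hgt κ' (fun i => algebraMap L₀ L' (x i)) = hgt κ₀ x := by
  unfold hgt
  rw [aff_alg]
  exact h.height_eq (aff_ne_zero x)

theorem ce_ncard (h : IsCE κ₀ κ' L₀ L') {μ ι : Type*} [Fintype μ] (x : μ → L₀) {u : ι → L₀}
    {i₀ : ι} (hu : u i₀ ≠ 0) (d : ι → ℕ) :
    Set.ncard {w : Place κ' L' | ∀ i, w.1 (algebraMap L₀ L' (u i)) <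
        vmax w.1 (aff (fun i => algebraMap L₀ L' (x i))) ^ d i} =
      Set.ncard {v : Place κ₀ L₀ | ∀ i, v.1 (u i) < vmax v.1 (aff x) ^ d i} := by
  obtain ⟨ext, hinj, hext, hdich⟩ := h.exists_ext
  have hv : ∀ v : Place κ₀ L₀, vmax (ext v).1 (aff (fun i => algebraMap L₀ L' (x i))) =
      vmax v.1 (aff x) := by
    intro v
    rw [aff_alg]
    unfold vmax
    exact Finset.sup_congr rfl fun o _ => hext v (aff x o)
  have h1 : {w : Place κ' L' | ∀ i, w.1 (algebraMap L₀ L' (u i)) <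
        vmax w.1 (aff (fun i => algebraMap L₀ L' (x i))) ^ d i} =
      ext '' {v : Place κ₀ L₀ | ∀ i, v.1 (u i) < vmax v.1 (aff x) ^ d i} := by
    ext w
    constructor
    · intro hw
      rcases hdich w with ⟨w₀, rfl⟩ | h2
      · refine ⟨w₀, fun i => ?_, rfl⟩
        have h3 := hw i
        rwa [hext, hv] at h3
      · exfalso
        have h3 := hw i₀
        rw [h2 _ hu, aff_alg] at h3
        have h4 : vmax w.1 (fun o => algebraMap L₀ L' (aff x o)) ≤ 1 := by
          refine vmax_le w.1 fun o => ?_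
          by_cases h0 : aff x o = 0
          · rw [h0, map_zero, map_zero]
            exact zero_le_one
          · exact (h2 _ h0).le
        exact absurd h3 (not_lt.2 (pow_le_one₀ zero_le h4))
    · rintro ⟨w₀, hw, rfl⟩ i
      rw [hext, hv]
      exact hw i
  rw [h1, Set.ncard_image_of_injective _ hinj]

/-- the inequality is compatible with the extension of the constants -/
theorem ce_slx (h : IsCE κ₀ κ' L₀ L') {μ ι : Type*} [Fintype μ] {t : L₀}
    (ht : Transcendental κ' (algebraMap L₀ L' t)) (x : μ → L₀) {u : ι → L₀}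
    {i₀ : ι} (hu : u i₀ ≠ 0) (d : ι → ℕ) (c : ℝ) :
    SLX κ₀ t x u d c ↔ SLX κ' (algebraMap L₀ L' t) (fun i => algebraMap L₀ L' (x i))
      (fun i => algebraMap L₀ L' (u i)) d c := by
  have ht₀ : Transcendental κ₀ t := by
    intro h0
    apply ht
    have h1 : IsAlgebraic κ₀ (algebraMap L₀ L' t) := h0.algebraMap
    exact h1.extendScalars (algebraMap κ₀ κ').injective
  constructor
  · rintro ⟨i1, i2, i3, hX, hin⟩
    obtain ⟨j1, j2, j3, hX'⟩ := exists_ratStruct h.isFF ht
    have hXX : algebraMap L₀ L' (algebraMap (RatFunc κ₀) L₀ RatFunc.X) =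
      algebraMap (RatFunc κ') L' RatFunc.X := by rw [hX, hX']
    refine ⟨j1, j2, j3, hX', ?_⟩
    rw [ce_hgt h, ce_ncard h x hu, h.ramDeg_eq hXX, h.finrank_eq hXX]
    exact hin
  · rintro ⟨j1, j2, j3, hX', hin⟩
    obtain ⟨i1, i2, i3, hX⟩ := exists_ratStruct h.ff ht₀
    have hXX : algebraMap L₀ L' (algebraMap (RatFunc κ₀) L₀ RatFunc.X) =
      algebraMap (RatFunc κ') L' RatFunc.X := by rw [hX, hX']
    refine ⟨i1, i2, i3, hX, ?_⟩
    rw [ce_hgt h, ce_ncard h x hu, h.ramDeg_eq hXX, h.finrank_eq hXX] at hin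
    exact hin

end Pool.Agent.Lib.MP_44a246_ntFB
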