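import Mathlib
import Pool.Agent.Lib.MP_44a246_ntFB.FB01
import Pool.Agent.Lib.MP_44a246_ntFB.FB10

/-!
# Families of curves: no generic sequence of counterexamples
-/

namespace Pool.Agent.Lib.MP_44a246_ntFB

open Pool.Agent.Lib.MP_e52354_nt
open Pool.Agent.Lib.MP_44a246_nt
open Pool.Agent.Lib.MP_44a246_ntL
open Pool.Agent.Lib.MP_44a246_ntR
open Pool.Agent.Lib.MP_44a246_ntSH
open Pool.Agent.Lib.MP_44a246_ntSF
open Pool.Agent.Lib.MP_44a246_ntTM
open Pool.Agent.Lib.MP_44a246_ntMY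
open WithZero MvPolynomial Module

universe u v

/-- polynomials with polynomial coefficients -/
theorem aeval_flat {k L τ μ ι : Type*} [Field k] [Field L] [Algebra k L]
    (g : MvPolynomial ι (MvPolynomial τ k)) (q : ι → μ) (z : τ → L) (x : μ → L) :
    aeval (Sum.elim z x) (g.eval₂ (rename Sum.inl : MvPolynomial τ k →ₐ[k]
      MvPolynomial (τ ⊕ μ) k).toRingHom (fun t => X (Sum.inr (q t)))) =
      eval (fun t => x (q t)) (g.map (aeval z : MvPolynomial τ k →ₐ[k] L).toRingHom) := by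
  rw [eval_map]
  have h1 := eval₂_comp_left (aeval (Sum.elim z x) : MvPolynomial (τ ⊕ μ) k →ₐ[k] L).toRingHom
    (rename Sum.inl : MvPolynomial τ k →ₐ[k] MvPolynomial (τ ⊕ μ) k).toRingHom
    (fun t => X (Sum.inr (q t))) g
  refine h1.trans ?_
  have h2 : ((aeval (Sum.elim z x) : MvPolynomial (τ ⊕ μ) k →ₐ[k] L).toRingHom.comp
      (rename Sum.inl : MvPolynomial τ k →ₐ[k] MvPolynomial (τ ⊕ μ) k).toRingHom) =
      (aeval z : MvPolynomial τ k →ₐ[k] L).toRingHom := by
    refine RingHom.ext fun P => ?_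
    show aeval (Sum.elim z x) (rename Sum.inl P) = aeval z P
    rw [aeval_rename]
    rfl
  rw [h2]
  congr 1
  funext t
  show aeval (Sum.elim z x) (X (Sum.inr (q t))) = x (q t)
  rw [aeval_X]
  rfl

/-- **No generic sequence of counterexamples.** -/
theorem seq_false {κ : Type u} {K : Type v} {Ω : Type v} [Field κ] [IsAlgClosed κ]
    [CharZero κ] [Field K] [Algebra κ K] [Field Ω] [CharZero Ω] [Algebra K Ω] [Algebra κ Ω]
    [IsScalarTower κ K Ω] [IsAlgClosed Ω] [Algebra.IsAlgebraic K Ω] (hK : IsFF κ K)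
    (hMY : MYP.{u, v} κ) {k τ E₀ : Type*} [Field k] [Algebra k K] [Algebra k Ω]
    [IsScalarTower k K Ω] [Fintype τ] [Field E₀] [Algebra k E₀] {m p r : ℕ}
    {z₀ : τ → E₀} {x₀ : Fin m → E₀}
    (hdim : ∀ i j, ¬ AlgebraicIndependent (IntermediateField.adjoin k (Set.range z₀))
      ![x₀ i, x₀ j])
    {H : Fin (p + 1) → MvPolynomial (τ ⊕ Fin m) k} {d : Fin (p + 1) → ℕ}
    (hH0 : ∀ i, aeval (Sum.elim z₀ x₀) (H i) ≠ 0) {c ε : ℝ} (hε : 0 < ε)
    (hc : SlopeJ.{v} k z₀ x₀ H d c)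
    {E : ℕ → IntermediateField (⊥ : IntermediateField K Ω) Ω}
    (hEf : ∀ N, FiniteDimensional (⊥ : IntermediateField K Ω) (E N))
    (hEr : ∀ N, finrank (⊥ : IntermediateField K Ω) (E N) ≤ r)
    {z : ∀ N, τ → E N} {x : ∀ N, Fin m → E N} {y : Fin (p + 1) → ∀ N, E N}
    (hspec : ∀ Q : MvPolynomial (τ ⊕ Fin m) k, aeval (Sum.elim z₀ x₀) Q = 0 → ∀ N,
      aeval (Sum.elim (fun i => (z N i : Ω)) (fun i => (x N i : Ω))) Q = 0)
    (hgen : ∀ Q : MvPolynomial (τ ⊕ Fin m) k, aeval (Sum.elim z₀ x₀) Q ≠ 0 → ∃ N₀, ∀ N ≥ N₀,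
      aeval (Sum.elim (fun i => (z N i : Ω)) (fun i => (x N i : Ω))) Q ≠ 0)
    (hy : ∀ j N, (y j N : Ω) =
      aeval (Sum.elim (fun i => (z N i : Ω)) (fun i => (x N i : Ω))) (H j))
    {T : ℕ → ℕ} (hT1 : ∀ N, 1 ≤ T N) (hTz : ∀ N, hgt κ (z N) ≤ (T N : ℤ))
    {S : ∀ N, Finset (Place κ (E N))}
    (hS : ∀ N, ∀ w : Place κ (E N), w ∉ S N → ∃ j, vmax w.1 (aff (x N)) ^ d j ≤ w.1 (y j N))
    (hlarge : ∀ N : ℕ, (N : ℝ) * T N + ramDeg κ (E N) K + (S N).card <
      (c - ε) * hgt κ (x N)) :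
    False := by
  classical
  -- the tower
  let T₀ : ℕ := finrank K (⊥ : IntermediateField K Ω) + ramDeg κ (⊥ : IntermediateField K Ω) K
  have hT₀ : 1 ≤ T₀ := by
    have h1 : 0 < finrank K (⊥ : IntermediateField K Ω) := Module.finrank_pos
    exact Nat.le_add_right_of_le h1
  let W : Tow κ K Ω := {
    L := fun _ => ⊥
    T := fun N => T₀ * T N
    ff := hK
    fin := fun _ => inferInstance
    one_le := fun N => Nat.mul_pos hT₀ (hT1 N)
    deg := fun N => (Nat.le_add_right _ _).trans (Nat.le_mul_of_pos_right T₀ (hT1 N))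
    ram := fun N => (Nat.le_add_left _ _).trans (Nat.le_mul_of_pos_right T₀ (hT1 N)) }
  have hWT : ∀ N, W.T N = T₀ * T N := fun _ => rfl
  have hTW : ∀ N, (T N : ℤ) ≤ (W.T N : ℤ) := by
    intro N
    rw [hWT]
    exact_mod_cast Nat.le_mul_of_pos_left (T N) hT₀
  have hcUP : CharZero (UP Ω) := charZero_of_injective_ringHom (constHom (L := Ω)).injective
  have hff : ∀ N, IsFF κ (E N) := fun N => (W.ffL N).of_finite
  have hh0 : ∀ N, (0 : ℝ) ≤ hgt κ (x N) := fun N => by
    exact_mod_cast hgt_nonneg (hff N) (x N)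
  have hT0 : ∀ N, (1 : ℝ) ≤ T N := fun N => by exact_mod_cast hT1 N
  obtain ⟨θ, hθ⟩ : ∃ θ : ℝ, θ = c - ε := ⟨_, rfl⟩
  rw [← hθ] at hlarge
  have hθ0 : 0 ≤ θ := by
    by_contra hcon
    push Not at hcon
    have h1 := hlarge 0
    have h2 : θ * (hgt κ (x 0) : ℝ) ≤ 0 := mul_nonpos_of_nonpos_of_nonneg hcon.le (hh0 0)
    have h3 : (0 : ℝ) ≤ ramDeg κ (E 0) K := Nat.cast_nonneg _
    have h4 : (0 : ℝ) ≤ (S 0).card := Nat.cast_nonneg _
    rw [Nat.cast_zero, zero_mul] at h1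
    linarith
  have hbig : ∀ C : ℕ, ¬ ∀ᶠ N in (Filter.hyperfilter ℕ : Filter ℕ),
      hgt κ (x N) ≤ C * (W.T N : ℤ) := by
    intro C' hC'
    obtain ⟨M, hM⟩ := exists_nat_gt (θ * (C' * T₀))
    obtain ⟨N, hN1, hN2⟩ := (hC'.and (Filter.Eventually.filter_mono
      Nat.hyperfilter_le_atTop (Filter.eventually_ge_atTop M))).exists
    have h1 := hlarge N
    have h3 : (hgt κ (x N) : ℝ) ≤ C' * (T₀ * T N) := by
      rw [hWT] at hN1
      exact_mod_cast hN1
    have h4 : θ * hgt κ (x N) ≤ θ * (C' * (T₀ * T N)) := mul_le_mul_of_nonneg_left h3 hθ0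
    have h5 : (M : ℝ) ≤ N := by exact_mod_cast hN2
    have h6 : (0 : ℝ) ≤ ramDeg κ (E N) K := Nat.cast_nonneg _
    have h7 : (0 : ℝ) ≤ (S N).card := Nat.cast_nonneg _
    have h8 : θ * (C' * T₀) * T N ≤ N * T N :=
      mul_le_mul_of_nonneg_right (by linarith) (by linarith [hT0 N])
    have h9 : θ * (C' * (T₀ * T N)) = θ * (C' * T₀) * T N := by ring
    linarith
  -- the algebra structures
  let a1 : Algebra k W.F0 := ((cstHom W).comp (algebraMap k K)).toAlgebra
  let a2 : Algebra k (UP Ω) := ((algebraMap W.F0 (UP Ω)).comp (algebraMap k W.F0)).toAlgebra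
  have hk : ∀ u : k, algebraMap k (UP Ω) u = constHom (algebraMap k Ω u) := by
    intro u
    rw [IsScalarTower.algebraMap_apply k K Ω]
    rfl
  have s1 : @IsScalarTower k W.F0 (UP Ω) a1.toSMul Algebra.toSMul a2.toSMul :=
    @IsScalarTower.of_algebraMap_eq k W.F0 (UP Ω) _ _ _ a1 _ a2 fun _ => rfl
  -- the germs
  obtain ⟨Y, hY⟩ : ∃ Y : ∀ _ : ℕ, τ ⊕ Fin m → Ω,
      Y = fun N => Sum.elim (fun i => (z N i : Ω)) (fun i => (x N i : Ω)) := ⟨_, rfl⟩
  obtain ⟨zg, hzg⟩ : ∃ zg : τ → UP Ω, zg = fun i => germHom (fun N => (z N i : Ω)) := ⟨_, rfl⟩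
  obtain ⟨xg, hxg⟩ : ∃ xg : Fin m → UP Ω, xg = fun i => germHom (fun N => (x N i : Ω)) :=
    ⟨_, rfl⟩
  have hzx : (Sum.elim zg xg : τ ⊕ Fin m → UP Ω) = fun s => germHom (fun N => Y N s) := by
    funext s
    rcases s with i | i
    · rw [hzg, hY]
      rfl
    · rw [hxg, hY]
      rfl
  have hval : ∀ Q : MvPolynomial (τ ⊕ Fin m) k, aeval (Sum.elim zg xg) Q =
      germHom (fun N => aeval (Y N) Q) := fun Q => by
    rw [hzx]
    exact aeval_germ hk Y Q
  have hsame : ∀ Q : MvPolynomial (τ ⊕ Fin m) k, aeval (Sum.elim z₀ x₀) Q = 0 ↔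
      aeval (Sum.elim zg xg) Q = 0 := by
    intro Q
    rw [hval, germHom_eq_zero_iff, hY]
    constructor
    · intro h
      exact Filter.Eventually.of_forall fun N => hspec Q h N
    · intro h
      by_contra hcon
      obtain ⟨N₀, hN₀⟩ := hgen Q hcon
      obtain ⟨N, hN1, hN2⟩ := (h.and (Filter.Eventually.filter_mono
        Nat.hyperfilter_le_atTop (Filter.eventually_ge_atTop N₀))).exists
      exact hN₀ N hN2 hN1
  have hzF : ∀ i, zg i ∈ W.F0 := by
    intro i
    rw [hzg]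
    refine W.germ_mem_F0 E (c := r + 1) (fun N => (hEr N).trans (Nat.le_succ r))
      (fun N => z N i) (Filter.Eventually.of_forall fun N => ?_)
    refine ((height_coord_le (hff N) (z N) i).trans ((hTz N).trans (hTW N))).trans ?_
    have h1 : (0 : ℤ) ≤ W.T N := Int.natCast_nonneg _
    push_cast
    nlinarith
  obtain ⟨zF, hzF'⟩ : ∃ zF : τ → W.F0, ∀ i, algebraMap W.F0 (UP Ω) (zF i) = zg i :=
    ⟨fun i => ⟨zg i, hzF i⟩, fun _ => rfl⟩
  -- a coordinate which is not in `F0`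
  obtain ⟨X, hX⟩ : ∃ X : ∀ N, Fin (m + 1) → E N, X = fun N => Fin.cons 1 (x N) := ⟨_, rfl⟩
  have hX0 : ∀ N, X N 0 = 1 := fun N => by
    rw [hX]
    exact Fin.cons_zero _ _
  have hXs : ∀ N (i : Fin m), X N i.succ = x N i := fun N i => by
    rw [hX]
    exact Fin.cons_succ _ _ _
  have hXh : ∀ N, hgt κ (x N) = height κ (X N) := fun N => by
    rw [hgt_eq, hX]
  obtain ⟨jn, hjn⟩ : ∃ j, xg j ∉ W.F0 := by
    by_contra hcon
    push Not at hcon
    obtain ⟨C', hC'⟩ := height_le_of_mem_F0E (W := W) (E := E) hEr (x := X) (fun N h0 => by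
      have h2 := congrFun h0 0
      rw [hX0] at h2
      exact one_ne_zero h2) (fun j => by
        refine Fin.cases ?_ (fun i => ?_) j
        · have h1 : (fun N => ((X N 0 : E N) : Ω)) = 1 := funext fun N => by
            rw [hX0]
            rfl
          rw [h1, map_one]
          exact one_mem _
        · have h1 : (fun N => ((X N i.succ : E N) : Ω)) = fun N => ((x N i : E N) : Ω) :=
            funext fun N => by rw [hXs]
          rw [h1]
          have h2 := hcon i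
          rw [hxg] at h2
          exact h2)
    refine hbig C' ?_
    filter_upwards [hC'] with N hN
    rw [hXh]
    exact hN
  have ht : Transcendental W.F0 (xg jn) := fun halg => hjn (mem_F0_of_isAlgebraic halg)
  -- the other coordinates are algebraic over it
  have halg : ∀ j, IsAlgebraic (IntermediateField.adjoin W.F0 {xg jn}) (xg j) := by
    intro j
    refine alg_of_dep ht fun hind => ?_
    obtain ⟨g, ⟨J, hJ⟩, hg0⟩ := exists_rel (hdim jn j)
    have h1 := (hsame (g.eval₂ (rename Sum.inl : MvPolynomial τ k →ₐ[k]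
      MvPolynomial (τ ⊕ Fin m) k).toRingHom (fun t => MvPolynomial.X (Sum.inr (![jn, j] t))))).1
      (by
        rw [aeval_flat]
        have h2 : (fun t => x₀ (![jn, j] t)) = ![x₀ jn, x₀ j] := by
          funext t
          fin_cases t <;> rfl
        rw [h2]
        exact hg0)
    rw [aeval_flat] at h1
    have h2 : (fun t => xg (![jn, j] t)) = ![xg jn, xg j] := by
      funext t
      fin_cases t <;> rfl
    rw [h2] at h1
    have hco : ∀ P : MvPolynomial τ k, aeval zg P = algebraMap W.F0 (UP Ω) (aeval zF P) := by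
      intro P
      have h3 := aeval_algebraMap_apply (B := UP Ω) zF P
      rw [← h3]
      congr 2
      funext i
      exact (hzF' i).symm
    have h3 : g.map (aeval zg : MvPolynomial τ k →ₐ[k] UP Ω).toRingHom =
        (g.map (aeval zF : MvPolynomial τ k →ₐ[k] W.F0).toRingHom).map
          (algebraMap W.F0 (UP Ω)) := by
      refine MvPolynomial.ext _ _ fun J' => ?_
      rw [coeff_map, coeff_map, coeff_map]
      exact hco _
    rw [h3, eval_map] at h1
    rw [algebraicIndependent_iff] at hind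
    have h4 := hind _ h1
    have h5 := congrArg (fun q => coeff J q) h4
    simp only [coeff_map, coeff_zero] at h5
    have h6 : aeval zF (g.coeff J) = 0 := h5
    apply hJ
    have h7 := (hsame (rename Sum.inl (g.coeff J))).2 (by
      rw [aeval_rename, Sum.elim_comp_inl, hco, h6, map_zero])
    rwa [aeval_rename, Sum.elim_comp_inl] at h7
  -- the field of the curve
  obtain ⟨M, hM⟩ : ∃ M : IntermediateField W.F0 (UP Ω),
      M = IntermediateField.adjoin W.F0 (Set.range xg) := ⟨_, rfl⟩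
  have hMff : IsFF W.F0 M := by
    rw [hM]
    exact isFF_of_alg ht halg
  have hxM : ∀ j, xg j ∈ M := fun j => by
    rw [hM]
    exact IntermediateField.subset_adjoin _ _ ⟨j, rfl⟩
  have hMtm : ∀ u ∈ M, u ∈ tmE W E := by
    intro u hu
    have h1 : IntermediateField.adjoin W.F0 (Set.range xg) ≤ tmE W E := by
      rw [IntermediateField.adjoin_le_iff]
      rintro z ⟨j, rfl⟩
      rw [hxg]
      exact germ_mem_tmE _
    rw [hM] at hu
    exact h1 hu
  obtain ⟨γ', hγ'⟩ : ∃ γ' : Fin m → M, ∀ j, (γ' j : UP Ω) = xg j :=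
    ⟨fun j => ⟨_, hxM j⟩, fun _ => rfl⟩
  have htop : IntermediateField.adjoin W.F0 (Set.range γ') = ⊤ := adjoin_range_top hM hγ'
  obtain ⟨γ, hγd⟩ : ∃ γ : Fin (m + 1) → M, γ = Fin.cons 1 γ' := ⟨_, rfl⟩
  have hγ : ∀ i, (γ i : UP Ω) = germHom (fun N => (X N i : Ω)) := by
    intro i
    refine Fin.cases ?_ (fun i => ?_) i
    · have h1 : (fun N => ((X N 0 : E N) : Ω)) = 1 := funext fun N => by
        rw [hX0]
        rfl
      rw [h1, map_one, hγd]
      rfl
    · have h1 : (fun N => ((X N i.succ : E N) : Ω)) = fun N => ((x N i : E N) : Ω) :=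
        funext fun N => by rw [hXs]
      rw [h1, hγd, Fin.cons_succ, hγ', hxg]
  let a3 : Algebra k M := ((algebraMap W.F0 M).comp (algebraMap k W.F0)).toAlgebra
  have s2 : IsScalarTower k W.F0 M := IsScalarTower.of_algebraMap_eq fun _ => rfl
  have s3 : @IsScalarTower k M (UP Ω) a3.toSMul Algebra.toSMul a2.toSMul :=
    @IsScalarTower.of_algebraMap_eq k M (UP Ω) _ _ _ a3 _ a2 fun _ => rfl
  have hvM : ∀ Q : MvPolynomial (τ ⊕ Fin m) k, algebraMap M (UP Ω)
      (aeval (Sum.elim (fun i => algebraMap W.F0 M (zF i)) γ') Q) =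
      aeval (Sum.elim zg xg) Q := by
    intro Q
    rw [← aeval_algebraMap_apply (B := UP Ω)]
    congr 2
    funext s
    rcases s with i | i
    · exact hzF' i
    · exact hγ' i
  have hrel : SameRel k z₀ x₀ (fun i => algebraMap W.F0 M (zF i)) γ' := by
    intro Q
    rw [hsame, ← hvM, map_eq_zero]
  obtain ⟨yg, hyg⟩ : ∃ yg : Fin (p + 1) → M,
      yg = fun j => aeval (Sum.elim (fun i => algebraMap W.F0 M (zF i)) γ') (H j) := ⟨_, rfl⟩
  have hygy : ∀ j, (yg j : UP Ω) = germHom (fun N => (y j N : Ω)) := by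
    intro j
    rw [hyg]
    refine (hvM (H j)).trans ?_
    rw [hval]
    congr 1
    funext N
    rw [hy, hY]
  have hyne : ∀ j, yg j ≠ 0 := by
    intro j h0
    rw [hyg] at h0
    exact hH0 j ((hrel (H j)).2 h0)
  have hγl : γ 0 = 1 := by
    rw [hγd]
    rfl
  have hγne : γ ≠ 0 := fun h0 => one_ne_zero (hγl.symm.trans (congrFun h0 0))
  have hγ0 : 0 < height W.F0 γ := height_pos_of hMff (l := 0) (k := jn.succ)
    (by rw [hγl]; exact one_ne_zero) (fun u hu => hjn (by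
      rw [hγl, div_one, hγd, Fin.cons_succ] at hu
      have h1 := congrArg (algebraMap M (UP Ω)) hu
      have h2 : algebraMap M (UP Ω) (γ' jn) = xg jn := hγ' jn
      rw [h2] at h1
      rw [← h1]
      exact u.2))
  -- the divisor
  have hBfin : {v : Place W.F0 M | ∀ j, v.1 (yg j) < vmax v.1 (aff γ') ^ d j}.Finite := by
    refine ((hMff.place_finite (hyne 0)).union (hMff.vmax_finite (aff_ne_zero γ'))).subset ?_
    intro v hv
    by_contra hcon
    simp only [Set.mem_union, Set.mem_ofPred_eq, not_or, not_not] at hcon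
    have h1 := hv 0
    rw [hcon.1, hcon.2, one_pow] at h1
    exact lt_irrefl _ h1
  have htγ : Transcendental W.F0 (γ' jn) := by
    intro h0
    have h1 : IsAlgebraic W.F0 (algebraMap M (UP Ω) (γ' jn)) := h0.algebraMap
    have h2 : algebraMap M (UP Ω) (γ' jn) = xg jn := hγ' jn
    rw [h2] at h1
    exact ht h1
  obtain ⟨i1, i2, i3, _, hcc⟩ := hc W.F0 M zF γ' jn hrel htop htγ
  rw [hgt_eq, ← hγd] at hcc
  have hBset : {v : Place W.F0 M | ∀ i, v.1 (aeval (Sum.elim (fun i => algebraMap W.F0 M (zF i))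
      γ') (H i)) < vmax v.1 (aff γ') ^ d i} =
      {v : Place W.F0 M | ∀ j, v.1 (yg j) < vmax v.1 (aff γ') ^ d j} := by
    rw [hyg]
  rw [hBset, Set.ncard_eq_toFinset_card _ hBfin] at hcc
  obtain ⟨B, hB⟩ : ∃ B : Finset (Place W.F0 M), B = hBfin.toFinset := ⟨_, rfl⟩
  rw [← hB] at hcc
  obtain ⟨a', ha'⟩ : ∃ a' : ℝ, a' = height W.F0 γ := ⟨_, rfl⟩
  have ha1 : 1 ≤ a' := by
    rw [ha']
    exact_mod_cast hγ0
  obtain ⟨C', hC'⟩ := limit_MYw hMY W (E := E) hEr hMtm hX0 hγ hγ0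
    (y := y) hygy hyne B (fun v hv j => by
      rw [hB, Set.Finite.mem_toFinset] at hv
      have h1 := hv j
      rw [vmax_aff, ← hγd] at h1
      exact h1) S
    (Filter.Eventually.of_forall fun N w hw => by
      obtain ⟨j, hj⟩ := hS N w hw
      refine ⟨j, ?_⟩
      rw [vmax_aff] at hj
      rw [hX]
      exact hj)
    (ε := a' * ε / 2) (by positivity)
  obtain ⟨M', hM'⟩ := exists_nat_gt ((C' : ℝ) * T₀)
  obtain ⟨N, hN1, hN2⟩ := (hC'.and (Filter.Eventually.filter_mono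
    Nat.hyperfilter_le_atTop (Filter.eventually_ge_atTop M'))).exists
  have hl := hlarge N
  rw [hWT, ← ha'] at hN1
  rw [← ha'] at hcc
  rw [hXh] at hl
  obtain ⟨Q', hQ'⟩ : ∃ Q : ℝ, Q = (ramDeg W.F0 M (RatFunc W.F0) : ℝ) -
    2 * finrank (RatFunc W.F0) M + B.card := ⟨_, rfl⟩
  rw [← hQ'] at hcc hN1
  obtain ⟨h, hh⟩ : ∃ h : ℝ, h = height κ (X N) := ⟨_, rfl⟩
  have hh1 := hh0 N
  rw [hXh] at hh1
  rw [← hh] at hN1 hl hh1
  have h2 : c * a' * h ≤ Q' * h := mul_le_mul_of_nonneg_right hcc hh1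
  have h3 : a' * ((N : ℝ) * T N + ramDeg κ (E N) K + (S N).card) ≤ a' * (θ * h) :=
    mul_le_mul_of_nonneg_left hl.le (by linarith)
  have h4 : (0 : ℝ) ≤ a' * ε * h :=
    mul_nonneg (mul_nonneg (by linarith) hε.le) hh1
  have h5 : (M' : ℝ) ≤ N := by exact_mod_cast hN2
  have hTN := hT0 N
  have h6 : (C' : ℝ) * T₀ * T N < a' * (N * T N) := by
    have h7 : (C' : ℝ) * T₀ * T N < N * T N :=
      mul_lt_mul_of_pos_right (by linarith) (by linarith)
    have h8 : (N : ℝ) * T N ≤ a' * (N * T N) :=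
      le_mul_of_one_le_left (by positivity) ha1
    linarith
  push_cast at hN1
  have h9 : (Q' - a' * ε / 2) * h ≤
      a' * ((S N).card + ramDeg κ (E N) K) + C' * (T₀ * T N) := hN1
  have h10 : a' * ((N : ℝ) * T N + ramDeg κ (E N) K + (S N).card) =
    a' * (N * T N) + a' * ((S N).card + ramDeg κ (E N) K) := by ring
  have h11 : (C' : ℝ) * (T₀ * T N) = C' * T₀ * T N := by ring
  have h12 : (Q' - a' * ε / 2) * h = Q' * h - a' * ε * h / 2 := by ring
  have h13 : c * a' * h = a' * (θ * h) + a' * ε * h := by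
    rw [hθ]
    ring
  linarith

end Pool.Agent.Lib.MP_44a246_ntFB
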