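import Mathlib
import Pool.Agent.Lib.MP_44a246_ntFB.FB03
import Pool.Agent.Lib.MP_44a246_ntSP.TP01
import Pool.Agent.Lib.MP_44a246_ntTA.TA15

/-!
# Families of curves: the inequality up to the height of the parameters
-/

namespace Pool.Agent.Lib.MP_44a246_ntFB

open Pool.Agent.Lib.MP_e52354_nt
open Pool.Agent.Lib.MP_44a246_nt
open Pool.Agent.Lib.MP_44a246_ntL
open Pool.Agent.Lib.MP_44a246_ntSP
open Pool.Agent.Lib.MP_44a246_ntMY
open Pool.Agent.Lib.MP_44a246_ntNC (countable_mvPoly)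
open Pool.Agent.Lib.MP_44a246_ntTA (exists_embedB)
open WithZero MvPolynomial Module

universe u v w

/-- `(z, x)` is a counterexample with the constant `N` -/
def Bad (κ : Type*) {k K Ω τ : Type*} [Field κ] [Field k] [Field K] [Algebra κ K] [Field Ω]
    [Algebra K Ω] [Algebra κ Ω] [IsScalarTower κ K Ω] [Algebra k Ω] [Fintype τ] {m p : ℕ}
    (H : Fin (p + 1) → MvPolynomial (τ ⊕ Fin m) k) (d : Fin (p + 1) → ℕ) (r : ℕ) (θ : ℝ) (N : ℕ)
    (E : IntermediateField (⊥ : IntermediateField K Ω) Ω) (z : τ → E) (x : Fin m → E) : Prop :=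
  FiniteDimensional (⊥ : IntermediateField K Ω) E ∧
  finrank (⊥ : IntermediateField K Ω) E ≤ r ∧
  ∃ (y : Fin (p + 1) → E) (S : Finset (Place κ E)) (T : ℕ),
    (∀ j, (y j : Ω) = aeval (Sum.elim (fun i => (z i : Ω)) (fun i => (x i : Ω))) (H j)) ∧
    1 ≤ T ∧ hgt κ z ≤ (T : ℤ) ∧
    (∀ w : Place κ E, w ∉ S → ∃ j, vmax w.1 (aff x) ^ d j ≤ w.1 (y j)) ∧
    (N : ℝ) * T + ramDeg κ E K + S.card < θ * hgt κ x

/-- **The exceptional polynomial.** -/
theorem exc_bad {κ : Type u} {K : Type v} {Ω : Type v} [Field κ] [IsAlgClosed κ]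
    [CharZero κ] [Field K] [Algebra κ K] [Field Ω] [CharZero Ω] [Algebra K Ω] [Algebra κ Ω]
    [IsScalarTower κ K Ω] [IsAlgClosed Ω] [Algebra.IsAlgebraic K Ω] (hK : IsFF κ K)
    (hMY : MYP.{u, v} κ) {k τ E₀ : Type*} [Field k] [Countable k] [Algebra k K] [Algebra k Ω]
    [IsScalarTower k K Ω] [Fintype τ] [Field E₀] [Algebra k E₀] {m p : ℕ} (r : ℕ)
    {z₀ : τ → E₀} {x₀ : Fin m → E₀}
    (hdim : ∀ i j, ¬ AlgebraicIndependent (IntermediateField.adjoin k (Set.range z₀))
      ![x₀ i, x₀ j])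
    {H : Fin (p + 1) → MvPolynomial (τ ⊕ Fin m) k} {d : Fin (p + 1) → ℕ}
    (hH0 : ∀ i, aeval (Sum.elim z₀ x₀) (H i) ≠ 0) {c ε : ℝ} (hε : 0 < ε)
    (hc : SlopeJ.{v} k z₀ x₀ H d c) :
    ∃ (N : ℕ) (h : MvPolynomial (τ ⊕ Fin m) k), aeval (Sum.elim z₀ x₀) h ≠ 0 ∧
      ∀ (E : IntermediateField (⊥ : IntermediateField K Ω) Ω) (z : τ → E) (x : Fin m → E),
        (∀ Q : MvPolynomial (τ ⊕ Fin m) k, aeval (Sum.elim z₀ x₀) Q = 0 →
          aeval (Sum.elim (fun i => (z i : Ω)) (fun i => (x i : Ω))) Q = 0) →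
        Bad κ H d r (c - ε) N E z x →
        aeval (Sum.elim (fun i => (z i : Ω)) (fun i => (x i : Ω))) h = 0 := by
  classical
  have hcn := countable_mvPoly (τ ⊕ Fin m) k
  obtain ⟨f, hf⟩ := exists_surjective_nat (MvPolynomial (τ ⊕ Fin m) k)
  obtain ⟨h, hh⟩ : ∃ h : ℕ → MvPolynomial (τ ⊕ Fin m) k,
      h = fun N => ∏ i ∈ (Finset.range N).filter (fun i => aeval (Sum.elim z₀ x₀) (f i) ≠ 0), f i :=
    ⟨_, rfl⟩
  have hh0 : ∀ N, aeval (Sum.elim z₀ x₀) (h N) ≠ 0 := by
    intro N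
    rw [hh, map_prod]
    exact Finset.prod_ne_zero_iff.2 fun i hi => (Finset.mem_filter.1 hi).2
  by_contra hcon
  push Not at hcon
  have h1 := fun N : ℕ => hcon N (h N) (hh0 N)
  choose E z x hspec hbad hne using h1
  choose h1 h2 y S T h3 h4 h5 h6 h7 using hbad
  refine seq_false hK hMY (Ω := Ω) hdim hH0 hε hc h1 h2 (y := fun j N => y N j)
    (fun Q hQ N => hspec N Q hQ) (fun Q hQ => ?_) (fun j N => h3 N j) h4 h5 h6 h7
  obtain ⟨i, hi⟩ := hf Q
  refine ⟨i + 1, fun N hN h0 => hne N ?_⟩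
  rw [hh, map_prod]
  refine Finset.prod_eq_zero (i := i) (Finset.mem_filter.2 ⟨Finset.mem_range.2 hN, ?_⟩) ?_
  · rw [hi]
    exact hQ
  · rw [hi]
    exact h0

theorem aff_map {A B F μ : Type*} [Field A] [Field B] [FunLike F A B] [MonoidHomClass F A B]
    (f : F) (x : μ → A) : aff (fun i => f (x i)) = fun o => f (aff x o) := by
  funext o
  cases o with
  | none => exact (map_one f).symm
  | some i => rfl

theorem hgt_equiv {κ A B μ : Type*} [Field κ] [Field A] [Field B] [Algebra κ A] [Algebra κ B]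
    [Fintype μ] (e : A ≃+* B) (he : ∀ c : κ, e (algebraMap κ A c) = algebraMap κ B c)
    (x : μ → A) : hgt κ (fun i => e (x i)) = hgt κ x := by
  unfold hgt
  rw [aff_map]
  exact height_placeEquiv e he (aff x)

/-- **Families of curves.** The inequality with the truncated counting function and the
ramification with the coefficients one, up to the height of the parameters. -/
theorem fibre {κ : Type u} {K : Type v} [Field κ] [IsAlgClosed κ] [CharZero κ] [Field K]
    [CharZero K] [Algebra κ K] (hK : IsFF κ K) (hMY : MYP.{u, v} κ) {k τ E₀ : Type*} [Field k]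
    [Countable k] [Algebra k K] [Fintype τ] [Field E₀] [Algebra k E₀] {m p : ℕ} (r : ℕ)
    {z₀ : τ → E₀} {x₀ : Fin m → E₀}
    (hdim : ∀ i j, ¬ AlgebraicIndependent (IntermediateField.adjoin k (Set.range z₀))
      ![x₀ i, x₀ j])
    {H : Fin (p + 1) → MvPolynomial (τ ⊕ Fin m) k} {d : Fin (p + 1) → ℕ}
    (hH0 : ∀ i, aeval (Sum.elim z₀ x₀) (H i) ≠ 0) {c ε : ℝ} (hε : 0 < ε)
    (hc : SlopeJ.{v} k z₀ x₀ H d c) {S : Set (Place κ K)} (hS : S.Finite) :
    ∃ (h : MvPolynomial (τ ⊕ Fin m) k) (C : ℕ), aeval (Sum.elim z₀ x₀) h ≠ 0 ∧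
      ∀ (L : Type w) [Field L] [Algebra K L] [FiniteDimensional K L] [Algebra κ L]
        [IsScalarTower κ K L] [Algebra k L] [IsScalarTower k K L], finrank K L ≤ r →
      ∀ (z : τ → L) (x : Fin m → L),
        (∀ Q : MvPolynomial (τ ⊕ Fin m) k, aeval (Sum.elim z₀ x₀) Q = 0 →
          aeval (Sum.elim z x) Q = 0) → aeval (Sum.elim z x) h ≠ 0 →
        (c - ε) * hgt κ x ≤ meetk κ K H d S z x + ramDeg κ L K + C * (1 + (hgt κ z : ℝ)) := by
  classical
  have hcΩ : CharZero (AlgebraicClosure K) :=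
    charZero_of_injective_algebraMap (algebraMap K (AlgebraicClosure K)).injective
  obtain ⟨N, h, hh0, hN⟩ := exc_bad (Ω := AlgebraicClosure K) hK hMY r hdim hH0 hε hc
  refine ⟨h * H 0, N + S.ncard * r, ?_, ?_⟩
  · rw [map_mul]
    exact mul_ne_zero hh0 (hH0 0)
  intro L _ _ _ _ _ _ _ hr z x hspec hne
  rw [map_mul] at hne
  have hne1 := left_ne_zero_of_mul hne
  have hne2 := right_ne_zero_of_mul hne
  have hL : IsFF κ L := hK.of_finite
  by_contra hcon
  push Not at hcon
  obtain ⟨E, hE, ee, heκ, hfr⟩ := exists_embedB κ K L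
  have heK : ∀ c : K, (ee : L ≃+* E) (algebraMap K L c) = algebraMap K E c := fun c =>
    ee.commutes c
  have heκ' : ∀ c : κ, (ee : L ≃+* E) (algebraMap κ L c) = algebraMap κ E c := heκ
  let ψ : L →ₐ[k] AlgebraicClosure K := {
    toFun := fun a => ((ee a : E) : AlgebraicClosure K)
    map_one' := by
      show ((ee 1 : E) : AlgebraicClosure K) = 1
      rw [map_one]
      rfl
    map_mul' := fun a b => by
      show ((ee (a * b) : E) : AlgebraicClosure K) = _
      rw [map_mul]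
      rfl
    map_zero' := by
      show ((ee 0 : E) : AlgebraicClosure K) = 0
      rw [map_zero]
      rfl
    map_add' := fun a b => by
      show ((ee (a + b) : E) : AlgebraicClosure K) = _
      rw [map_add]
      rfl
    commutes' := fun c => by
      show ((ee (algebraMap k L c) : E) : AlgebraicClosure K) = _
      rw [IsScalarTower.algebraMap_apply k K L, ee.commutes,
        IsScalarTower.algebraMap_apply k K (AlgebraicClosure K)]
      rfl }
  have hψ : ∀ a, ψ a = ((ee a : E) : AlgebraicClosure K) := fun _ => rfl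
  have hval : ∀ Q : MvPolynomial (τ ⊕ Fin m) k,
      aeval (Sum.elim (fun i => ((ee (z i) : E) : AlgebraicClosure K))
        (fun i => ((ee (x i) : E) : AlgebraicClosure K))) Q = ψ (aeval (Sum.elim z x) Q) := by
    intro Q
    rw [comp_aeval_apply]
    congr 2
    funext s
    rcases s with i | i <;> rfl
  -- the heights
  have hhz : hgt κ (fun i => ee (z i)) = hgt κ z := hgt_equiv (ee : L ≃+* E) heκ' z
  have hhx : hgt κ (fun i => ee (x i)) = hgt κ x := hgt_equiv (ee : L ≃+* E) heκ' x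
  have hram : ramDeg κ E K = ramDeg κ L K := ramDeg_placeEquiv (ee : L ≃+* E) heκ' heK
  -- the places
  obtain ⟨A, hA⟩ : ∃ A : Set (Place κ L), A = {w : Place κ L |
      (∀ v ∈ S, ¬ (w.1.comap (algebraMap K L)).IsEquiv v.1) ∧
      ∀ i, w.1 (aeval (Sum.elim z x) (H i)) < vmax w.1 (aff x) ^ d i} := ⟨_, rfl⟩
  have hAf : A.Finite := by
    refine ((hL.place_finite hne2).union (hL.vmax_finite (aff_ne_zero x))).subset ?_
    intro w hw
    rw [hA] at hw
    by_contra hcon
    simp only [Set.mem_union, Set.mem_ofPred_eq, not_or, not_not] at hcon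
    have h1 := hw.2 0
    rw [hcon.1, hcon.2, one_pow] at h1
    exact lt_irrefl _ h1
  have hAm : A.ncard = meetk κ K H d S z x := by
    rw [hA]
    rfl
  obtain ⟨hof, hoc⟩ := over_card hK hS (L := L)
  obtain ⟨B, hB⟩ : ∃ B : Set (Place κ L), B = {w : Place κ L | below K w ∈ S} := ⟨_, rfl⟩
  rw [← hB] at hof hoc
  have hABf : (A ∪ B).Finite := hAf.union hof
  have hcard : ((A ∪ B).ncard : ℝ) ≤ meetk κ K H d S z x + S.ncard * r := by
    have h1 : (A ∪ B).ncard ≤ A.ncard + B.ncard := Set.ncard_union_le _ _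
    have h2 : B.ncard ≤ S.ncard * r := by
      have h3 : (B.ncard : ℤ) ≤ (S.ncard : ℤ) * (r : ℤ) := by
        refine hoc.trans ?_
        exact mul_le_mul_of_nonneg_left (by exact_mod_cast hr) (Int.natCast_nonneg _)
      exact_mod_cast h3
    rw [hAm] at h1
    exact_mod_cast h1.trans (Nat.add_le_add_left h2 _)
  obtain ⟨T, hT⟩ : ∃ T : ℕ, (T : ℤ) = 1 + hgt κ z :=
    ⟨(1 + hgt κ z).toNat, Int.toNat_of_nonneg (by
      have := hgt_nonneg hL z
      omega)⟩
  have hz0 := hgt_nonneg hL z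
  have hbad : Bad κ H d r (c - ε) N E (fun i => ee (z i)) (fun i => ee (x i)) := by
    refine ⟨hE, by rw [hfr]; exact hr, fun j => ee (aeval (Sum.elim z x) (H j)),
      hABf.toFinset.map (placeEquiv (ee : L ≃+* E) heκ').toEmbedding, T, fun j => ?_, ?_, ?_,
      ?_, ?_⟩
    · exact (hval (H j)).symm
    · have h1 : (1 : ℤ) ≤ T := by
        rw [hT]
        omega
      exact_mod_cast h1
    · rw [hhz, hT]
      omega
    · intro w hw
      obtain ⟨w', rfl⟩ := (placeEquiv (ee : L ≃+* E) heκ').surjective w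
      have hw' : w' ∉ A ∪ B := fun h => hw (Finset.mem_map.2 ⟨w', by
        rw [Set.Finite.mem_toFinset]
        exact h, rfl⟩)
      rw [Set.mem_union, not_or] at hw'
      have h1 : ∀ v ∈ S, ¬ (w'.1.comap (algebraMap K L)).IsEquiv v.1 := by
        intro v hv hvw
        rw [below_equiv] at hvw
        apply hw'.2
        rw [hB]
        show below K w' ∈ S
        rw [hvw]
        exact hv
      have h2 : ¬ ∀ i, w'.1 (aeval (Sum.elim z x) (H i)) < vmax w'.1 (aff x) ^ d i := fun h3 =>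
        hw'.1 (by
          rw [hA]
          exact ⟨h1, h3⟩)
      push Not at h2
      obtain ⟨j, hj⟩ := h2
      refine ⟨j, ?_⟩
      have h3 := vmax_placeEquiv (ee : L ≃+* E) heκ' w' (aff x)
      have h4 := placeEquiv_apply (ee : L ≃+* E) heκ' w' (aeval (Sum.elim z x) (H j))
      rw [aff_map]
      rw [← h3, ← h4] at hj
      exact hj
    · have h1 : (T : ℝ) = 1 + hgt κ z := by exact_mod_cast hT
      rw [hhx, hram, Finset.card_map, ← Set.ncard_eq_toFinset_card _ hABf, h1]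
      have h2 : (0 : ℝ) ≤ hgt κ z := by exact_mod_cast hz0
      have h3 : (S.ncard : ℝ) * r ≤ (S.ncard * r) * (1 + hgt κ z) :=
        le_mul_of_one_le_right (by positivity) (by linarith)
      push_cast at hcon
      nlinarith
  have h1 := hN E (fun i => ee (z i)) (fun i => ee (x i)) (fun Q hQ => by
    rw [hval, hspec Q hQ, map_zero]) hbad
  rw [hval] at h1
  exact hne1 ((map_eq_zero ψ.toRingHom).1 h1)

end Pool.Agent.Lib.MP_44a246_ntFB
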