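import Mathlib
import Pool.Agent.Lib.MP_44a246_ntFB.FB04

/-!
# Families of curves of large genus: the height of the points of bounded degree
-/

namespace Pool.Agent.Lib.MP_44a246_ntFB

open Pool.Agent.Lib.MP_e52354_nt
open Pool.Agent.Lib.MP_44a246_nt
open Pool.Agent.Lib.MP_44a246_ntL
open Pool.Agent.Lib.MP_44a246_ntMY
open WithZero MvPolynomial Module

universe u v w

/-- the height of `(1 : x)` in an extension -/
theorem hgt_ext {κ K L μ : Type*} [Field κ] [IsAlgClosed κ] [CharZero κ] [Field K] [Algebra κ K]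
    [Field L] [Algebra κ L] [Algebra K L] [IsScalarTower κ K L] [FiniteDimensional K L]
    [Fintype μ] (hL : IsFF κ L) (x : μ → K) :
    hgt κ (fun i => algebraMap K L (x i)) = finrank K L * hgt κ x := by
  unfold hgt
  rw [aff_map]
  exact hL.height_ext (aff_ne_zero x)

/-- the ramification of the field generated by the coordinates of a point -/
theorem ram_aff {κ K L μ : Type*} [Field κ] [IsAlgClosed κ] [CharZero κ] [Field K] [Algebra κ K]
    [Field L] [Algebra κ L] [Algebra K L] [IsScalarTower κ K L] [FiniteDimensional K L]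
    [Fintype μ] (hK : IsFF κ K) (x : μ → L)
    (hgen : IntermediateField.adjoin K (Set.range x) = ⊤) :
    (ramDeg κ L K : ℤ) ≤ 2 * ((finrank K L : ℤ) - 1) * hgt κ x := by
  classical
  obtain ⟨N, hN⟩ : ∃ N, Fintype.card (Option μ) = N + 1 := ⟨_, Fintype.card_option⟩
  let e : Option μ ≃ Fin (N + 1) := Fintype.equivFinOfCardEq hN
  obtain ⟨X, hX⟩ : ∃ X : Fin (N + 1) → L, X = fun t => aff x (e.symm t) := ⟨_, rfl⟩
  have hXe : ∀ o, X (e o) = aff x o := fun o => by
    rw [hX]
    simp
  have hX0 : X ≠ 0 := fun h0 => one_ne_zero (α := L) ((hXe none).symm.trans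
    (congrFun h0 (e none)))
  have hh : height κ X = hgt κ x := by
    unfold hgt height
    refine finsum_congr fun v => ?_
    congr 1
    apply le_antisymm
    · refine vmax_le _ fun t => ?_
      rw [hX]
      exact le_vmax v.1 (aff x) (e.symm t)
    · refine vmax_le _ fun o => ?_
      rw [← hXe o]
      exact le_vmax v.1 X (e o)
  have hpf : pointField K X = ⊤ := by
    rw [eq_top_iff, ← hgen, IntermediateField.adjoin_le_iff]
    rintro z ⟨i, rfl⟩
    refine IntermediateField.subset_adjoin _ _ ⟨e (some i), e none, ?_⟩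
    rw [hXe, hXe]
    show x i = x i / 1
    rw [div_one]
  have h := hK.ram_point X hX0 hpf
  rwa [hh] at h

/-- the maximum of the coordinates in a finite extension -/
theorem vmax_extn {κ K L : Type*} [Field κ] [Field K] [Algebra κ K] [Field L] [Algebra κ L]
    [Algebra K L] [IsScalarTower κ K L] [Algebra.IsAlgebraic K L] {σ : Type*} [Fintype σ]
    (w : Place κ L) (x : σ → K) :
    vmax w.1 (fun i => algebraMap K L (x i)) = vmax (below K w).1 x ^ ramIdx K w.1 := by
  unfold vmax
  apply le_antisymm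
  · refine Finset.sup_le fun i _ => ?_
    rw [below_pow]
    exact pow_le_pow_left' (Finset.le_sup (f := fun i => (below K w).1 (x i)) (Finset.mem_univ i)) _
  · rcases isEmpty_or_nonempty σ with hσ | hσ
    · have he := one_le_ramIdx (K := K) w.1 w.2.1
      rw [Finset.univ_eq_empty, Finset.sup_empty, bot_eq_zero, zero_pow (by omega)]
      exact zero_le
    · obtain ⟨i, -, hi⟩ := Finset.exists_max_image (Finset.univ : Finset σ)
        (fun i => (below K w).1 (x i)) Finset.univ_nonempty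
      have h1 : (Finset.univ.sup fun i => (below K w).1 (x i)) = (below K w).1 (x i) :=
        le_antisymm (Finset.sup_le fun j hj => hi j hj)
          (Finset.le_sup (f := fun i => (below K w).1 (x i)) (Finset.mem_univ i))
      rw [h1, ← below_pow]
      exact Finset.le_sup (f := fun i => w.1 (algebraMap K L (x i))) (Finset.mem_univ i)

/-- the number of the meeting places in an extension -/
theorem meetk_le_ext {κ K L' L k τ ι : Type*} [Field κ] [IsAlgClosed κ] [CharZero κ] [Field K]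
    [Algebra κ K] [Field L'] [Algebra κ L'] [Algebra K L'] [IsScalarTower κ K L']
    [Field L] [Algebra κ L] [Algebra K L] [IsScalarTower κ K L] [Algebra L' L]
    [IsScalarTower K L' L] [IsScalarTower κ L' L] [FiniteDimensional L' L] (hL : IsFF κ L)
    [Field k] [Algebra k L'] [Algebra k L] [IsScalarTower k L' L] {m : ℕ}
    {H : ι → MvPolynomial (τ ⊕ Fin m) k} (d : ι → ℕ) (S : Set (Place κ K)) {z : τ → L'}
    {x : Fin m → L'} {i₀ : ι} (hH : aeval (Sum.elim z x) (H i₀) ≠ 0) :
    meetk κ K H d S z x ≤ meetk κ K H d S (fun i => algebraMap L' L (z i))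
      (fun i => algebraMap L' L (x i)) := by
  have hv : ∀ i, aeval (Sum.elim (fun i => algebraMap L' L (z i))
      (fun i => algebraMap L' L (x i))) (H i) = algebraMap L' L (aeval (Sum.elim z x) (H i)) := by
    intro i
    rw [← aeval_algebraMap_apply]
    congr 2
    funext s
    rcases s with i | i <;> rfl
  have hmax : ∀ w : Place κ L, vmax w.1 (aff (fun i => algebraMap L' L (x i))) =
      vmax (below L' w).1 (aff x) ^ ramIdx L' w.1 := by
    intro w
    rw [aff_map (algebraMap L' L) x]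
    exact vmax_extn w (aff x)
  unfold meetk
  obtain ⟨A, hA⟩ : ∃ A : Set (Place κ L), A = {w : Place κ L |
      (∀ v ∈ S, ¬ (w.1.comap (algebraMap K L)).IsEquiv v.1) ∧
      ∀ i, w.1 (aeval (Sum.elim (fun i => algebraMap L' L (z i))
        (fun i => algebraMap L' L (x i))) (H i)) <
        vmax w.1 (aff (fun i => algebraMap L' L (x i))) ^ d i} := ⟨_, rfl⟩
  have hAf : A.Finite := by
    have h0 : algebraMap L' L (aeval (Sum.elim z x) (H i₀)) ≠ 0 := fun h1 =>
      hH ((map_eq_zero (algebraMap L' L)).1 h1)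
    refine ((hL.place_finite h0).union (hL.vmax_finite (aff_ne_zero
      (fun i => algebraMap L' L (x i))))).subset ?_
    intro w hw
    rw [hA] at hw
    by_contra hcon
    simp only [Set.mem_union, Set.mem_ofPred_eq, not_or, not_not] at hcon
    have h1 := hw.2 i₀
    rw [hv, hcon.1, hcon.2, one_pow] at h1
    exact lt_irrefl _ h1
  rw [← hA]
  refine (Set.ncard_le_ncard (t := below L' '' A) ?_ (hAf.image _)).trans
    (Set.ncard_image_le hAf)
  rintro v ⟨hv1, hv2⟩
  obtain ⟨T, ⟨w, hw⟩, hT, -⟩ := hL.exists_over (K := L') v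
  have hwv := (hT w).1 hw
  refine ⟨w, ?_, hwv⟩
  have he := one_le_ramIdx (K := L') w.1 w.2.1
  rw [hA]
  refine ⟨fun v' hv' h1 => hv1 v' hv' ?_, fun i => ?_⟩
  · intro a b
    have h2 := h1 a b
    have h3 : ∀ a : K, w.1.comap (algebraMap K L) a =
        v.1 (algebraMap K L' a) ^ ramIdx L' w.1 := by
      intro a
      show w.1 (algebraMap K L a) = _
      rw [IsScalarTower.algebraMap_apply K L' L, below_pow, hwv]
    rw [h3, h3, pow_le_pow_iff_left₀ zero_le zero_le (by omega)] at h2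
    exact h2
  · rw [hv, hmax, below_pow, hwv, ← pow_mul, mul_comm, pow_mul]
    exact pow_lt_pow_left₀ (hv2 i) zero_le (by omega)

/-- **Families of curves of large genus.** -/
theorem low_stage {κ : Type u} {K : Type v} [Field κ] [IsAlgClosed κ] [CharZero κ] [Field K]
    [CharZero K] [Algebra κ K] (hK : IsFF κ K) (hMY : MYP.{u, v} κ) {k τ E₀ : Type*} [Field k]
    [Countable k] [Algebra k K] [Fintype τ] [Field E₀] [Algebra k E₀] {m p : ℕ} (r : ℕ)
    {z₀ : τ → E₀} {x₀ : Fin m → E₀}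
    (hdim : ∀ i j, ¬ AlgebraicIndependent (IntermediateField.adjoin k (Set.range z₀))
      ![x₀ i, x₀ j])
    {H : Fin (p + 1) → MvPolynomial (τ ⊕ Fin m) k} {d : Fin (p + 1) → ℕ}
    (hH0 : ∀ i, aeval (Sum.elim z₀ x₀) (H i) ≠ 0) {c : ℝ} (hcr : 2 * ((r : ℝ) - 1) < c)
    (hc : SlopeJ.{v} k z₀ x₀ H d c) {S : Set (Place κ K)} (hS : S.Finite) :
    ∃ (h : MvPolynomial (τ ⊕ Fin m) k) (C : ℕ), aeval (Sum.elim z₀ x₀) h ≠ 0 ∧
      ∀ (L : Type w) [Field L] [Algebra K L] [FiniteDimensional K L] [Algebra κ L]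
        [IsScalarTower κ K L] [Algebra k L] [IsScalarTower k K L], finrank K L ≤ r →
      ∀ (z : τ → L) (x : Fin m → L),
        (∀ Q : MvPolynomial (τ ⊕ Fin m) k, aeval (Sum.elim z₀ x₀) Q = 0 →
          aeval (Sum.elim z x) Q = 0) → aeval (Sum.elim z x) h ≠ 0 →
        hgt κ x ≤ C * (1 + hgt κ z + meetk κ K H d S z x) := by
  classical
  obtain ⟨ε, hε⟩ : ∃ ε : ℝ, ε = (c - 2 * ((r : ℝ) - 1)) / 2 := ⟨_, rfl⟩
  have hε0 : 0 < ε := by
    rw [hε]
    linarith
  obtain ⟨h, C, hh0, hC⟩ := fibre.{u, v, w} hK hMY r hdim hH0 hε0 hc hS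
  obtain ⟨D, hD⟩ : ∃ D : ℕ, D = ⌈((2 * r + C + 1 : ℝ)) / ε⌉₊ := ⟨_, rfl⟩
  refine ⟨h * H 0, D * r, ?_, ?_⟩
  · rw [map_mul]
    exact mul_ne_zero hh0 (hH0 0)
  intro L _ _ _ _ _ _ _ hr z x hspec hne₀
  rw [map_mul] at hne₀
  have hne := left_ne_zero_of_mul hne₀
  have hneH := right_ne_zero_of_mul hne₀
  have hL : IsFF κ L := hK.of_finite
  -- the field of the point
  obtain ⟨L', hL'⟩ : ∃ L' : IntermediateField K L,
      L' = IntermediateField.adjoin K (Set.range (Sum.elim z x)) := ⟨_, rfl⟩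
  have hmem : ∀ s, Sum.elim z x s ∈ L' := fun s => by
    rw [hL']
    exact IntermediateField.subset_adjoin _ _ ⟨s, rfl⟩
  obtain ⟨ζ, hζ⟩ : ∃ ζ : τ ⊕ Fin m → L', ∀ s, (ζ s : L) = Sum.elim z x s :=
    ⟨fun s => ⟨_, hmem s⟩, fun _ => rfl⟩
  obtain ⟨z', hz'⟩ : ∃ z' : τ → L', z' = fun i => ζ (Sum.inl i) := ⟨_, rfl⟩
  obtain ⟨x', hx'⟩ : ∃ x' : Fin m → L', x' = fun i => ζ (Sum.inr i) := ⟨_, rfl⟩
  have hζe : ζ = Sum.elim z' x' := by
    funext s
    rcases s with i | i
    · rw [hz']
      rfl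
    · rw [hx']
      rfl
  have htop : IntermediateField.adjoin K (Set.range ζ) = ⊤ := by
    rw [eq_top_iff]
    intro a _
    have h1 : IntermediateField.map L'.val (IntermediateField.adjoin K (Set.range ζ)) =
        IntermediateField.adjoin K (Set.range (Sum.elim z x)) := by
      rw [IntermediateField.adjoin_map, ← Set.range_comp]
      congr 2
      exact funext hζ
    have h2 : (a : L) ∈ IntermediateField.map L'.val (IntermediateField.adjoin K (Set.range ζ)) := by
      rw [h1, ← hL']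
      exact a.2
    obtain ⟨a', ha', haa⟩ := h2
    have h3 : a' = a := Subtype.ext haa
    rw [← h3]
    exact ha'
  have hL'f : IsFF κ L' := hK.of_finite
  have hval : ∀ Q : MvPolynomial (τ ⊕ Fin m) k, algebraMap L' L (aeval (Sum.elim z' x') Q) =
      aeval (Sum.elim z x) Q := by
    intro Q
    rw [← aeval_algebraMap_apply, ← hζe]
    congr 2
    exact funext hζ
  have hr' : finrank K L' ≤ finrank K L := by
    have h1 : finrank K L' * finrank L' L = finrank K L := finrank_mul_finrank K L' L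
    have h2 : 0 < finrank L' L := finrank_pos
    exact (Nat.le_mul_of_pos_right _ h2).trans h1.le
  have hr2 : finrank L' L ≤ r := by
    have h1 : finrank K L' * finrank L' L = finrank K L := finrank_mul_finrank K L' L
    have h2 : 0 < finrank K L' := finrank_pos
    exact (Nat.le_mul_of_pos_left _ h2).trans (h1.le.trans hr)
  have h1 := hC L' (hr'.trans hr) z' x' (fun Q hQ => by
    have h2 := hspec Q hQ
    rw [← hval] at h2
    exact (map_eq_zero _).1 h2) (fun h0 => hne (by rw [← hval, h0, map_zero]))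
  have hmeet : meetk κ K H d S z' x' ≤ meetk κ K H d S z x := by
    have h2 := meetk_le_ext (κ := κ) (K := K) (L' := L') hL (H := H) d S (z := z') (x := x')
      (i₀ := 0) (fun h0 => hneH (by rw [← hval, h0, map_zero]))
    have e1 : (fun i => algebraMap L' L (z' i)) = z := by
      funext i
      rw [hz']
      exact hζ (Sum.inl i)
    have e2 : (fun i => algebraMap L' L (x' i)) = x := by
      funext i
      rw [hx']
      exact hζ (Sum.inr i)
    rwa [e1, e2] at h2
  -- the ramification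
  have hram := ram_aff hK ζ htop
  have hzx : hgt κ ζ ≤ hgt κ z' + hgt κ x' := by
    rw [hζe]
    refine hgt_le_add hL'f fun w => ?_
    have h2 := one_le_vmax_aff w.1 z'
    have h3 := one_le_vmax_aff w.1 x'
    refine vmax_aff_le w.1 (one_le_mul h2 h3) fun s => ?_
    rcases s with i | i
    · exact (le_vmax_aff w.1 z' i).trans (le_mul_of_one_le_right' h3)
    · exact (le_vmax_aff w.1 x' i).trans (le_mul_of_one_le_left' h2)
  have hz0 := hgt_nonneg hL'f z'
  have hx0 := hgt_nonneg hL'f x'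
  obtain ⟨a, ha⟩ : ∃ a : ℝ, a = hgt κ z' := ⟨_, rfl⟩
  obtain ⟨b, hb⟩ : ∃ b : ℝ, b = hgt κ x' := ⟨_, rfl⟩
  have ha0 : 0 ≤ a := by
    rw [ha]
    exact_mod_cast hz0
  have hb0 : 0 ≤ b := by
    rw [hb]
    exact_mod_cast hx0
  have hR : (ramDeg κ L' K : ℝ) ≤ 2 * ((r : ℝ) - 1) * (a + b) := by
    have h2 : (ramDeg κ L' K : ℝ) ≤ 2 * ((finrank K L' : ℝ) - 1) * hgt κ ζ := by
      exact_mod_cast hram
    have h3 : (hgt κ ζ : ℝ) ≤ a + b := by
      rw [ha, hb]
      exact_mod_cast hzx
    have h4 : (1 : ℝ) ≤ finrank K L' := by exact_mod_cast (finrank_pos : 0 < finrank K L')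
    have h5 : (finrank K L' : ℝ) ≤ r := by exact_mod_cast hr'.trans hr
    have h6 : (0 : ℝ) ≤ hgt κ ζ := by exact_mod_cast hgt_nonneg hL'f ζ
    refine h2.trans (mul_le_mul (by linarith) h3 h6 (by linarith))
  obtain ⟨nn, hnn⟩ : ∃ nn : ℕ, nn = meetk κ K H d S z' x' := ⟨_, rfl⟩
  rw [← ha, ← hb, ← hnn] at h1
  rw [← hnn] at hmeet
  have hnn0 : (0 : ℝ) ≤ nn := Nat.cast_nonneg _
  have hC0 : (0 : ℝ) ≤ C := Nat.cast_nonneg _
  have hcε : c - ε = 2 * ((r : ℝ) - 1) + ε := by
    rw [hε]
    ring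
  rw [hcε] at h1
  have h2 : ε * b ≤ (2 * r + C + 1) * (1 + a + nn) := by
    have h4 : (0 : ℝ) ≤ r := Nat.cast_nonneg _
    have h3 : 2 * ((r : ℝ) - 1) * a ≤ 2 * r * (1 + a + nn) := by
      have h5 : (0 : ℝ) ≤ r * nn := mul_nonneg h4 hnn0
      nlinarith
    have h5 : (C : ℝ) * (1 + a) ≤ C * (1 + a + nn) :=
      mul_le_mul_of_nonneg_left (by linarith) hC0
    nlinarith
  have h3 : b ≤ (D : ℝ) * (1 + a + nn) := by
    have h4 : b ≤ (2 * r + C + 1) / ε * (1 + a + nn) := by
      rw [div_mul_eq_mul_div, le_div_iff₀ hε0]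
      linarith
    refine h4.trans (mul_le_mul_of_nonneg_right ?_ (by linarith))
    rw [hD]
    exact Nat.le_ceil _
  have h4 : hgt κ x' ≤ D * (1 + hgt κ z' + nn) := by
    rw [ha, hb] at h3
    exact_mod_cast h3
  have e1 : hgt κ x = finrank L' L * hgt κ x' := by
    rw [← hgt_ext hL x']
    congr 1
    funext i
    rw [hx']
    exact (hζ (Sum.inr i)).symm
  have e2 : hgt κ z = finrank L' L * hgt κ z' := by
    rw [← hgt_ext hL z']
    congr 1
    funext i
    rw [hz']
    exact (hζ (Sum.inl i)).symm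
  have h5 : (finrank L' L : ℤ) ≤ r := by exact_mod_cast hr2
  have h6 : (1 : ℤ) ≤ r := by
    have h7 : 0 < finrank K L := finrank_pos
    exact_mod_cast h7.trans_le hr
  have h7 : 0 ≤ hgt κ z := hgt_nonneg hL z
  have h8 : (0 : ℤ) ≤ D := Int.natCast_nonneg _
  have h9 : (0 : ℤ) ≤ finrank L' L := Int.natCast_nonneg _
  have h10 : (nn : ℤ) ≤ meetk κ K H d S z x := by exact_mod_cast hmeet
  have h11 : (0 : ℤ) ≤ nn := Int.natCast_nonneg _
  calc hgt κ x = finrank L' L * hgt κ x' := e1
    _ ≤ finrank L' L * (D * (1 + hgt κ z' + nn)) := mul_le_mul_of_nonneg_left h4 h9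
    _ = D * (finrank L' L + hgt κ z + finrank L' L * nn) := by
      rw [e2]
      ring
    _ ≤ D * (r * (1 + hgt κ z + meetk κ K H d S z x)) := by
      refine mul_le_mul_of_nonneg_left ?_ h8
      have h12 : (finrank L' L : ℤ) * nn ≤ r * meetk κ K H d S z x :=
        mul_le_mul h5 h10 h11 (by linarith)
      nlinarith
    _ = ((D * r : ℕ) : ℤ) * (1 + hgt κ z + meetk κ K H d S z x) := by
      push_cast
      ring

end Pool.Agent.Lib.MP_44a246_ntFB
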