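import Mathlib
import Pool.Agent.Lib.MP_44a246_ntFB.FB05

/-!
# Towers of families of curves
-/

namespace Pool.Agent.Lib.MP_44a246_ntFB

open Pool.Agent.Lib.MP_e52354_nt
open Pool.Agent.Lib.MP_44a246_nt
open Pool.Agent.Lib.MP_44a246_ntL
open Pool.Agent.Lib.MP_44a246_ntMY
open WithZero MvPolynomial Module

universe u v w

section Index

variable {σ L : Type*} {n : ℕ → ℕ}

/-- the variables of the first `l` stages among those of the first `l'` stages -/
def emb (σ : Type*) {n : ℕ → ℕ} {l l' : ℕ} (h : l ≤ l') :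
    σ ⊕ (Σ i : Fin l, Fin (n i)) → σ ⊕ (Σ i : Fin l', Fin (n i)) :=
  Sum.map id fun q => ⟨Fin.castLE h q.1, q.2⟩

/-- the variables of the stage `l` -/
def st (σ : Type*) {n : ℕ → ℕ} {l l' : ℕ} (h : l < l') :
    Fin (n l) → σ ⊕ (Σ i : Fin l', Fin (n i)) := fun i => Sum.inr ⟨⟨l, h⟩, i⟩

theorem low_emb (y : σ → L) (x : ∀ l : ℕ, Fin (n l) → L) {l l' : ℕ} (h : l ≤ l') :
    low y x l' ∘ emb σ h = low y x l := by
  funext s
  rcases s with i | ⟨i, j⟩ <;> rfl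

theorem low_st (y : σ → L) (x : ∀ l : ℕ, Fin (n l) → L) {l l' : ℕ} (h : l < l') :
    low y x l' ∘ st σ h = x l := rfl

theorem low_both (y : σ → L) (x : ∀ l : ℕ, Fin (n l) → L) {l l' : ℕ} (h : l < l') :
    low y x l' ∘ Sum.elim (emb σ h.le) (st σ h) = Sum.elim (low y x l) (x l) := by
  funext s
  rcases s with s | i
  · exact congrFun (low_emb y x h.le) s
  · rfl

/-- every variable of the first `l + 1` stages is a variable of the first `l` stages or of the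
stage `l` -/
theorem low_cases {l : ℕ} (s : σ ⊕ (Σ i : Fin (l + 1), Fin (n i))) :
    (∃ s', s = emb σ (Nat.le_succ l) s') ∨ ∃ i, s = st σ (Nat.lt_succ_self l) i := by
  rcases s with i | ⟨i, j⟩
  · exact Or.inl ⟨Sum.inl i, rfl⟩
  · obtain ⟨i, hi⟩ := i
    rcases Nat.lt_succ_iff_lt_or_eq.1 hi with h1 | h1
    · exact Or.inl ⟨Sum.inr ⟨⟨i, h1⟩, j⟩, rfl⟩
    · subst h1
      exact Or.inr ⟨j, rfl⟩

end Index

section Height

variable {κ L σ : Type*} [Field κ] [IsAlgClosed κ] [CharZero κ] [Field L] [Algebra κ L]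
  [Fintype σ] {n : ℕ → ℕ}

theorem hgt_low_succ (hL : IsFF κ L) (y : σ → L) (x : ∀ l : ℕ, Fin (n l) → L) (l : ℕ) :
    hgt κ (low y x (l + 1)) ≤ hgt κ (low y x l) + hgt κ (x l) := by
  refine hgt_le_add hL fun w => ?_
  have h2 := one_le_vmax_aff w.1 (low y x l)
  have h3 := one_le_vmax_aff w.1 (x l)
  refine vmax_aff_le w.1 (one_le_mul h2 h3) fun s => ?_
  rcases low_cases s with ⟨s', hs⟩ | ⟨i, hs⟩
  · have h4 : low y x (l + 1) s = low y x l s' := by
      rw [hs]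
      exact congrFun (low_emb y x (Nat.le_succ l)) s'
    rw [h4]
    exact (le_vmax_aff w.1 (low y x l) s').trans (le_mul_of_one_le_right' h3)
  · have h4 : low y x (l + 1) s = x l i := by
      rw [hs]
      rfl
    rw [h4]
    exact (le_vmax_aff w.1 (x l) i).trans (le_mul_of_one_le_left' h2)

theorem hgt_low_zero (hL : IsFF κ L) (y : σ → L) (x : ∀ l : ℕ, Fin (n l) → L) :
    hgt κ (low y x 0) ≤ hgt κ y := by
  refine hgt_mono hL fun w => vmax_aff_le w.1 (one_le_vmax_aff w.1 y) fun s => ?_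
  rcases s with i | ⟨i, j⟩
  · exact le_vmax_aff w.1 y i
  · exact i.elim0

theorem hgt_st_le (hL : IsFF κ L) (y : σ → L) (x : ∀ l : ℕ, Fin (n l) → L) {l l' : ℕ}
    (h : l < l') : hgt κ (x l) ≤ hgt κ (low y x l') := by
  refine hgt_mono hL fun w => vmax_aff_le w.1 (one_le_vmax_aff w.1 _) fun i => ?_
  exact le_vmax_aff w.1 (low y x l') (st σ h i)

end Height

/-- **Towers of families of curves: the height of the points of bounded degree** of the lower stages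
is bounded by the height of the parameters and the counting functions of the lower stages. -/
theorem low_tower {κ : Type u} {K : Type v} [Field κ] [IsAlgClosed κ] [CharZero κ] [Field K]
    [CharZero K] [Algebra κ K] (hK : IsFF κ K) (hMY : MYP.{u, v} κ) {k σ E₀ : Type*} [Field k]
    [Countable k] [Algebra k K] [Fintype σ] [Field E₀] [Algebra k E₀] {n p : ℕ → ℕ}
    {y₀ : σ → E₀} {x₀ : ∀ l : ℕ, Fin (n l) → E₀} (r : ℕ) {c : ℕ → ℝ}
    {H : ∀ l : ℕ, Fin (p l + 1) → MvPolynomial ((σ ⊕ (Σ i : Fin l, Fin (n i))) ⊕ Fin (n l)) k}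
    {d : ∀ l : ℕ, Fin (p l + 1) → ℕ} {S : Set (Place κ K)} (hS : S.Finite) (l : ℕ)
    (hdim : ∀ i < l, ∀ j j', ¬ AlgebraicIndependent
      (IntermediateField.adjoin k (Set.range (low y₀ x₀ i))) ![x₀ i j, x₀ i j'])
    (hH0 : ∀ i < l, ∀ j, aeval (Sum.elim (low y₀ x₀ i) (x₀ i)) (H i j) ≠ 0)
    (hcr : ∀ i < l, 2 * ((r : ℝ) - 1) < c i)
    (hc : ∀ i < l, SlopeJ.{v} k (low y₀ x₀ i) (x₀ i) (H i) (d i) (c i)) :
    ∃ (h : MvPolynomial (σ ⊕ (Σ i : Fin l, Fin (n i))) k) (C : ℕ), aeval (low y₀ x₀ l) h ≠ 0 ∧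
      ∀ (L : Type w) [Field L] [Algebra K L] [FiniteDimensional K L] [Algebra κ L]
        [IsScalarTower κ K L] [Algebra k L] [IsScalarTower k K L], finrank K L ≤ r →
      ∀ (y : σ → L) (x : ∀ l : ℕ, Fin (n l) → L),
        (∀ Q : MvPolynomial (σ ⊕ (Σ i : Fin l, Fin (n i))) k, aeval (low y₀ x₀ l) Q = 0 →
          aeval (low y x l) Q = 0) → aeval (low y x l) h ≠ 0 →
        hgt κ (low y x l) ≤ C * (1 + hgt κ y +
          ∑ i ∈ Finset.range l, (meetk κ K (H i) (d i) S (low y x i) (x i) : ℤ)) := by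
  classical
  induction l with
  | zero =>
    refine ⟨1, 1, ?_, ?_⟩
    · rw [map_one]
      exact one_ne_zero
    intro L _ _ _ _ _ _ _ _ y x _ _
    have hL : IsFF κ L := hK.of_finite
    have h1 := hgt_low_zero hL y x
    rw [Finset.sum_range_zero]
    push_cast
    linarith
  | succ l ih =>
    obtain ⟨h₁, C₁, h₁0, hC₁⟩ := ih (fun i hi => hdim i (hi.trans (Nat.lt_succ_self l)))
      (fun i hi => hH0 i (hi.trans (Nat.lt_succ_self l)))
      (fun i hi => hcr i (hi.trans (Nat.lt_succ_self l)))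
      (fun i hi => hc i (hi.trans (Nat.lt_succ_self l)))
    obtain ⟨h₂, C₂, h₂0, hC₂⟩ := low_stage.{u, v, w} hK hMY r (hdim l (Nat.lt_succ_self l))
      (hH0 l (Nat.lt_succ_self l)) (hcr l (Nat.lt_succ_self l)) (hc l (Nat.lt_succ_self l)) hS
    refine ⟨rename (emb σ (Nat.le_succ l)) h₁ *
      rename (Sum.elim (emb σ (Nat.le_succ l)) (st σ (Nat.lt_succ_self l))) h₂,
      C₁ + C₂ * (1 + C₁), ?_, ?_⟩
    · rw [map_mul, aeval_rename, aeval_rename, low_emb, low_both]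
      exact mul_ne_zero h₁0 h₂0
    intro L _ _ _ _ _ _ _ hr y x hspec hne
    have hL : IsFF κ L := hK.of_finite
    rw [map_mul, aeval_rename, aeval_rename, low_emb, low_both] at hne
    have e1 := hC₁ L hr y x (fun Q hQ => by
      have h1 := hspec (rename (emb σ (Nat.le_succ l)) Q) (by
        rw [aeval_rename, low_emb]
        exact hQ)
      rwa [aeval_rename, low_emb] at h1) (left_ne_zero_of_mul hne)
    have e2 := hC₂ L hr (low y x l) (x l) (fun Q hQ => by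
      have h1 := hspec (rename (Sum.elim (emb σ (Nat.le_succ l))
        (st σ (Nat.lt_succ_self l))) Q) (by
        rw [aeval_rename, low_both]
        exact hQ)
      rwa [aeval_rename, low_both] at h1) (right_ne_zero_of_mul hne)
    have e3 := hgt_low_succ hL y x l
    have h0 := hgt_nonneg hL y
    obtain ⟨A, hA⟩ : ∃ A : ℤ, A = 1 + hgt κ y +
      ∑ i ∈ Finset.range l, (meetk κ K (H i) (d i) S (low y x i) (x i) : ℤ) := ⟨_, rfl⟩
    obtain ⟨B, hB⟩ : ∃ B : ℕ, B = meetk κ K (H l) (d l) S (low y x l) (x l) := ⟨_, rfl⟩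
    have hA1 : 1 ≤ A := by
      rw [hA]
      have h1 : (0 : ℤ) ≤ ∑ i ∈ Finset.range l,
        (meetk κ K (H i) (d i) S (low y x i) (x i) : ℤ) :=
        Finset.sum_nonneg fun i _ => Int.natCast_nonneg _
      linarith
    rw [← hA] at e1
    rw [← hB] at e2
    rw [Finset.sum_range_succ, ← add_assoc, ← hA, ← hB]
    have hB0 : (0 : ℤ) ≤ B := Int.natCast_nonneg _
    have h4 : (0 : ℤ) ≤ C₂ := Int.natCast_nonneg _
    have h5 : (0 : ℤ) ≤ C₁ := Int.natCast_nonneg _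
    have e4 : (C₂ : ℤ) * (1 + hgt κ (low y x l) + B) ≤ C₂ * (1 + C₁ * A + B) :=
      mul_le_mul_of_nonneg_left (by linarith) h4
    have e6 : (0 : ℤ) ≤ C₁ * B := mul_nonneg h5 hB0
    have e5 : (C₂ : ℤ) * (1 + C₁ * A + B) ≤ C₂ * ((1 + C₁) * (A + B)) :=
      mul_le_mul_of_nonneg_left (by nlinarith) h4
    have e7 : (C₁ : ℤ) * A ≤ C₁ * (A + B) := mul_le_mul_of_nonneg_left (by linarith) h5
    have e8 : ((C₁ + C₂ * (1 + C₁) : ℕ) : ℤ) * (A + B) =
        C₁ * (A + B) + C₂ * ((1 + C₁) * (A + B)) := by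
      push_cast
      ring
    rw [e8]
    linarith

/-- **Towers of families of curves.** -/
theorem tower {κ : Type u} {K : Type v} [Field κ] [IsAlgClosed κ] [CharZero κ] [Field K]
    [CharZero K] [Algebra κ K] (hK : IsFF κ K) (hMY : MYP.{u, v} κ) {k σ E₀ : Type*} [Field k]
    [Countable k] [Algebra k K] [Fintype σ] [Field E₀] [Algebra k E₀] {n p : ℕ → ℕ}
    {y₀ : σ → E₀} {x₀ : ∀ l : ℕ, Fin (n l) → E₀} (r s : ℕ) {c : ℕ → ℝ}
    {H : ∀ l : ℕ, Fin (p l + 1) → MvPolynomial ((σ ⊕ (Σ i : Fin l, Fin (n i))) ⊕ Fin (n l)) k}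
    {d : ∀ l : ℕ, Fin (p l + 1) → ℕ}
    (hdim : ∀ l ≤ s, ∀ j j', ¬ AlgebraicIndependent
      (IntermediateField.adjoin k (Set.range (low y₀ x₀ l))) ![x₀ l j, x₀ l j'])
    (hH0 : ∀ l ≤ s, ∀ j, aeval (Sum.elim (low y₀ x₀ l) (x₀ l)) (H l j) ≠ 0)
    (hc : ∀ l ≤ s, SlopeJ.{v} k (low y₀ x₀ l) (x₀ l) (H l) (d l) (c l))
    (hcr : ∀ l < s, 2 * ((r : ℝ) - 1) < c l)
    {S : Set (Place κ K)} (hS : S.Finite) {ε : ℝ} (hε : 0 < ε) :
    ∃ (h : MvPolynomial (σ ⊕ (Σ i : Fin (s + 1), Fin (n i))) k) (C : ℕ),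
      aeval (low y₀ x₀ (s + 1)) h ≠ 0 ∧
      ∀ (L : Type w) [Field L] [Algebra K L] [FiniteDimensional K L] [Algebra κ L]
        [IsScalarTower κ K L] [Algebra k L] [IsScalarTower k K L], finrank K L ≤ r →
      ∀ (y : σ → L) (x : ∀ l : ℕ, Fin (n l) → L),
        (∀ Q : MvPolynomial (σ ⊕ (Σ i : Fin (s + 1), Fin (n i))) k,
          aeval (low y₀ x₀ (s + 1)) Q = 0 → aeval (low y x (s + 1)) Q = 0) →
        aeval (low y x (s + 1)) h ≠ 0 →
        (∀ l < s, (hgt κ (x l) : ℝ) ≤ C * (1 + hgt κ y +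
          ∑ i ∈ Finset.range s, (meetk κ K (H i) (d i) S (low y x i) (x i) : ℝ))) ∧
        (c s - ε) * hgt κ (x s) ≤ meetk κ K (H s) (d s) S (low y x s) (x s) + ramDeg κ L K +
          C * (1 + hgt κ y +
            ∑ i ∈ Finset.range s, (meetk κ K (H i) (d i) S (low y x i) (x i) : ℝ)) := by
  classical
  obtain ⟨h₁, C₁, h₁0, hC₁⟩ := low_tower.{u, v, w} hK hMY (y₀ := y₀) (x₀ := x₀) r hS s
    (fun l hl => hdim l hl.le) (fun l hl => hH0 l hl.le) hcr (fun l hl => hc l hl.le)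
  obtain ⟨h₂, C₂, h₂0, hC₂⟩ := fibre.{u, v, w} hK hMY r (hdim s le_rfl) (hH0 s le_rfl) hε
    (hc s le_rfl) hS
  refine ⟨rename (emb σ (Nat.le_succ s)) h₁ *
    rename (Sum.elim (emb σ (Nat.le_succ s)) (st σ (Nat.lt_succ_self s))) h₂,
    C₁ + C₂ * (1 + C₁), ?_, ?_⟩
  · rw [map_mul, aeval_rename, aeval_rename, low_emb, low_both]
    exact mul_ne_zero h₁0 h₂0
  intro L _ _ _ _ _ _ _ hr y x hspec hne
  have hL : IsFF κ L := hK.of_finite
  rw [map_mul, aeval_rename, aeval_rename, low_emb, low_both] at hne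
  have e1 := hC₁ L hr y x (fun Q hQ => by
    have h1 := hspec (rename (emb σ (Nat.le_succ s)) Q) (by
      rw [aeval_rename, low_emb]
      exact hQ)
    rwa [aeval_rename, low_emb] at h1) (left_ne_zero_of_mul hne)
  have e2 := hC₂ L hr (low y x s) (x s) (fun Q hQ => by
    have h1 := hspec (rename (Sum.elim (emb σ (Nat.le_succ s))
      (st σ (Nat.lt_succ_self s))) Q) (by
      rw [aeval_rename, low_both]
      exact hQ)
    rwa [aeval_rename, low_both] at h1) (right_ne_zero_of_mul hne)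
  have h0 := hgt_nonneg hL y
  have h0' : (0 : ℝ) ≤ hgt κ y := by exact_mod_cast h0
  obtain ⟨A, hA⟩ : ∃ A : ℝ, A = 1 + hgt κ y +
    ∑ i ∈ Finset.range s, (meetk κ K (H i) (d i) S (low y x i) (x i) : ℝ) := ⟨_, rfl⟩
  have hA1 : 1 ≤ A := by
    rw [hA]
    have h1 : (0 : ℝ) ≤ ∑ i ∈ Finset.range s,
      (meetk κ K (H i) (d i) S (low y x i) (x i) : ℝ) :=
      Finset.sum_nonneg fun i _ => Nat.cast_nonneg _
    linarith
  have e1' : (hgt κ (low y x s) : ℝ) ≤ C₁ * A := by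
    rw [hA]
    exact_mod_cast e1
  rw [← hA]
  have h5 : (0 : ℝ) ≤ C₂ := Nat.cast_nonneg _
  have h6 : (0 : ℝ) ≤ C₁ := Nat.cast_nonneg _
  have h7 : (0 : ℝ) ≤ C₂ * (1 + C₁) * A := mul_nonneg (mul_nonneg h5 (by linarith)) (by linarith)
  have e8 : ((C₁ + C₂ * (1 + C₁) : ℕ) : ℝ) * A = C₁ * A + C₂ * (1 + C₁) * A := by
    push_cast
    ring
  rw [e8]
  constructor
  · intro l hl
    have e3 : (hgt κ (x l) : ℝ) ≤ hgt κ (low y x s) := by exact_mod_cast hgt_st_le hL y x hl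
    linarith
  · have e4 : (C₂ : ℝ) * (1 + (hgt κ (low y x s) : ℝ)) ≤ C₂ * ((1 + C₁) * A) :=
      mul_le_mul_of_nonneg_left (by nlinarith) h5
    have h8 : (0 : ℝ) ≤ C₁ * A := mul_nonneg h6 (by linarith)
    linarith

end Pool.Agent.Lib.MP_44a246_ntFB
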