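import Mathlib
import Pool.Agent.Lib.MP_44a246_ntFB.FB10

/-!
# The geometric generic fibre
-/

namespace Pool.Agent.Lib.MP_44a246_ntFB

open Pool.Agent.Lib.MP_44a246_nt
open Pool.Agent.Lib.MP_44a246_ntL
open Pool.Agent.Lib.MP_44a246_ntMB
open WithZero MvPolynomial Module

/-- lifting along an injective homomorphism -/
theorem exists_lift {A B C : Type*} [CommRing A] [Field B] [Field C] (h : A →+* C) (i : B →+* C)
    (hr : ∀ a, ∃ b, i b = h a) : ∃ f : A →+* B, ∀ a, i (f a) = h a := by
  choose f hf using hr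
  have hi := i.injective
  exact ⟨{ toFun := f
           map_one' := hi (by rw [hf, map_one, map_one])
           map_mul' := fun a b => hi (by rw [hf, map_mul, map_mul, hf, hf])
           map_zero' := hi (by rw [hf, map_zero, map_zero])
           map_add' := fun a b => hi (by rw [hf, map_add, map_add, hf, hf]) }, hf⟩

/-- the homomorphism given by a point with the same relations -/
theorem exists_hom_rel {k A C σ : Type*} [Field k] [Field A] [Algebra k A] [Field C] [Algebra k C]
    {a : σ → A} {b : σ → C} (hgen : IntermediateField.adjoin k (Set.range a) = ⊤)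
    (h : ∀ Q : MvPolynomial σ k, aeval a Q = 0 ↔ aeval b Q = 0) :
    ∃ φ : A →ₐ[k] C, ∀ s, φ (a s) = b s := by
  obtain ⟨φ, hφ⟩ : ∃ φ : MvPolynomial σ k →+* A, ∀ Q, φ Q = aeval a Q :=
    ⟨(aeval a : MvPolynomial σ k →ₐ[k] A).toRingHom, fun _ => rfl⟩
  obtain ⟨ψ, hψ⟩ : ∃ ψ : MvPolynomial σ k →+* C, ∀ Q, ψ Q = aeval b Q :=
    ⟨(aeval b : MvPolynomial σ k →ₐ[k] C).toRingHom, fun _ => rfl⟩
  have hker : RingHom.ker φ.rangeRestrict ≤ RingHom.ker ψ := by
    intro p hp
    rw [RingHom.mem_ker] at hp ⊢
    have h1 : φ p = 0 := congrArg Subtype.val hp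
    rw [hφ] at h1
    rw [hψ]
    exact (h p).1 h1
  let g : φ.range →+* C :=
    RingHom.liftOfSurjective φ.rangeRestrict φ.rangeRestrict_surjective ⟨ψ, hker⟩
  have hg : ∀ p, g (φ.rangeRestrict p) = ψ p := fun p =>
    RingHom.liftOfRightInverse_comp_apply _ _ _ ⟨ψ, hker⟩ p
  have hginj : Function.Injective g := by
    rw [injective_iff_map_eq_zero]
    intro y hy
    obtain ⟨p, rfl⟩ := φ.rangeRestrict_surjective y
    rw [hg, hψ] at hy
    refine Subtype.ext ?_
    show φ p = 0
    rw [hφ]
    exact (h p).2 hy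
  have hadj : ∀ z ∈ Algebra.adjoin k (Set.range a), z ∈ φ.range := by
    intro z hz
    induction hz using Algebra.adjoin_induction with
    | mem x hx =>
      obtain ⟨s, rfl⟩ := hx
      exact ⟨X s, by rw [hφ, aeval_X]⟩
    | algebraMap r => exact ⟨MvPolynomial.C r, by rw [hφ, aeval_C]⟩
    | add x y _ _ hx hy => exact add_mem hx hy
    | mul x y _ _ hx hy => exact mul_mem hx hy
  have : IsFractionRing φ.range A := by
    apply IsFractionRing.of_field
    intro z
    have hz : z ∈ IntermediateField.adjoin k (Set.range a) := by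
      rw [hgen]
      trivial
    rw [IntermediateField.mem_adjoin_iff_div] at hz
    obtain ⟨r, hr, q, hq, rfl⟩ := hz
    exact ⟨⟨r, hadj r hr⟩, ⟨q, hadj q hq⟩, rfl⟩
  obtain ⟨σ', hσ'⟩ : ∃ σ' : A →+* C, ∀ p, σ' (φ p) = ψ p :=
    ⟨IsFractionRing.lift hginj, fun p => by
      have h1 := IsFractionRing.lift_algebraMap (K := A) hginj (φ.rangeRestrict p)
      rw [hg] at h1
      exact h1⟩
  refine ⟨⟨σ', fun c => ?_⟩, fun s => ?_⟩
  · show σ' (algebraMap k A c) = algebraMap k C c
    have h1 := hσ' (MvPolynomial.C c)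
    rw [hφ, hψ, aeval_C, aeval_C] at h1
    exact h1
  · show σ' (a s) = b s
    have h1 := hσ' (X s)
    rw [hφ, hψ, aeval_X, aeval_X] at h1
    exact h1

/-- the extension to the algebraic closure -/
theorem exists_hom_closure {k N C σ : Type*} [Field k] [Field N] [Algebra k N] [Field C]
    [IsAlgClosed C] [Algebra k C] {a : σ → N} {b : σ → C}
    (halg : Algebra.IsAlgebraic (IntermediateField.adjoin k (Set.range a)) N)
    (h : ∀ Q : MvPolynomial σ k, aeval a Q = 0 ↔ aeval b Q = 0) :
    ∃ φ : N →ₐ[k] C, ∀ s, φ (a s) = b s := by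
  obtain ⟨A, hA⟩ : ∃ A : IntermediateField k N, A = IntermediateField.adjoin k (Set.range a) :=
    ⟨_, rfl⟩
  rw [← hA] at halg
  have hm : ∀ s, a s ∈ A := fun s => by
    rw [hA]
    exact IntermediateField.subset_adjoin _ _ ⟨s, rfl⟩
  obtain ⟨a', ha'⟩ : ∃ a' : σ → A, ∀ s, (a' s : N) = a s := ⟨fun s => ⟨_, hm s⟩, fun _ => rfl⟩
  have htop : IntermediateField.adjoin k (Set.range a') = ⊤ := by
    rw [eq_top_iff]
    intro z _
    have h1 : IntermediateField.map A.val (IntermediateField.adjoin k (Set.range a')) =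
        IntermediateField.adjoin k (Set.range a) := by
      rw [IntermediateField.adjoin_map, ← Set.range_comp]
      congr 2
      exact funext ha'
    have h2 : (z : N) ∈ IntermediateField.map A.val (IntermediateField.adjoin k (Set.range a')) := by
      rw [h1, ← hA]
      exact z.2
    obtain ⟨z', hz', hzz⟩ := h2
    have h3 : z' = z := Subtype.ext hzz
    rw [← h3]
    exact hz'
  have hrel : ∀ Q : MvPolynomial σ k, aeval a' Q = 0 ↔ aeval b Q = 0 := by
    intro Q
    rw [← h Q]
    have h1 : algebraMap A N (aeval a' Q) = aeval a Q := by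
      rw [← aeval_algebraMap_apply]
      congr 2
      exact funext ha'
    rw [← h1]
    exact (map_eq_zero (algebraMap A N)).symm
  obtain ⟨φ, hφ⟩ := exists_hom_rel htop hrel
  let i1 : Algebra A C := φ.toRingHom.toAlgebra
  have i2 : IsScalarTower k A C := IsScalarTower.of_algebraMap_eq fun c => (φ.commutes c).symm
  refine ⟨(IsAlgClosed.lift : N →ₐ[A] C).restrictScalars k, fun s => ?_⟩
  rw [AlgHom.restrictScalars_apply, ← ha' s]
  have h1 := (IsAlgClosed.lift : N →ₐ[A] C).commutes (a' s)
  refine h1.trans ?_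
  exact hφ s

/-- an element which is algebraic over an algebraically closed field -/
theorem exists_of_alg {F C : Type*} [Field F] [IsAlgClosed F] [Field C] [Algebra F C] {a : C}
    (ha : IsAlgebraic F a) : ∃ b, algebraMap F C b = a := by
  have h1 : IsIntegral F a := ha.isIntegral
  have h2 : (minpoly F a).degree = 1 :=
    IsAlgClosed.degree_eq_one_of_irreducible F (minpoly.irreducible h1)
  obtain ⟨b, hb⟩ := minpoly.mem_range_of_degree_eq_one F a h2
  exact ⟨b, hb⟩

/-- The field generated by the coordinates of the generic point over the algebraic closure of the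
field of the parameters maps to the function field of every model. -/
theorem exists_model_maps {k N F M τ : Type*} [Field k] [Field N] [Algebra k N] {m : ℕ}
    {z₁ : τ → N} {x₁ : Fin m → N}
    (halg : Algebra.IsAlgebraic (IntermediateField.adjoin k (Set.range (Sum.elim z₁ x₁))) N)
    {F₁ : IntermediateField k N}
    (hF₁ : ∀ a ∈ F₁, IsAlgebraic (IntermediateField.adjoin k (Set.range z₁)) a)
    {M₁ : IntermediateField F₁ N} (hM₁ : M₁ = IntermediateField.adjoin F₁ (Set.range x₁))
    [Field F] [IsAlgClosed F] [Field M] [Algebra k F] [Algebra F M] [Algebra k M]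
    [IsScalarTower k F M] {z : τ → F} {x : Fin m → M}
    (hrel : SameRel k z₁ x₁ (fun i => algebraMap F M (z i)) x) :
    ∃ (f : F₁ →ₐ[k] F) (g : M₁ →ₐ[k] M),
      (∀ a : F₁, g (algebraMap F₁ M₁ a) = algebraMap F M (f a)) ∧
      (∀ i (b : M₁), (b : N) = z₁ i → g b = algebraMap F M (z i)) ∧
      (∀ j (b : M₁), (b : N) = x₁ j → g b = x j) := by
  obtain ⟨Φ, hΦ⟩ := exists_hom_closure (C := AlgebraicClosure M)
    (b := fun s => algebraMap M (AlgebraicClosure M)
      (Sum.elim (fun i => algebraMap F M (z i)) x s)) halg (fun Q => by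
      rw [hrel Q]
      have h1 := aeval_algebraMap_apply (B := AlgebraicClosure M)
        (Sum.elim (fun i => algebraMap F M (z i)) x) Q
      have h2 : (aeval fun s => algebraMap M (AlgebraicClosure M)
        (Sum.elim (fun i => algebraMap F M (z i)) x s)) Q = algebraMap M (AlgebraicClosure M)
          (aeval (Sum.elim (fun i => algebraMap F M (z i)) x) Q) := h1
      rw [h2]
      exact (map_eq_zero (algebraMap M (AlgebraicClosure M))).symm)
  -- the field of the parameters
  have hz : ∀ i, Φ (z₁ i) = algebraMap M (AlgebraicClosure M) (algebraMap F M (z i)) := fun i =>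
    hΦ (Sum.inl i)
  have hx : ∀ j, Φ (x₁ j) = algebraMap M (AlgebraicClosure M) (x j) := fun j => hΦ (Sum.inr j)
  have hk : ∀ c : k, Φ (algebraMap k N c) = algebraMap M (AlgebraicClosure M)
      (algebraMap F M (algebraMap k F c)) := fun c => by
    rw [Φ.commutes, ← IsScalarTower.algebraMap_apply k F M,
      IsScalarTower.algebraMap_apply k M (AlgebraicClosure M)]
  have hparam : ∀ a : IntermediateField.adjoin k (Set.range z₁), ∃ b : F,
      ((algebraMap M (AlgebraicClosure M)).comp (algebraMap F M)) b = Φ.toRingHom (a : N) := by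
    intro a
    have h1 : ∀ a' ∈ IntermediateField.adjoin k (Set.range z₁), ∃ b : F,
        ((algebraMap M (AlgebraicClosure M)).comp (algebraMap F M)) b = Φ.toRingHom a' := by
      intro a' ha'
      induction ha' using IntermediateField.adjoin_induction with
      | mem u hu =>
        obtain ⟨i, rfl⟩ := hu
        exact ⟨z i, (hz i).symm⟩
      | algebraMap c => exact ⟨algebraMap k F c, (hk c).symm⟩
      | add u v _ _ h h' =>
        obtain ⟨b, hb⟩ := h
        obtain ⟨b', hb'⟩ := h'
        exact ⟨b + b', by rw [map_add, map_add, hb, hb']⟩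
      | inv u _ h =>
        obtain ⟨b, hb⟩ := h
        exact ⟨b⁻¹, by rw [map_inv₀, map_inv₀, hb]⟩
      | mul u v _ _ h h' =>
        obtain ⟨b, hb⟩ := h
        obtain ⟨b', hb'⟩ := h'
        exact ⟨b * b', by rw [map_mul, map_mul, hb, hb']⟩
    exact h1 a a.2
  obtain ⟨f₀, hf₀⟩ := exists_lift (Φ.toRingHom.comp
    (algebraMap (IntermediateField.adjoin k (Set.range z₁)) N))
    ((algebraMap M (AlgebraicClosure M)).comp (algebraMap F M)) hparam
  let iC : Algebra F (AlgebraicClosure M) :=
    ((algebraMap M (AlgebraicClosure M)).comp (algebraMap F M)).toAlgebra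
  have hF : ∀ a : F₁, ∃ b : F,
      ((algebraMap M (AlgebraicClosure M)).comp (algebraMap F M)) b = Φ.toRingHom (a : N) := by
    intro a
    have h1 : IsAlgebraic F (Φ.toRingHom (a : N)) :=
      (hF₁ a a.2).ringHom_of_comp_eq f₀ Φ.toRingHom f₀.injective (RingHom.ext fun c => hf₀ c)
    exact exists_of_alg h1
  obtain ⟨f, hf⟩ := exists_lift (Φ.toRingHom.comp (algebraMap F₁ N))
    ((algebraMap M (AlgebraicClosure M)).comp (algebraMap F M)) hF
  have hM : ∀ a : M₁, ∃ b : M, algebraMap M (AlgebraicClosure M) b = Φ.toRingHom (a : N) := by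
    intro a
    have h1 : ∀ a' ∈ IntermediateField.adjoin F₁ (Set.range x₁), ∃ b : M,
        algebraMap M (AlgebraicClosure M) b = Φ.toRingHom a' := by
      intro a' ha'
      induction ha' using IntermediateField.adjoin_induction with
      | mem u hu =>
        obtain ⟨i, rfl⟩ := hu
        exact ⟨x i, (hx i).symm⟩
      | algebraMap c =>
        obtain ⟨b, hb⟩ := hF c
        exact ⟨algebraMap F M b, hb⟩
      | add u v _ _ h h' =>
        obtain ⟨b, hb⟩ := h
        obtain ⟨b', hb'⟩ := h'
        exact ⟨b + b', by rw [map_add, map_add, hb, hb']⟩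
      | inv u _ h =>
        obtain ⟨b, hb⟩ := h
        exact ⟨b⁻¹, by rw [map_inv₀, map_inv₀, hb]⟩
      | mul u v _ _ h h' =>
        obtain ⟨b, hb⟩ := h
        obtain ⟨b', hb'⟩ := h'
        exact ⟨b * b', by rw [map_mul, map_mul, hb, hb']⟩
    exact h1 a (by
      rw [← hM₁]
      exact a.2)
  obtain ⟨g, hg⟩ := exists_lift (Φ.toRingHom.comp (algebraMap M₁ N))
    (algebraMap M (AlgebraicClosure M)) hM
  have hinj := (algebraMap M (AlgebraicClosure M)).injective
  have hinj' := ((algebraMap M (AlgebraicClosure M)).comp (algebraMap F M)).injective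
  refine ⟨{ f with commutes' := fun c => hinj' ?_ }, { g with commutes' := fun c => hinj ?_ },
    fun a => hinj ?_, fun i b hb => hinj ?_, fun j b hb => hinj ?_⟩
  · refine (hf (algebraMap k F₁ c)).trans ?_
    exact hk c
  · refine (hg (algebraMap k M₁ c)).trans ?_
    refine (hk c).trans ?_
    rw [← IsScalarTower.algebraMap_apply k F M]
  · refine (hg (algebraMap F₁ M₁ a)).trans ?_
    exact (hf a).symm
  · refine (hg b).trans ?_
    show Φ (b : N) = _
    rw [hb]
    exact hz i
  · refine (hg b).trans ?_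
    show Φ (b : N) = _
    rw [hb]
    exact hx j

end Pool.Agent.Lib.MP_44a246_ntFB
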