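import Mathlib
import Pool.Agent.Lib.MP_44a246_ntFB.FB11
import Pool.Agent.Lib.MP_44a246_ntFB.FB03

/-!
# The comparison of two models of the geometric generic fibre
-/

namespace Pool.Agent.Lib.MP_44a246_ntFB

open Pool.Agent.Lib.MP_44a246_nt
open Pool.Agent.Lib.MP_44a246_ntL
open Pool.Agent.Lib.MP_44a246_ntMB
open WithZero MvPolynomial Module

universe u

/-- algebraic dependence over the field of the parameters -/
theorem dep_iff {k E τ ι : Type*} [Field k] [Field E] [Algebra k E] {z₀ : τ → E} {w : ι → E} :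
    ¬ AlgebraicIndependent (IntermediateField.adjoin k (Set.range z₀)) w ↔
    ∃ g : MvPolynomial ι (MvPolynomial τ k), (∃ J, aeval z₀ (g.coeff J) ≠ 0) ∧
      eval w (g.map (aeval z₀ : MvPolynomial τ k →ₐ[k] E).toRingHom) = 0 := by
  classical
  constructor
  · intro h
    rw [algebraicIndependent_iff] at h
    push Not at h
    obtain ⟨Q, hQ, hQ0⟩ := h
    have hq : ∀ J, ∃ r s : MvPolynomial τ k, aeval z₀ s ≠ 0 ∧
        ((Q.coeff J : IntermediateField.adjoin k (Set.range z₀)) : E) =
          aeval z₀ r / aeval z₀ s := by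
      intro J
      obtain ⟨r, s, hrs⟩ := (IntermediateField.mem_adjoin_range_iff k z₀ _).1 (Q.coeff J).2
      by_cases hs : aeval z₀ s = 0
      · refine ⟨0, 1, ?_, ?_⟩
        · rw [map_one]
          exact one_ne_zero
        · rw [hrs, hs, div_zero, map_zero, zero_div]
      · exact ⟨r, s, hs, hrs⟩
    choose r s hs hrs using hq
    obtain ⟨c, hc⟩ : ∃ c : E, c = ∏ J ∈ Q.support, aeval z₀ (s J) := ⟨_, rfl⟩
    have hc0 : c ≠ 0 := by
      rw [hc]
      exact Finset.prod_ne_zero_iff.2 fun J _ => hs J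
    obtain ⟨g, hg⟩ : ∃ g : MvPolynomial ι (MvPolynomial τ k),
        g = ∑ J ∈ Q.support, monomial J (r J * ∏ J' ∈ Q.support.erase J, s J') := ⟨_, rfl⟩
    have hgc : ∀ J, aeval z₀ (g.coeff J) =
        c * ((Q.coeff J : IntermediateField.adjoin k (Set.range z₀)) : E) := by
      intro J
      rw [hg, coeff_sum]
      simp only [coeff_monomial]
      rw [Finset.sum_ite_eq']
      split_ifs with hJ
      · rw [map_mul, map_prod, hc, ← Finset.mul_prod_erase _ _ hJ, hrs]
        have h2 := hs J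
        field_simp
      · rw [notMem_support_iff.1 hJ, map_zero, ZeroMemClass.coe_zero, mul_zero]
    refine ⟨g, ?_, ?_⟩
    · obtain ⟨J, hJ⟩ := MvPolynomial.ne_zero_iff.1 hQ0
      refine ⟨J, ?_⟩
      rw [hgc]
      exact mul_ne_zero hc0 fun h0 => hJ (Subtype.ext h0)
    · have h1 : g.map (aeval z₀ : MvPolynomial τ k →ₐ[k] E).toRingHom =
          C c * Q.map (algebraMap (IntermediateField.adjoin k (Set.range z₀)) E) := by
        ext J
        rw [coeff_map, coeff_C_mul, coeff_map]
        exact hgc J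
      rw [h1, map_mul, eval_map]
      have h2 : eval₂ (algebraMap (IntermediateField.adjoin k (Set.range z₀)) E) w Q = 0 := hQ
      rw [h2, mul_zero]
  · rintro ⟨g, ⟨J, hJ⟩, hg⟩ hind
    obtain ⟨z', hz'⟩ : ∃ z' : τ → IntermediateField.adjoin k (Set.range z₀),
        ∀ i, (z' i : E) = z₀ i :=
      ⟨fun i => ⟨z₀ i, IntermediateField.subset_adjoin _ _ ⟨i, rfl⟩⟩, fun _ => rfl⟩
    have hco : ∀ P : MvPolynomial τ k, algebraMap (IntermediateField.adjoin k (Set.range z₀)) E
        (aeval z' P) = aeval z₀ P := by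
      intro P
      rw [← aeval_algebraMap_apply]
      congr 2
      exact funext hz'
    have h3 : g.map (aeval z₀ : MvPolynomial τ k →ₐ[k] E).toRingHom =
        (g.map (aeval z' : MvPolynomial τ k →ₐ[k]
          IntermediateField.adjoin k (Set.range z₀)).toRingHom).map
          (algebraMap (IntermediateField.adjoin k (Set.range z₀)) E) := by
      refine MvPolynomial.ext _ _ fun J' => ?_
      rw [coeff_map, coeff_map, coeff_map]
      exact (hco _).symm
    rw [h3, eval_map] at hg
    rw [algebraicIndependent_iff] at hind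
    have h4 := hind _ hg
    have h5 := congrArg (fun q => coeff J q) h4
    simp only [coeff_map, coeff_zero] at h5
    have h6 : aeval z' (g.coeff J) = 0 := h5
    apply hJ
    rw [← hco, h6, map_zero]

theorem dep_transfer {k E L τ μ ι : Type*} [Field k] [Field E] [Algebra k E] [Field L]
    [Algebra k L] {z₀ : τ → E} {x₀ : μ → E} {z : τ → L} {x : μ → L}
    (h : SameRel k z₀ x₀ z x) {q : ι → μ}
    (hd : ¬ AlgebraicIndependent (IntermediateField.adjoin k (Set.range z₀)) (fun t => x₀ (q t))) :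
    ¬ AlgebraicIndependent (IntermediateField.adjoin k (Set.range z)) (fun t => x (q t)) := by
  rw [dep_iff] at hd ⊢
  obtain ⟨g, ⟨J, hJ⟩, hg⟩ := hd
  refine ⟨g, ⟨J, fun h0 => hJ ?_⟩, ?_⟩
  · have h1 := (h (rename Sum.inl (g.coeff J))).2 (by
      rw [aeval_rename, Sum.elim_comp_inl]
      exact h0)
    rwa [aeval_rename, Sum.elim_comp_inl] at h1
  · rw [← aeval_flat] at hg ⊢
    exact (h _).1 hg

/-- comparison of a model with the one in an algebraic closure -/
theorem slx_model {k N F M τ ι : Type*} [Field k] [CharZero k] [Field N] [Algebra k N] {m : ℕ}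
    {z₁ : τ → N} {x₁ : Fin m → N}
    (halg : Algebra.IsAlgebraic (IntermediateField.adjoin k (Set.range (Sum.elim z₁ x₁))) N)
    {F₁ : IntermediateField k N} (hcl : IsAlgClosed F₁) (hzF : ∀ i, z₁ i ∈ F₁)
    (hF₁ : ∀ a ∈ F₁, IsAlgebraic (IntermediateField.adjoin k (Set.range z₁)) a)
    {M₁ : IntermediateField F₁ N} (hM₁ : M₁ = IntermediateField.adjoin F₁ (Set.range x₁))
    (hdim : ∀ i j, ¬ AlgebraicIndependent (IntermediateField.adjoin k (Set.range z₁))
      ![x₁ i, x₁ j])
    {z' : τ → M₁} (hz' : ∀ i, (z' i : N) = z₁ i) {x' : Fin m → M₁} (hx' : ∀ j, (x' j : N) = x₁ j)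
    {H : ι → MvPolynomial (τ ⊕ Fin m) k} {i₀ : ι} (hH : aeval (Sum.elim z₁ x₁) (H i₀) ≠ 0)
    (d : ι → ℕ) (c : ℝ) [Field F] [IsAlgClosed F] [Field M] [Algebra k F] [Algebra F M]
    [Algebra k M] [IsScalarTower k F M] {z : τ → F} {x : Fin m → M}
    (hrel : SameRel k z₁ x₁ (fun i => algebraMap F M (z i)) x)
    (htop : IntermediateField.adjoin F (Set.range x) = ⊤) {j : Fin m}
    (htr : Transcendental F (x j)) :
    SLX F₁ (x' j) x' (fun i => aeval (Sum.elim z' x') (H i)) d c ↔
      SLX F (x j) x (fun i => aeval (Sum.elim (fun i => algebraMap F M (z i)) x) (H i)) d c := by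
  have hc1 : CharZero F₁ := charZero_of_injective_algebraMap (algebraMap k F₁).injective
  have hc2 : CharZero F := charZero_of_injective_algebraMap (algebraMap k F).injective
  obtain ⟨f, g, hfg, hgz, hgx⟩ := exists_model_maps halg hF₁ hM₁ hrel
  let a1 : Algebra F₁ F := f.toRingHom.toAlgebra
  let a2 : Algebra M₁ M := g.toRingHom.toAlgebra
  let a3 : Algebra F₁ M := (g.toRingHom.comp (algebraMap F₁ M₁)).toAlgebra
  have t1 : IsScalarTower F₁ M₁ M := IsScalarTower.of_algebraMap_eq fun _ => rfl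
  have t2 : IsScalarTower F₁ F M := IsScalarTower.of_algebraMap_eq fun a => hfg a
  have hgx' : ∀ j, algebraMap M₁ M (x' j) = x j := fun j => hgx j _ (hx' j)
  have ht' : Transcendental F (algebraMap M₁ M (x' j)) := by
    rw [hgx']
    exact htr
  have ht₁ : Transcendental F₁ (x₁ j) := by
    intro h0
    have h1 : IsAlgebraic F₁ (algebraMap M₁ N (x' j)) := by
      have h2 : algebraMap M₁ N (x' j) = x₁ j := hx' j
      rw [h2]
      exact h0
    have h2 : IsAlgebraic F₁ (x' j) :=
      (isAlgebraic_algebraMap_iff (algebraMap M₁ N).injective).1 h1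
    have h3 : IsAlgebraic F₁ (algebraMap M₁ M (x' j)) := h2.algebraMap
    exact ht' (h3.extendScalars (algebraMap F₁ F).injective)
  have hle : IntermediateField.adjoin k (Set.range z₁) ≤ F₁ := by
    rw [IntermediateField.adjoin_le_iff]
    rintro a ⟨i, rfl⟩
    exact hzF i
  have hdim' : ∀ j', ¬ AlgebraicIndependent F₁ ![x₁ j, x₁ j'] := by
    intro j' hind
    let b1 : Algebra (IntermediateField.adjoin k (Set.range z₁)) F₁ :=
      (IntermediateField.inclusion hle).toRingHom.toAlgebra
    have b2 : IsScalarTower (IntermediateField.adjoin k (Set.range z₁)) F₁ N :=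
      IsScalarTower.of_algebraMap_eq fun _ => rfl
    exact hdim j j' (hind.restrictScalars
      (algebraMap (IntermediateField.adjoin k (Set.range z₁)) F₁).injective)
  have hff : IsFF F₁ M₁ := by
    rw [hM₁]
    exact isFF_of_alg ht₁ fun j' => alg_of_dep ht₁ (hdim' j')
  have hCE : IsCE F₁ F M₁ M := {
    ff := hff
    gen := by
      rw [eq_top_iff, ← htop, IntermediateField.adjoin_le_iff]
      rintro a ⟨i, rfl⟩
      exact IntermediateField.subset_adjoin _ _ ⟨x' i, hgx' i⟩
    tr := ⟨x' j, ht'⟩ }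
  have hval : ∀ Q : MvPolynomial (τ ⊕ Fin m) k, algebraMap M₁ M (aeval (Sum.elim z' x') Q) =
      aeval (Sum.elim (fun i => algebraMap F M (z i)) x) Q := by
    intro Q
    show g (aeval (Sum.elim z' x') Q) = _
    rw [comp_aeval_apply]
    congr 2
    funext s
    rcases s with i | i
    · exact hgz i _ (hz' i)
    · exact hgx i _ (hx' i)
  have hvN : algebraMap M₁ N (aeval (Sum.elim z' x') (H i₀)) = aeval (Sum.elim z₁ x₁) (H i₀) := by
    rw [← aeval_algebraMap_apply]
    congr 2
    funext s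
    rcases s with i | i
    · exact hz' i
    · exact hx' i
  have hu : (fun i => aeval (Sum.elim z' x') (H i)) i₀ ≠ 0 := by
    intro h0
    apply hH
    rw [← hvN]
    have h1 : aeval (Sum.elim z' x') (H i₀) = 0 := h0
    rw [h1, map_zero]
  have h := ce_slx hCE ht' x' (u := fun i => aeval (Sum.elim z' x') (H i)) (i₀ := i₀) hu d c
  have e1 : (fun i => algebraMap M₁ M (x' i)) = x := funext hgx'
  have e2 : (fun i => algebraMap M₁ M ((fun i => aeval (Sum.elim z' x') (H i)) i)) =
      fun i => aeval (Sum.elim (fun i => algebraMap F M (z i)) x) (H i) :=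
    funext fun i => hval (H i)
  rw [e1, e2, hgx'] at h
  exact h

/-- the algebraic closure of the field of the parameters in an algebraically closed field -/
theorem exists_closure {k N τ : Type*} [Field k] [Field N] [IsAlgClosed N] [Algebra k N]
    (z₁ : τ → N) : ∃ F₁ : IntermediateField k N, IsAlgClosed F₁ ∧ (∀ i, z₁ i ∈ F₁) ∧
      ∀ a ∈ F₁, IsAlgebraic (IntermediateField.adjoin k (Set.range z₁)) a := by
  obtain ⟨A, hA⟩ : ∃ A : IntermediateField k N, A = IntermediateField.adjoin k (Set.range z₁) :=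
    ⟨_, rfl⟩
  refine ⟨(algebraicClosure A N).restrictScalars k, ?_, fun i => ?_, fun a ha => ?_⟩
  · have h1 : IsAlgClosure A (algebraicClosure A N) := inferInstance
    have h2 : IsAlgClosed (algebraicClosure A N) := h1.isAlgClosed
    exact h2
  · rw [IntermediateField.mem_restrictScalars, mem_algebraicClosure_iff]
    have h1 : z₁ i ∈ A := by
      rw [hA]
      exact IntermediateField.subset_adjoin _ _ ⟨i, rfl⟩
    exact isAlgebraic_algebraMap (⟨z₁ i, h1⟩ : A)
  · rw [IntermediateField.mem_restrictScalars, mem_algebraicClosure_iff] at ha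
    rw [← hA]
    exact ha

/-- an algebraically closed field, algebraic over the field of the generic point -/
theorem exists_amb {k : Type*} {E₀ : Type u} {τ μ : Type*} [Field k] [Field E₀] [Algebra k E₀]
    (z₀ : τ → E₀) (x₀ : μ → E₀) :
    ∃ (N : Type u) (_ : Field N) (_ : IsAlgClosed N) (_ : Algebra k N) (z₁ : τ → N) (x₁ : μ → N),
      Algebra.IsAlgebraic (IntermediateField.adjoin k (Set.range (Sum.elim z₁ x₁))) N ∧
      SameRel k z₀ x₀ z₁ x₁ := by
  obtain ⟨A, hA⟩ : ∃ A : IntermediateField k E₀,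
      A = IntermediateField.adjoin k (Set.range (Sum.elim z₀ x₀)) := ⟨_, rfl⟩
  have hm : ∀ s, Sum.elim z₀ x₀ s ∈ A := fun s => by
    rw [hA]
    exact IntermediateField.subset_adjoin _ _ ⟨s, rfl⟩
  obtain ⟨ζ, hζ⟩ : ∃ ζ : τ ⊕ μ → A, ∀ s, (ζ s : E₀) = Sum.elim z₀ x₀ s :=
    ⟨fun s => ⟨_, hm s⟩, fun _ => rfl⟩
  have htop : ∀ a : A, a ∈ IntermediateField.adjoin k (Set.range ζ) := by
    intro z
    have h1 : IntermediateField.map A.val (IntermediateField.adjoin k (Set.range ζ)) =
        IntermediateField.adjoin k (Set.range (Sum.elim z₀ x₀)) := by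
      rw [IntermediateField.adjoin_map, ← Set.range_comp]
      congr 2
      exact funext hζ
    have h2 : (z : E₀) ∈ IntermediateField.map A.val (IntermediateField.adjoin k (Set.range ζ)) := by
      rw [h1, ← hA]
      exact z.2
    obtain ⟨z', hz', hzz⟩ := h2
    have h3 : z' = z := Subtype.ext hzz
    rw [← h3]
    exact hz'
  obtain ⟨ζ₁, hζ₁⟩ : ∃ ζ₁ : τ ⊕ μ → AlgebraicClosure A,
      ζ₁ = fun s => algebraMap A (AlgebraicClosure A) (ζ s) := ⟨_, rfl⟩
  have he : Sum.elim (fun i => ζ₁ (Sum.inl i)) (fun i => ζ₁ (Sum.inr i)) = ζ₁ := by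
    funext s
    rcases s with i | i <;> rfl
  refine ⟨AlgebraicClosure A, inferInstance, inferInstance, inferInstance,
    fun i => ζ₁ (Sum.inl i), fun i => ζ₁ (Sum.inr i), ?_, ?_⟩
  · rw [he]
    have h1 : ∀ a : A, ∃ b : IntermediateField.adjoin k (Set.range ζ₁),
        algebraMap (IntermediateField.adjoin k (Set.range ζ₁)) (AlgebraicClosure A) b =
          algebraMap A (AlgebraicClosure A) a := by
      intro a
      have h2 : ∀ a ∈ IntermediateField.adjoin k (Set.range ζ),
          algebraMap A (AlgebraicClosure A) a ∈ IntermediateField.adjoin k (Set.range ζ₁) := by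
        intro a ha
        induction ha using IntermediateField.adjoin_induction with
        | mem u hu =>
          obtain ⟨s, rfl⟩ := hu
          refine IntermediateField.subset_adjoin _ _ ⟨s, ?_⟩
          rw [hζ₁]
        | algebraMap c =>
          rw [← IsScalarTower.algebraMap_apply k A (AlgebraicClosure A)]
          exact (IntermediateField.adjoin k (Set.range ζ₁)).algebraMap_mem c
        | add u v _ _ h h' =>
          rw [map_add]
          exact add_mem h h'
        | inv u _ h =>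
          rw [map_inv₀]
          exact inv_mem h
        | mul u v _ _ h h' =>
          rw [map_mul]
          exact mul_mem h h'
      exact ⟨⟨_, h2 a (htop a)⟩, rfl⟩
    obtain ⟨f, hf⟩ := exists_lift (algebraMap A (AlgebraicClosure A))
      (algebraMap (IntermediateField.adjoin k (Set.range ζ₁)) (AlgebraicClosure A)) h1
    refine ⟨fun a => ?_⟩
    have h2 : IsAlgebraic A a := Algebra.IsAlgebraic.isAlgebraic a
    exact h2.ringHom_of_comp_eq f (RingHom.id (AlgebraicClosure A)) f.injective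
      (RingHom.ext fun c => hf c)
  · intro Q
    rw [he]
    have h1 : algebraMap A E₀ (aeval ζ Q) = aeval (Sum.elim z₀ x₀) Q := by
      rw [← aeval_algebraMap_apply]
      congr 2
      exact funext hζ
    have h2 : algebraMap A (AlgebraicClosure A) (aeval ζ Q) = aeval ζ₁ Q := by
      rw [← aeval_algebraMap_apply, hζ₁]
      rfl
    rw [← h1, ← h2]
    exact (map_eq_zero (algebraMap A E₀)).trans (map_eq_zero (algebraMap A _)).symm

/-- **The inequality does not depend on the model.** -/
theorem slx_iff {k : Type*} {E₀ : Type u} {F M F' M' τ ι : Type*} [Field k] [CharZero k] [Field E₀] [Algebra k E₀]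
    {m : ℕ} {z₀ : τ → E₀} {x₀ : Fin m → E₀}
    (hdim : ∀ i j, ¬ AlgebraicIndependent (IntermediateField.adjoin k (Set.range z₀))
      ![x₀ i, x₀ j])
    {H : ι → MvPolynomial (τ ⊕ Fin m) k} {i₀ : ι} (hH : aeval (Sum.elim z₀ x₀) (H i₀) ≠ 0)
    (d : ι → ℕ) (c : ℝ) [Field F] [IsAlgClosed F] [Field M] [Algebra k F] [Algebra F M]
    [Algebra k M] [IsScalarTower k F M] {z : τ → F} {x : Fin m → M}
    (hrel : SameRel k z₀ x₀ (fun i => algebraMap F M (z i)) x)
    (htop : IntermediateField.adjoin F (Set.range x) = ⊤) {j : Fin m}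
    (htr : Transcendental F (x j))
    [Field F'] [IsAlgClosed F'] [Field M'] [Algebra k F'] [Algebra F' M']
    [Algebra k M'] [IsScalarTower k F' M'] {z' : τ → F'} {x' : Fin m → M'}
    (hrel' : SameRel k z₀ x₀ (fun i => algebraMap F' M' (z' i)) x')
    (htop' : IntermediateField.adjoin F' (Set.range x') = ⊤)
    (htr' : Transcendental F' (x' j)) :
    SLX F (x j) x (fun i => aeval (Sum.elim (fun i => algebraMap F M (z i)) x) (H i)) d c ↔
      SLX F' (x' j) x' (fun i => aeval (Sum.elim (fun i => algebraMap F' M' (z' i)) x') (H i))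
        d c := by
  obtain ⟨N, iN, iNc, iNk, z₁, x₁, halg, hr₁⟩ := exists_amb (k := k) z₀ x₀
  obtain ⟨F₁, hcl, hzF, hF₁⟩ := exists_closure (k := k) z₁
  obtain ⟨M₁, hM₁⟩ : ∃ M₁ : IntermediateField F₁ N,
      M₁ = IntermediateField.adjoin F₁ (Set.range x₁) := ⟨_, rfl⟩
  have hdim₁ : ∀ i j, ¬ AlgebraicIndependent (IntermediateField.adjoin k (Set.range z₁))
      ![x₁ i, x₁ j] := by
    intro i j
    have h1 : ∀ x : Fin m → E₀, (fun t : Fin 2 => x (![i, j] t)) = ![x i, x j] := by
      intro x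
      funext t
      fin_cases t <;> rfl
    have h2 : ∀ x : Fin m → N, (fun t : Fin 2 => x (![i, j] t)) = ![x i, x j] := by
      intro x
      funext t
      fin_cases t <;> rfl
    rw [← h2]
    refine dep_transfer hr₁ (q := ![i, j]) ?_
    rw [h1]
    exact hdim i j
  have hxM : ∀ j, x₁ j ∈ M₁ := fun j => by
    rw [hM₁]
    exact IntermediateField.subset_adjoin _ _ ⟨j, rfl⟩
  obtain ⟨xa, hxa⟩ : ∃ xa : Fin m → M₁, ∀ j, (xa j : N) = x₁ j := ⟨fun j => ⟨_, hxM j⟩, fun _ => rfl⟩
  obtain ⟨za, hza⟩ : ∃ za : τ → M₁, ∀ i, (za i : N) = z₁ i :=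
    ⟨fun i => algebraMap F₁ M₁ ⟨z₁ i, hzF i⟩, fun _ => rfl⟩
  have hH₁ : aeval (Sum.elim z₁ x₁) (H i₀) ≠ 0 := fun h0 => hH ((hr₁ _).2 h0)
  have hrel₁ : SameRel k z₁ x₁ (fun i => algebraMap F M (z i)) x := fun Q =>
    (hr₁ Q).symm.trans (hrel Q)
  have hrel₁' : SameRel k z₁ x₁ (fun i => algebraMap F' M' (z' i)) x' := fun Q =>
    (hr₁ Q).symm.trans (hrel' Q)
  have e1 := slx_model halg hcl hzF hF₁ hM₁ hdim₁ hza hxa hH₁ d c hrel₁ htop htr
  have e2 := slx_model halg hcl hzF hF₁ hM₁ hdim₁ hza hxa hH₁ d c hrel₁' htop' htr'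
  exact e1.symm.trans e2

end Pool.Agent.Lib.MP_44a246_ntFB
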