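import Mathlib
import Pool.Agent.Lib.MP_44a246_ntFB.FB12

/-!
# The inequality of the geometric generic fibre gives the one of all models over a subfield
-/

namespace Pool.Agent.Lib.MP_44a246_ntFB

open Pool.Agent.Lib.MP_44a246_nt
open Pool.Agent.Lib.MP_44a246_ntL
open Pool.Agent.Lib.MP_44a246_ntCE
open Pool.Agent.Lib.MP_44a246_ntMB
open WithZero MvPolynomial Module

universe v

/-- the algebraic closure of the field of the parameters in an algebraically closed field -/
theorem exists_closure' (k : Type*) {N τ : Type*} [Field k] [Field N] [IsAlgClosed N]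
    [Algebra k N] (z₁ : τ → N) : ∃ F₁ : IntermediateField k N, IsAlgClosed F₁ ∧
      ∀ a, a ∈ F₁ ↔ IsAlgebraic (IntermediateField.adjoin k (Set.range z₁)) a := by
  refine ⟨(algebraicClosure (IntermediateField.adjoin k (Set.range z₁)) N).restrictScalars k,
    ?_, fun a => ?_⟩
  · have h1 : IsAlgClosure (IntermediateField.adjoin k (Set.range z₁))
      (algebraicClosure (IntermediateField.adjoin k (Set.range z₁)) N) := inferInstance
    exact h1.isAlgClosed
  · rw [IntermediateField.mem_restrictScalars, mem_algebraicClosure_iff]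

/-- transcendental coordinates of models -/
theorem transc_of_model {k E F M τ μ : Type*} [Field k] [Field E] [Algebra k E] {z₀ : τ → E}
    {x₀ : μ → E} [Field F] [Field M] [Algebra k F] [Algebra F M] [Algebra k M]
    [IsScalarTower k F M] {z : τ → F} {x : μ → M}
    (hrel : SameRel k z₀ x₀ (fun i => algebraMap F M (z i)) x) {j : μ}
    (htr : Transcendental F (x j)) :
    Transcendental (IntermediateField.adjoin k (Set.range z₀)) (x₀ j) := by
  by_contra hcon
  have h1 : ¬ AlgebraicIndependent (IntermediateField.adjoin k (Set.range z₀))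
      (fun t : Fin 1 => x₀ ((fun _ => j) t)) := fun h =>
    hcon (algebraicIndependent_unique_type_iff.1 h)
  have h2 := dep_transfer hrel h1
  apply h2
  rw [algebraicIndependent_unique_type_iff]
  intro h3
  apply htr
  have hle : ∀ a : IntermediateField.adjoin k (Set.range fun i => algebraMap F M (z i)),
      ∃ b, algebraMap F M b = algebraMap _ M a := by
    intro a
    have h4 : ∀ a' ∈ IntermediateField.adjoin k (Set.range fun i => algebraMap F M (z i)),
        ∃ b, algebraMap F M b = a' := by
      intro a' ha'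
      induction ha' using IntermediateField.adjoin_induction with
      | mem u hu =>
        obtain ⟨i, rfl⟩ := hu
        exact ⟨z i, rfl⟩
      | algebraMap c => exact ⟨algebraMap k F c, (IsScalarTower.algebraMap_apply k F M c).symm⟩
      | add u v _ _ h h' =>
        obtain ⟨b, hb⟩ := h
        obtain ⟨b', hb'⟩ := h'
        exact ⟨b + b', by rw [map_add, hb, hb']⟩
      | inv u _ h =>
        obtain ⟨b, hb⟩ := h
        exact ⟨b⁻¹, by rw [map_inv₀, hb]⟩
      | mul u v _ _ h h' =>
        obtain ⟨b, hb⟩ := h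
        obtain ⟨b', hb'⟩ := h'
        exact ⟨b * b', by rw [map_mul, hb, hb']⟩
    exact h4 a a.2
  obtain ⟨f, hf⟩ := exists_lift (algebraMap (IntermediateField.adjoin k
    (Set.range fun i => algebraMap F M (z i))) M) (algebraMap F M) hle
  exact h3.ringHom_of_comp_eq f (RingHom.id M) f.injective (RingHom.ext fun c => hf c)

/-- **The geometric generic fibre determines all models.** -/
theorem slopeJ_of_gen {K Ω k τ ι : Type*} [Field K] [CharZero K] [Field Ω] [IsAlgClosed Ω]
    [Algebra K Ω] {m : ℕ} {z₀ : τ → Ω} {x₀ : Fin m → Ω} {H : ι → MvPolynomial (τ ⊕ Fin m) K}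
    {i₀ : ι} (hH : aeval (Sum.elim z₀ x₀) (H i₀) ≠ 0) {d : ι → ℕ} {c : ℝ}
    (hgen : Slope K z₀ x₀ H d c) [Field k] [Algebra k K] [Algebra k Ω] [IsScalarTower k K Ω]
    (hdim : ∀ i j, ¬ AlgebraicIndependent (IntermediateField.adjoin k (Set.range z₀))
      ![x₀ i, x₀ j])
    (htr : ∀ j, Transcendental (IntermediateField.adjoin k (Set.range z₀)) (x₀ j) →
      Transcendental (IntermediateField.adjoin K (Set.range z₀)) (x₀ j))
    {H' : ι → MvPolynomial (τ ⊕ Fin m) k} (hH' : ∀ i, (H' i).map (algebraMap k K) = H i) :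
    SlopeJ.{v} k z₀ x₀ H' d c := by
  intro F' M' _ _ _ _ _ _ _ z x j hrel htop htrF
  have hck : CharZero k := (algebraMap k K).charZero
  have ht₀ := htr j (transc_of_model hrel htrF)
  obtain ⟨F, hcl, hF⟩ := exists_closure' K z₀
  have hcF : CharZero F := charZero_of_injective_algebraMap (algebraMap K F).injective
  have hle : IntermediateField.adjoin K (Set.range z₀) ≤ F := fun a ha =>
    (hF a).2 (isAlgebraic_algebraMap (⟨a, ha⟩ : IntermediateField.adjoin K (Set.range z₀)))
  have ht₁ : Transcendental F (x₀ j) := by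
    let b1 : Algebra (IntermediateField.adjoin K (Set.range z₀)) F :=
      (IntermediateField.inclusion hle).toRingHom.toAlgebra
    have b2 : IsScalarTower (IntermediateField.adjoin K (Set.range z₀)) F Ω :=
      IsScalarTower.of_algebraMap_eq fun _ => rfl
    have haF : Algebra.IsAlgebraic (IntermediateField.adjoin K (Set.range z₀)) F :=
      ⟨fun a => (isAlgebraic_algebraMap_iff (algebraMap F Ω).injective).1 ((hF a).1 a.2)⟩
    intro h
    exact ht₀ (h.restrictScalars (IntermediateField.adjoin K (Set.range z₀)))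
  have hzK : ∀ i, z₀ i ∈ F := fun i => hle (IntermediateField.subset_adjoin _ _ ⟨i, rfl⟩)
  have hkF : ∀ a ∈ IntermediateField.adjoin k (Set.range z₀), a ∈ F := by
    intro a ha
    induction ha using IntermediateField.adjoin_induction with
    | mem u hu =>
      obtain ⟨i, rfl⟩ := hu
      exact hzK i
    | algebraMap c =>
      rw [IsScalarTower.algebraMap_apply k K Ω]
      exact F.algebraMap_mem _
    | add u v _ _ h h' => exact add_mem h h'
    | inv u _ h => exact inv_mem h
    | mul u v _ _ h h' => exact mul_mem h h'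
  have hdimF : ∀ j', ¬ AlgebraicIndependent F ![x₀ j, x₀ j'] := by
    intro j' hind
    obtain ⟨f, hf⟩ := exists_lift (algebraMap (IntermediateField.adjoin k (Set.range z₀)) Ω)
      (algebraMap F Ω) fun a => ⟨⟨a, hkF a a.2⟩, rfl⟩
    let b1 : Algebra (IntermediateField.adjoin k (Set.range z₀)) F := f.toAlgebra
    have b2 : IsScalarTower (IntermediateField.adjoin k (Set.range z₀)) F Ω :=
      IsScalarTower.of_algebraMap_eq fun a => (hf a).symm
    exact hdim j j' (hind.restrictScalars f.injective)
  obtain ⟨M, hM⟩ : ∃ M : IntermediateField F Ω,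
      M = IntermediateField.adjoin F (Set.range x₀) := ⟨_, rfl⟩
  have hff : IsFF F M := by
    rw [hM]
    exact isFF_of_alg ht₁ fun j' => alg_of_dep ht₁ (hdimF j')
  have hxM : ∀ j, x₀ j ∈ M := fun j => by
    rw [hM]
    exact IntermediateField.subset_adjoin _ _ ⟨j, rfl⟩
  obtain ⟨xa, hxa⟩ : ∃ xa : Fin m → M, ∀ j, (xa j : Ω) = x₀ j :=
    ⟨fun j => ⟨_, hxM j⟩, fun _ => rfl⟩
  obtain ⟨zF, hzF⟩ : ∃ zF : τ → F, ∀ i, (zF i : Ω) = z₀ i := ⟨fun i => ⟨_, hzK i⟩, fun _ => rfl⟩
  have hta : Transcendental F (xa j) := by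
    intro h0
    have h1 : IsAlgebraic F (algebraMap M Ω (xa j)) := h0.algebraMap
    have h2 : algebraMap M Ω (xa j) = x₀ j := hxa j
    rw [h2] at h1
    exact ht₁ h1
  have htopa : IntermediateField.adjoin F (Set.range xa) = ⊤ := adjoin_range_top hM hxa
  let c1 : Algebra k F := ((algebraMap K F).comp (algebraMap k K)).toAlgebra
  let c2 : Algebra k M := ((algebraMap F M).comp (algebraMap k F)).toAlgebra
  have c3 : IsScalarTower k F M := IsScalarTower.of_algebraMap_eq fun _ => rfl
  have c4 : IsScalarTower k M Ω := IsScalarTower.of_algebraMap_eq fun a => by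
    rw [IsScalarTower.algebraMap_apply k K Ω]
    rfl
  have hval : ∀ Q : MvPolynomial (τ ⊕ Fin m) k, algebraMap M Ω
      (aeval (Sum.elim (fun i => algebraMap F M (zF i)) xa) Q) = aeval (Sum.elim z₀ x₀) Q := by
    intro Q
    rw [← aeval_algebraMap_apply]
    congr 2
    funext s
    rcases s with i | i
    · exact hzF i
    · exact hxa i
  have hrela : SameRel k z₀ x₀ (fun i => algebraMap F M (zF i)) xa := by
    intro Q
    rw [← hval]
    exact map_eq_zero (algebraMap M Ω)
  have hval' : ∀ i, aeval (Sum.elim z₀ x₀) (H' i) = aeval (Sum.elim z₀ x₀) (H i) := by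
    intro i
    rw [← hH', aeval_map_algebraMap]
  obtain ⟨j1, j2, j3, hX⟩ := exists_ratStruct hff hta
  have h1 : SLX F (xa j) xa
      (fun i => aeval (Sum.elim (fun i => algebraMap F M (zF i)) xa) (H' i)) d c :=
    ⟨j1, j2, j3, hX, hgen F M xa
      (fun i => aeval (Sum.elim (fun i => algebraMap F M (zF i)) xa) (H' i)) hF hM hxa
      fun i => (hval (H' i)).trans (hval' i)⟩
  have hH'0 : aeval (Sum.elim z₀ x₀) (H' i₀) ≠ 0 := by
    rw [hval']
    exact hH
  exact (slx_iff hdim hH'0 d c hrela htopa hta hrel htop htrF).1 h1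

end Pool.Agent.Lib.MP_44a246_ntFB
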