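import Mathlib
import Pool.Agent.Lib.MP_44a246_ntFB.FB06
import Pool.Agent.Lib.MP_44a246_ntFB.FB13
import Pool.Agent.Lib.MP_44a246_ntNC.NC03
import Pool.Agent.Lib.MP_44a246_ntD.D10

/-!
# Towers of families of curves: the condition for the geometric generic fibres only
-/

namespace Pool.Agent.Lib.MP_44a246_ntFB

open Pool.Agent.Lib.MP_e52354_nt
open Pool.Agent.Lib.MP_44a246_nt
open Pool.Agent.Lib.MP_44a246_ntL
open Pool.Agent.Lib.MP_44a246_ntMY
open Pool.Agent.Lib.MP_44a246_ntNC (exists_map_eq)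
open WithZero MvPolynomial Module

universe u v w

/-- a polynomial with coefficients in the image of a homomorphism -/
theorem exists_map_hom {R S σ : Type*} [CommSemiring R] [CommSemiring S] (f : R →+* S)
    {A : MvPolynomial σ S} (h : ∀ I, ∃ b, f b = A.coeff I) :
    ∃ B : MvPolynomial σ R, B.map f = A := by
  classical
  choose c hc using h
  refine ⟨∑ I ∈ A.support, monomial I (c I), ?_⟩
  rw [map_sum]
  conv_rhs => rw [A.as_sum]
  refine Finset.sum_congr rfl fun I _ => ?_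
  rw [map_monomial, hc]

/-- descent of an algebraic dependence to a subfield which contains some countable set -/
theorem dep_descend {K : Type v} {E τ ι : Type*} [Field K] [Field E] [Algebra K E] [Countable τ]
    [Countable ι] {z₀ : τ → E} {w : ι → E}
    (hd : ¬ AlgebraicIndependent (IntermediateField.adjoin K (Set.range z₀)) w) :
    ∃ S : Set K, S.Countable ∧ ∀ (k : Type v) [Field k] [Algebra k K] [Algebra k E]
      [IsScalarTower k K E], S ⊆ Set.range (algebraMap k K) →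
      ¬ AlgebraicIndependent (IntermediateField.adjoin k (Set.range z₀)) w := by
  obtain ⟨g, ⟨J, hJ⟩, hg⟩ := dep_iff.1 hd
  refine ⟨Set.range fun q : (ι →₀ ℕ) × (τ →₀ ℕ) => (g.coeff q.1).coeff q.2,
    Set.countable_range _, ?_⟩
  intro k _ _ _ _ hS
  have h1 : ∀ I, ∃ b : MvPolynomial τ k, (MvPolynomial.map (algebraMap k K)) b = g.coeff I := by
    intro I
    exact exists_map_hom (algebraMap k K) fun I' => hS ⟨(I, I'), rfl⟩
  obtain ⟨g', hg'⟩ := exists_map_hom
    (MvPolynomial.map (algebraMap k K) : MvPolynomial τ k →+* MvPolynomial τ K) h1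
  have hco : ∀ P : MvPolynomial τ k, aeval z₀ (P.map (algebraMap k K)) = aeval z₀ P := fun P =>
    aeval_map_algebraMap K z₀ P
  refine dep_iff.2 ⟨g', ⟨J, ?_⟩, ?_⟩
  · have h2 : g.coeff J = (g'.coeff J).map (algebraMap k K) := by
      rw [← hg', coeff_map]
    rw [h2, hco] at hJ
    exact hJ
  · have h2 : g.map (aeval z₀ : MvPolynomial τ K →ₐ[K] E).toRingHom =
        g'.map (aeval z₀ : MvPolynomial τ k →ₐ[k] E).toRingHom := by
      refine MvPolynomial.ext _ _ fun I => ?_
      rw [coeff_map, coeff_map, ← hg', coeff_map]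
      exact hco _
    rw [← h2]
    exact hg

/-- descent of one stage -/
theorem stage_descend {K : Type v} {Ω τ : Type*} [Field K] [Field Ω] [Algebra K Ω] [Countable τ]
    {m : ℕ} {z₀ : τ → Ω} {x₀ : Fin m → Ω}
    (hdim : ∀ i j, ¬ AlgebraicIndependent (IntermediateField.adjoin K (Set.range z₀))
      ![x₀ i, x₀ j]) :
    ∃ S : Set K, S.Countable ∧ ∀ (k : Type v) [Field k] [Algebra k K] [Algebra k Ω]
      [IsScalarTower k K Ω], S ⊆ Set.range (algebraMap k K) →
      (∀ i j, ¬ AlgebraicIndependent (IntermediateField.adjoin k (Set.range z₀))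
        ![x₀ i, x₀ j]) ∧
      ∀ j, Transcendental (IntermediateField.adjoin k (Set.range z₀)) (x₀ j) →
        Transcendental (IntermediateField.adjoin K (Set.range z₀)) (x₀ j) := by
  classical
  choose S₁ hS₁ hS₁' using fun q : Fin m × Fin m => dep_descend (hdim q.1 q.2)
  have h2 : ∀ j, ∃ S : Set K, S.Countable ∧ ∀ (k : Type v) [Field k] [Algebra k K] [Algebra k Ω]
      [IsScalarTower k K Ω], S ⊆ Set.range (algebraMap k K) →
      Transcendental (IntermediateField.adjoin k (Set.range z₀)) (x₀ j) →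
        Transcendental (IntermediateField.adjoin K (Set.range z₀)) (x₀ j) := by
    intro j
    by_cases h : Transcendental (IntermediateField.adjoin K (Set.range z₀)) (x₀ j)
    · exact ⟨∅, Set.countable_empty, fun k _ _ _ _ _ _ => h⟩
    · have h3 : ¬ AlgebraicIndependent (IntermediateField.adjoin K (Set.range z₀))
          (fun _ : Fin 1 => x₀ j) := fun h4 => h (algebraicIndependent_unique_type_iff.1 h4)
      obtain ⟨S, hS, hS'⟩ := dep_descend h3
      refine ⟨S, hS, fun k _ _ _ _ hk h4 => ?_⟩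
      exact absurd (algebraicIndependent_unique_type_iff.2 h4) (hS' k hk)
  choose S₂ hS₂ hS₂' using h2
  refine ⟨(⋃ q, S₁ q) ∪ ⋃ j, S₂ j,
    (Set.countable_iUnion hS₁).union (Set.countable_iUnion hS₂), ?_⟩
  intro k _ _ _ _ hk
  refine ⟨fun i j => hS₁' (i, j) k fun a ha => hk (Or.inl (Set.mem_iUnion.2 ⟨_, ha⟩)),
    fun j => hS₂' j k fun a ha => hk (Or.inr (Set.mem_iUnion.2 ⟨_, ha⟩))⟩

/-- **Towers of families of curves**, with the condition for the geometric generic fibres only. -/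
theorem tower_gen {κ : Type u} {K : Type v} [Field κ] [IsAlgClosed κ] [CharZero κ] [Field K]
    [CharZero K] [Algebra κ K] (hK : IsFF κ K) (hMY : MYP.{u, v} κ) {Ω : Type*} [Field Ω]
    [IsAlgClosed Ω] [Algebra K Ω] {σ : Type} [Fintype σ] {n p : ℕ → ℕ}
    {y₀ : σ → Ω} {x₀ : ∀ l : ℕ, Fin (n l) → Ω} (r s : ℕ) {c : ℕ → ℝ}
    {H : ∀ l : ℕ, Fin (p l + 1) →
      MvPolynomial ((σ ⊕ (Σ i : Fin l, Fin (n i))) ⊕ Fin (n l)) K}
    {d : ∀ l : ℕ, Fin (p l + 1) → ℕ}
    (hdim : ∀ l ≤ s, ∀ j j', ¬ AlgebraicIndependent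
      (IntermediateField.adjoin K (Set.range (low y₀ x₀ l))) ![x₀ l j, x₀ l j'])
    (hH0 : ∀ l ≤ s, ∀ j, aeval (Sum.elim (low y₀ x₀ l) (x₀ l)) (H l j) ≠ 0)
    (hc : ∀ l ≤ s, Slope K (low y₀ x₀ l) (x₀ l) (H l) (d l) (c l))
    (hcr : ∀ l < s, 2 * ((r : ℝ) - 1) < c l)
    {S : Set (Place κ K)} (hS : S.Finite) {ε : ℝ} (hε : 0 < ε) :
    ∃ (h : MvPolynomial (σ ⊕ (Σ i : Fin (s + 1), Fin (n i))) K) (C : ℕ),
      aeval (low y₀ x₀ (s + 1)) h ≠ 0 ∧
      ∀ (L : Type w) [Field L] [Algebra K L] [FiniteDimensional K L] [Algebra κ L]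
        [IsScalarTower κ K L], finrank K L ≤ r →
      ∀ (y : σ → L) (x : ∀ l : ℕ, Fin (n l) → L),
        (∀ Q : MvPolynomial (σ ⊕ (Σ i : Fin (s + 1), Fin (n i))) K,
          aeval (low y₀ x₀ (s + 1)) Q = 0 → aeval (low y x (s + 1)) Q = 0) →
        aeval (low y x (s + 1)) h ≠ 0 →
        (∀ l < s, (hgt κ (x l) : ℝ) ≤ C * (1 + hgt κ y +
          ∑ i ∈ Finset.range s, (meet κ K (H i) (d i) S (low y x i) (x i) : ℝ))) ∧
        (c s - ε) * hgt κ (x s) ≤ meet κ K (H s) (d s) S (low y x s) (x s) + ramDeg κ L K +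
          C * (1 + hgt κ y +
            ∑ i ∈ Finset.range s, (meet κ K (H i) (d i) S (low y x i) (x i) : ℝ)) := by
  classical
  -- the countable field
  choose A hA hA' using fun l : Fin (s + 1) =>
    stage_descend (hdim l (Nat.lt_succ_iff.1 l.2))
  obtain ⟨B, hB⟩ : ∃ B : Set K, B = (⋃ l, A l) ∪ ⋃ l : ℕ, Set.range fun a : Fin (p l + 1) ×
      (((σ ⊕ (Σ i : Fin l, Fin (n i))) ⊕ Fin (n l)) →₀ ℕ) => (H l a.1).coeff a.2 := ⟨_, rfl⟩
  have hBc : B.Countable := by
    rw [hB]
    exact (Set.countable_iUnion hA).union (Set.countable_iUnion fun l => Set.countable_range _)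
  have : Countable B := hBc
  obtain ⟨k, hk⟩ : ∃ k : IntermediateField ℚ K, k = IntermediateField.adjoin ℚ B := ⟨_, rfl⟩
  have hkc : Countable k := by
    rw [hk]
    exact Pool.Agent.Lib.MP_44a246_ntD.countable_adjoin B
  have hBk : B ⊆ Set.range (algebraMap k K) := by
    intro a ha
    have h1 : a ∈ k := by
      rw [hk]
      exact IntermediateField.subset_adjoin _ _ ha
    exact ⟨⟨a, h1⟩, rfl⟩
  let i1 : Algebra k Ω := ((algebraMap K Ω).comp (algebraMap k K)).toAlgebra
  have i2 : @IsScalarTower k K Ω _ _ i1.toSMul := @IsScalarTower.of_algebraMap_eq k K Ω _ _ _ _ _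
    i1 fun _ => rfl
  have hst : ∀ l ≤ s, (∀ i j, ¬ AlgebraicIndependent
      (IntermediateField.adjoin k (Set.range (low y₀ x₀ l))) ![x₀ l i, x₀ l j]) ∧
      ∀ j, Transcendental (IntermediateField.adjoin k (Set.range (low y₀ x₀ l))) (x₀ l j) →
        Transcendental (IntermediateField.adjoin K (Set.range (low y₀ x₀ l))) (x₀ l j) :=
    fun l hl => hA' ⟨l, Nat.lt_succ_of_le hl⟩ k (fun a ha => hBk (by
      rw [hB]
      exact Or.inl (Set.mem_iUnion.2 ⟨_, ha⟩)))
  have hHk : ∀ (l : ℕ) (i : Fin (p l + 1)),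
      ∃ H' : MvPolynomial ((σ ⊕ (Σ i : Fin l, Fin (n i))) ⊕ Fin (n l)) k,
      H'.map (algebraMap k K) = H l i := fun l i =>
    exists_map_hom (algebraMap k K) fun I => hBk (by
      rw [hB]
      exact Or.inr (Set.mem_iUnion.2 ⟨l, (i, I), rfl⟩))
  choose H' hH' using hHk
  have hev : ∀ {ρ : Type} (a : ρ → Ω) (Q : MvPolynomial ρ k),
      aeval a (Q.map (algebraMap k K)) = aeval a Q := fun a Q => aeval_map_algebraMap K a Q
  obtain ⟨h, C, hh0, hC⟩ := tower.{u, v, w} hK hMY (k := k) (E₀ := Ω) (y₀ := y₀) (x₀ := x₀) r s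
    (H := H') (d := d) (fun l hl => (hst l hl).1)
    (fun l hl j => by
      rw [← hev, hH']
      exact hH0 l hl j)
    (fun l hl => slopeJ_of_gen (K := K) (k := k) (i₀ := 0)
      (hH0 l hl 0) (hc l hl) (hst l hl).1 (hst l hl).2 (hH' l)) hcr hS hε
  refine ⟨h.map (algebraMap k K), C, ?_, ?_⟩
  · rw [hev]
    exact hh0
  intro L _ _ _ _ _ hr y x hspec hne
  let i3 : Algebra k L := ((algebraMap K L).comp (algebraMap k K)).toAlgebra
  have i4 : @IsScalarTower k K L _ _ i3.toSMul := @IsScalarTower.of_algebraMap_eq k K L _ _ _ _ _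
    i3 fun _ => rfl
  have hev' : ∀ {ρ : Type} (a : ρ → L) (Q : MvPolynomial ρ k),
      aeval a (Q.map (algebraMap k K)) = aeval a Q := fun a Q => aeval_map_algebraMap K a Q
  have hm : ∀ l, meetk κ K (H' l) (d l) S (low y x l) (x l) =
      meet κ K (H l) (d l) S (low y x l) (x l) := by
    intro l
    unfold meetk meet
    congr 1
    ext w'
    have h1 : ∀ i, aeval (Sum.elim (low y x l) (x l)) (H' l i) =
        aeval (Sum.elim (low y x l) (x l)) (H l i) := fun i => by rw [← hev', hH']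
    simp only [h1]
  have h2 := hC L hr y x (fun Q hQ => by
    rw [← hev']
    refine hspec _ ?_
    rw [hev]
    exact hQ) (by
    rw [← hev']
    exact hne)
  simp only [hm] at h2
  exact h2

end Pool.Agent.Lib.MP_44a246_ntFB
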