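import Mathlib
import Pool.Agent.Lib.MP_44a246_ntFB.FB14
import Pool.Agent.Lib.MP_44a246_ntMB.MB70

/-!
# Vojta's conjecture with truncated counting function for iterated fibrations in curves
-/

namespace Pool.Agent.Lib.MP_44a246_ntFB.CurveTowers

open Pool.Agent.Lib.MP_44a246_nt
open Pool.Agent.Lib.MP_44a246_ntFB
open MvPolynomial

universe u v w u₁

theorem result {κ : Type u} {K : Type v} [Field κ] [IsAlgClosed κ] [CharZero κ] [Field K]
    [Algebra κ K] {t : K} (ht : Transcendental κ t)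
    (hfin : FiniteDimensional (IntermediateField.adjoin κ {t}) K)
    {Ω : Type u₁} [Field Ω] [IsAlgClosed Ω] [Algebra K Ω] {q : ℕ} {n p : ℕ → ℕ}
    {y₀ : Fin q → Ω} {x₀ : ∀ l : ℕ, Fin (n l) → Ω} (r s : ℕ) {c : ℕ → ℝ}
    {H : ∀ l : ℕ, Fin (p l + 1) →
      MvPolynomial ((Fin q ⊕ (Σ i : Fin l, Fin (n i))) ⊕ Fin (n l)) K}
    {d : ∀ l : ℕ, Fin (p l + 1) → ℕ}
    (hdim : ∀ l ≤ s, ∀ i j, ¬ AlgebraicIndependent
      (IntermediateField.adjoin K (Set.range (low y₀ x₀ l))) ![x₀ l i, x₀ l j])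
    (hH : ∀ l ≤ s, ∀ j, aeval (Sum.elim (low y₀ x₀ l) (x₀ l)) (H l j) ≠ 0)
    (hc : ∀ l ≤ s, Slope K (low y₀ x₀ l) (x₀ l) (H l) (d l) (c l))
    (hlow : ∀ l < s, 2 * ((r : ℝ) - 1) < c l)
    {S : Set (Place κ K)} (hS : S.Finite) {ε : ℝ} (hε : 0 < ε) :
    ∃ (h : MvPolynomial (Fin q ⊕ (Σ i : Fin (s + 1), Fin (n i))) K) (C : ℕ),
      aeval (low y₀ x₀ (s + 1)) h ≠ 0 ∧
      ∀ (L : Type w) [Field L] [Algebra K L] [FiniteDimensional K L] [Algebra κ L]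
        [IsScalarTower κ K L], Module.finrank K L ≤ r →
      ∀ (y : Fin q → L) (x : ∀ l : ℕ, Fin (n l) → L),
        (∀ Q : MvPolynomial (Fin q ⊕ (Σ i : Fin (s + 1), Fin (n i))) K,
          aeval (low y₀ x₀ (s + 1)) Q = 0 → aeval (low y x (s + 1)) Q = 0) →
        aeval (low y x (s + 1)) h ≠ 0 →
        (∀ l < s, (hgt κ (x l) : ℝ) ≤ C * (1 + hgt κ y +
          ∑ i ∈ Finset.range s, (meet κ K (H i) (d i) S (low y x i) (x i) : ℝ))) ∧
        (c s - ε) * hgt κ (x s) ≤ meet κ K (H s) (d s) S (low y x s) (x s) + ramDeg κ L K +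
          C * (1 + hgt κ y +
            ∑ i ∈ Finset.range s, (meet κ K (H i) (d i) S (low y x i) (x i) : ℝ)) :=
  have : CharZero K := charZero_of_injective_algebraMap (algebraMap κ K).injective
  tower_gen.{u, v, w} ⟨t, ht, hfin⟩ (Pool.Agent.Lib.MP_44a246_ntMB.myp κ) r s hdim hH hc hlow hS hε

end Pool.Agent.Lib.MP_44a246_ntFB.CurveTowers
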