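import Mathlib
import Pool.Agent.Lib.MP_44a246_ntFB.FB00

/-!
# Towers of families of curves over generic complete intersections: the definitions
-/

namespace Pool.Agent.Lib.MP_44a246_ntFB

open Pool.Agent.Lib.MP_44a246_nt
open MvPolynomial

/-- `F j` is a form of degree `e j`, and the coefficients of all these forms, all together, are
algebraically independent over the rational numbers. -/
def GenForms {K : Type*} [Field K] [CharZero K] {m p : ℕ}
    (F : Fin p → MvPolynomial (Fin (m + 1)) K) (e : Fin p → ℕ) : Prop :=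
  (∀ j, (F j).IsHomogeneous (e j)) ∧ AlgebraicIndependent ℚ
    (fun I : {I : Fin p × (Fin (m + 1) →₀ ℕ) // I.2.degree = e I.1} => (F I.1.1).coeff I.1.2)

/-- `(1 : y₀)` is a generic point of the set of the common zeros of the `F j`, `j ∈ A`: a form
vanishes at `(1 : y₀)` if and only if it vanishes on this set. -/
def GenPoint {K Ω : Type*} [Field K] [Field Ω] [Algebra K Ω] {m p : ℕ}
    (F : Fin p → MvPolynomial (Fin (m + 1)) K) (A : Finset (Fin p)) (y₀ : Fin m → Ω) : Prop :=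
  ∀ (a : ℕ) (G : MvPolynomial (Fin (m + 1)) K), G.IsHomogeneous a →
    (aeval (Fin.cons 1 y₀ : Fin (m + 1) → Ω) G = 0 ↔
      ∀ z : Fin (m + 1) → AlgebraicClosure K, (∀ j ∈ A, aeval z (F j) = 0) → aeval z G = 0)

/-- The conditions on the coordinates `x₀ l`, `l ≤ s`, of the generic point: over the field
generated by the coordinates before `x₀ l` their transcendence degree is at most one, the
polynomials `H l j` do not vanish, and `c l · deg ≤ 2g - 2 + #D`. -/
def Tower (K : Type*) [Field K] {σ Ω : Type*} [Field Ω] [Algebra K Ω] {n q : ℕ → ℕ} (y₀ : σ → Ω)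
    (x₀ : ∀ l : ℕ, Fin (n l) → Ω) (s : ℕ)
    (H : ∀ l : ℕ, Fin (q l + 1) → MvPolynomial ((σ ⊕ (Σ i : Fin l, Fin (n i))) ⊕ Fin (n l)) K)
    (d : ∀ l : ℕ, Fin (q l + 1) → ℕ) (c : ℕ → ℝ) : Prop :=
  ∀ l ≤ s, (∀ i j, ¬ AlgebraicIndependent
      (IntermediateField.adjoin K (Set.range (low y₀ x₀ l))) ![x₀ l i, x₀ l j]) ∧
    (∀ j, aeval (Sum.elim (low y₀ x₀ l) (x₀ l)) (H l j) ≠ 0) ∧
    Slope K (low y₀ x₀ l) (x₀ l) (H l) (d l) (c l)

/-- `(y, x 0, …, x s)` is a point of the variety with the generic point `(y₀, x₀ 0, …, x₀ s)`. -/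
def OnX (K : Type*) [Field K] {σ Ω L : Type*} [Field Ω] [Algebra K Ω] [Field L] [Algebra K L]
    {n : ℕ → ℕ} (y₀ : σ → Ω) (x₀ : ∀ l : ℕ, Fin (n l) → Ω) (s : ℕ) (y : σ → L)
    (x : ∀ l : ℕ, Fin (n l) → L) : Prop :=
  ∀ Q : MvPolynomial (σ ⊕ (Σ i : Fin (s + 1), Fin (n i))) K,
    aeval (low y₀ x₀ (s + 1)) Q = 0 → aeval (low y x (s + 1)) Q = 0

/-- The sum of the counting functions of the divisors of the stages `l < s`. -/
noncomputable def lowCount (κ : Type*) {K σ L : Type*} [Field κ] [Field K] [Algebra κ K] [Field L]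
    [Algebra κ L] [Algebra K L] {n q : ℕ → ℕ}
    (H : ∀ l : ℕ, Fin (q l + 1) → MvPolynomial ((σ ⊕ (Σ i : Fin l, Fin (n i))) ⊕ Fin (n l)) K)
    (d : ∀ l : ℕ, Fin (q l + 1) → ℕ) (S : Set (Place κ K)) (s : ℕ) (y : σ → L)
    (x : ∀ l : ℕ, Fin (n l) → L) : ℕ :=
  ∑ l ∈ Finset.range s, meet κ K (H l) (d l) S (low y x l) (x l)

end Pool.Agent.Lib.MP_44a246_ntFB
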