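import Mathlib
import Pool.Agent.Lib.MP_44a246_ntFB.FB0D

/-!
# Towers of families of curves over sections of arbitrary varieties: the definitions
-/

namespace Pool.Agent.Lib.MP_44a246_ntFB

open MvPolynomial

/-- The `f l` are forms with coefficients in the field `k`, and the projective variety of their
common zeros has dimension at most `ν`. -/
def VarOver {K : Type*} [Field K] (k : Subfield K) {m v : ℕ}
    (f : Fin v → MvPolynomial (Fin (m + 1)) K) (ν : ℕ) : Prop :=
  (∀ l, (∃ a, (f l).IsHomogeneous a) ∧ ∀ I, (f l).coeff I ∈ k) ∧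
    ringKrullDim (MvPolynomial (Fin (m + 1)) K ⧸ Ideal.span (Set.range f)) ≤
      ((ν + 1 : ℕ) : WithBot ℕ∞)

/-- `F j` is a form of degree `e j`, and the coefficients of all these forms, all together, are
algebraically independent over `k`. -/
def GenOver {K : Type*} [Field K] (k : Subfield K) {m p : ℕ}
    (F : Fin p → MvPolynomial (Fin (m + 1)) K) (e : Fin p → ℕ) : Prop :=
  (∀ j, (F j).IsHomogeneous (e j)) ∧ AlgebraicIndependent k
    (fun I : {I : Fin p × (Fin (m + 1) →₀ ℕ) // I.2.degree = e I.1} => (F I.1.1).coeff I.1.2)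

/-- `(1 : y₀)` is a common zero of the `f l` and of the `F j`, `j ∈ A`, but not a zero of `F j` for
`j ∉ A`, and at least `μ` of its coordinates are algebraically independent over `K`. -/
def BasePoint {K Ω : Type*} [Field K] [Field Ω] [Algebra K Ω] {m v p : ℕ}
    (f : Fin v → MvPolynomial (Fin (m + 1)) K) (F : Fin p → MvPolynomial (Fin (m + 1)) K)
    (A : Finset (Fin p)) (μ : ℕ) (y₀ : Fin m → Ω) : Prop :=
  (∀ l, aeval (Fin.cons 1 y₀ : Fin (m + 1) → Ω) (f l) = 0) ∧
    (∀ j, aeval (Fin.cons 1 y₀ : Fin (m + 1) → Ω) (F j) = 0 ↔ j ∈ A) ∧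
    ∃ a : Fin μ → Fin m, AlgebraicIndependent K fun i => y₀ (a i)

end Pool.Agent.Lib.MP_44a246_ntFB
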