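import Mathlib
import Pool.Agent.Lib.MP_44a246_ntFB.FB0D

/-!
# Towers of families of curves over sections and coverings of arbitrary varieties: the definitions
-/

namespace Pool.Agent.Lib.MP_44a246_ntFB

open MvPolynomial

/-- The weights `wt i` of the coordinates `x_0, …, x_m` are at least one, and equal to one for
`i ≤ N`. The `f l` are polynomials over the field `k` in `t_1, …, t_p` and `x_0, …, x_m`, weighted
homogeneous, where `t_j` has the weight `e j`. The closure of the image in the weighted projective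
space (with the coordinates `x_0, …, x_m`) of the set of their common zeros has dimension at most
`ν`. The only common zero with `t_j = 0` for all `j` and `x_i = 0` for all `i ≤ N` is zero (if
`N = m`, this is no condition). -/
def Eqs {K : Type*} [Field K] (k : Subfield K) {p m v : ℕ} (N : ℕ) (wt : Fin (m + 1) → ℕ)
    (f : Fin v → MvPolynomial (Fin p ⊕ Fin (m + 1)) k) (e : Fin p → ℕ) (ν : ℕ) : Prop :=
  (∀ i, 1 ≤ wt i ∧ ((i : ℕ) ≤ N → wt i = 1)) ∧
    (∀ l, ∃ E, (f l).IsWeightedHomogeneous (Sum.elim e wt) E) ∧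
    ringKrullDim (MvPolynomial (Fin (m + 1)) k ⧸ (Ideal.span (Set.range f)).comap
      (rename (Sum.inr : Fin (m + 1) → Fin p ⊕ Fin (m + 1)))) ≤ ((ν + 1 : ℕ) : WithBot ℕ∞) ∧
    ∀ x : Fin (m + 1) → AlgebraicClosure K, (∀ i : Fin (m + 1), (i : ℕ) ≤ N → x i = 0) →
      (∀ l, aeval (Sum.elim (fun _ => 0) x : Fin p ⊕ Fin (m + 1) → AlgebraicClosure K) (f l) = 0) →
        x = 0

/-- `F j` is a form of degree `e j ≥ 1`, and all but at most `g` of the coefficients of all these
forms, all together, are algebraically independent over `k`. -/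
def Forms {K : Type*} [Field K] (k : Subfield K) {N p : ℕ}
    (F : Fin p → MvPolynomial (Fin (N + 1)) K) (e : Fin p → ℕ) (g : ℕ) : Prop :=
  (∀ j, (F j).IsHomogeneous (e j) ∧ 1 ≤ e j) ∧
    ∃ T : Set {I : Fin p × (Fin (N + 1) →₀ ℕ) // I.2.degree = e I.1}, Tᶜ.ncard ≤ g ∧
      AlgebraicIndependent k (fun I : T => (F I.1.1.1).coeff I.1.1.2)

/-- The value at the point `(1 : y)` of the polynomial `f (F (x), x)`, where the `F j` are forms in
the coordinates `x_0, …, x_N`. -/
noncomputable def ev {K L : Type*} [Field K] [Field L] [Algebra K L] {k : Subfield K}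
    {p N m : ℕ} (h : N ≤ m) (F : Fin p → MvPolynomial (Fin (N + 1)) K) (y : Fin m → L)
    (f : MvPolynomial (Fin p ⊕ Fin (m + 1)) k) : L :=
  aeval (Sum.elim (fun j => aeval (Fin.cons 1 (fun i => y (Fin.castLE h i)) : Fin (N + 1) → L) (F j))
    (Fin.cons 1 y) : Fin p ⊕ Fin (m + 1) → L) (map (algebraMap k K) f)

/-- At the point `(1 : y₀)` the polynomials `f l (F (x), x)` vanish, the matrix of the
`(∂ f l / ∂ t_j) (F (x), x)`, `j ∈ A`, has the rank `|A|`, and the `F j`, `j ∉ A`, do not vanish. -/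
def BaseAt {K Ω : Type*} [Field K] [Field Ω] [Algebra K Ω] {k : Subfield K} {m v p N : ℕ}
    (h : N ≤ m) (f : Fin v → MvPolynomial (Fin p ⊕ Fin (m + 1)) k)
    (F : Fin p → MvPolynomial (Fin (N + 1)) K) (A : Finset (Fin p)) (y₀ : Fin m → Ω) : Prop :=
  (∀ l, ev h F y₀ (f l) = 0) ∧
    (∃ l : A → Fin v, (Matrix.of fun i j : A =>
      ev h F y₀ (pderiv (Sum.inl (j : Fin p)) (f (l i)))).det ≠ 0) ∧
    ∀ j ∉ A, aeval (Fin.cons 1 (fun i => y₀ (Fin.castLE h i)) : Fin (N + 1) → Ω) (F j) ≠ 0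

/-- At least `μ` of the first `N` coordinates of `y₀` are algebraically independent over `K`. -/
def Indep (K : Type*) {Ω : Type*} [Field K] [Field Ω] [Algebra K Ω] {N m : ℕ} (h : N ≤ m) (μ : ℕ)
    (y₀ : Fin m → Ω) : Prop :=
  ∃ a : Fin μ → Fin N, AlgebraicIndependent K fun i => y₀ (Fin.castLE h (a i))

/-- The first conditions on the numbers: `r` is the bound for the degree of the points, `R` a
constant which depends on `r` and `p`, `ν` the dimension of the variety, `μ` the dimension of the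
image, `g` the number of the relations between the coefficients of the forms of the degrees
`e j`. -/
def Large (r R ν μ g : ℕ) {p : ℕ} (e : Fin p → ℕ) (A : Finset (Fin p)) : Prop :=
  (max (ν + min g ((g + p) / 2)) R + 2 * r ≤ ∑ j, e j ∧
    2 * max (ν + min g ((g + p) / 2)) R + 2 * r ≤ ∑ j, e j + A.card + μ) ∨
  2 * (ν + min g ((g + p) / 2)) + 2 * r ≤ ∑ j, e j + A.card ∨
  (p = 1 ∧ A.card = 1 ∧ r = 1 ∧ 2 * ν + g ≤ ∑ j, e j + μ + 1 ∧
    (ν + g + 300 ≤ ∑ j, e j ∨ (6 ≤ ∑ j, e j ∧ 3 * ν + g + 2 ≤ 2 * ∑ j, e j)))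

/-- The second condition on the numbers, for many relations and for weights: `g` is smaller than
the number of the monomials of the degree `a j` in `ρ + 1` variables, where `ρ` of the first `N`
coordinates of `y₀` are algebraically independent, or `ρ = N` and no form of the degree
`∑ j ∈ T, a j` vanishes at the point `(1 : y₀)`. -/
def Many (K : Type*) {Ω : Type*} (r ν g : ℕ) [Field K] [Field Ω] [Algebra K Ω] {p N m : ℕ} (h : N ≤ m)
    (wt : Fin (m + 1) → ℕ) (e : Fin p → ℕ) (A : Finset (Fin p)) (y₀ : Fin m → Ω) : Prop :=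
  ∃ (T : Finset (Fin p)) (a : Fin p → ℕ) (ρ : ℕ),
    (∀ j ∈ T, a j ≤ e j ∧ g < (ρ + a j).choose ρ) ∧
    ∑ j ∈ T, a j + 2 * ν + ∑ i, (wt i - 1) + 2 * (r - 1) * Finset.univ.sup wt + 2 ≤
      ∑ j ∈ T, e j + (A ∩ T).card ∧
    (Indep K h ρ y₀ ∨ (ρ = N ∧
      ∀ G : MvPolynomial (Fin (N + 1)) K, G.IsHomogeneous (∑ j ∈ T, a j) →
        aeval (Fin.cons 1 (fun i => y₀ (Fin.castLE h i)) : Fin (N + 1) → Ω) G = 0 → G = 0))

/-- The point `(1 : y₀)` is on the hypersurface `∑ j, a j x_j ^ d = 0` in `ℙ ^ m`, and no proper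
partial sum is zero; the forms `F j` are some of the coordinates `x_0, …, x_m`, and
`d > (m - 1) (m + 1 - p) + 2 (r - 1) m ^ 2 (m - 1)`, where `p` is the number of the forms. -/
def Diagonal {K Ω : Type*} [Field K] [Field Ω] [Algebra K Ω] (r : ℕ) {m p : ℕ}
    (F : Fin p → MvPolynomial (Fin (m + 1)) K) (e : Fin p → ℕ) (A : Finset (Fin p))
    (y₀ : Fin m → Ω) : Prop :=
  1 ≤ m ∧ A = ∅ ∧
    (∃ σ : Fin p → Fin (m + 1), Function.Injective σ ∧ ∀ j, F j = X (σ j) ∧ e j = 1) ∧
    ∃ (d : ℕ) (a : Fin (m + 1) → K),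
      (m - 1) * (m + 1 - p) + 2 * (r - 1) * (m ^ 2 * (m - 1)) < d ∧ (∀ j, a j ≠ 0) ∧
      ∑ j, algebraMap K Ω (a j) * (Fin.cons 1 y₀ : Fin (m + 1) → Ω) j ^ d = 0 ∧
      ∀ I : Finset (Fin (m + 1)), I.Nonempty → I ≠ Finset.univ →
        ∑ j ∈ I, algebraMap K Ω (a j) * (Fin.cons 1 y₀ : Fin (m + 1) → Ω) j ^ d ≠ 0

/-- The point `y₀` is a point of a variety whose points of degree at most `r` have a height which
is bounded by the truncated counting function of the forms `F j`, `j ∉ A`, in the first `N + 1`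
coordinates: an intersection of an arbitrary variety with hypersurfaces, or a covering of such a
variety, or a diagonal hypersurface. -/
def Base (r R : ℕ) {K Ω : Type*} [Field K] [Field Ω] [Algebra K Ω] {p N m : ℕ} (h : N ≤ m)
    (F : Fin p → MvPolynomial (Fin (N + 1)) K) (e : Fin p → ℕ) (A : Finset (Fin p))
    (y₀ : Fin m → Ω) : Prop :=
  (∃ (k : Subfield K) (v ν g : ℕ) (wt : Fin (m + 1) → ℕ)
    (f : Fin v → MvPolynomial (Fin p ⊕ Fin (m + 1)) k),
    Eqs k N wt f e ν ∧ Forms k F e g ∧ BaseAt h f F A y₀ ∧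
      ((N = m ∧ (∀ l, ∀ j ∉ A, Sum.inl j ∉ (f l).vars) ∧
          ∃ μ, 1 ≤ μ ∧ μ ≤ ν ∧ Indep K h μ y₀ ∧ Large r R ν μ g e A) ∨
        Many K r ν g h wt e A y₀)) ∨
  (N = m ∧ Diagonal r F e A fun i => y₀ (Fin.castLE h i))

/-- The truncated counting function of the forms `F j`, `j ∉ A`, at the point `y`. -/
noncomputable def baseCount (κ : Type*) {K L : Type*} [Field κ] [Field K] [Algebra κ K] [Field L]
    [Algebra κ L] [Algebra K L] {m p N : ℕ} (h : N ≤ m) (F : Fin p → MvPolynomial (Fin (N + 1)) K)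
    (e : Fin p → ℕ) (A : Finset (Fin p)) (S : Set (Pool.Agent.Lib.MP_44a246_nt.Place κ K))
    (y : Fin m → L) : ℕ :=
  Pool.Agent.Lib.MP_44a246_nt.truncCount κ (fun j : {j // j ∉ A} => F j) (fun j => e j) S
    (Fin.cons 1 (fun i => y (Fin.castLE h i)) : Fin (N + 1) → L)

universe u v w u₁

/-- Outside of a proper closed subset `{G = 0}`, the heights of the points of degree at most `r` of
the variety with the generic point `(1 : y₀)` are bounded by a constant times one plus the truncated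
counting function of the forms `F j`, `j ∉ A`. -/
def Bounded (κ : Type u) {K : Type v} {Ω : Type u₁} [Field κ] [Field K] [Algebra κ K] [Field Ω]
    [Algebra K Ω] (r : ℕ) {m p N : ℕ} (h : N ≤ m) (F : Fin p → MvPolynomial (Fin (N + 1)) K)
    (e : Fin p → ℕ) (A : Finset (Fin p)) (S : Set (Pool.Agent.Lib.MP_44a246_nt.Place κ K))
    (y₀ : Fin m → Ω) : Prop :=
  ∃ (G : MvPolynomial (Fin (m + 1)) K) (C : ℕ),
    aeval (Fin.cons 1 y₀ : Fin (m + 1) → Ω) G ≠ 0 ∧
    ∀ (L : Type w) [Field L] [Algebra K L] [FiniteDimensional K L] [Algebra κ L]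
      [IsScalarTower κ K L] (y : Fin m → L), Module.finrank K L ≤ r →
      (∀ Q : MvPolynomial (Fin (m + 1)) K, aeval (Fin.cons 1 y₀ : Fin (m + 1) → Ω) Q = 0 →
        aeval (Fin.cons 1 y : Fin (m + 1) → L) Q = 0) →
      aeval (Fin.cons 1 y : Fin (m + 1) → L) G ≠ 0 →
      hgt κ y ≤ C * (1 + baseCount κ h F e A S y)

end Pool.Agent.Lib.MP_44a246_ntFB
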