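import Mathlib
import Pool.Agent.Lib.MP_44a246_ntFB.FB0F

/-!
# Towers of families of curves: the varieties with bounded heights which are used as the base
-/

namespace Pool.Agent.Lib.MP_44a246_ntFB

open MvPolynomial

/-- `(1 : y)` is a point of the variety `V = {g = 0}` over the subfield `k` of `K`, and the dimension
of `V` is at most `n`. The `g i` are forms of degree `dg i`. -/
def OnVariety {K Ω : Type*} [Field K] [Field Ω] [Algebra K Ω] (k : Subfield K) {v m : ℕ} (n : ℕ)
    (g : Fin v → MvPolynomial (Fin (m + 1)) k) (dg : Fin v → ℕ) (y : Fin m → Ω) : Prop :=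
  (∀ i, (g i).IsHomogeneous (dg i)) ∧
    ringKrullDim (MvPolynomial (Fin (m + 1)) k ⧸ Ideal.span (Set.range g)) ≤
      ((n + 1 : ℕ) : WithBot ℕ∞) ∧
    ∀ i, aeval (Fin.cons 1 y : Fin (m + 1) → Ω) (g i) = 0

/-- Condition (1): the point `(1 : y)` is on the intersection of a variety `V` of dimension at most
`n` over `k` with the hypersurfaces `F j = 0` of degree `e j`, all but at most `g` of whose
coefficients are algebraically independent over `k`. Here `g` is smaller than the number of the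
monomials of degree `a j` in `u + 1` variables, where `u` of the coordinates of `y` are
algebraically independent over `K`, or `u = m` and no form of the degree `∑ a j` is zero at
`(1 : y)`. -/
def ManyParameters (r : ℕ) (K : Type*) {Ω : Type*} [Field K] [Field Ω] [Algebra K Ω] {m : ℕ}
    (y : Fin m → Ω) : Prop :=
  ∃ (k : Subfield K) (v n p g u : ℕ) (dg : Fin v → ℕ) (f : Fin v → MvPolynomial (Fin (m + 1)) k)
    (F : Fin p → MvPolynomial (Fin (m + 1)) K) (e a : Fin p → ℕ),
    OnVariety k n f dg y ∧ Forms k F e g ∧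
    (∀ j, aeval (Fin.cons 1 y : Fin (m + 1) → Ω) (F j) = 0) ∧
    (∀ j, a j ≤ e j ∧ g < (u + a j).choose u) ∧ ∑ j, a j + 2 * n + 2 * r ≤ ∑ j, (e j + 1) ∧
    ((∃ σ : Fin u → Fin m, AlgebraicIndependent K fun i => y (σ i)) ∨
      (u = m ∧ ∀ G : MvPolynomial (Fin (m + 1)) K, G.IsHomogeneous (∑ j, a j) →
        aeval (Fin.cons 1 y : Fin (m + 1) → Ω) G = 0 → G = 0))

/-- The value of the form `∑ j, t j * (∑ i, M j i * z i) ^ d` at the point `(1 : y)`. -/
noncomputable def sumVal {K L : Type*} [Field K] [Field L] [Algebra K L] {k : Subfield K}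
    {m q l : ℕ} (z : Fin (l + 1) → MvPolynomial (Fin (m + 1)) k) (M : Fin q → Fin (l + 1) → k)
    (d : ℕ) (t : Fin q → K) (y : Fin m → L) : L :=
  ∑ j, algebraMap K L (t j) *
    (∑ i, algebraMap k L (M j i) * aeval (Fin.cons 1 y : Fin (m + 1) → L) (z i)) ^ d

/-- Condition (2): the point `(1 : y)` is on the variety `V` of dimension at most `n` over `k` (a
field of finite transcendence degree over the rational numbers), and the value at this point of the
form `∑ j, t j * P j ^ d` is algebraic over the field generated over `k` by `y`. Here the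
`P j = ∑ i, M j i * z i` are `q` linear combinations of forms `z i` over `k` of degree `δ` without
common zero on `V`, and `Φ q l` does not vanish at the point `M`. Only few of the `t j` have to be
independent over `k`: for all sets `J` of at most `s` indices the `t j`, `j ∈ J`, generate over `k` a
field of transcendence degree at least `|J| - c`. -/
def FewParameters (r : ℕ) (Φ : ∀ q l : ℕ, MvPolynomial (Fin q × Fin (l + 1)) ℚ) (K : Type*)
    {Ω : Type*} [Field K] [CharZero K] [Field Ω] [Algebra K Ω] {m : ℕ} (y : Fin m → Ω) : Prop :=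
  ∃ (k : Subfield K) (v n c δ d q l s : ℕ) (dg : Fin v → ℕ)
    (g : Fin v → MvPolynomial (Fin (m + 1)) k) (z : Fin (l + 1) → MvPolynomial (Fin (m + 1)) k)
    (M : Fin q → Fin (l + 1) → k) (t : Fin q → K),
    OnVariety k n g dg y ∧ Algebra.trdeg ℚ k < Cardinal.aleph0 ∧ 1 ≤ l ∧ 1 ≤ δ ∧
    (∀ i, (z i).IsHomogeneous δ) ∧
    (∀ x : Fin (m + 1) → AlgebraicClosure k, (∀ i, aeval x (g i) = 0) →
      (∀ i, aeval x (z i) = 0) → x = 0) ∧
    aeval (fun i : Fin q × Fin (l + 1) => M i.1 i.2) (Φ q l) ≠ 0 ∧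
    (∀ J : Finset (Fin q), J.card ≤ s → (J.card : Cardinal) ≤
      Algebra.trdeg k (IntermediateField.adjoin k (t '' (J : Set (Fin q)))) + c) ∧
    (s = n + c + 1 ∧ 4 * l + c ≤ q + 1 ∧ l * q ^ 3 * (n + 2 * r + 1) ≤ d ∨
      s = q ∧ 2 * l + c ≤ q ∧ l * (n + c + 1) ^ 3 * (n + 2 * r + 1) ≤ d) ∧
    IsAlgebraic (IntermediateField.adjoin k (Set.range y)) (sumVal z M d t y)

/-- Condition (3): the point `(1 : y)` is on a diagonal hypersurface `∑ j, a j x_j ^ d = 0` in
`ℙ ^ m` with arbitrary coefficients in `K`, and no proper partial sum is zero. -/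
def DiagonalForm (r : ℕ) (K : Type*) {Ω : Type*} [Field K] [Field Ω] [Algebra K Ω] {m : ℕ}
    (y : Fin m → Ω) : Prop :=
  ∃ (d : ℕ) (a : Fin (m + 1) → K), m ^ 2 + 2 * (r - 1) * m ^ 3 ≤ d ∧ (∀ j, a j ≠ 0) ∧
    ∑ j, algebraMap K Ω (a j) * (Fin.cons 1 y : Fin (m + 1) → Ω) j ^ d = 0 ∧
    ∀ I : Finset (Fin (m + 1)), I.Nonempty → I ≠ Finset.univ →
      ∑ j ∈ I, algebraMap K Ω (a j) * (Fin.cons 1 y : Fin (m + 1) → Ω) j ^ d ≠ 0

/-- One of the conditions (1), (2), (3). -/
def BoundedBase (r : ℕ) (Φ : ∀ q l : ℕ, MvPolynomial (Fin q × Fin (l + 1)) ℚ) (K : Type*)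
    {Ω : Type*} [Field K] [CharZero K] [Field Ω] [Algebra K Ω] {m : ℕ} (y : Fin m → Ω) : Prop :=
  ManyParameters r K y ∨ FewParameters r Φ K y ∨ DiagonalForm r K y

end Pool.Agent.Lib.MP_44a246_ntFB
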