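import Mathlib
import Pool.Agent.Lib.MP_44a246_ntFB.FB05
import Pool.Agent.Lib.MP_44a246_ntTA.TA19

/-!
# The height of the points of bounded degree of generic complete intersections
-/

namespace Pool.Agent.Lib.MP_44a246_ntFB

open Pool.Agent.Lib.MP_e52354_nt
open Pool.Agent.Lib.MP_44a246_nt
open Pool.Agent.Lib.MP_44a246_ntL
open Pool.Agent.Lib.MP_44a246_ntTA
open WithZero MvPolynomial Module

universe u v w

/-- the truncated counting function in an extension -/
theorem trunc_le_ext {κ : Type u} {K : Type v} {M L : Type w} [Field κ] [IsAlgClosed κ] [CharZero κ] [Field K]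
    [Algebra κ K] (hK : IsFF κ K) [Field M] [Algebra κ M] [Algebra K M] [IsScalarTower κ K M]
    [FiniteDimensional K M] [Field L] [Algebra κ L] [Algebra K L] [IsScalarTower κ K L]
    [FiniteDimensional K L] [Algebra M L] [IsScalarTower κ M L] [IsScalarTower K M L]
    [FiniteDimensional M L] {n p : ℕ} {d : Fin p → ℕ}
    {F : Fin p → MvPolynomial (Fin (n + 1)) K} (hF : ∀ j, (F j).IsHomogeneous (d j))
    (S : Set (Place κ K)) {y : Fin (n + 1) → M} (hy : y ≠ 0) :
    truncCount κ F d S y ≤ truncCount κ F d S (fun i => algebraMap M L (y i)) := by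
  classical
  have hL : IsFF κ L := hK.of_finite
  obtain ⟨x, hx⟩ : ∃ x : Fin (n + 1) → L, x = fun i => algebraMap M L (y i) := ⟨_, rfl⟩
  have hxy : ∀ i, x i = 1 * algebraMap M L (y i) := fun i => by rw [hx, one_mul]
  have hx0 : x ≠ 0 := by
    intro h0
    apply hy
    funext i
    have h1 := congrFun h0 i
    rw [hx] at h1
    exact (map_eq_zero (algebraMap M L)).1 h1
  have hset : meetSet (κ := κ) d (fun i I => (F i).coeff I) S x =
      {w : Place κ L | below M w ∈ meetSet (κ := κ) d (fun i I => (F i).coeff I) S y} := by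
    ext w
    simp only [meetSet, Set.mem_ofPred_eq]
    rw [below_below (K := K) (L := M) w]
    refine and_congr Iff.rfl (exists_congr fun j => ?_)
    rw [← aeval_eq_Fval (F j) (hF j) x, ← aeval_eq_Fval (F j) (hF j) y,
      aeval_model (M := M) (L := L) (x := x) (hF j) hxy, one_pow, one_mul]
    have h1 : algebraMap M L (aeval y (F j)) ≠ 0 ↔ aeval y (F j) ≠ 0 :=
      not_congr (map_eq_zero (algebraMap M L))
    rw [h1]
    refine and_congr Iff.rfl ?_
    have h2 : vmax w.1 x = vmax (below M w).1 y ^ ramIdx M w.1 := by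
      rw [hx]
      exact vmax_extn w y
    rw [below_pow, h2, ← pow_mul, mul_comm (ramIdx M w.1), pow_mul]
    have he := one_le_ramIdx (K := M) w.1 w.2.1
    exact pow_lt_pow_iff_left₀ zero_le zero_le (by omega)
  have hfin := meetSet_finite hK d (fun i I => (F i).coeff I) S hy
  have hfin' := meetSet_finite hK d (fun i I => (F i).coeff I) S hx0
  rw [← hx, Pool.Agent.Lib.MP_44a246_ntSP.truncCount_eq_meetSet d F hF S x,
    Pool.Agent.Lib.MP_44a246_ntSP.truncCount_eq_meetSet d F hF S y]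
  refine (Set.ncard_le_ncard (t := below M '' meetSet (κ := κ) d (fun i I => (F i).coeff I) S x)
    ?_ (hfin'.image _)).trans (Set.ncard_image_le hfin')
  intro v hv
  obtain ⟨T, ⟨w, hw⟩, hT, -⟩ := hL.exists_over (K := M) v
  have hwv := (hT w).1 hw
  refine ⟨w, ?_, hwv⟩
  rw [hset, Set.mem_ofPred_eq, hwv]
  exact hv

/-- **The height of the points of bounded degree** of a generic complete intersection is bounded in
terms of the truncated counting function of the other forms. -/
theorem base_height (p r : ℕ) :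
    ∃ E : Finset (ℕ × Finset (Fin p) × (Fin p → ℕ)),
      ∀ (m : ℕ) (e : Fin p → ℕ) (A : Finset (Fin p)), (∀ j, 1 ≤ e j) → A.card < m →
        (m, A, fun j => if j ∈ A then e j else 0) ∉ E → m + 2 * r ≤ ∑ j, e j →
      ∀ (κ : Type u) (K : Type v) [Field κ] [IsAlgClosed κ] [CharZero κ] [Field K] [CharZero K]
        [Algebra κ K] (_ : IsFF κ K)
        (F : Fin p → MvPolynomial (Fin (m + 1)) K) (_ : ∀ j, (F j).IsHomogeneous (e j))
        (_ : AlgebraicIndependent ℚ
          (fun I : {I : Fin p × (Fin (m + 1) →₀ ℕ) // I.2.degree = e I.1} =>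
            (F I.1.1).coeff I.1.2))
        (S : Set (Place κ K)) (_ : S.Finite),
        ∃ G : MvPolynomial (Fin (m + 1)) K, (∃ a, G.IsHomogeneous a) ∧
          (∃ z : Fin (m + 1) → AlgebraicClosure K, (∀ j ∈ A, aeval z (F j) = 0) ∧
            aeval z G ≠ 0) ∧
          ∃ C : ℕ, ∀ (L : Type w) [Field L] [Algebra K L] [FiniteDimensional K L] [Algebra κ L]
            [IsScalarTower κ K L] (y : Fin m → L), finrank K L ≤ r →
            (∀ j ∈ A, aeval (Fin.cons 1 y : Fin (m + 1) → L) (F j) = 0) →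
            aeval (Fin.cons 1 y : Fin (m + 1) → L) G ≠ 0 →
            hgt κ y ≤ C * (1 + truncCount κ F e S (Fin.cons 1 y : Fin (m + 1) → L)) := by
  classical
  obtain ⟨E, -, hE⟩ := deg_all_const.{u, v, w} p r (ε := 1 / 2) (by norm_num)
  refine ⟨E, ?_⟩
  intro m e A he1 hA hnE hr κ K _ _ _ _ _ _ hK F hF hgen S hS
  obtain ⟨t, ht, hfin⟩ := hK
  obtain ⟨G, ⟨a, hG⟩, ⟨z, hz0, hzF, hzG⟩, C, hC⟩ :=
    hE m e A he1 hA hnE κ K t ht hfin F hF hgen S hS
  have hK : IsFF κ K := ⟨t, ht, hfin⟩
  refine ⟨G, ⟨a, hG⟩, ⟨z, hzF, hzG⟩, 2 * r * (C + 1), ?_⟩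
  intro L _ _ _ _ _ y hLr hFy hGy
  have hL : IsFF κ L := hK.of_finite
  obtain ⟨M, hM⟩ : ∃ M : IntermediateField K L,
      M = IntermediateField.adjoin K (Set.range y) := ⟨_, rfl⟩
  have hmem : ∀ i, y i ∈ M := fun i => by
    rw [hM]
    exact IntermediateField.subset_adjoin _ _ ⟨i, rfl⟩
  obtain ⟨y', hy'⟩ : ∃ y' : Fin m → M, ∀ i, (y' i : L) = y i := ⟨fun i => ⟨_, hmem i⟩, fun _ => rfl⟩
  have htop : IntermediateField.adjoin K (Set.range y') = ⊤ := by
    rw [eq_top_iff]
    intro b _
    have h1 : IntermediateField.map M.val (IntermediateField.adjoin K (Set.range y')) =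
        IntermediateField.adjoin K (Set.range y) := by
      rw [IntermediateField.adjoin_map, ← Set.range_comp]
      congr 2
      exact funext hy'
    have h2 : (b : L) ∈ IntermediateField.map M.val (IntermediateField.adjoin K (Set.range y')) := by
      rw [h1, ← hM]
      exact b.2
    obtain ⟨b', hb', hbb⟩ := h2
    have h3 : b' = b := Subtype.ext hbb
    rw [← h3]
    exact hb'
  have hκM : IsScalarTower κ M L := IsScalarTower.of_algebraMap_eq fun c => by
    rw [IsScalarTower.algebraMap_apply κ K L, IsScalarTower.algebraMap_apply κ K M,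
      ← IsScalarTower.algebraMap_apply K M L]
  have hMf : IsFF κ M := hK.of_finite
  have hMr : finrank K M * finrank M L = finrank K L := finrank_mul_finrank K M L
  have hM1 : 0 < finrank K M := finrank_pos
  have hM2 : 0 < finrank M L := finrank_pos
  have hr1 : finrank K M ≤ r := (Nat.le_mul_of_pos_right _ hM2).trans (hMr.le.trans hLr)
  have hr2 : finrank M L ≤ r := (Nat.le_mul_of_pos_left _ hM1).trans (hMr.le.trans hLr)
  have hcons : (Fin.cons 1 y : Fin (m + 1) → L) =
      fun i => algebraMap M L ((Fin.cons 1 y' : Fin (m + 1) → M) i) := by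
    funext i
    refine Fin.cases ?_ (fun i => ?_) i
    · rw [Fin.cons_zero, Fin.cons_zero, map_one]
    · rw [Fin.cons_succ, Fin.cons_succ]
      exact (hy' i).symm
  have hval : ∀ Q : MvPolynomial (Fin (m + 1)) K, aeval (Fin.cons 1 y : Fin (m + 1) → L) Q =
      algebraMap M L (aeval (Fin.cons 1 y' : Fin (m + 1) → M) Q) := by
    intro Q
    rw [hcons]
    exact aeval_algebraMap_apply L (Fin.cons 1 y' : Fin (m + 1) → M) Q
  have hne : (Fin.cons 1 y' : Fin (m + 1) → M) ≠ 0 := fun h0 => by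
    have h1 := congrFun h0 0
    rw [Fin.cons_zero] at h1
    exact one_ne_zero h1
  rcases hC M (Fin.cons 1 y') hr1 hne (fun j hj => by
    have h1 := hFy j hj
    rw [hval] at h1
    exact (map_eq_zero _).1 h1) with h1 | h1
  · have hram := ram_aff hK y' htop
    have hN := trunc_le_ext (κ := κ) (K := K) (M := M) (L := L) hK hF S hne
    rw [← hcons] at hN
    rw [← hgt_eq] at h1
    obtain ⟨N, hNd⟩ : ∃ N, N = truncCount κ F e S (Fin.cons 1 y : Fin (m + 1) → L) := ⟨_, rfl⟩
    obtain ⟨N', hNd'⟩ : ∃ N', N' = truncCount κ F e S (Fin.cons 1 y' : Fin (m + 1) → M) := ⟨_, rfl⟩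
    obtain ⟨b, hb⟩ : ∃ b : ℝ, b = hgt κ y' := ⟨_, rfl⟩
    rw [← hNd, ← hNd'] at hN
    rw [← hNd', ← hb] at h1
    rw [← hNd]
    have hb0 : 0 ≤ b := by
      rw [hb]
      exact_mod_cast hgt_nonneg hMf y'
    have hR : (ramDeg κ M K : ℝ) ≤ 2 * ((r : ℝ) - 1) * b := by
      have h2 : (ramDeg κ M K : ℝ) ≤ 2 * ((finrank K M : ℝ) - 1) * b := by
        rw [hb]
        exact_mod_cast hram
      have h3 : (finrank K M : ℝ) ≤ r := by exact_mod_cast hr1
      refine h2.trans (mul_le_mul_of_nonneg_right (by linarith) hb0)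
    have hsum : (m : ℝ) + 2 * r ≤ ((∑ j, e j : ℕ) : ℝ) := by exact_mod_cast hr
    have hNR : (N' : ℝ) ≤ N := by exact_mod_cast hN
    have h4 : (((∑ j, e j : ℕ) : ℝ) - m - 1 - 1 / 2) * b ≥ (2 * r - 3 / 2) * b :=
      mul_le_mul_of_nonneg_right (by linarith) hb0
    have h5 : b ≤ 2 * (N + C) := by linarith
    have h6 : hgt κ y' ≤ 2 * (N + C) := by
      rw [hb] at h5
      exact_mod_cast h5
    have e1 : hgt κ y = finrank M L * hgt κ y' := by
      rw [← hgt_ext hL y']
      congr 1
      funext i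
      exact (hy' i).symm
    have h7 : (finrank M L : ℤ) ≤ r := by exact_mod_cast hr2
    have h8 : (0 : ℤ) ≤ N := Int.natCast_nonneg _
    have h9 : (0 : ℤ) ≤ C := Int.natCast_nonneg _
    calc hgt κ y = finrank M L * hgt κ y' := e1
      _ ≤ r * (2 * (N + C)) := by
        refine mul_le_mul h7 h6 (hgt_nonneg hMf y') (Int.natCast_nonneg _)
      _ ≤ ((2 * r * (C + 1) : ℕ) : ℤ) * (1 + N) := by
        push_cast
        have h10 : (0 : ℤ) ≤ r := Int.natCast_nonneg _
        have h11 : (0 : ℤ) ≤ r * (C * N) := mul_nonneg h10 (mul_nonneg h9 h8)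
        nlinarith
  · exact absurd (by rw [hval, h1, map_zero]) hGy

end Pool.Agent.Lib.MP_44a246_ntFB
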