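import Mathlib
import Pool.Agent.Lib.MP_44a246_ntFB.FB14
import Pool.Agent.Lib.MP_44a246_ntFB.FB20

/-!
# Towers of families of curves over products of generic complete intersections
-/

namespace Pool.Agent.Lib.MP_44a246_ntFB

open Pool.Agent.Lib.MP_e52354_nt
open Pool.Agent.Lib.MP_44a246_nt
open Pool.Agent.Lib.MP_44a246_ntL
open Pool.Agent.Lib.MP_44a246_ntMY
open WithZero MvPolynomial Module

universe u v w u₁

/-- the height of a point of a product -/
theorem hgt_prod_le {κ L : Type*} [Field κ] [IsAlgClosed κ] [CharZero κ] [Field L] [Algebra κ L]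
    (hL : IsFF κ L) {b : ℕ} {m : Fin b → ℕ} (y : (Σ i : Fin b, Fin (m i)) → L) :
    hgt κ y ≤ ∑ i, hgt κ (fun j => y ⟨i, j⟩) := by
  classical
  have hpos : ∀ (w : Place κ L) i, 1 ≤ vmax w.1 (aff fun j => y ⟨i, j⟩) := fun w i =>
    one_le_vmax_aff w.1 _
  have e1 : ∑ i, hgt κ (fun j => y ⟨i, j⟩) =
      ∑ᶠ w : Place κ L, ∑ i, log (vmax w.1 (aff fun j => y ⟨i, j⟩)) := by
    rw [finsum_sum_comm]
    · rfl
    · intro i _
      exact aff_support hL _
  have hsup : (Function.support fun w : Place κ L =>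
      ∑ i, log (vmax w.1 (aff fun j => y ⟨i, j⟩))).Finite := by
    refine Set.Finite.subset (Set.finite_iUnion fun i : Fin b => aff_support hL
      (fun j => y ⟨i, j⟩)) ?_
    intro w hw
    rw [Set.mem_iUnion]
    by_contra hcon
    push Not at hcon
    apply hw
    refine Finset.sum_eq_zero fun i _ => ?_
    have h1 := hcon i
    rw [Function.mem_support, not_not] at h1
    exact h1
  rw [e1]
  refine finsum_mono (aff_support hL y) hsup fun w => ?_
  have h0 : ∀ i, vmax w.1 (aff fun j => y ⟨i, j⟩) ≠ 0 := fun i =>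
    (lt_of_lt_of_le zero_lt_one (hpos w i)).ne'
  have h1 : vmax w.1 (aff y) ≤ ∏ i, vmax w.1 (aff fun j => y ⟨i, j⟩) := by
    refine vmax_aff_le w.1 (Finset.one_le_prod' fun i _ => hpos w i) fun t => ?_
    obtain ⟨i, j⟩ := t
    refine (le_vmax_aff w.1 (fun j => y ⟨i, j⟩) j).trans ?_
    rw [← Finset.mul_prod_erase _ _ (Finset.mem_univ i)]
    exact le_mul_of_one_le_right' (Finset.one_le_prod' fun i' _ => hpos w i')
  have h2 : (∏ i, vmax w.1 (aff fun j => y ⟨i, j⟩)) ≠ 0 := Finset.prod_ne_zero_iff.2 fun i _ => h0 i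
  have h3 : log (∏ i, vmax w.1 (aff fun j => y ⟨i, j⟩)) =
      ∑ i, log (vmax w.1 (aff fun j => y ⟨i, j⟩)) := by
    have h4 : ∀ s : Finset (Fin b), log (∏ i ∈ s, vmax w.1 (aff fun j => y ⟨i, j⟩)) =
        ∑ i ∈ s, log (vmax w.1 (aff fun j => y ⟨i, j⟩)) := by
      intro s
      induction s using Finset.induction_on with
      | empty => rw [Finset.prod_empty, Finset.sum_empty, log_one]
      | insert a s ha ih =>
        rw [Finset.prod_insert ha, Finset.sum_insert ha, ← ih]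
        exact log_mul (h0 a) (Finset.prod_ne_zero_iff.2 fun i _ => h0 i)
    exact h4 _
  rw [← h3]
  exact (log_le_log (lt_of_lt_of_le zero_lt_one (one_le_vmax_aff w.1 y)).ne' h2).2 h1

/-- a polynomial in the homogeneous coordinates of a factor of the base, at a point of the tower -/
theorem aeval_dehom {K L : Type*} [Field K] [Field L] [Algebra K L] {b : ℕ} {m : Fin b → ℕ}
    {ρ : Type*} (i : Fin b) (G : MvPolynomial (Fin (m i + 1)) K)
    (y : (Σ i : Fin b, Fin (m i)) → L) (x : ρ → L) :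
    aeval (Sum.elim y x) (aeval (Fin.cons 1 (fun j => X (Sum.inl ⟨i, j⟩)) :
      Fin (m i + 1) → MvPolynomial ((Σ i : Fin b, Fin (m i)) ⊕ ρ) K) G) =
    aeval (Fin.cons 1 (fun j => y ⟨i, j⟩) : Fin (m i + 1) → L) G := by
  rw [comp_aeval_apply]
  congr 2
  funext j
  refine Fin.cases ?_ (fun j => ?_) j
  · rw [Fin.cons_zero, Fin.cons_zero, map_one]
  · rw [Fin.cons_succ, Fin.cons_succ, aeval_X, Sum.elim_inl]

/-- **Towers of families of curves over products of generic complete intersections.** -/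
theorem tower_over (r : ℕ) :
    ∃ E : ∀ p : ℕ, Finset (ℕ × Finset (Fin p) × (Fin p → ℕ)),
      ∀ (b : ℕ) (p m : Fin b → ℕ) (e : ∀ i, Fin (p i) → ℕ) (A : ∀ i, Finset (Fin (p i))),
        (∀ i j, 1 ≤ e i j) → (∀ i, (A i).card < m i) →
        (∀ i, (m i, A i, fun j => if j ∈ A i then e i j else 0) ∉ E (p i)) →
        (∀ i, m i + 2 * r ≤ ∑ j, e i j) →
      ∀ (κ : Type u) (K : Type v) [Field κ] [IsAlgClosed κ] [CharZero κ] [Field K] [CharZero K]
        [Algebra κ K] (_ : IsFF κ K) (_ : MYP.{u, v} κ)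
        (F : ∀ i, Fin (p i) → MvPolynomial (Fin (m i + 1)) K)
        (_ : ∀ i j, (F i j).IsHomogeneous (e i j))
        (_ : ∀ i, AlgebraicIndependent ℚ
          (fun I : {I : Fin (p i) × (Fin (m i + 1) →₀ ℕ) // I.2.degree = e i I.1} =>
            (F i I.1.1).coeff I.1.2))
        (Ω : Type u₁) [Field Ω] [IsAlgClosed Ω] [Algebra K Ω] (n q : ℕ → ℕ)
        (y₀ : (Σ i : Fin b, Fin (m i)) → Ω) (x₀ : ∀ l : ℕ, Fin (n l) → Ω) (s : ℕ) (c : ℕ → ℝ)
        (H : ∀ l : ℕ, Fin (q l + 1) →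
          MvPolynomial (((Σ i : Fin b, Fin (m i)) ⊕ (Σ i : Fin l, Fin (n i))) ⊕ Fin (n l)) K)
        (d : ∀ l : ℕ, Fin (q l + 1) → ℕ)
        (_ : ∀ (i : Fin b) (a : ℕ) (G : MvPolynomial (Fin (m i + 1)) K), G.IsHomogeneous a →
          (aeval (Fin.cons 1 (fun j => y₀ ⟨i, j⟩) : Fin (m i + 1) → Ω) G = 0 ↔
            ∀ z : Fin (m i + 1) → AlgebraicClosure K, (∀ j ∈ A i, aeval z (F i j) = 0) →
              aeval z G = 0))
        (_ : ∀ l ≤ s, ∀ i j, ¬ AlgebraicIndependent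
          (IntermediateField.adjoin K (Set.range (low y₀ x₀ l))) ![x₀ l i, x₀ l j])
        (_ : ∀ l ≤ s, ∀ j, aeval (Sum.elim (low y₀ x₀ l) (x₀ l)) (H l j) ≠ 0)
        (_ : ∀ l ≤ s, Slope K (low y₀ x₀ l) (x₀ l) (H l) (d l) (c l))
        (_ : ∀ l < s, 2 * ((r : ℝ) - 1) < c l)
        (S : Set (Place κ K)) (_ : S.Finite) (ε : ℝ) (_ : 0 < ε),
        ∃ (h : MvPolynomial ((Σ i : Fin b, Fin (m i)) ⊕ (Σ i : Fin (s + 1), Fin (n i))) K)
          (C : ℕ), aeval (low y₀ x₀ (s + 1)) h ≠ 0 ∧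
          ∀ (L : Type w) [Field L] [Algebra K L] [FiniteDimensional K L] [Algebra κ L]
            [IsScalarTower κ K L], finrank K L ≤ r →
          ∀ (y : (Σ i : Fin b, Fin (m i)) → L) (x : ∀ l : ℕ, Fin (n l) → L),
            (∀ Q : MvPolynomial ((Σ i : Fin b, Fin (m i)) ⊕ (Σ i : Fin (s + 1), Fin (n i))) K,
              aeval (low y₀ x₀ (s + 1)) Q = 0 → aeval (low y x (s + 1)) Q = 0) →
            aeval (low y x (s + 1)) h ≠ 0 →
          ∀ B : ℝ, B = C * (1 +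
              ∑ i, (truncCount κ (F i) (e i) S
                (Fin.cons 1 (fun j => y ⟨i, j⟩) : Fin (m i + 1) → L) : ℝ) +
              ∑ i ∈ Finset.range s, (meet κ K (H i) (d i) S (low y x i) (x i) : ℝ)) →
            hgt κ y ≤ B ∧ (∀ l < s, hgt κ (x l) ≤ B) ∧
            (c s - ε) * hgt κ (x s) ≤
              meet κ K (H s) (d s) S (low y x s) (x s) + ramDeg κ L K + B := by
  classical
  choose E hE using fun p : ℕ => base_height.{u, v, w} p r
  refine ⟨E, ?_⟩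
  intro b p m e A he1 hA hnE hr κ K _ _ _ _ _ _ hK hMY F hF hgen Ω _ _ _ n q y₀ x₀ s c H d hy₀
    hdim hH hc hlow S hS ε hε
  have hbase := fun i => hE (p i) (m i) (e i) (A i) (he1 i) (hA i) (hnE i) (hr i) κ K hK (F i)
    (hF i) (hgen i) S hS
  choose G hG hz' C₀ hC₀ using hbase
  choose z hz using hz'
  have hGy : ∀ i, aeval (Fin.cons 1 (fun j => y₀ ⟨i, j⟩) : Fin (m i + 1) → Ω) (G i) ≠ 0 := by
    intro i h0
    obtain ⟨a, ha⟩ := hG i
    exact (hz i).2 ((hy₀ i a (G i) ha).1 h0 (z i) (hz i).1)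
  have hFy : ∀ i, ∀ j ∈ A i,
      aeval (Fin.cons 1 (fun j => y₀ ⟨i, j⟩) : Fin (m i + 1) → Ω) (F i j) = 0 := fun i j hj =>
    (hy₀ i (e i j) (F i j) (hF i j)).2 fun z hz => hz j hj
  obtain ⟨h, C, hh0, hC⟩ := tower_gen.{u, v, w} hK hMY r s hdim hH hc hlow hS hε
  obtain ⟨D, hD⟩ : ∃ D : ∀ i : Fin b, MvPolynomial (Fin (m i + 1)) K →
      MvPolynomial ((Σ i : Fin b, Fin (m i)) ⊕ (Σ i : Fin (s + 1), Fin (n i))) K,
      D = fun i G => aeval (Fin.cons 1 (fun j => X (Sum.inl ⟨i, j⟩)) : Fin (m i + 1) →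
        MvPolynomial ((Σ i : Fin b, Fin (m i)) ⊕ (Σ i : Fin (s + 1), Fin (n i))) K) G := ⟨_, rfl⟩
  have hDv : ∀ {L : Type u₁} [Field L] [Algebra K L] (y : (Σ i : Fin b, Fin (m i)) → L)
      (x : ∀ l : ℕ, Fin (n l) → L) (i : Fin b) (G : MvPolynomial (Fin (m i + 1)) K),
      aeval (low y x (s + 1)) (D i G) =
        aeval (Fin.cons 1 (fun j => y ⟨i, j⟩) : Fin (m i + 1) → L) G := by
    intro L _ _ y x i G
    rw [hD]
    exact aeval_dehom i G y _
  have hDw : ∀ {L : Type w} [Field L] [Algebra K L] (y : (Σ i : Fin b, Fin (m i)) → L)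
      (x : ∀ l : ℕ, Fin (n l) → L) (i : Fin b) (G : MvPolynomial (Fin (m i + 1)) K),
      aeval (low y x (s + 1)) (D i G) =
        aeval (Fin.cons 1 (fun j => y ⟨i, j⟩) : Fin (m i + 1) → L) G := by
    intro L _ _ y x i G
    rw [hD]
    exact aeval_dehom i G y _
  refine ⟨h * ∏ i, D i (G i), C * (1 + ∑ i, C₀ i) + ∑ i, C₀ i, ?_, ?_⟩
  · rw [map_mul, map_prod]
    refine mul_ne_zero hh0 (Finset.prod_ne_zero_iff.2 fun i _ => ?_)
    rw [hDv]
    exact hGy i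
  intro L _ _ _ _ _ hLr y x hspec hne B hB
  rw [map_mul, map_prod] at hne
  have hL : IsFF κ L := hK.of_finite
  have hneG : ∀ i, aeval (Fin.cons 1 (fun j => y ⟨i, j⟩) : Fin (m i + 1) → L) (G i) ≠ 0 := by
    intro i
    rw [← hDw y x i]
    exact Finset.prod_ne_zero_iff.1 (right_ne_zero_of_mul hne) i (Finset.mem_univ i)
  have h1 := fun i => hC₀ i L (fun j => y ⟨i, j⟩) hLr (fun j hj => by
    have h2 := hspec (D i (F i j)) (by
      rw [hDv]
      exact hFy i j hj)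
    rwa [hDw] at h2) (hneG i)
  obtain ⟨h2, h3⟩ := hC L hLr y x hspec (left_ne_zero_of_mul hne)
  obtain ⟨N, hN⟩ : ∃ N : Fin b → ℕ, N = fun i => truncCount κ (F i) (e i) S
    (Fin.cons 1 (fun j => y ⟨i, j⟩) : Fin (m i + 1) → L) := ⟨_, rfl⟩
  obtain ⟨T, hT⟩ : ∃ T : ℝ, T =
    ∑ i ∈ Finset.range s, (meet κ K (H i) (d i) S (low y x i) (x i) : ℝ) := ⟨_, rfl⟩
  have h1N : ∀ i, hgt κ (fun j => y ⟨i, j⟩) ≤ C₀ i * (1 + N i) := by
    intro i
    rw [hN]
    exact h1 i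
  obtain ⟨U, hU⟩ : ∃ U : ℝ, U = ∑ i, (N i : ℝ) := ⟨_, rfl⟩
  obtain ⟨V, hV⟩ : ∃ V : ℝ, V = ∑ i, (C₀ i : ℝ) := ⟨_, rfl⟩
  have hB' : B = (C * (1 + V) + V) * (1 + U + T) := by
    rw [hB, hT, hU, hV, hN]
    push_cast
    rfl
  rw [← hT] at h2 h3
  have hT0 : 0 ≤ T := by
    rw [hT]
    exact Finset.sum_nonneg fun i _ => Nat.cast_nonneg _
  have hU0 : 0 ≤ U := by
    rw [hU]
    exact Finset.sum_nonneg fun i _ => Nat.cast_nonneg _
  have hV0 : 0 ≤ V := by
    rw [hV]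
    exact Finset.sum_nonneg fun i _ => Nat.cast_nonneg _
  have hC0 : (0 : ℝ) ≤ C := Nat.cast_nonneg _
  have h1' : (hgt κ y : ℝ) ≤ V * (1 + U) := by
    have h4 : (hgt κ y : ℝ) ≤ ∑ i, ((C₀ i : ℝ) * (1 + N i)) := by
      have h5 : hgt κ y ≤ ∑ i, ((C₀ i : ℤ) * (1 + N i)) :=
        (hgt_prod_le hL y).trans (Finset.sum_le_sum fun i _ => h1N i)
      exact_mod_cast h5
    refine h4.trans ?_
    rw [hV, Finset.sum_mul]
    refine Finset.sum_le_sum fun i _ => mul_le_mul_of_nonneg_left ?_ (Nat.cast_nonneg _)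
    have h5 : (N i : ℝ) ≤ U := by
      rw [hU]
      exact Finset.single_le_sum (f := fun i => (N i : ℝ)) (fun i _ => Nat.cast_nonneg _)
        (Finset.mem_univ i)
    linarith
  have h4 : (C : ℝ) * (1 + hgt κ y + T) ≤ C * ((1 + V) * (1 + U + T)) := by
    refine mul_le_mul_of_nonneg_left ?_ hC0
    have h5 : (0 : ℝ) ≤ V * T := mul_nonneg hV0 hT0
    nlinarith
  have h5 : B = C * ((1 + V) * (1 + U + T)) + V * (1 + U + T) := by
    rw [hB']
    ring
  have h6 : (0 : ℝ) ≤ V * (1 + U + T) := mul_nonneg hV0 (by linarith)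
  have h7 : (0 : ℝ) ≤ C * ((1 + V) * (1 + U + T)) :=
    mul_nonneg hC0 (mul_nonneg (by linarith) (by linarith))
  have h8 : V * (1 + U) ≤ V * (1 + U + T) := mul_le_mul_of_nonneg_left (by linarith) hV0
  refine ⟨by linarith, fun l hl => ?_, ?_⟩
  · have h9 := h2 l hl
    linarith
  · linarith

end Pool.Agent.Lib.MP_44a246_ntFB
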