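import Mathlib
import Pool.Agent.Lib.MP_44a246_ntFB.FB20
import Pool.Agent.Lib.MP_44a246_ntTV.TV50

/-!
# The height of the points of bounded degree of generic sections of arbitrary varieties
-/

namespace Pool.Agent.Lib.MP_44a246_ntFB

open Pool.Agent.Lib.MP_e52354_nt
open Pool.Agent.Lib.MP_44a246_nt
open Pool.Agent.Lib.MP_44a246_ntL
open Pool.Agent.Lib.MP_44a246_ntUV
open Pool.Agent.Lib.MP_44a246_ntTV
open Pool.Agent.Lib.MP_44a246_ntU
open Pool.Agent.Lib.MP_44a246_ntCE (ringKrullDim_le_baseChange)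
open Pool.Agent.Lib.MP_e52354_ntSD (GenK)
open WithZero MvPolynomial Module

universe u v w

theorem aeval_scale {k B : Type*} [Field k] [CommRing B] [Algebra k B] {n : ℕ}
    {f : MvPolynomial (Fin n) k} {e : ℕ} (hf : f.IsHomogeneous e) (P : Fin n → B) (c : B) :
    aeval (fun i => c * P i) f = c ^ e * aeval P f := by
  rw [aeval_def, aeval_def, eval₂_eq', eval₂_eq', Finset.mul_sum]
  refine Finset.sum_congr rfl fun I hI => ?_
  have h1 := hf (mem_support_iff.1 hI)
  rw [Finsupp.weight_apply, Finsupp.sum_fintype _ _ (by simp)] at h1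
  simp only [Pi.one_apply, smul_eq_mul, mul_one] at h1
  simp only [mul_pow, Finset.prod_mul_distrib, Finset.prod_pow_eq_pow_sum, h1]
  ring

/-- the number of algebraically independent affine coordinates of a point of a projective variety
is less than the dimension of the cone -/
theorem card_lt_of_dim {k M : Type*} [Field k] [Field M] [Algebra k M] {m μ : ℕ}
    {ι : Type*} {f : ι → MvPolynomial (Fin (m + 1)) k} (hf : ∀ i, ∃ e, (f i).IsHomogeneous e)
    (hI : ringKrullDim (MvPolynomial (Fin (m + 1)) k ⧸ Ideal.span (Set.range f)) ≤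
      (μ : WithBot ℕ∞))
    {y : Fin m → M} (hy : ∀ i, aeval (Fin.cons 1 y : Fin (m + 1) → M) (f i) = 0) {p : ℕ}
    {j : Fin p → Fin m} (hj : AlgebraicIndependent k (fun i => y (j i))) : p + 1 ≤ μ := by
  have h1 := indep_scale hj
  obtain ⟨γ, hγ⟩ : ∃ γ : Fin (m + 1) → RatFunc M, γ = fun i => RatFunc.X *
    algebraMap M (RatFunc M) ((Fin.cons 1 y : Fin (m + 1) → M) i) := ⟨_, rfl⟩
  have h2 : (Fin.cons RatFunc.X
      (fun i => RatFunc.X * algebraMap M (RatFunc M) (y (j i))) : Fin (p + 1) → RatFunc M)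
      = fun i => γ ((Fin.cons 0 (fun i => (j i).succ) : Fin (p + 1) → Fin (m + 1)) i) := by
    funext i
    refine Fin.cases ?_ (fun i => ?_) i
    · rw [hγ]
      simp only [Fin.cons_zero, map_one, mul_one]
    · rw [hγ]
      simp only [Fin.cons_succ]
  rw [h2] at h1
  have h3 : ∀ g ∈ Ideal.span (Set.range f), aeval γ g = 0 := by
    intro g hg
    refine Submodule.span_induction (p := fun g _ => aeval γ g = 0) ?_ (by simp) ?_ ?_ hg
    · rintro _ ⟨i, rfl⟩
      obtain ⟨e, he⟩ := hf i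
      have h4 : aeval (fun i => algebraMap M (RatFunc M) ((Fin.cons 1 y : Fin (m + 1) → M) i))
          (f i) = 0 := by
        change aeval (algebraMap M (RatFunc M) ∘ (Fin.cons 1 y : Fin (m + 1) → M)) (f i) = 0
        rw [MvPolynomial.aeval_algebraMap_apply, hy i, map_zero]
      rw [hγ, aeval_scale he, h4, mul_zero]
    · intro a b _ _ ha hb
      rw [map_add, ha, hb, add_zero]
    · intro a b _ hb
      rw [smul_eq_mul, map_mul, hb, mul_zero]
  exact card_le_of_dim hI h3 h1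

/-- algebraically independent coefficients -/
theorem genK_of_indep {k : Type v} {K : Type v} [Field k] [Field K] [Algebra k K] {n p : ℕ}
    {d : Fin p → ℕ} {F : Fin p → MvPolynomial (Fin (n + 1)) K}
    (h : AlgebraicIndependent k (fun I : {I : Fin p × (Fin (n + 1) →₀ ℕ) // I.2.degree = d I.1} =>
      (F I.1.1).coeff I.1.2)) : GenK k d F 0 := by
  classical
  unfold GenK
  rw [Nat.cast_zero, add_zero]
  have hfin : Finite {I : Fin p × (Fin (n + 1) →₀ ℕ) // I.2.degree = d I.1} := by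
    refine Finite.of_injective (fun I => (⟨I.1,
      Pool.Agent.Lib.MP_44a246_ntK.mem_jexpo.2 (mem_expo.2 I.2)⟩ :
      ↥(Pool.Agent.Lib.MP_44a246_ntK.jexpo n d))) fun I J h => Subtype.ext (congrArg (fun s => s.1) h)
  obtain ⟨g, hg⟩ : ∃ g : {I : Fin p × (Fin (n + 1) →₀ ℕ) // I.2.degree = d I.1} → K,
    g = fun I => (F I.1.1).coeff I.1.2 := ⟨_, rfl⟩
  rw [← hg] at h ⊢
  obtain ⟨g', hg'⟩ : ∃ g' : {I : Fin p × (Fin (n + 1) →₀ ℕ) // I.2.degree = d I.1} →
      IntermediateField.adjoin k (Set.range g), g' = fun I =>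
        ⟨g I, IntermediateField.subset_adjoin _ _ ⟨I, rfl⟩⟩ := ⟨_, rfl⟩
  have h1 : AlgebraicIndependent k g' := by
    refine AlgebraicIndependent.of_comp (IntermediateField.val _) ?_
    rw [hg']
    exact h
  have h2 := h1.lift_cardinalMk_le_trdeg
  have h3 : ((Nat.card {I : Fin p × (Fin (n + 1) →₀ ℕ) // I.2.degree = d I.1} : ℕ) : Cardinal.{v}) =
      Cardinal.lift.{v} (Cardinal.mk {I : Fin p × (Fin (n + 1) →₀ ℕ) // I.2.degree = d I.1}) := by
    rw [← Nat.cast_card, Cardinal.lift_natCast]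
  rw [h3]
  simpa using h2

/-- a form over `k`, as a weighted homogeneous polynomial in more variables -/
theorem weighted_rename {k : Type*} [Field k] {n p : ℕ} {d : Fin p → ℕ} {a : ℕ}
    {f : MvPolynomial (Fin (n + 1)) k} (hf : f.IsHomogeneous a) :
    (rename (Sum.inr : Fin (n + 1) → Fin p ⊕ Fin (n + 1)) f).IsWeightedHomogeneous
      (Sum.elim d fun _ => 1) a := by
  intro I hI
  obtain ⟨J, hJ, hJc⟩ := coeff_rename_ne_zero _ _ _ hI
  rw [← hJ]
  have h1 := hf hJc
  rw [Finsupp.weight_apply] at h1 ⊢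
  rw [Finsupp.sum_mapDomain_index (by simp) (by intros; simp [add_mul])]
  simpa using h1

/-- **The height of the points of bounded degree** of a section of an arbitrary variety by generic
hypersurfaces. -/
theorem base_height_V (p r : ℕ) (hp : 1 ≤ p) :
    ∃ R : ℕ, ∀ (m ν μ : ℕ) (e : Fin p → ℕ) (A : Finset (Fin p)), (∀ j, 1 ≤ e j) → ν ≤ m →
        max ν R + 2 * r ≤ ∑ j, e j → 2 * max ν R + 2 * r ≤ A.card + max μ 1 + ∑ j, e j →
      ∀ (κ : Type u) (K : Type v) [Field κ] [IsAlgClosed κ] [CharZero κ] [Field K] [CharZero K]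
        [Algebra κ K] (_ : IsFF κ K) (k : Type v) [Field k] [CharZero k] [Algebra k K]
        (q : ℕ) (f : Fin q → MvPolynomial (Fin (m + 1)) k) (_ : ∀ l, ∃ a, (f l).IsHomogeneous a)
        (_ : ringKrullDim (MvPolynomial (Fin (m + 1)) K ⧸ Ideal.span (Set.range fun l =>
          map (algebraMap k K) (f l))) ≤ ((ν + 1 : ℕ) : WithBot ℕ∞))
        (F : Fin p → MvPolynomial (Fin (m + 1)) K) (_ : ∀ j, (F j).IsHomogeneous (e j))
        (_ : AlgebraicIndependent k
          (fun I : {I : Fin p × (Fin (m + 1) →₀ ℕ) // I.2.degree = e I.1} =>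
            (F I.1.1).coeff I.1.2))
        (S : Set (Place κ K)) (_ : S.Finite),
        ∃ (t : ℕ) (G : Fin t → MvPolynomial (Fin (m + 1)) K), (∀ i, ∃ a, (G i).IsHomogeneous a) ∧
          ringKrullDim (MvPolynomial (Fin (m + 1)) K ⧸ Ideal.span (Set.range G)) ≤
            (μ : WithBot ℕ∞) ∧
          ∃ C : ℕ, ∀ (L : Type w) [Field L] [Algebra K L] [FiniteDimensional K L] [Algebra κ L]
            [IsScalarTower κ K L] (y : Fin m → L), finrank K L ≤ r →
            (∀ l, aeval (Fin.cons 1 y : Fin (m + 1) → L) (map (algebraMap k K) (f l)) = 0) →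
            (∀ j, aeval (Fin.cons 1 y : Fin (m + 1) → L) (F j) = 0 ↔ j ∈ A) →
            (∃ i, aeval (Fin.cons 1 y : Fin (m + 1) → L) (G i) ≠ 0) →
            hgt κ y ≤ C * (1 + truncCount κ F e S (Fin.cons 1 y : Fin (m + 1) → L)) := by
  classical
  obtain ⟨R, hR⟩ := final_all.{u, v, w, v} p r hp (1 / 2) (by norm_num)
  refine ⟨R, ?_⟩
  intro m ν μ e A he1 hνm hs1 hs2 κ K _ _ _ _ _ _ hK k _ _ _ q f hf hdim F hF hgen S hS
  by_cases hr0 : r = 0
  · refine ⟨1, fun _ => 1, fun _ => ⟨0, isHomogeneous_one _ _⟩, ?_, 0, ?_⟩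
    · have h1 : Ideal.span (Set.range fun _ : Fin 1 => (1 : MvPolynomial (Fin (m + 1)) K)) = ⊤ :=
        Ideal.eq_top_of_isUnit_mem _ (Ideal.subset_span ⟨0, rfl⟩) isUnit_one
      have h2 : Subsingleton (MvPolynomial (Fin (m + 1)) K ⧸
          Ideal.span (Set.range fun _ : Fin 1 => (1 : MvPolynomial (Fin (m + 1)) K))) :=
        Ideal.Quotient.subsingleton_iff.2 h1
      rw [ringKrullDim_eq_bot_of_subsingleton]
      exact bot_le
    · intro L _ _ _ _ _ y hLr
      have h1 : 0 < finrank K L := finrank_pos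
      omega
  choose a ha using hf
  obtain ⟨g, hg⟩ : ∃ g : (A ⊕ Fin q) → MvPolynomial (Fin p ⊕ Fin (m + 1)) k,
    g = Sum.elim (fun j : A => X (Sum.inl (j : Fin p))) (fun l => rename Sum.inr (f l)) := ⟨_, rfl⟩
  have hgi : ∀ j, g (Sum.inl j) = X (Sum.inl (j : Fin p)) := fun j => by rw [hg]; rfl
  have hgr : ∀ l, g (Sum.inr l) = rename Sum.inr (f l) := fun l => by rw [hg]; rfl
  obtain ⟨E, hE⟩ : ∃ E : (A ⊕ Fin q) → ℕ, E = Sum.elim (fun j : A => e j) a := ⟨_, rfl⟩
  have hgw : ∀ i, (g i).IsWeightedHomogeneous (Sum.elim e fun _ => 1) (E i) := by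
    intro i
    rcases i with j | l
    · rw [hgi, hE]
      exact isWeightedHomogeneous_X _ _ _
    · rw [hgr, hE]
      exact weighted_rename (ha l)
  have hgv : ∀ i, ∀ j ∉ A, Sum.inl j ∉ (g i).vars := by
    intro i j hj
    rcases i with j' | l
    · rw [hgi, vars_X, Finset.mem_singleton]
      intro h0
      exact hj ((Sum.inl_injective h0) ▸ j'.2)
    · rw [hgr]
      intro h0
      obtain ⟨l', -, hl'⟩ := Finset.mem_image.1 (vars_rename _ _ h0)
      exact absurd hl' (by simp)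
  have hgd : ringKrullDim (MvPolynomial (Fin (m + 1)) k ⧸ (Ideal.span (Set.range g)).comap
      (rename (Sum.inr : Fin (m + 1) → Fin p ⊕ Fin (m + 1)))) ≤ ((ν + 1 : ℕ) : WithBot ℕ∞) := by
    have h1 : Ideal.span (Set.range f) ≤ (Ideal.span (Set.range g)).comap
        (rename (Sum.inr : Fin (m + 1) → Fin p ⊕ Fin (m + 1))) := by
      rw [Ideal.span_le]
      rintro _ ⟨l, rfl⟩
      show rename Sum.inr (f l) ∈ Ideal.span (Set.range g)
      rw [← hgr]
      exact Ideal.subset_span ⟨_, rfl⟩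
    exact (ringKrullDim_le_of_surjective (Ideal.Quotient.factor h1)
      (Ideal.Quotient.factor_surjective h1)).trans ((ringKrullDim_le_baseChange f).trans hdim)
  have hmax : ν + (R - ν) = max ν R := by omega
  obtain ⟨θ, hθ⟩ : ∃ θ : ℝ, θ = 2 * ((r : ℝ) - 1) + 1 / 2 := ⟨_, rfl⟩
  have hr1 : (1 : ℝ) ≤ r := by exact_mod_cast Nat.one_le_iff_ne_zero.2 hr0
  obtain ⟨t, G, hG, hGd, C, hC⟩ := hR ν 0 (R - ν) e (by simp) (by omega) he1 hK (m := μ) hνm hgw hgv
    hgd hF (genK_of_indep hgen) hS (θ := θ) (by rw [hθ]; linarith)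
    (by
      rw [hmax, hθ]
      have h1 : ((max ν R + 2 * r : ℕ) : ℝ) ≤ ((∑ j, e j : ℕ) : ℝ) := by exact_mod_cast hs1
      push_cast at h1 ⊢
      linarith)
    (by
      rw [hmax, hθ]
      have h1 : ((2 * max ν R + 2 * r : ℕ) : ℝ) ≤ ((A.card + max μ 1 + ∑ j, e j : ℕ) : ℝ) := by
        exact_mod_cast hs2
      push_cast at h1 ⊢
      linarith)
  refine ⟨t, G, hG, hGd, 2 * r * (C + 1), ?_⟩
  intro L _ _ _ _ _ y hLr hfy hFy hGy
  have hL : IsFF κ L := hK.of_finite
  obtain ⟨M, hM⟩ : ∃ M : IntermediateField K L,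
      M = IntermediateField.adjoin K (Set.range y) := ⟨_, rfl⟩
  have hmem : ∀ i, y i ∈ M := fun i => by
    rw [hM]
    exact IntermediateField.subset_adjoin _ _ ⟨i, rfl⟩
  obtain ⟨y', hy'⟩ : ∃ y' : Fin m → M, ∀ i, (y' i : L) = y i := ⟨fun i => ⟨_, hmem i⟩, fun _ => rfl⟩
  have htop : IntermediateField.adjoin K (Set.range y') = ⊤ := by
    rw [eq_top_iff]
    intro b _
    have h1 : IntermediateField.map M.val (IntermediateField.adjoin K (Set.range y')) =
        IntermediateField.adjoin K (Set.range y) := by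
      rw [IntermediateField.adjoin_map, ← Set.range_comp]
      congr 2
      exact funext hy'
    have h2 : (b : L) ∈ IntermediateField.map M.val (IntermediateField.adjoin K (Set.range y')) := by
      rw [h1, ← hM]
      exact b.2
    obtain ⟨b', hb', hbb⟩ := h2
    have h3 : b' = b := Subtype.ext hbb
    rw [← h3]
    exact hb'
  have hκM : IsScalarTower κ M L := IsScalarTower.of_algebraMap_eq fun c => by
    rw [IsScalarTower.algebraMap_apply κ K L, IsScalarTower.algebraMap_apply κ K M,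
      ← IsScalarTower.algebraMap_apply K M L]
  have hMf : IsFF κ M := hK.of_finite
  have hMr : finrank K M * finrank M L = finrank K L := finrank_mul_finrank K M L
  have hM1 : 0 < finrank K M := finrank_pos
  have hM2 : 0 < finrank M L := finrank_pos
  have hr1 : finrank K M ≤ r := (Nat.le_mul_of_pos_right _ hM2).trans (hMr.le.trans hLr)
  have hr2 : finrank M L ≤ r := (Nat.le_mul_of_pos_left _ hM1).trans (hMr.le.trans hLr)
  have hcons : (Fin.cons 1 y : Fin (m + 1) → L) =
      fun i => algebraMap M L ((Fin.cons 1 y' : Fin (m + 1) → M) i) := by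
    funext i
    refine Fin.cases ?_ (fun i => ?_) i
    · rw [Fin.cons_zero, Fin.cons_zero, map_one]
    · rw [Fin.cons_succ, Fin.cons_succ]
      exact (hy' i).symm
  have hval : ∀ Q : MvPolynomial (Fin (m + 1)) K, aeval (Fin.cons 1 y : Fin (m + 1) → L) Q =
      algebraMap M L (aeval (Fin.cons 1 y' : Fin (m + 1) → M) Q) := by
    intro Q
    rw [hcons]
    exact aeval_algebraMap_apply L (Fin.cons 1 y' : Fin (m + 1) → M) Q
  have hz : ∀ Q : MvPolynomial (Fin (m + 1)) K, aeval (Fin.cons 1 y : Fin (m + 1) → L) Q = 0 ↔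
      aeval (Fin.cons 1 y' : Fin (m + 1) → M) Q = 0 := by
    intro Q
    rw [hval]
    exact map_eq_zero _
  have hne : (Fin.cons 1 y' : Fin (m + 1) → M) ≠ 0 := fun h0 => by
    have h1 := congrFun h0 0
    rw [Fin.cons_zero] at h1
    exact one_ne_zero h1
  let i1 : Algebra k M := ((algebraMap K M).comp (algebraMap k K)).toAlgebra
  have i2 : IsScalarTower k K M := IsScalarTower.of_algebraMap_eq fun _ => rfl
  rcases hC M (Fin.cons 1 y') hne (by
      intro i
      rcases i with j | l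
      · rw [hgi, aeval_X, Sum.elim_inl]
        exact (hz _).1 ((hFy j).2 j.2)
      · rw [hgr, aeval_rename]
        have h1 := (hz _).1 (hfy l)
        rw [aeval_map_algebraMap] at h1
        exact h1)
    ⟨fun j => Sum.inl j, by
      have h1 : (Matrix.of fun a b : A =>
        aeval (Sum.elim (fun j => aeval (Fin.cons 1 y' : Fin (m + 1) → M) (F j))
          (Fin.cons 1 y') : Fin p ⊕ Fin (m + 1) → M)
          (pderiv (Sum.inl (b : Fin p)) (g (Sum.inl a)))) = 1 := by
        refine Matrix.ext fun a b => ?_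
        rw [Matrix.of_apply, hgi, pderiv_X, Matrix.one_apply]
        by_cases hab : a = b
        · rw [hab, if_pos rfl, Pi.single_eq_same, map_one]
        · rw [if_neg hab, Pi.single_eq_of_ne, map_zero]
          intro h0
          exact hab (Subtype.ext (Sum.inl_injective h0))
      rw [h1, Matrix.det_one]
      exact one_ne_zero⟩
    (fun j hj h0 => hj ((hFy j).1 ((hz _).2 h0))) with h1 | h1
  · have h1 := h1.2 hr1
    have hram := ram_aff hK y' htop
    have hN := trunc_le_ext (κ := κ) (K := K) (M := M) (L := L) hK hF S hne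
    rw [← hcons] at hN
    rw [← hgt_eq] at h1
    have hN' : Set.ncard {w : Place κ M | (∀ v ∈ S, ¬ (w.1.comap (algebraMap K M)).IsEquiv v.1) ∧
        ∃ j, j ∉ A ∧ w.1 (aeval (Fin.cons 1 y' : Fin (m + 1) → M) (F j)) <
          vmax w.1 (Fin.cons 1 y' : Fin (m + 1) → M) ^ e j} ≤
        truncCount κ F e S (Fin.cons 1 y' : Fin (m + 1) → M) := by
      rw [Pool.Agent.Lib.MP_44a246_ntSP.truncCount_eq_meetSet e F hF S]
      refine Set.ncard_le_ncard ?_ (meetSet_finite hK e (fun i I => (F i).coeff I) S hne)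
      rintro w ⟨hw1, j, hj, hw2⟩
      simp only [meetSet, Set.mem_ofPred_eq]
      refine ⟨fun hb => hw1 _ hb ((below_equiv w _).mpr rfl), j, ?_, ?_⟩
      · rw [← aeval_eq_Fval (F j) (hF j)]
        exact fun h0 => hj ((hFy j).1 ((hz _).2 h0))
      · rw [← aeval_eq_Fval (F j) (hF j)]
        exact hw2
    obtain ⟨N, hNd⟩ : ∃ N, N = truncCount κ F e S (Fin.cons 1 y : Fin (m + 1) → L) := ⟨_, rfl⟩
    obtain ⟨N', hNd'⟩ : ∃ N', N' = truncCount κ F e S (Fin.cons 1 y' : Fin (m + 1) → M) := ⟨_, rfl⟩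
    obtain ⟨N₀, hN₀⟩ : ∃ N₀, N₀ = Set.ncard {w : Place κ M |
        (∀ v ∈ S, ¬ (w.1.comap (algebraMap K M)).IsEquiv v.1) ∧
        ∃ j, j ∉ A ∧ w.1 (aeval (Fin.cons 1 y' : Fin (m + 1) → M) (F j)) <
          vmax w.1 (Fin.cons 1 y' : Fin (m + 1) → M) ^ e j} := ⟨_, rfl⟩
    obtain ⟨b, hb⟩ : ∃ b : ℝ, b = hgt κ y' := ⟨_, rfl⟩
    rw [← hNd, ← hNd'] at hN
    rw [← hN₀, ← hNd'] at hN'
    rw [← hN₀, ← hb] at h1
    rw [← hNd]
    have hb0 : 0 ≤ b := by
      rw [hb]
      exact_mod_cast hgt_nonneg hMf y'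
    have hR : (ramDeg κ M K : ℝ) ≤ 2 * ((r : ℝ) - 1) * b := by
      have h2 : (ramDeg κ M K : ℝ) ≤ 2 * ((finrank K M : ℝ) - 1) * b := by
        rw [hb]
        exact_mod_cast hram
      have h3 : (finrank K M : ℝ) ≤ r := by exact_mod_cast hr1
      refine h2.trans (mul_le_mul_of_nonneg_right (by linarith) hb0)
    have hNR : (N' : ℝ) ≤ N := by exact_mod_cast hN
    have hNR' : (N₀ : ℝ) ≤ N' := by exact_mod_cast hN'
    rw [hθ, Int.cast_natCast] at h1
    have h5 : b ≤ 2 * (N + C) := by linarith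
    have h6 : hgt κ y' ≤ 2 * (N + C) := by
      rw [hb] at h5
      exact_mod_cast h5
    have e1 : hgt κ y = finrank M L * hgt κ y' := by
      rw [← hgt_ext hL y']
      congr 1
      funext i
      exact (hy' i).symm
    have h7 : (finrank M L : ℤ) ≤ r := by exact_mod_cast hr2
    have h8 : (0 : ℤ) ≤ N := Int.natCast_nonneg _
    have h9 : (0 : ℤ) ≤ C := Int.natCast_nonneg _
    calc hgt κ y = finrank M L * hgt κ y' := e1
      _ ≤ r * (2 * (N + C)) := by
        refine mul_le_mul h7 h6 (hgt_nonneg hMf y') (Int.natCast_nonneg _)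
      _ ≤ ((2 * r * (C + 1) : ℕ) : ℤ) * (1 + N) := by
        push_cast
        have h10 : (0 : ℤ) ≤ r := Int.natCast_nonneg _
        have h11 : (0 : ℤ) ≤ r * (C * N) := mul_nonneg h10 (mul_nonneg h9 h8)
        nlinarith
  · obtain ⟨i, hi⟩ := hGy
    exact absurd ((hz _).2 (h1 i)) hi

end Pool.Agent.Lib.MP_44a246_ntFB
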