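import Mathlib
import Pool.Agent.Lib.MP_44a246_ntFB.FB0E
import Pool.Agent.Lib.MP_44a246_ntFB.FB21
import Pool.Agent.Lib.MP_44a246_ntFB.FB22

/-!
# Towers of families of curves over products of sections of arbitrary varieties
-/

namespace Pool.Agent.Lib.MP_44a246_ntFB

open Pool.Agent.Lib.MP_e52354_nt
open Pool.Agent.Lib.MP_44a246_nt
open Pool.Agent.Lib.MP_44a246_ntL
open Pool.Agent.Lib.MP_44a246_ntMY
open WithZero MvPolynomial Module

universe u v w u₁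

/-- **Towers of families of curves over a product of varieties with bounded heights.** -/
theorem tower_abs {κ : Type u} {K : Type v} [Field κ] [IsAlgClosed κ] [CharZero κ] [Field K]
    [CharZero K] [Algebra κ K] (hK : IsFF κ K) (hMY : MYP.{u, v} κ) {Ω : Type u₁} [Field Ω]
    [IsAlgClosed Ω] [Algebra K Ω] (r : ℕ) {b : ℕ} {p m : Fin b → ℕ} {e : ∀ i, Fin (p i) → ℕ}
    {F : ∀ i, Fin (p i) → MvPolynomial (Fin (m i + 1)) K} {n q : ℕ → ℕ}
    {y₀ : (Σ i : Fin b, Fin (m i)) → Ω} {x₀ : ∀ l : ℕ, Fin (n l) → Ω} {s : ℕ} {c : ℕ → ℝ}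
    {H : ∀ l : ℕ, Fin (q l + 1) →
      MvPolynomial (((Σ i : Fin b, Fin (m i)) ⊕ (Σ i : Fin l, Fin (n i))) ⊕ Fin (n l)) K}
    {d : ∀ l : ℕ, Fin (q l + 1) → ℕ} {S : Set (Place κ K)} (hS : S.Finite)
    (hbase : ∀ i : Fin b, ∃ (G : MvPolynomial (Fin (m i + 1)) K) (C : ℕ),
      aeval (Fin.cons 1 (fun j => y₀ ⟨i, j⟩) : Fin (m i + 1) → Ω) G ≠ 0 ∧
      ∀ (L : Type w) [Field L] [Algebra K L] [FiniteDimensional K L] [Algebra κ L]
        [IsScalarTower κ K L] (y : Fin (m i) → L), finrank K L ≤ r →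
        (∀ Q : MvPolynomial (Fin (m i + 1)) K,
          aeval (Fin.cons 1 (fun j => y₀ ⟨i, j⟩) : Fin (m i + 1) → Ω) Q = 0 →
          aeval (Fin.cons 1 y : Fin (m i + 1) → L) Q = 0) →
        aeval (Fin.cons 1 y : Fin (m i + 1) → L) G ≠ 0 →
        hgt κ y ≤ C * (1 + truncCount κ (F i) (e i) S (Fin.cons 1 y : Fin (m i + 1) → L)))
    (hdim : ∀ l ≤ s, ∀ i j, ¬ AlgebraicIndependent
      (IntermediateField.adjoin K (Set.range (low y₀ x₀ l))) ![x₀ l i, x₀ l j])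
    (hH : ∀ l ≤ s, ∀ j, aeval (Sum.elim (low y₀ x₀ l) (x₀ l)) (H l j) ≠ 0)
    (hc : ∀ l ≤ s, Slope K (low y₀ x₀ l) (x₀ l) (H l) (d l) (c l))
    (hlow : ∀ l < s, 2 * ((r : ℝ) - 1) < c l) {ε : ℝ} (hε : 0 < ε) :
    ∃ (h : MvPolynomial ((Σ i : Fin b, Fin (m i)) ⊕ (Σ i : Fin (s + 1), Fin (n i))) K)
      (C : ℕ), aeval (low y₀ x₀ (s + 1)) h ≠ 0 ∧
      ∀ (L : Type w) [Field L] [Algebra K L] [FiniteDimensional K L] [Algebra κ L]
        [IsScalarTower κ K L], finrank K L ≤ r →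
      ∀ (y : (Σ i : Fin b, Fin (m i)) → L) (x : ∀ l : ℕ, Fin (n l) → L),
        (∀ Q : MvPolynomial ((Σ i : Fin b, Fin (m i)) ⊕ (Σ i : Fin (s + 1), Fin (n i))) K,
          aeval (low y₀ x₀ (s + 1)) Q = 0 → aeval (low y x (s + 1)) Q = 0) →
        aeval (low y x (s + 1)) h ≠ 0 →
      ∀ B : ℝ, B = C * (1 +
          ∑ i, (truncCount κ (F i) (e i) S
            (Fin.cons 1 (fun j => y ⟨i, j⟩) : Fin (m i + 1) → L) : ℝ) +
          ∑ i ∈ Finset.range s, (meet κ K (H i) (d i) S (low y x i) (x i) : ℝ)) →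
        hgt κ y ≤ B ∧ (∀ l < s, hgt κ (x l) ≤ B) ∧
        (c s - ε) * hgt κ (x s) ≤
          meet κ K (H s) (d s) S (low y x s) (x s) + ramDeg κ L K + B := by
  classical
  choose G C₀ hGy hC₀ using hbase
  obtain ⟨h, C, hh0, hC⟩ := tower_gen.{u, v, w} hK hMY r s hdim hH hc hlow hS hε
  obtain ⟨D, hD⟩ : ∃ D : ∀ i : Fin b, MvPolynomial (Fin (m i + 1)) K →
      MvPolynomial ((Σ i : Fin b, Fin (m i)) ⊕ (Σ i : Fin (s + 1), Fin (n i))) K,
      D = fun i G => aeval (Fin.cons 1 (fun j => X (Sum.inl ⟨i, j⟩)) : Fin (m i + 1) →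
        MvPolynomial ((Σ i : Fin b, Fin (m i)) ⊕ (Σ i : Fin (s + 1), Fin (n i))) K) G := ⟨_, rfl⟩
  have hDv : ∀ {L : Type u₁} [Field L] [Algebra K L] (y : (Σ i : Fin b, Fin (m i)) → L)
      (x : ∀ l : ℕ, Fin (n l) → L) (i : Fin b) (G : MvPolynomial (Fin (m i + 1)) K),
      aeval (low y x (s + 1)) (D i G) =
        aeval (Fin.cons 1 (fun j => y ⟨i, j⟩) : Fin (m i + 1) → L) G := by
    intro L _ _ y x i G
    rw [hD]
    exact aeval_dehom i G y _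
  have hDw : ∀ {L : Type w} [Field L] [Algebra K L] (y : (Σ i : Fin b, Fin (m i)) → L)
      (x : ∀ l : ℕ, Fin (n l) → L) (i : Fin b) (G : MvPolynomial (Fin (m i + 1)) K),
      aeval (low y x (s + 1)) (D i G) =
        aeval (Fin.cons 1 (fun j => y ⟨i, j⟩) : Fin (m i + 1) → L) G := by
    intro L _ _ y x i G
    rw [hD]
    exact aeval_dehom i G y _
  refine ⟨h * ∏ i, D i (G i), C * (1 + ∑ i, C₀ i) + ∑ i, C₀ i, ?_, ?_⟩
  · rw [map_mul, map_prod]
    refine mul_ne_zero hh0 (Finset.prod_ne_zero_iff.2 fun i _ => ?_)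
    rw [hDv]
    exact hGy i
  intro L _ _ _ _ _ hLr y x hspec hne B hB
  rw [map_mul, map_prod] at hne
  have hL : IsFF κ L := hK.of_finite
  have hneG : ∀ i, aeval (Fin.cons 1 (fun j => y ⟨i, j⟩) : Fin (m i + 1) → L) (G i) ≠ 0 := by
    intro i
    rw [← hDw y x i]
    exact Finset.prod_ne_zero_iff.1 (right_ne_zero_of_mul hne) i (Finset.mem_univ i)
  have h1 := fun i => hC₀ i L (fun j => y ⟨i, j⟩) hLr (fun Q hQ => by
    have h2 := hspec (D i Q) (by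
      rw [hDv]
      exact hQ)
    rwa [hDw] at h2) (hneG i)
  obtain ⟨h2, h3⟩ := hC L hLr y x hspec (left_ne_zero_of_mul hne)
  obtain ⟨N, hN⟩ : ∃ N : Fin b → ℕ, N = fun i => truncCount κ (F i) (e i) S
    (Fin.cons 1 (fun j => y ⟨i, j⟩) : Fin (m i + 1) → L) := ⟨_, rfl⟩
  obtain ⟨T, hT⟩ : ∃ T : ℝ, T =
    ∑ i ∈ Finset.range s, (meet κ K (H i) (d i) S (low y x i) (x i) : ℝ) := ⟨_, rfl⟩
  have h1N : ∀ i, hgt κ (fun j => y ⟨i, j⟩) ≤ C₀ i * (1 + N i) := by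
    intro i
    rw [hN]
    exact h1 i
  obtain ⟨U, hU⟩ : ∃ U : ℝ, U = ∑ i, (N i : ℝ) := ⟨_, rfl⟩
  obtain ⟨V, hV⟩ : ∃ V : ℝ, V = ∑ i, (C₀ i : ℝ) := ⟨_, rfl⟩
  have hB' : B = (C * (1 + V) + V) * (1 + U + T) := by
    rw [hB, hT, hU, hV, hN]
    push_cast
    rfl
  rw [← hT] at h2 h3
  have hT0 : 0 ≤ T := by
    rw [hT]
    exact Finset.sum_nonneg fun i _ => Nat.cast_nonneg _
  have hU0 : 0 ≤ U := by
    rw [hU]
    exact Finset.sum_nonneg fun i _ => Nat.cast_nonneg _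
  have hV0 : 0 ≤ V := by
    rw [hV]
    exact Finset.sum_nonneg fun i _ => Nat.cast_nonneg _
  have hC0 : (0 : ℝ) ≤ C := Nat.cast_nonneg _
  have h1' : (hgt κ y : ℝ) ≤ V * (1 + U) := by
    have h4 : (hgt κ y : ℝ) ≤ ∑ i, ((C₀ i : ℝ) * (1 + N i)) := by
      have h5 : hgt κ y ≤ ∑ i, ((C₀ i : ℤ) * (1 + N i)) :=
        (hgt_prod_le hL y).trans (Finset.sum_le_sum fun i _ => h1N i)
      exact_mod_cast h5
    refine h4.trans ?_
    rw [hV, Finset.sum_mul]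
    refine Finset.sum_le_sum fun i _ => mul_le_mul_of_nonneg_left ?_ (Nat.cast_nonneg _)
    have h5 : (N i : ℝ) ≤ U := by
      rw [hU]
      exact Finset.single_le_sum (f := fun i => (N i : ℝ)) (fun i _ => Nat.cast_nonneg _)
        (Finset.mem_univ i)
    linarith
  have h4 : (C : ℝ) * (1 + hgt κ y + T) ≤ C * ((1 + V) * (1 + U + T)) := by
    refine mul_le_mul_of_nonneg_left ?_ hC0
    have h5 : (0 : ℝ) ≤ V * T := mul_nonneg hV0 hT0
    nlinarith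
  have h5 : B = C * ((1 + V) * (1 + U + T)) + V * (1 + U + T) := by
    rw [hB']
    ring
  have h6 : (0 : ℝ) ≤ V * (1 + U + T) := mul_nonneg hV0 (by linarith)
  have h7 : (0 : ℝ) ≤ C * ((1 + V) * (1 + U + T)) :=
    mul_nonneg hC0 (mul_nonneg (by linarith) (by linarith))
  have h8 : V * (1 + U) ≤ V * (1 + U + T) := mul_le_mul_of_nonneg_left (by linarith) hV0
  refine ⟨by linarith, fun l hl => ?_, ?_⟩
  · have h9 := h2 l hl
    linarith
  · linarith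

/-- **The height of the points of bounded degree of a variety with a rational map to a section of
an arbitrary variety.** -/
theorem base_point (p r : ℕ) :
    ∃ R : ℕ, ∀ (m ν μ : ℕ) (e : Fin p → ℕ) (A : Finset (Fin p)), (∀ j, 1 ≤ e j) → ν ≤ m →
        1 ≤ μ → max ν R + 2 * r ≤ ∑ j, e j →
        2 * max ν R + 2 * r ≤ ∑ j, e j + A.card + μ →
      ∀ (κ : Type u) (K : Type v) [Field κ] [IsAlgClosed κ] [CharZero κ] [Field K] [CharZero K]
        [Algebra κ K] (_ : IsFF κ K) (k : Subfield K)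
        (q : ℕ) (f : Fin q → MvPolynomial (Fin (m + 1)) K) (_ : VarOver k f ν)
        (F : Fin p → MvPolynomial (Fin (m + 1)) K) (_ : GenOver k F e)
        (Ω : Type u₁) [Field Ω] [Algebra K Ω] (y₀ : Fin m → Ω) (_ : BasePoint f F A μ y₀)
        (S : Set (Place κ K)) (_ : S.Finite),
        ∃ (G : MvPolynomial (Fin (m + 1)) K) (C : ℕ),
          aeval (Fin.cons 1 y₀ : Fin (m + 1) → Ω) G ≠ 0 ∧
          ∀ (L : Type w) [Field L] [Algebra K L] [FiniteDimensional K L] [Algebra κ L]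
            [IsScalarTower κ K L] (y : Fin m → L), finrank K L ≤ r →
            (∀ Q : MvPolynomial (Fin (m + 1)) K,
              aeval (Fin.cons 1 y₀ : Fin (m + 1) → Ω) Q = 0 →
              aeval (Fin.cons 1 y : Fin (m + 1) → L) Q = 0) →
            aeval (Fin.cons 1 y : Fin (m + 1) → L) G ≠ 0 →
            hgt κ y ≤ C * (1 + truncCount κ F e S (Fin.cons 1 y : Fin (m + 1) → L)) := by
  classical
  rcases Nat.eq_zero_or_pos p with hp | hp
  · refine ⟨0, ?_⟩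
    intro m ν μ e A he1 hνm hμ hs1 hs2 κ K _ _ _ _ _ _ hK k q f hf F hF Ω _ _ y₀ hy₀ S hS
    subst hp
    refine ⟨1, 0, by rw [map_one]; exact one_ne_zero, ?_⟩
    intro L _ _ _ _ _ y hLr hspec hne
    have h1 : 0 < finrank K L := finrank_pos
    have h2 : ∑ j, e j = 0 := Finset.sum_of_isEmpty _
    omega
  obtain ⟨R, hR⟩ := base_height_V.{u, v, w} p r hp
  refine ⟨R, ?_⟩
  intro m ν μ e A he1 hνm hμ hs1 hs2 κ K _ _ _ _ _ _ hK k q f hf F hF Ω _ _ y₀ hy₀ S hS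
  obtain ⟨hf1, hf2⟩ := hf
  obtain ⟨hF1, hF2⟩ := hF
  obtain ⟨hy1, hy2, a, hy3⟩ := hy₀
  have hk : ∀ l, ∃ g : MvPolynomial (Fin (m + 1)) k, map (algebraMap k K) g = f l := fun l =>
    exists_map_hom (algebraMap k K) fun I => ⟨⟨_, (hf1 l).2 I⟩, rfl⟩
  choose g hg using hk
  have hg' : (fun l => map (algebraMap k K) (g l)) = f := funext hg
  have hgh : ∀ l, ∃ a, (g l).IsHomogeneous a := by
    intro l
    obtain ⟨a, ha⟩ := (hf1 l).1
    refine ⟨a, fun I hI => ha ?_⟩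
    rw [← hg, coeff_map]
    exact fun h0 => hI ((map_eq_zero _).1 h0)
  obtain ⟨t, G, hG, hGd, C, hC⟩ := hR m ν μ e A he1 hνm hs1
    (by rw [max_eq_left hμ]; omega) κ K hK k q g hgh
    (by rw [hg']; exact hf2) F hF1 hF2 S hS
  obtain ⟨i, hi⟩ : ∃ i, aeval (Fin.cons 1 y₀ : Fin (m + 1) → Ω) (G i) ≠ 0 := by
    by_contra hcon
    push Not at hcon
    have h1 := card_lt_of_dim hG hGd hcon hy3
    omega
  refine ⟨G i * ∏ j ∈ Finset.univ \ A, F j, C, ?_, ?_⟩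
  · rw [map_mul, map_prod]
    refine mul_ne_zero hi (Finset.prod_ne_zero_iff.2 fun j hj => ?_)
    have h1 : j ∉ A := by simpa using hj
    exact fun h0 => h1 ((hy2 j).1 h0)
  · intro L _ _ _ _ _ y hLr hspec hne
    rw [map_mul, map_prod] at hne
    refine hC L y hLr (fun l => ?_) (fun j => ⟨fun h0 => ?_, fun hj => ?_⟩)
      ⟨i, left_ne_zero_of_mul hne⟩
    · rw [hg]
      exact hspec _ (hy1 l)
    · by_contra hj
      exact Finset.prod_ne_zero_iff.1 (right_ne_zero_of_mul hne) j (by simpa using hj) h0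
    · exact hspec _ ((hy2 j).2 hj)

end Pool.Agent.Lib.MP_44a246_ntFB
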