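import Mathlib
import Pool.Agent.Lib.MP_44a246_ntFB.FB22
import Pool.Agent.Lib.MP_44a246_ntI.I06

/-!
# The explicit height bound for one generic hypersurface section of an arbitrary variety
-/

namespace Pool.Agent.Lib.MP_44a246_ntFB

open Pool.Agent.Lib.MP_e52354_nt
open Pool.Agent.Lib.MP_44a246_nt
open Pool.Agent.Lib.MP_44a246_ntL
open Pool.Agent.Lib.MP_44a246_ntUV
open Pool.Agent.Lib.MP_44a246_ntTV
open Pool.Agent.Lib.MP_44a246_ntMY
open Pool.Agent.Lib.MP_44a246_ntMB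
open Pool.Agent.Lib.MP_44a246_ntCE
open Pool.Agent.Lib.MP_44a246_ntU
open Pool.Agent.Lib.MP_44a246_ntI (slope_mainRI)
open Pool.Agent.Lib.MP_44a246_ntD (trdeg_adjoin_lt)
open Pool.Agent.Lib.MP_44a246_ntK (jexpo mem_jexpo)
open Pool.Agent.Lib.MP_e52354_ntSD (GenK)
open WithZero MvPolynomial Module Algebra

universe u v w x

/-- the relation between the height and the ramification -/
def QS (s P C : ℕ) (h : ℤ) (F : ℕ) (R : ℤ) (_ : ℕ) : Prop :=
  s * h < R ∨ h ≤ C * F + P * R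

/-- the numerical conditions of the slope theorem for one hypersurface -/
def NumS (r c d s P σ D m Q : ℕ) {ι : Type*} (e : ι → ℕ) : Prop :=
  (D = 0 ∧ (∀ _ : Fin 1, 1 ≤ d) ∧ 3 * r + 3 + c ≤ 2 * m + 1 ∧ 1 + 3 ≤ m + 1 ∧
      (r + 1 + 2 ≤ m ∨ 2 * r + c + 2 ≤ m + 1 ∨ 3 * r + 4 + c ≤ 2 * m + 1) ∧
      (1 + 6) * (m + 1) + 2 * 1 * m + Q ≤ (m + 1) ^ 2 + 9 + 5 * 1 ∧
      ∀ i, 2 * 1 * s * (e i + 1) < Q ∨ 2 * 1 * (e i + 1) ≤ P ∨ 2 * r + c + 2 ≤ m + 1) ∨
    (2 ≤ r ∧ 4 * 1 ≤ σ ∧ s + 3 ≤ σ ∧ 150 * σ ≤ D ∧ (∀ _ : Fin 1, D ≤ d) ∧ r + c ≤ 1 * D ∧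
      r + c + 75 * 1 * σ ≤ m ∧ Q ≤ D ^ 2 ∧ ∀ i, 4 * D * e i ≤ Q ∨ D * e i ≤ σ * P)

/-- the slope theorem for one hypersurface, for large constant fields -/
theorem slope_htQ0 {κ : Type u} {K : Type v} [Field κ] [IsAlgClosed κ] [CharZero κ] [Field K]
    [CharZero K] [Algebra κ K] (htr : Cardinal.aleph0 ≤ Algebra.trdeg ℚ κ) (hK : IsFF κ K)
    {k : Type x} [Field k] [CharZero k] [Algebra k K] (hk : Algebra.trdeg ℚ k < Cardinal.aleph0)
    {n r σ D c s m P Q m' d : ℕ} {ι : Type} [Finite ι] {e : ι → ℕ}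
    {f : ι → MvPolynomial (Fin 1 ⊕ Fin (n + 1)) k}
    (hf : ∀ i, (f i).IsWeightedHomogeneous (Sum.elim (fun _ => d) fun _ => 1) (e i))
    (hI : ringKrullDim (MvPolynomial (Fin (n + 1)) k ⧸
      (Ideal.span (Set.range f)).comap (rename (Sum.inr : Fin (n + 1) → Fin 1 ⊕ Fin (n + 1)))) ≤
        ((r + 1 : ℕ) : WithBot ℕ∞))
    (hr1 : 1 ≤ r) (hms : m + s ≤ d) (hd : NumS r c d s P σ D m Q e) (hQ : 1 ≤ Q)
    (hm' : 2 * r + c ≤ d + m' + 1)
    {H : Fin 1 → MvPolynomial (Fin (n + 1)) K} (hH : ∀ j, (H j).IsHomogeneous d)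
    (hgen : GenK k (fun _ => d) H c) (S : Set (Place κ K)) :
    HtQ.{u, v, w, x} κ f (fun _ => d) Finset.univ H S m' (QS s P) := by
  classical
  obtain ⟨t, ht, hfin⟩ := hK
  have hK : IsFF κ K := ⟨t, ht, hfin⟩
  have hsum : ∀ A : Finset (Fin 1), A.card = 1 → ∑ j ∈ A, (fun _ : Fin 1 => d) j = d := by
    intro A hA
    rw [Finset.sum_const, hA, one_smul]
  obtain ⟨a, G, hG, hGd, C, hmain⟩ := slope_mainRI.{u, v, w} htr ht hk hf hI hr1 le_rfl le_rfl
    (s := s) (m := m) (P := P) (Q := Q) (σ := σ) (D := D) (m' := m')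
    (fun A hA => by rw [hsum A hA]; exact hms) hd (fun A hA => by rw [hsum A hA]; exact hm') H hH
    hgen
  refine ⟨a, G, hG, hGd, C, ?_⟩
  intro L _ _ _ _ _ _ _ x hx hfx hrk _
  have hrk' : ∃ (i : Fin 1 → ι) (j : Fin 1 → Fin 1), (Matrix.of fun a b =>
      aeval (Sum.elim (fun j => aeval x (H j)) x : Fin 1 ⊕ Fin (n + 1) → L)
        (pderiv (Sum.inl (j b)) (f (i a)))).det ≠ 0 := by
    obtain ⟨i, hi⟩ := hrk
    refine ⟨fun _ => i ⟨0, Finset.mem_univ _⟩, fun _ => 0, ?_⟩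
    rw [Matrix.det_fin_one]
    rw [Matrix.det_eq_elem_of_subsingleton _ (⟨0, Finset.mem_univ _⟩ : (Finset.univ : Finset (Fin 1)))]
      at hi
    exact hi
  rcases hmain L x hx hfx (Or.inl hrk') with ⟨h1, -⟩ | ⟨h1, -⟩
  · left
    rcases h1 with h1 | h1
    · exact Or.inl h1
    · right
      have hh : 0 ≤ height κ x := by
        exact IsFF.height_nonneg hK.of_finite hx
      have h2 : height κ x ≤ Q * height κ x := le_mul_of_one_le_left hh (by exact_mod_cast hQ)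
      exact h2.trans h1
  · exact Or.inr h1

/-- **The slope theorem for one hypersurface**, for all constant fields and fields of definition. -/
theorem slope_htQ {κ : Type u} {K : Type v} [Field κ] [IsAlgClosed κ] [CharZero κ] [Field K]
    [CharZero K] [Algebra κ K] (hK : IsFF κ K)
    {k : Type x} [Field k] [CharZero k] [Algebra k K]
    {n r σ D c s m P Q m' d : ℕ} {ι : Type} [Finite ι] {e : ι → ℕ}
    {f : ι → MvPolynomial (Fin 1 ⊕ Fin (n + 1)) k}
    (hf : ∀ i, (f i).IsWeightedHomogeneous (Sum.elim (fun _ => d) fun _ => 1) (e i))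
    (hI : ringKrullDim (MvPolynomial (Fin (n + 1)) k ⧸
      (Ideal.span (Set.range f)).comap (rename (Sum.inr : Fin (n + 1) → Fin 1 ⊕ Fin (n + 1)))) ≤
        ((r + 1 : ℕ) : WithBot ℕ∞))
    (hr1 : 1 ≤ r) (hms : m + s ≤ d) (hd : NumS r c d s P σ D m Q e) (hQ : 1 ≤ Q)
    (hm' : 2 * r + c ≤ d + m' + 1)
    {H : Fin 1 → MvPolynomial (Fin (n + 1)) K} (hH : ∀ j, (H j).IsHomogeneous d)
    (hgen : GenK k (fun _ => d) H c) (S : Set (Place κ K)) :
    HtQ.{u, v, w, x} κ f (fun _ => d) Finset.univ H S m' (QS s P) := by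
  obtain ⟨k₀, _, _, _, htk, f₀, hf₀⟩ := exists_base_field f
  let _ : Algebra k₀ K := ((algebraMap k K).comp (algebraMap k₀ k)).toAlgebra
  have s0 : IsScalarTower k₀ k K := IsScalarTower.of_algebraMap_eq fun _ => rfl
  obtain rfl : (fun i => map (algebraMap k₀ k) (f₀ i)) = f := funext hf₀
  have hinj := (algebraMap k₀ k).injective
  refine htQ_base ?_
  have hf' : ∀ i, (f₀ i).IsWeightedHomogeneous (Sum.elim (fun _ => d) fun _ => 1) (e i) := by
    intro i m hm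
    refine hf i ?_
    rw [coeff_map]
    exact fun h0 => hm ((map_eq_zero _).1 h0)
  have hdim' := (imDim_le (k₀ := k₀) (k := k)
    (e := (Sum.inr : Fin (n + 1) → Fin 1 ⊕ Fin (n + 1))) Sum.inr_injective f₀).trans hI
  have hfin : Finite {I : Fin 1 × (Fin (n + 1) →₀ ℕ) // I.2.degree = (fun _ => d) I.1} := by
    refine Finite.of_injective (fun I => (⟨I.1, mem_jexpo.2 (mem_expo.2 I.2)⟩ :
      ↥(jexpo n (fun _ : Fin 1 => d)))) fun I J h => Subtype.ext (congrArg (fun s => s.1) h)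
  have hgen' : GenK k₀ (fun _ => d) H c := by
    unfold GenK at hgen ⊢
    refine hgen.trans ?_
    gcongr
    exact trdeg_adjoin_le (k₀ := k₀) (k := k) _
  obtain ⟨κ', _, _, _, _, htr⟩ := exists_ext_const κ
  obtain ⟨K', _, _, _, _, _, _, _, hCE⟩ := exists_base hK (κ' := κ')
  let _ : Algebra k₀ K' := ((algebraMap K K').comp (algebraMap k₀ K)).toAlgebra
  have s1 : IsScalarTower k₀ K K' := IsScalarTower.of_algebraMap_eq fun _ => rfl
  have hcK' : CharZero K' := charZero_of_injective_algebraMap (algebraMap K K').injective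
  refine htQ_descend hCE ?_ (slope_htQ0 htr hCE.isFF htk hf' hdim' hr1 hms hd hQ hm'
    (fun j => (hH j).map _) ?_ (extSet S))
  · intro C h F R R' N N' hR hN h1
    rcases h1 with h1 | h1
    · exact Or.inl (h1.trans_le hR)
    · refine Or.inr (h1.trans ?_)
      have h3 : (P : ℤ) * R' ≤ P * R := mul_le_mul_of_nonneg_left hR (Int.natCast_nonneg _)
      linarith
  · unfold GenK at hgen' ⊢
    exact gen_map hgen'

end Pool.Agent.Lib.MP_44a246_ntFB
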