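import Mathlib
import Pool.Agent.Lib.MP_44a246_ntFB.FB24

/-!
# The explicit height bound for one generic hypersurface section: the points of bounded degree
-/

namespace Pool.Agent.Lib.MP_44a246_ntFB

open Pool.Agent.Lib.MP_e52354_nt
open Pool.Agent.Lib.MP_44a246_nt
open Pool.Agent.Lib.MP_44a246_ntL
open Pool.Agent.Lib.MP_44a246_ntUV
open Pool.Agent.Lib.MP_44a246_ntTV
open Pool.Agent.Lib.MP_44a246_ntU
open Pool.Agent.Lib.MP_44a246_ntCE (ringKrullDim_le_baseChange)
open Pool.Agent.Lib.MP_e52354_ntSD (GenK)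
open WithZero MvPolynomial Module

universe u v w

/-- the field generated by a point -/
theorem exists_subfield {κ : Type u} {K : Type v} [Field κ] [IsAlgClosed κ] [CharZero κ] [Field K]
    [CharZero K] [Algebra κ K] (hK : IsFF κ K) {L : Type w} [Field L] [Algebra K L]
    [FiniteDimensional K L] [Algebra κ L] [IsScalarTower κ K L] {m : ℕ} (y : Fin m → L) :
    ∃ (M : Type w) (_ : Field M) (_ : Algebra K M) (_ : FiniteDimensional K M) (_ : Algebra κ M)
      (_ : IsScalarTower κ K M) (_ : Algebra M L) (_ : FiniteDimensional M L)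
      (y' : Fin m → M),
      finrank K M * finrank M L = finrank K L ∧
      (∀ Q : MvPolynomial (Fin (m + 1)) K, aeval (Fin.cons 1 y : Fin (m + 1) → L) Q = 0 ↔
        aeval (Fin.cons 1 y' : Fin (m + 1) → M) Q = 0) ∧
      (ramDeg κ M K : ℤ) ≤ 2 * ((finrank K M : ℤ) - 1) * hgt κ y' ∧
      hgt κ y = finrank M L * hgt κ y' := by
  classical
  have hL : IsFF κ L := hK.of_finite
  obtain ⟨M, hM⟩ : ∃ M : IntermediateField K L,
      M = IntermediateField.adjoin K (Set.range y) := ⟨_, rfl⟩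
  have hmem : ∀ i, y i ∈ M := fun i => by
    rw [hM]
    exact IntermediateField.subset_adjoin _ _ ⟨i, rfl⟩
  obtain ⟨y', hy'⟩ : ∃ y' : Fin m → M, ∀ i, (y' i : L) = y i := ⟨fun i => ⟨_, hmem i⟩, fun _ => rfl⟩
  have htop : IntermediateField.adjoin K (Set.range y') = ⊤ := by
    rw [eq_top_iff]
    intro b _
    have h1 : IntermediateField.map M.val (IntermediateField.adjoin K (Set.range y')) =
        IntermediateField.adjoin K (Set.range y) := by
      rw [IntermediateField.adjoin_map, ← Set.range_comp]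
      congr 2
      exact funext hy'
    have h2 : (b : L) ∈ IntermediateField.map M.val (IntermediateField.adjoin K (Set.range y')) := by
      rw [h1, ← hM]
      exact b.2
    obtain ⟨b', hb', hbb⟩ := h2
    have h3 : b' = b := Subtype.ext hbb
    rw [← h3]
    exact hb'
  have hκM : IsScalarTower κ M L := IsScalarTower.of_algebraMap_eq fun c => by
    rw [IsScalarTower.algebraMap_apply κ K L, IsScalarTower.algebraMap_apply κ K M,
      ← IsScalarTower.algebraMap_apply K M L]
  have hcons : (Fin.cons 1 y : Fin (m + 1) → L) =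
      fun i => algebraMap M L ((Fin.cons 1 y' : Fin (m + 1) → M) i) := by
    funext i
    refine Fin.cases ?_ (fun i => ?_) i
    · rw [Fin.cons_zero, Fin.cons_zero, map_one]
    · rw [Fin.cons_succ, Fin.cons_succ]
      exact (hy' i).symm
  refine ⟨M, inferInstance, inferInstance, inferInstance, inferInstance, inferInstance,
    inferInstance, inferInstance, y', finrank_mul_finrank K M L, fun Q => ?_, ?_, ?_⟩
  · rw [hcons]
    have h1 : aeval (fun i => algebraMap M L ((Fin.cons 1 y' : Fin (m + 1) → M) i)) Q =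
      algebraMap M L (aeval (Fin.cons 1 y' : Fin (m + 1) → M) Q) :=
      aeval_algebraMap_apply L (Fin.cons 1 y' : Fin (m + 1) → M) Q
    rw [h1]
    exact map_eq_zero _
  · exact_mod_cast ram_aff hK y' htop
  · rw [← hgt_ext hL y']
    congr 1
    funext i
    exact (hy' i).symm

/-- **The explicit height bound for the points of bounded degree** of the section of a variety by
one generic hypersurface. -/
theorem base_height_S (r m ν μ d : ℕ) (hμ : 1 ≤ μ)
    (hnum : max 6 (2 * ν + 1) + 2 * r ≤ d + 2 ∨ (r = 1 ∧ 2 * ν ≤ d + μ + 1 ∧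
      (ν + 300 ≤ d ∨ (6 ≤ d ∧ 3 * ν + 2 ≤ 2 * d))))
    (κ : Type u) (K : Type v) [Field κ] [IsAlgClosed κ] [CharZero κ] [Field K] [CharZero K]
    [Algebra κ K] (hK : IsFF κ K) (k : Type v) [Field k] [CharZero k] [Algebra k K]
    (q : ℕ) (f : Fin q → MvPolynomial (Fin (m + 1)) k) (hf : ∀ l, ∃ a, (f l).IsHomogeneous a)
    (hdim : ringKrullDim (MvPolynomial (Fin (m + 1)) K ⧸ Ideal.span (Set.range fun l =>
      map (algebraMap k K) (f l))) ≤ ((ν + 1 : ℕ) : WithBot ℕ∞))
    (F : Fin 1 → MvPolynomial (Fin (m + 1)) K) (hF : ∀ j, (F j).IsHomogeneous d)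
    (hgen : AlgebraicIndependent k
      (fun I : {I : Fin 1 × (Fin (m + 1) →₀ ℕ) // I.2.degree = (fun _ => d) I.1} =>
        (F I.1.1).coeff I.1.2)) :
    ∃ (t : ℕ) (G : Fin t → MvPolynomial (Fin (m + 1)) K), (∀ i, ∃ a, (G i).IsHomogeneous a) ∧
      ringKrullDim (MvPolynomial (Fin (m + 1)) K ⧸ Ideal.span (Set.range G)) ≤
        (μ : WithBot ℕ∞) ∧
      ∃ C : ℕ, ∀ (L : Type w) [Field L] [Algebra K L] [FiniteDimensional K L] [Algebra κ L]
        [IsScalarTower κ K L] (y : Fin m → L), finrank K L ≤ r →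
        (∀ l, aeval (Fin.cons 1 y : Fin (m + 1) → L) (map (algebraMap k K) (f l)) = 0) →
        (∀ j, aeval (Fin.cons 1 y : Fin (m + 1) → L) (F j) = 0) →
        (∃ i, aeval (Fin.cons 1 y : Fin (m + 1) → L) (G i) ≠ 0) →
        hgt κ y ≤ C := by
  classical
  rcases Nat.eq_zero_or_pos r with hr0 | hr0
  · refine ⟨1, fun _ => 1, fun _ => ⟨0, isHomogeneous_one _ _⟩, ?_, 0, ?_⟩
    · have h1 : Ideal.span (Set.range fun _ : Fin 1 => (1 : MvPolynomial (Fin (m + 1)) K)) = ⊤ :=
        Ideal.eq_top_of_isUnit_mem _ (Ideal.subset_span ⟨0, rfl⟩) isUnit_one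
      have h2 : Subsingleton (MvPolynomial (Fin (m + 1)) K ⧸
          Ideal.span (Set.range fun _ : Fin 1 => (1 : MvPolynomial (Fin (m + 1)) K))) :=
        Ideal.Quotient.subsingleton_iff.2 h1
      rw [ringKrullDim_eq_bot_of_subsingleton]
      exact bot_le
    · intro L _ _ _ _ _ y hLr
      have h1 : 0 < finrank K L := finrank_pos
      omega
  obtain ⟨ν', hν'⟩ : ∃ ν', ν' = max ν 1 := ⟨_, rfl⟩
  choose a ha using hf
  obtain ⟨g, hg⟩ : ∃ g : Option (Fin q) → MvPolynomial (Fin 1 ⊕ Fin (m + 1)) k,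
    g = fun o => o.elim (X (Sum.inl 0)) (fun l => rename Sum.inr (f l)) := ⟨_, rfl⟩
  have hgi : g none = X (Sum.inl 0) := by rw [hg]; rfl
  have hgr : ∀ l, g (some l) = rename Sum.inr (f l) := fun l => by rw [hg]; rfl
  obtain ⟨E, hE⟩ : ∃ E : Option (Fin q) → ℕ, E = fun o => o.elim d a := ⟨_, rfl⟩
  have hgw : ∀ i, (g i).IsWeightedHomogeneous (Sum.elim (fun _ => d) fun _ => 1) (E i) := by
    intro i
    rcases i with _ | l
    · rw [hgi, hE]
      exact isWeightedHomogeneous_X _ _ _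
    · rw [hgr, hE]
      exact weighted_rename (ha l)
  have hgd : ringKrullDim (MvPolynomial (Fin (m + 1)) k ⧸ (Ideal.span (Set.range g)).comap
      (rename (Sum.inr : Fin (m + 1) → Fin 1 ⊕ Fin (m + 1)))) ≤ ((ν' + 1 : ℕ) : WithBot ℕ∞) := by
    have h1 : Ideal.span (Set.range f) ≤ (Ideal.span (Set.range g)).comap
        (rename (Sum.inr : Fin (m + 1) → Fin 1 ⊕ Fin (m + 1))) := by
      rw [Ideal.span_le]
      rintro _ ⟨l, rfl⟩
      show rename Sum.inr (f l) ∈ Ideal.span (Set.range g)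
      rw [← hgr]
      exact Ideal.subset_span ⟨_, rfl⟩
    refine ((ringKrullDim_le_of_surjective (Ideal.Quotient.factor h1)
      (Ideal.Quotient.factor_surjective h1)).trans ((ringKrullDim_le_baseChange f).trans hdim)).trans
        ?_
    have h2 : ν + 1 ≤ ν' + 1 := by omega
    exact_mod_cast h2
  -- the numerical conditions
  obtain ⟨s, P, D, σ, m₁, Q, hs, hms, hd, hQ, hP⟩ : ∃ s P D σ m₁ Q : ℕ, s = 2 * r - 2 ∧
      m₁ + s ≤ d ∧ NumS ν' 0 d s P σ D m₁ Q E ∧ 1 ≤ Q ∧ (P = 0 ∨ r = 1) := by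
    have hquad : ∀ x : ℕ, 6 ≤ x → (1 + 6) * (x + 1) + 2 * 1 * x + 1 ≤ (x + 1) ^ 2 + 9 + 5 * 1 := by
      intro x hx
      obtain ⟨z, rfl⟩ := Nat.exists_eq_add_of_le hx
      nlinarith
    rcases hnum with h | ⟨hr, h, h'⟩
    · obtain ⟨m₁, hm₁⟩ : ∃ m₁, m₁ + 2 * r = d + 2 := ⟨d + 2 - 2 * r, by omega⟩
      refine ⟨2 * r - 2, 0, 0, 0, m₁, 1, rfl, by omega, Or.inl ⟨rfl, fun _ => by omega,
        by omega, by omega, Or.inr (Or.inl (by omega)), hquad m₁ (by omega),
        fun i => Or.inr (Or.inr (by omega))⟩, le_rfl, Or.inl rfl⟩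
    · have hI : 6 ≤ d → 3 * ν' + 2 ≤ 2 * d → ∃ s P D σ m₁ Q : ℕ, s = 2 * r - 2 ∧
          m₁ + s ≤ d ∧ NumS ν' 0 d s P σ D m₁ Q E ∧ 1 ≤ Q ∧ (P = 0 ∨ r = 1) := by
        intro h6 h3
        refine ⟨0, 0, 0, 0, d, 1, by omega, by omega, Or.inl ⟨rfl, fun _ => by omega,
          by omega, by omega, by omega, hquad d h6, fun i => Or.inl (by simp)⟩, le_rfl,
          Or.inl rfl⟩
      rcases h' with h' | ⟨h6, h3⟩
      · by_cases h600 : 600 ≤ d ∧ 2 ≤ ν'
        · refine ⟨0, d * ∑ i, E i, d, 4, d, 1, by omega, by omega, Or.inr ⟨h600.2, by omega,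
            by omega, by omega, fun _ => le_rfl, by omega, by omega, ?_, fun i => Or.inr ?_⟩,
            le_rfl, Or.inr hr⟩
          · have h1 : 1 ≤ d := by omega
            exact Nat.one_le_pow _ _ h1
          · have h1 : E i ≤ ∑ i, E i := Finset.single_le_sum (f := E) (fun _ _ => Nat.zero_le _)
              (Finset.mem_univ i)
            calc d * E i ≤ d * ∑ i, E i := Nat.mul_le_mul_left _ h1
              _ ≤ 4 * (d * ∑ i, E i) := Nat.le_mul_of_pos_left _ (by norm_num)
        · exact hI (by omega) (by omega)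
      · exact hI h6 (by omega)
  have hm' : 2 * ν' + 0 ≤ d + μ + 1 := by
    rcases hnum with h | ⟨-, h, h'⟩ <;> omega
  obtain ⟨t, G, hG, hGd, C, hC⟩ := slope_htQ.{u, v, w, v} hK (f := g) (m' := μ) hgw hgd
    (by omega) hms hd hQ hm' hF (genK_of_indep hgen) ∅
  refine ⟨t, G, hG, hGd, C * r * r, ?_⟩
  intro L _ _ _ _ _ y hLr hfy hFy hGy
  have hL : IsFF κ L := hK.of_finite
  obtain ⟨M, _, _, _, _, _, _, _, y', hMr, hz, hram, hgt'⟩ := exists_subfield hK y
  have hMf : IsFF κ M := hK.of_finite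
  have hM1 : 0 < finrank K M := finrank_pos
  have hM2 : 0 < finrank M L := finrank_pos
  have hr1 : finrank K M ≤ r := (Nat.le_mul_of_pos_right _ hM2).trans (hMr.le.trans hLr)
  have hr2 : finrank M L ≤ r := (Nat.le_mul_of_pos_left _ hM1).trans (hMr.le.trans hLr)
  have hne : (Fin.cons 1 y' : Fin (m + 1) → M) ≠ 0 := fun h0 => by
    have h1 := congrFun h0 0
    rw [Fin.cons_zero] at h1
    exact one_ne_zero h1
  let i1 : Algebra k M := ((algebraMap K M).comp (algebraMap k K)).toAlgebra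
  have i2 : IsScalarTower k K M := IsScalarTower.of_algebraMap_eq fun _ => rfl
  rcases hC M (Fin.cons 1 y') hne (by
      intro i
      rcases i with _ | l
      · rw [hgi, aeval_X, Sum.elim_inl]
        exact (hz _).1 (hFy 0)
      · rw [hgr, aeval_rename]
        have h1 := (hz _).1 (hfy l)
        rw [aeval_map_algebraMap] at h1
        exact h1)
    ⟨fun _ => none, by
      have h1 : (Matrix.of fun a b : (Finset.univ : Finset (Fin 1)) =>
        aeval (Sum.elim (fun j => aeval (Fin.cons 1 y' : Fin (m + 1) → M) (F j))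
          (Fin.cons 1 y') : Fin 1 ⊕ Fin (m + 1) → M)
          (pderiv (Sum.inl (b : Fin 1)) (g none))) = 1 := by
        refine Matrix.ext fun a b => ?_
        rw [Matrix.of_apply, hgi, pderiv_X, Matrix.one_apply,
          if_pos (Subsingleton.elim a b), Subsingleton.elim (b : Fin 1) 0, Pi.single_eq_same,
          map_one]
      rw [h1, Matrix.det_one]
      exact one_ne_zero⟩
    (fun j hj => absurd (Finset.mem_univ j) hj) with h1 | h1
  · rw [← hgt_eq] at h1
    obtain ⟨b, hb⟩ : ∃ b, b = hgt κ y' := ⟨_, rfl⟩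
    rw [← hb] at h1 hram hgt'
    have hb0 : 0 ≤ b := by
      rw [hb]
      exact hgt_nonneg hMf y'
    have hfr : (finrank K M : ℤ) ≤ r := by exact_mod_cast hr1
    have hfr1 : (1 : ℤ) ≤ finrank K M := by exact_mod_cast hM1
    have hbound : b ≤ C * finrank K M := by
      rcases h1 with h1 | h1
      · exfalso
        have h2 : (s : ℤ) = 2 * r - 2 := by omega
        rw [h2] at h1
        have h3 : 2 * ((finrank K M : ℤ) - 1) * b ≤ (2 * r - 2) * b :=
          mul_le_mul_of_nonneg_right (by linarith) hb0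
        linarith
      · rcases hP with hP | hP
        · rw [hP] at h1
          simpa using h1
        · have h2 : finrank K M = 1 := by omega
          have h3 : (P : ℤ) * ramDeg κ M K ≤ 0 := by
            rw [h2] at hram
            have h4 : (ramDeg κ M K : ℤ) ≤ 0 := by simpa using hram
            exact mul_nonpos_of_nonneg_of_nonpos (Int.natCast_nonneg _) h4
          linarith
    have hC0 : (0 : ℤ) ≤ C := Int.natCast_nonneg _
    have hfr2 : (finrank M L : ℤ) ≤ r := by exact_mod_cast hr2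
    have hr0' : (0 : ℤ) ≤ r := Int.natCast_nonneg _
    calc hgt κ y = finrank M L * b := hgt'
      _ ≤ r * (C * r) := by
        refine mul_le_mul hfr2 (hbound.trans (mul_le_mul_of_nonneg_left hfr hC0)) hb0 hr0'
      _ = ((C * r * r : ℕ) : ℤ) := by
        push_cast
        ring
  · obtain ⟨i, hi⟩ := hGy
    exact absurd ((hz _).2 (h1 i)) hi

end Pool.Agent.Lib.MP_44a246_ntFB
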