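import Mathlib
import Pool.Agent.Lib.MP_44a246_ntFB.FB23
import Pool.Agent.Lib.MP_44a246_ntFB.FB25

/-!
# The height of the points of a variety with rational maps to generic sections, with the explicit
conditions
-/

namespace Pool.Agent.Lib.MP_44a246_ntFB

open Pool.Agent.Lib.MP_e52354_nt
open Pool.Agent.Lib.MP_44a246_nt
open Pool.Agent.Lib.MP_44a246_ntL
open WithZero MvPolynomial Module

universe u v w u₁

/-- **The height of the points of bounded degree of a variety with a rational map to a section of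
an arbitrary variety**, with the explicit conditions for one hypersurface. -/
theorem base_point_all (p r : ℕ) :
    ∃ R : ℕ, ∀ (m ν μ : ℕ) (e : Fin p → ℕ) (A : Finset (Fin p)), (∀ j, 1 ≤ e j) → ν ≤ m →
        1 ≤ μ → ((max ν R + 2 * r ≤ ∑ j, e j ∧
          2 * max ν R + 2 * r ≤ ∑ j, e j + A.card + μ) ∨
          (p = 1 ∧ A.card = 1 ∧ (max 6 (2 * ν + 1) + 2 * r ≤ ∑ j, e j + 2 ∨
            (r = 1 ∧ 2 * ν ≤ ∑ j, e j + μ + 1 ∧
              (ν + 300 ≤ ∑ j, e j ∨ (6 ≤ ∑ j, e j ∧ 3 * ν + 2 ≤ 2 * ∑ j, e j)))))) →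
      ∀ (κ : Type u) (K : Type v) [Field κ] [IsAlgClosed κ] [CharZero κ] [Field K] [CharZero K]
        [Algebra κ K] (_ : IsFF κ K) (k : Subfield K)
        (q : ℕ) (f : Fin q → MvPolynomial (Fin (m + 1)) K) (_ : VarOver k f ν)
        (F : Fin p → MvPolynomial (Fin (m + 1)) K) (_ : GenOver k F e)
        (Ω : Type u₁) [Field Ω] [Algebra K Ω] (y₀ : Fin m → Ω) (_ : BasePoint f F A μ y₀)
        (S : Set (Place κ K)) (_ : S.Finite),
        ∃ (G : MvPolynomial (Fin (m + 1)) K) (C : ℕ),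
          aeval (Fin.cons 1 y₀ : Fin (m + 1) → Ω) G ≠ 0 ∧
          ∀ (L : Type w) [Field L] [Algebra K L] [FiniteDimensional K L] [Algebra κ L]
            [IsScalarTower κ K L] (y : Fin m → L), finrank K L ≤ r →
            (∀ Q : MvPolynomial (Fin (m + 1)) K,
              aeval (Fin.cons 1 y₀ : Fin (m + 1) → Ω) Q = 0 →
              aeval (Fin.cons 1 y : Fin (m + 1) → L) Q = 0) →
            aeval (Fin.cons 1 y : Fin (m + 1) → L) G ≠ 0 →
            hgt κ y ≤ C * (1 + truncCount κ F e S (Fin.cons 1 y : Fin (m + 1) → L)) := by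
  classical
  obtain ⟨R, hR⟩ := base_point.{u, v, w, u₁} p r
  refine ⟨R, ?_⟩
  intro m ν μ e A he1 hνm hμ hnum κ K _ _ _ _ _ _ hK k q f hf F hF Ω _ _ y₀ hy₀ S hS
  rcases hnum with ⟨hs1, hs2⟩ | ⟨hp, hA, hnum⟩
  · exact hR m ν μ e A he1 hνm hμ hs1 hs2 κ K hK k q f hf F hF Ω y₀ hy₀ S hS
  subst hp
  obtain ⟨d, rfl⟩ : ∃ d, e = fun _ => d := ⟨e 0, funext fun j => by rw [Subsingleton.elim j 0]⟩
  have hsum : ∑ j : Fin 1, (fun _ => d) j = d := by simp
  rw [hsum] at hnum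
  have hAu : A = Finset.univ := (Finset.card_eq_iff_eq_univ A).1 (by rw [hA, Fintype.card_fin])
  subst hAu
  obtain ⟨hf1, hf2⟩ := hf
  obtain ⟨hF1, hF2⟩ := hF
  obtain ⟨hy1, hy2, a, hy3⟩ := hy₀
  have hk : ∀ l, ∃ g : MvPolynomial (Fin (m + 1)) k, map (algebraMap k K) g = f l := fun l =>
    exists_map_hom (algebraMap k K) fun I => ⟨⟨_, (hf1 l).2 I⟩, rfl⟩
  choose g hg using hk
  have hg' : (fun l => map (algebraMap k K) (g l)) = f := funext hg
  have hgh : ∀ l, ∃ a, (g l).IsHomogeneous a := by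
    intro l
    obtain ⟨a, ha⟩ := (hf1 l).1
    refine ⟨a, fun I hI => ha ?_⟩
    rw [← hg, coeff_map]
    exact fun h0 => hI ((map_eq_zero _).1 h0)
  obtain ⟨t, G, hG, hGd, C, hC⟩ := base_height_S.{u, v, w} r m ν μ d hμ hnum κ K hK k q g hgh
    (by rw [hg']; exact hf2) F hF1 hF2
  obtain ⟨i, hi⟩ : ∃ i, aeval (Fin.cons 1 y₀ : Fin (m + 1) → Ω) (G i) ≠ 0 := by
    by_contra hcon
    push Not at hcon
    have h1 := card_lt_of_dim hG hGd hcon hy3
    omega
  refine ⟨G i, C, hi, ?_⟩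
  intro L _ _ _ _ _ y hLr hspec hne
  have h1 := hC L y hLr (fun l => by
    rw [hg]
    exact hspec _ (hy1 l)) (fun j => hspec _ ((hy2 j).2 (Finset.mem_univ j))) ⟨i, hne⟩
  have h2 : (0 : ℤ) ≤ C := Int.natCast_nonneg _
  have h3 : (0 : ℤ) ≤ truncCount κ F (fun _ => d) S (Fin.cons 1 y : Fin (m + 1) → L) :=
    Int.natCast_nonneg _
  nlinarith

end Pool.Agent.Lib.MP_44a246_ntFB
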