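import Mathlib
import Pool.Agent.Lib.MP_44a246_ntFB.FB25
import Pool.Agent.Lib.MP_44a246_ntYT.DG01

/-!
# Heights of the affine points of bounded degree from a general height inequality
-/

namespace Pool.Agent.Lib.MP_44a246_ntFB

open Pool.Agent.Lib.MP_e52354_nt
open Pool.Agent.Lib.MP_44a246_nt
open Pool.Agent.Lib.MP_44a246_ntL
open Pool.Agent.Lib.MP_44a246_ntUV (HtQ)
open WithZero MvPolynomial Module

universe u v w x

/-- the counting function does not depend on the order of the forms -/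
theorem truncCount_reindex {κ K L : Type*} [Field κ] [Field K] [Algebra κ K] [Field L] [Algebra κ L]
    [Algebra K L] {ι ι' σ : Type*} [Fintype σ] (τ : ι' ≃ ι) (F : ι → MvPolynomial σ K) (d : ι → ℕ)
    (S : Set (Place κ K)) (x : σ → L) :
    truncCount κ (fun j => F (τ j)) (fun j => d (τ j)) S x = truncCount κ F d S x := by
  unfold truncCount
  congr 1
  ext w
  simp only [Set.mem_ofPred_eq]
  refine and_congr Iff.rfl ?_
  exact τ.surjective.exists (p := fun i => aeval x (F i) ≠ 0 ∧
    w.1 (aeval x (F i)) < vmax w.1 x ^ d i) |>.symm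

/-- the truncated counting function in an extension, for any finite family of forms -/
theorem trunc_le_ext' {κ : Type u} {K : Type v} {M L : Type w} [Field κ] [IsAlgClosed κ]
    [CharZero κ] [Field K] [Algebra κ K] (hK : IsFF κ K) [Field M] [Algebra κ M] [Algebra K M]
    [IsScalarTower κ K M] [FiniteDimensional K M] [Field L] [Algebra κ L] [Algebra K L]
    [IsScalarTower κ K L] [FiniteDimensional K L] [Algebra M L] [IsScalarTower κ M L]
    [IsScalarTower K M L] [FiniteDimensional M L] {n : ℕ} {ι : Type*} [Finite ι] {d : ι → ℕ}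
    {F : ι → MvPolynomial (Fin (n + 1)) K} (hF : ∀ j, (F j).IsHomogeneous (d j))
    (S : Set (Place κ K)) {y : Fin (n + 1) → M} (hy : y ≠ 0) :
    truncCount κ F d S y ≤ truncCount κ F d S (fun i => algebraMap M L (y i)) := by
  obtain ⟨q, ⟨τ⟩⟩ := Finite.exists_equiv_fin ι
  rw [← truncCount_reindex τ.symm F d S y, ← truncCount_reindex τ.symm F d S]
  exact trunc_le_ext hK (fun j => hF (τ.symm j)) S hy

/-- the field generated by a point -/
theorem exists_subfield' {κ : Type u} {K : Type v} [Field κ] [IsAlgClosed κ] [CharZero κ] [Field K]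
    [CharZero K] [Algebra κ K] (hK : IsFF κ K) {L : Type w} [Field L] [Algebra K L]
    [FiniteDimensional K L] [Algebra κ L] [IsScalarTower κ K L] {m : ℕ} (y : Fin m → L) :
    ∃ (M : Type w) (_ : Field M) (_ : Algebra K M) (_ : FiniteDimensional K M) (_ : Algebra κ M)
      (_ : IsScalarTower κ K M) (_ : Algebra M L) (_ : FiniteDimensional M L)
      (_ : IsScalarTower κ M L) (_ : IsScalarTower K M L) (y' : Fin m → M),
      finrank K M * finrank M L = finrank K L ∧
      (Fin.cons 1 y : Fin (m + 1) → L) =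
        (fun i => algebraMap M L ((Fin.cons 1 y' : Fin (m + 1) → M) i)) ∧
      (ramDeg κ M K : ℤ) ≤ 2 * ((finrank K M : ℤ) - 1) * hgt κ y' ∧
      hgt κ y = finrank M L * hgt κ y' ∧
      IntermediateField.adjoin K (Set.range y') = ⊤ := by
  classical
  have hL : IsFF κ L := hK.of_finite
  obtain ⟨M, hM⟩ : ∃ M : IntermediateField K L,
      M = IntermediateField.adjoin K (Set.range y) := ⟨_, rfl⟩
  have hmem : ∀ i, y i ∈ M := fun i => by
    rw [hM]
    exact IntermediateField.subset_adjoin _ _ ⟨i, rfl⟩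
  obtain ⟨y', hy'⟩ : ∃ y' : Fin m → M, ∀ i, (y' i : L) = y i := ⟨fun i => ⟨_, hmem i⟩, fun _ => rfl⟩
  have htop : IntermediateField.adjoin K (Set.range y') = ⊤ := by
    rw [eq_top_iff]
    intro b _
    have h1 : IntermediateField.map M.val (IntermediateField.adjoin K (Set.range y')) =
        IntermediateField.adjoin K (Set.range y) := by
      rw [IntermediateField.adjoin_map, ← Set.range_comp]
      congr 2
      exact funext hy'
    have h2 : (b : L) ∈ IntermediateField.map M.val (IntermediateField.adjoin K (Set.range y')) := by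
      rw [h1, ← hM]
      exact b.2
    obtain ⟨b', hb', hbb⟩ := h2
    have h3 : b' = b := Subtype.ext hbb
    rw [← h3]
    exact hb'
  have hκM : IsScalarTower κ M L := IsScalarTower.of_algebraMap_eq fun c => by
    rw [IsScalarTower.algebraMap_apply κ K L, IsScalarTower.algebraMap_apply κ K M,
      ← IsScalarTower.algebraMap_apply K M L]
  have hcons : (Fin.cons 1 y : Fin (m + 1) → L) =
      fun i => algebraMap M L ((Fin.cons 1 y' : Fin (m + 1) → M) i) := by
    funext i
    refine Fin.cases ?_ (fun i => ?_) i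
    · rw [Fin.cons_zero, Fin.cons_zero, map_one]
    · rw [Fin.cons_succ, Fin.cons_succ]
      exact (hy' i).symm
  refine ⟨M, inferInstance, inferInstance, inferInstance, inferInstance, inferInstance,
    inferInstance, inferInstance, hκM, inferInstance, y', finrank_mul_finrank K M L, hcons, ?_, ?_,
    htop⟩
  · exact_mod_cast ram_aff hK y' htop
  · rw [← hgt_ext hL y']
    congr 1
    funext i
    exact (hy' i).symm

/-- the height of the affine points of degree at most `r`, outside of a closed subset of (affine)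
dimension at most `μ`, is bounded by the truncated counting function of the forms `F j`, `j ∉ A` -/
def BaseHt (κ : Type u) {K : Type v} {k : Type x} [Field κ] [Field K] [Field k] [Algebra κ K]
    [Algebra k K] {p m : ℕ} {ι : Type} (f : ι → MvPolynomial (Fin p ⊕ Fin (m + 1)) k)
    (e : Fin p → ℕ) (A : Finset (Fin p)) (F : Fin p → MvPolynomial (Fin (m + 1)) K)
    (S : Set (Place κ K)) (μ r : ℕ) : Prop :=
  ∃ (t : ℕ) (G : Fin t → MvPolynomial (Fin (m + 1)) K), (∀ i, ∃ a, (G i).IsHomogeneous a) ∧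
    ringKrullDim (MvPolynomial (Fin (m + 1)) K ⧸ Ideal.span (Set.range G)) ≤
      (μ : WithBot ℕ∞) ∧
    ∃ C : ℕ, ∀ (L : Type w) [Field L] [Algebra K L] [FiniteDimensional K L] [Algebra κ L]
      [IsScalarTower κ K L] (y : Fin m → L), finrank K L ≤ r →
      (∀ l, aeval (Fin.cons 1 y : Fin (m + 1) → L)
        (aeval (Sum.elim F X) (map (algebraMap k K) (f l)) : MvPolynomial (Fin (m + 1)) K) = 0) →
      (∃ i : A → ι, aeval (Fin.cons 1 y : Fin (m + 1) → L) (Matrix.of fun a b : A =>
        (aeval (Sum.elim F X) (map (algebraMap k K) (pderiv (Sum.inl (b : Fin p)) (f (i a)))) :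
          MvPolynomial (Fin (m + 1)) K)).det ≠ 0) →
      (∀ j ∉ A, aeval (Fin.cons 1 y : Fin (m + 1) → L) (F j) ≠ 0) →
      (∃ i, aeval (Fin.cons 1 y : Fin (m + 1) → L) (G i) ≠ 0) →
      hgt κ y ≤ C * (1 + truncCount κ (fun j : {j // j ∉ A} => F j) (fun j => e j) S
        (Fin.cons 1 y : Fin (m + 1) → L))

/-- there are no points of degree at most zero -/
theorem baseHt_zero {κ : Type u} {K : Type v} {k : Type x} [Field κ] [Field K] [Field k]
    [Algebra κ K] [Algebra k K] {p m : ℕ} {ι : Type}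
    (f : ι → MvPolynomial (Fin p ⊕ Fin (m + 1)) k) (e : Fin p → ℕ) (A : Finset (Fin p))
    (F : Fin p → MvPolynomial (Fin (m + 1)) K) (S : Set (Place κ K)) (μ : ℕ) :
    BaseHt.{u, v, w, x} κ f e A F S μ 0 := by
  refine ⟨1, fun _ => 1, fun _ => ⟨0, isHomogeneous_one _ _⟩, ?_, 0, ?_⟩
  · have h1 : Ideal.span (Set.range fun _ : Fin 1 => (1 : MvPolynomial (Fin (m + 1)) K)) = ⊤ :=
      Ideal.eq_top_of_isUnit_mem _ (Ideal.subset_span ⟨0, rfl⟩) isUnit_one
    have h2 : Subsingleton (MvPolynomial (Fin (m + 1)) K ⧸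
        Ideal.span (Set.range fun _ : Fin 1 => (1 : MvPolynomial (Fin (m + 1)) K))) :=
      Ideal.Quotient.subsingleton_iff.2 h1
    rw [ringKrullDim_eq_bot_of_subsingleton]
    exact bot_le
  · intro L _ _ _ _ _ y hLr
    have h1 : 0 < finrank K L := finrank_pos
    omega

/-- **The height of the affine points of bounded degree**, from a general height inequality. -/
theorem base_of_HtQ {κ : Type u} {K : Type v} [Field κ] [IsAlgClosed κ] [CharZero κ] [Field K]
    [CharZero K] [Algebra κ K] (hK : IsFF κ K) {k : Type x} [Field k] [Algebra k K]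
    {p r m μ : ℕ} {ι : Type} {f : ι → MvPolynomial (Fin p ⊕ Fin (m + 1)) k} {e : Fin p → ℕ}
    {A : Finset (Fin p)} {F : Fin p → MvPolynomial (Fin (m + 1)) K}
    (hF : ∀ j, (F j).IsHomogeneous (e j)) {S : Set (Place κ K)}
    {Q : ℕ → ℤ → ℕ → ℤ → ℕ → Prop} (h : HtQ.{u, v, w, x} κ f e A F S μ Q)
    (hQ : ∀ C : ℕ, ∃ C' : ℕ, ∀ (b : ℤ) (D : ℕ) (R : ℤ) (N : ℕ), 0 ≤ b → 1 ≤ D → D ≤ r → 0 ≤ R →
      R ≤ 2 * ((D : ℤ) - 1) * b → Q C b D R N → b ≤ C' * (1 + N)) :
    BaseHt.{u, v, w, x} κ f e A F S μ r := by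
  classical
  obtain ⟨t, G, hG, hGd, C, hC⟩ := h
  obtain ⟨C', hC'⟩ := hQ C
  refine ⟨t, G, hG, hGd, r * C', ?_⟩
  intro L _ _ _ _ _ y hLr hfy hdet hFy hGy
  obtain ⟨M, _, _, _, _, _, _, _, _, _, y', hMr, hcons, hram, hgt', -⟩ := exists_subfield' hK y
  have hMf : IsFF κ M := hK.of_finite
  have hM1 : 0 < finrank K M := finrank_pos
  have hM2 : 0 < finrank M L := finrank_pos
  have hr1 : finrank K M ≤ r := (Nat.le_mul_of_pos_right _ hM2).trans (hMr.le.trans hLr)
  have hr2 : finrank M L ≤ r := (Nat.le_mul_of_pos_left _ hM1).trans (hMr.le.trans hLr)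
  have hne : (Fin.cons 1 y' : Fin (m + 1) → M) ≠ 0 := fun h0 => by
    have h1 := congrFun h0 0
    rw [Fin.cons_zero] at h1
    exact one_ne_zero h1
  have hval : ∀ P : MvPolynomial (Fin (m + 1)) K, aeval (Fin.cons 1 y : Fin (m + 1) → L) P =
      algebraMap M L (aeval (Fin.cons 1 y' : Fin (m + 1) → M) P) := by
    intro P
    rw [hcons]
    exact aeval_algebraMap_apply L (Fin.cons 1 y' : Fin (m + 1) → M) P
  have hz : ∀ P : MvPolynomial (Fin (m + 1)) K, aeval (Fin.cons 1 y : Fin (m + 1) → L) P = 0 ↔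
      aeval (Fin.cons 1 y' : Fin (m + 1) → M) P = 0 := by
    intro P
    rw [hval]
    exact map_eq_zero _
  let i1 : Algebra k M := ((algebraMap K M).comp (algebraMap k K)).toAlgebra
  have i2 : IsScalarTower k K M := IsScalarTower.of_algebraMap_eq fun _ => rfl
  have hsub : ∀ P : MvPolynomial (Fin p ⊕ Fin (m + 1)) k,
      aeval (Fin.cons 1 y' : Fin (m + 1) → M)
        (aeval (Sum.elim F X) (map (algebraMap k K) P) : MvPolynomial (Fin (m + 1)) K) =
      aeval (Sum.elim (fun j => aeval (Fin.cons 1 y' : Fin (m + 1) → M) (F j))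
        (Fin.cons 1 y') : Fin p ⊕ Fin (m + 1) → M) P := by
    intro P
    induction P using MvPolynomial.induction_on with
    | C a =>
      rw [map_C, aeval_C, aeval_C]
      exact AlgHom.commutes _ _
    | add P Q hP hQ => rw [map_add, map_add, map_add, map_add, hP, hQ]
    | mul_X P i hP =>
      rw [map_mul, map_mul, map_mul, map_mul, hP, map_X, aeval_X, aeval_X]
      rcases i with i | i
      · rfl
      · rw [Sum.elim_inr, Sum.elim_inr, aeval_X]
  obtain ⟨i, hi⟩ := hdet
  rcases hC M (Fin.cons 1 y') hne (fun l => by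
      rw [← hsub]
      exact (hz _).1 (hfy l)) ⟨i, by
      intro h0
      apply hi
      rw [hz, AlgHom.map_det]
      rw [← h0]
      congr 1
      refine Matrix.ext fun a b => ?_
      rw [AlgHom.mapMatrix_apply, Matrix.map_apply, Matrix.of_apply, Matrix.of_apply]
      exact hsub _⟩
    (fun j hj h0 => hFy j hj ((hz _).2 h0)) with h1 | h1
  · rw [← hgt_eq] at h1
    have h2 := hC' _ _ _ _ (hgt_nonneg hMf y') hM1 hr1 (Int.natCast_nonneg _) hram h1
    have hN := trunc_le_ext' (κ := κ) (K := K) (M := M) (L := L) hK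
      (d := fun j : {j // j ∉ A} => e j) (F := fun j : {j // j ∉ A} => F j) (fun j => hF j) S hne
    rw [← hcons] at hN
    have hset : {w : Place κ M | (∀ v ∈ S, ¬ (w.1.comap (algebraMap K M)).IsEquiv v.1) ∧
        ∃ j, j ∉ A ∧ w.1 (aeval (Fin.cons 1 y' : Fin (m + 1) → M) (F j)) <
          vmax w.1 (Fin.cons 1 y' : Fin (m + 1) → M) ^ e j}.ncard =
        truncCount κ (fun j : {j // j ∉ A} => F j) (fun j => e j) S
          (Fin.cons 1 y' : Fin (m + 1) → M) := by
      unfold truncCount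
      congr 1
      ext w
      simp only [Set.mem_ofPred_eq]
      refine and_congr Iff.rfl ⟨?_, ?_⟩
      · rintro ⟨j, hj, hw⟩
        exact ⟨⟨j, hj⟩, fun h0 => hFy j hj ((hz _).2 h0), hw⟩
      · rintro ⟨j, -, hw⟩
        exact ⟨j, j.2, hw⟩
    rw [hset] at h2
    obtain ⟨N, hNd⟩ : ∃ N, N = truncCount κ (fun j : {j // j ∉ A} => F j) (fun j => e j) S
      (Fin.cons 1 y : Fin (m + 1) → L) := ⟨_, rfl⟩
    obtain ⟨N', hNd'⟩ : ∃ N', N' = truncCount κ (fun j : {j // j ∉ A} => F j) (fun j => e j) S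
      (Fin.cons 1 y' : Fin (m + 1) → M) := ⟨_, rfl⟩
    obtain ⟨b, hb⟩ : ∃ b, b = hgt κ y' := ⟨_, rfl⟩
    rw [← hNd, ← hNd'] at hN
    rw [← hNd', ← hb] at h2
    rw [← hNd, hgt', ← hb]
    have hb0 : 0 ≤ b := by
      rw [hb]
      exact hgt_nonneg hMf y'
    have h3 : (N' : ℤ) ≤ N := by exact_mod_cast hN
    have h4 : (finrank M L : ℤ) ≤ r := by exact_mod_cast hr2
    have h5 : (0 : ℤ) ≤ C' := Int.natCast_nonneg _
    calc (finrank M L : ℤ) * b ≤ r * b := mul_le_mul_of_nonneg_right h4 hb0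
      _ ≤ r * (C' * (1 + N)) := by
        refine mul_le_mul_of_nonneg_left (h2.trans ?_) (Int.natCast_nonneg _)
        exact mul_le_mul_of_nonneg_left (by linarith) h5
      _ = ((r * C' : ℕ) : ℤ) * (1 + N) := by
        push_cast
        ring
  · obtain ⟨i, hi⟩ := hGy
    exact absurd ((hz _).2 (h1 i)) hi

end Pool.Agent.Lib.MP_44a246_ntFB
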