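import Mathlib
import Pool.Agent.Lib.MP_44a246_ntFB.FB22
import Pool.Agent.Lib.MP_44a246_ntFB.FB31

/-!
# The height of the affine points of bounded degree: the sharp inequality
-/

namespace Pool.Agent.Lib.MP_44a246_ntFB

open Pool.Agent.Lib.MP_e52354_nt
open Pool.Agent.Lib.MP_44a246_nt
open Pool.Agent.Lib.MP_44a246_ntL
open Pool.Agent.Lib.MP_44a246_ntUV
open Pool.Agent.Lib.MP_44a246_ntTV
open Pool.Agent.Lib.MP_e52354_ntSD (GenK)
open WithZero MvPolynomial Module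

universe u v w x

/-- **First alternative**: the sharp inequality. -/
theorem baseHt_sharp (p r : ℕ) (hp : 1 ≤ p) :
    ∃ R : ℕ, ∀ (m ν μ c : ℕ) (e : Fin p → ℕ) (A : Finset (Fin p)), (∀ j, 1 ≤ e j) → ν ≤ m →
        max (ν + min c ((c + p) / 2)) R + 2 * r ≤ ∑ j, e j →
        2 * max (ν + min c ((c + p) / 2)) R + 2 * r ≤ A.card + max μ 1 + ∑ j, e j →
      ∀ {κ : Type u} {K : Type v} [Field κ] [IsAlgClosed κ] [CharZero κ] [Field K] [CharZero K]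
        [Algebra κ K] (_ : IsFF κ K) {k : Type x} [Field k] [CharZero k] [Algebra k K]
        {ι : Type} [Finite ι] {E : ι → ℕ} {f : ι → MvPolynomial (Fin p ⊕ Fin (m + 1)) k}
        (_ : ∀ i, (f i).IsWeightedHomogeneous (Sum.elim e fun _ => 1) (E i))
        (_ : ∀ i, ∀ j ∉ A, Sum.inl j ∉ (f i).vars)
        (_ : ringKrullDim (MvPolynomial (Fin (m + 1)) k ⧸ (Ideal.span (Set.range f)).comap
          (rename (Sum.inr : Fin (m + 1) → Fin p ⊕ Fin (m + 1)))) ≤ ((ν + 1 : ℕ) : WithBot ℕ∞))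
        {F : Fin p → MvPolynomial (Fin (m + 1)) K} (_ : ∀ j, (F j).IsHomogeneous (e j))
        (_ : GenK k e F c) {S : Set (Place κ K)} (_ : S.Finite),
        BaseHt.{u, v, w, x} κ f e A F S μ r := by
  classical
  obtain ⟨R, hR⟩ := final_all.{u, v, w, x} p r hp (1 / 2) (by norm_num)
  refine ⟨R, ?_⟩
  intro m ν μ c e A he1 hνm hs1 hs2 κ K _ _ _ _ _ _ hK k _ _ _ ι _ E f hfw hfv hfd F hF hgen S hS
  by_cases hr0 : r = 0
  · subst hr0
    exact baseHt_zero f e A F S μ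
  obtain ⟨g₁, hg₁⟩ : ∃ g₁, g₁ = min c ((c + p) / 2) := ⟨_, rfl⟩
  rw [← hg₁] at hs1 hs2
  have hmax : ν + max g₁ (R - ν) = max (ν + g₁) R := by omega
  obtain ⟨θ, hθ⟩ : ∃ θ : ℝ, θ = 2 * ((r : ℝ) - 1) + 1 / 2 := ⟨_, rfl⟩
  have hr1 : (1 : ℝ) ≤ r := by exact_mod_cast Nat.one_le_iff_ne_zero.2 hr0
  have h := hR ν c (max g₁ (R - ν)) e (by omega) (by omega) he1 hK (m := μ) hνm hfw hfv
    hfd hF hgen hS (θ := θ) (by rw [hθ]; linarith)
    (by
      rw [hmax, hθ]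
      have h1 : ((max (ν + g₁) R + 2 * r : ℕ) : ℝ) ≤ ((∑ j, e j : ℕ) : ℝ) := by exact_mod_cast hs1
      push_cast at h1 ⊢
      linarith)
    (by
      rw [hmax, hθ]
      have h1 : ((2 * max (ν + g₁) R + 2 * r : ℕ) : ℝ) ≤ ((A.card + max μ 1 + ∑ j, e j : ℕ) : ℝ) := by
        exact_mod_cast hs2
      push_cast at h1 ⊢
      linarith)
  refine base_of_HtQ hK hF h fun C => ⟨2 * (C + 1), ?_⟩
  intro b D Rm N hb hD hDr hRm0 hRm hQ
  have h1 := hQ.2 hDr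
  have hb0 : (0 : ℝ) ≤ b := by exact_mod_cast hb
  have h2 : (Rm : ℝ) ≤ 2 * ((D : ℝ) - 1) * b := by exact_mod_cast hRm
  have h3 : (D : ℝ) ≤ r := by exact_mod_cast hDr
  have h4 : 2 * ((D : ℝ) - 1) * b ≤ 2 * ((r : ℝ) - 1) * b :=
    mul_le_mul_of_nonneg_right (by linarith) hb0
  rw [hθ] at h1
  have h5 : (b : ℝ) ≤ 2 * (N + C) := by linarith
  have h6 : b ≤ 2 * (N + C) := by exact_mod_cast h5
  have h8 : (0 : ℤ) ≤ N := Int.natCast_nonneg _
  have h9 : (0 : ℤ) ≤ C := Int.natCast_nonneg _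
  have h10 : (0 : ℤ) ≤ C * N := mul_nonneg h9 h8
  push_cast
  nlinarith

end Pool.Agent.Lib.MP_44a246_ntFB
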