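import Mathlib
import Pool.Agent.Lib.MP_44a246_ntFB.FB31

/-!
# The height of the affine points: rational points, one hypersurface
-/

namespace Pool.Agent.Lib.MP_44a246_ntFB

open Pool.Agent.Lib.MP_e52354_nt
open Pool.Agent.Lib.MP_44a246_nt
open Pool.Agent.Lib.MP_44a246_ntL
open Pool.Agent.Lib.MP_44a246_ntUV (HtQ)
open Pool.Agent.Lib.MP_e52354_ntSD (GenK)
open WithZero MvPolynomial Module

universe u v w x

/-- **Third alternative**: rational points, one hypersurface with explicit conditions. -/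
theorem baseHt_slope {m ν μ c d : ℕ} (hν : 1 ≤ ν) (hnum1 : 2 * ν + c ≤ d + μ + 1)
    (hnum2 : ν + c + 300 ≤ d ∨ (6 ≤ d ∧ 3 * ν + c + 2 ≤ 2 * d))
    {κ : Type u} {K : Type v} [Field κ] [IsAlgClosed κ] [CharZero κ] [Field K] [CharZero K]
    [Algebra κ K] (hK : IsFF κ K) {k : Type x} [Field k] [CharZero k] [Algebra k K]
    {ι : Type} [Finite ι] {E : ι → ℕ} {f : ι → MvPolynomial (Fin 1 ⊕ Fin (m + 1)) k}
    (hfw : ∀ i, (f i).IsWeightedHomogeneous (Sum.elim (fun _ => d) fun _ => 1) (E i))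
    (hfd : ringKrullDim (MvPolynomial (Fin (m + 1)) k ⧸ (Ideal.span (Set.range f)).comap
      (rename (Sum.inr : Fin (m + 1) → Fin 1 ⊕ Fin (m + 1)))) ≤ ((ν + 1 : ℕ) : WithBot ℕ∞))
    {F : Fin 1 → MvPolynomial (Fin (m + 1)) K} (hF : ∀ j, (F j).IsHomogeneous d)
    (hgen : GenK k (fun _ => d) F c) (S : Set (Place κ K)) :
    BaseHt.{u, v, w, x} κ f (fun _ => d) Finset.univ F S μ 1 := by
  classical
  -- the numerical conditions
  obtain ⟨P, D, σ, m₁, hms, hd⟩ : ∃ P D σ m₁ : ℕ, m₁ + 0 ≤ d ∧ NumS ν c d 0 P σ D m₁ 1 E := by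
    have hquad : ∀ x : ℕ, 6 ≤ x → (1 + 6) * (x + 1) + 2 * 1 * x + 1 ≤ (x + 1) ^ 2 + 9 + 5 * 1 := by
      intro x hx
      obtain ⟨z, rfl⟩ := Nat.exists_eq_add_of_le hx
      nlinarith
    have hI : 6 ≤ d → 3 * ν + c + 2 ≤ 2 * d → ∃ P D σ m₁ : ℕ,
        m₁ + 0 ≤ d ∧ NumS ν c d 0 P σ D m₁ 1 E := by
      intro h6 h3
      refine ⟨0, 0, 0, d, by omega, Or.inl ⟨rfl, fun _ => by omega,
        by omega, by omega, by omega, hquad d h6, fun i => Or.inl (by simp)⟩⟩
    rcases hnum2 with h' | ⟨h6, h3⟩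
    · by_cases h600 : 600 ≤ d ∧ 2 ≤ ν
      · obtain ⟨P, hP⟩ : ∃ P : ℕ, ∀ i, d * E i ≤ P := by
          cases nonempty_fintype ι
          refine ⟨∑ i, d * E i, fun i => ?_⟩
          exact Finset.single_le_sum (f := fun i => d * E i) (fun _ _ => Nat.zero_le _)
            (Finset.mem_univ i)
        refine ⟨P, d, 4, d, by omega, Or.inr ⟨h600.2, by omega,
          by omega, by omega, fun _ => le_rfl, by omega, by omega, ?_, fun i => Or.inr ?_⟩⟩
        · have h1 : 1 ≤ d := by omega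
          exact Nat.one_le_pow _ _ h1
        · calc d * E i ≤ P := hP i
            _ ≤ 4 * P := Nat.le_mul_of_pos_left _ (by norm_num)
      · exact hI (by omega) (by omega)
    · exact hI h6 (by omega)
  have h := slope_htQ.{u, v, w, x} hK (f := f) (m' := μ) hfw hfd hν hms hd le_rfl hnum1 hF hgen S
  refine base_of_HtQ hK hF h fun C => ⟨C, ?_⟩
  intro b D Rm N hb hD hDr hRm0 hRm hQ
  have h2 : D = 1 := by omega
  subst h2
  have h3 : Rm = 0 := by
    have h4 : Rm ≤ 0 := by simpa using hRm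
    omega
  subst h3
  have h8 : (0 : ℤ) ≤ C * N := mul_nonneg (Int.natCast_nonneg _) (Int.natCast_nonneg _)
  rcases hQ with h1 | h1
  · exfalso
    simp at h1
  · push_cast at h1
    linarith

end Pool.Agent.Lib.MP_44a246_ntFB
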