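import Mathlib
import Pool.Agent.Lib.MP_44a246_ntFB.FB24
import Pool.Agent.Lib.MP_44a246_ntFB.FB31
import Pool.Agent.Lib.MP_44a246_ntMU.MU11

/-!
# The height inequality for several forms with many relations, and more variables
-/

namespace Pool.Agent.Lib.MP_44a246_ntFB

open Pool.Agent.Lib.MP_e52354_nt
open Pool.Agent.Lib.MP_44a246_nt
open Pool.Agent.Lib.MP_44a246_ntL
open Pool.Agent.Lib.MP_44a246_ntUV
open Pool.Agent.Lib.MP_44a246_ntTV
open Pool.Agent.Lib.MP_44a246_ntMY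
open Pool.Agent.Lib.MP_44a246_ntMB
open Pool.Agent.Lib.MP_44a246_ntCE
open Pool.Agent.Lib.MP_44a246_ntU
open Pool.Agent.Lib.MP_44a246_ntMU (several_formsN)
open Pool.Agent.Lib.MP_e52354_ntSD (GenK)
open WithZero MvPolynomial Module

universe u v w x

/-- a part of the columns of an invertible matrix has a square submatrix which is invertible -/
theorem exists_minor {L α β ι : Type*} [Field L] [Fintype α] [DecidableEq α] [Fintype β]
    [DecidableEq β] (M : ι → α → L) {i : α → ι} (h : (Matrix.of fun a b => M (i a) b).det ≠ 0)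
    {τ : β → α} (hτ : Function.Injective τ) :
    ∃ i' : β → ι, (Matrix.of fun a b => M (i' a) (τ b)).det ≠ 0 := by
  classical
  obtain ⟨N, hN⟩ : ∃ N : Matrix α α L, N = Matrix.of fun a b => M (i a) b := ⟨_, rfl⟩
  rw [← hN] at h
  obtain ⟨v, hv⟩ : ∃ v : α → β → L, v = fun a b => M (i a) (τ b) := ⟨_, rfl⟩
  have hspan : Submodule.span L (Set.range v) = ⊤ := by
    rw [eq_top_iff]
    intro u _
    obtain ⟨u', hu'⟩ : ∃ u' : α → L, ∀ b, u' (τ b) = u b :=
      ⟨Function.extend τ u 0, fun b => hτ.extend_apply _ _ _⟩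
    obtain ⟨c, hc⟩ : ∃ c : α → L, c = Matrix.vecMul u' N⁻¹ := ⟨_, rfl⟩
    have h1 : Matrix.vecMul c N = u' := by
      rw [hc, Matrix.vecMul_vecMul, Matrix.nonsing_inv_mul _ (isUnit_iff_ne_zero.2 h),
        Matrix.vecMul_one]
    have h2 : u = ∑ a, c a • v a := by
      funext b
      rw [Finset.sum_apply, ← hu', ← h1]
      show ∑ a, c a * N a (τ b) = _
      refine Finset.sum_congr rfl fun a _ => ?_
      rw [hN, hv]
      rfl
    rw [h2]
    exact Submodule.sum_mem _ fun a _ => Submodule.smul_mem _ _ (Submodule.subset_span ⟨a, rfl⟩)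
  obtain ⟨σ, a, -, ha, hli⟩ := exists_linearIndependent' L v
  rw [hspan] at ha
  have b : Basis σ L (β → L) := Basis.mk hli ha.ge
  have hb : Nonempty (β ≃ σ) := by
    have b' : Basis β L (β → L) := Pi.basisFun L β
    exact ⟨b'.indexEquiv b⟩
  obtain ⟨ρ⟩ := hb
  refine ⟨fun j => i (a (ρ j)), ?_⟩
  have h3 : LinearIndependent L fun j => v (a (ρ j)) := hli.comp ρ ρ.injective
  have h4 : IsUnit (Matrix.of fun j b => v (a (ρ j)) b) := by
    rw [← Matrix.linearIndependent_rows_iff_isUnit]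
    exact h3
  rw [Matrix.isUnit_iff_isUnit_det] at h4
  rw [hv] at h4
  exact h4.ne_zero

/-- the relation between the height, the ramification and the counting function -/
def QT (θ C : ℕ) (h : ℤ) (D : ℕ) (R : ℤ) (N : ℕ) : Prop :=
  (θ : ℤ) * h ≤ N + R + C * D

/-- the places where a form does not have its maximal value are finite in number -/
theorem finite_small {κ L : Type*} [Field κ] [IsAlgClosed κ] [CharZero κ] [Field L] [Algebra κ L]
    (hL : IsFF κ L) {n d : ℕ} {x : Fin (n + 1) → L} (hx : x ≠ 0) {z : L} (hz : z ≠ 0) :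
    {w : Place κ L | w.1 z < vmax w.1 x ^ d}.Finite := by
  refine ((hL.place_finite hz).union (hL.vmax_support hx)).subset fun w hw => ?_
  rw [Set.mem_union]
  by_contra hcon
  push Not at hcon
  obtain ⟨h1, h2⟩ := hcon
  have h3 : w.1 z = 1 := by
    by_contra h0
    exact h1 h0
  have h4 : log (vmax w.1 x) = 0 := by
    by_contra h0
    exact h2 h0
  have h5 : vmax w.1 x ≠ 0 := by rwa [Ne, vmax_eq_zero_iff]
  have h6 : vmax w.1 x = 1 := by
    rw [← exp_log h5, h4, exp_zero]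
  rw [Set.mem_ofPred_eq, h3, h6, one_pow] at hw
  exact lt_irrefl _ hw

/-- **Several forms with many relations.** -/
theorem several_htQ1 {κ : Type u} {K : Type v} [Field κ] [IsAlgClosed κ] [CharZero κ]
    [Field K] [CharZero K] [Algebra κ K] (hK : IsFF κ K) {k : Type x} [Field k] [CharZero k]
    [Algebra k K] {m n μ p c s θ : ℕ} {d a : Fin p → ℕ} {e : Fin s → ℕ} {A T : Finset (Fin p)}
    (hT : ∀ j ∈ T, a j ≤ d j ∧ c < (μ + a j).choose μ)
    (hd : ∑ j ∈ T, a j + 2 * n + 1 + θ ≤ ∑ j ∈ T, d j + (A ∩ T).card)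
    (f : Fin s → MvPolynomial (Fin p ⊕ Fin (m + 1)) k)
    (hf : ∀ i, (f i).IsWeightedHomogeneous (Sum.elim d fun _ => 1) (e i))
    (hdim : ringKrullDim (MvPolynomial (Fin (m + 1)) k ⧸ (Ideal.span (Set.range f)).comap
      (rename (Sum.inr : Fin (m + 1) → Fin p ⊕ Fin (m + 1)))) ≤ ((n + 1 : ℕ) : WithBot ℕ∞))
    (H : Fin p → MvPolynomial (Fin (m + 1)) K) (hH : ∀ j, (H j).IsHomogeneous (d j))
    (hgen : GenK k d H c) {S : Set (Place κ K)} (hS : S.Finite) :
    HtQ.{u, v, w, x} κ f d A H S μ (QT θ) := by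
  classical
  have hU : A ∩ T ∪ T \ A = T := by
    ext j
    simp only [Finset.mem_union, Finset.mem_inter, Finset.mem_sdiff]
    tauto
  have hdis : Disjoint (A ∩ T) (T \ A) := by
    rw [Finset.disjoint_left]
    intro j h1 h2
    exact (Finset.mem_sdiff.1 h2).2 (Finset.mem_inter.1 h1).1
  obtain ⟨t, G, hG, hGd, hmain⟩ := several_formsN.{u, v, w, x} hK (N := m) (n := n) (m := μ)
    (wt := fun _ : Fin (m + 1) => 1) (ω := 1) (θ := θ) (a := a) (fun _ => le_rfl) (fun _ => le_rfl)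
    hdis (by rw [hU]; exact fun j hj => (hT j hj).1) (by rw [hU]; simpa using hd)
    (by rw [hU]; exact fun j hj => (hT j hj).2) (ι := fun l => l) (fun _ => rfl) f hf hdim H hH hgen
    (fun y hy _ => funext hy)
  obtain ⟨C, hC⟩ := hmain S hS
  refine ⟨t, G, fun i => ⟨_, hG i⟩, hGd, C, ?_⟩
  intro L _ _ _ _ _ _ _ x hx hfx hdet hA
  by_cases hGx : ∃ l, aeval x (G l) ≠ 0
  · left
    have hL : IsFF κ L := hK.of_finite
    obtain ⟨i, hi⟩ := hdet
    obtain ⟨i', hi'⟩ := exists_minor (M := fun (l : Fin s) (b : A) =>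
      aeval (Sum.elim (fun j => aeval x (H j)) x : Fin p ⊕ Fin (m + 1) → L)
        (pderiv (Sum.inl (b : Fin p)) (f l))) hi
      (τ := fun b : (A ∩ T : Finset (Fin p)) => (⟨b.1, (Finset.mem_inter.1 b.2).1⟩ : A))
      (fun b b' hbb => Subtype.ext (congrArg (fun z : A => z.1) hbb))
    have h1 := (hC L x hx hfx (Or.inr ⟨i', hi'⟩)
      (fun j hj => hA j (Finset.mem_sdiff.1 hj).2) hGx).1
    unfold QT
    refine h1.trans ?_
    have h2 : {w : Place κ L | (∀ v ∈ S, ¬ (w.1.comap (algebraMap K L)).IsEquiv v.1) ∧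
        ∃ j ∈ T \ A, w.1 (aeval (fun l => x l) (H j)) < vmax w.1 (fun l => x l) ^ d j}.ncard ≤
        {w : Place κ L | (∀ v ∈ S, ¬ (w.1.comap (algebraMap K L)).IsEquiv v.1) ∧
          ∃ j, j ∉ A ∧ w.1 (aeval x (H j)) < vmax w.1 x ^ d j}.ncard := by
      refine Set.ncard_le_ncard (fun w hw => ⟨hw.1, ?_⟩) ?_
      · obtain ⟨j, hj, hw2⟩ := hw.2
        exact ⟨j, (Finset.mem_sdiff.1 hj).2, hw2⟩
      · refine (Set.finite_iUnion fun j : {j // j ∉ A} =>
          finite_small hL (d := d j) hx (hA j j.2)).subset fun w hw => ?_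
        obtain ⟨j, hj, hw2⟩ := hw.2
        exact Set.mem_iUnion.2 ⟨⟨j, hj⟩, hw2⟩
    have h3 : (({w : Place κ L | (∀ v ∈ S, ¬ (w.1.comap (algebraMap K L)).IsEquiv v.1) ∧
        ∃ j ∈ T \ A, w.1 (aeval (fun l => x l) (H j)) < vmax w.1 (fun l => x l) ^ d j}.ncard :
          ℕ) : ℤ) ≤ ({w : Place κ L | (∀ v ∈ S, ¬ (w.1.comap (algebraMap K L)).IsEquiv v.1) ∧
          ∃ j, j ∉ A ∧ w.1 (aeval x (H j)) < vmax w.1 x ^ d j}.ncard : ℕ) := by
      exact_mod_cast h2
    linarith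
  · push Not at hGx
    exact Or.inr hGx

/-- **Fewer relations in a space of larger dimension.** -/
theorem htQ_steps {κ : Type u} {K : Type v} {k : Type x} [Field κ] [CharZero κ] [Field K]
    [CharZero K] [Field k] [CharZero k] [Algebra κ K] [Algebra k K] {p : ℕ} {ι : Type}
    {Q : ℕ → ℤ → ℕ → ℤ → ℕ → Prop} (hp : 1 ≤ p) (htr : Cardinal.aleph0 ≤ Algebra.trdeg ℚ κ)
    (hk : Algebra.trdeg ℚ k < Cardinal.aleph0) {μ : ℕ} {d : Fin p → ℕ} (hd : ∀ j, 1 ≤ d j)
    {A : Finset (Fin p)} {S : Set (Place κ K)} {ee : ι → ℕ} (s : ℕ) :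
    ∀ c c' n r N R : ℕ, N = n + s → R = r + s → c ≤ c' + s + min s ((c + 1 - p) / 2) →
      (∀ (f' : ι → MvPolynomial (Fin p ⊕ Fin (N + 1)) k)
        (H' : Fin p → MvPolynomial (Fin (N + 1)) K),
        (∀ i, (f' i).IsWeightedHomogeneous (Sum.elim d fun _ => 1) (ee i)) →
        ringKrullDim (MvPolynomial (Fin (N + 1)) k ⧸ (Ideal.span (Set.range f')).comap
          (rename (Sum.inr : Fin (N + 1) → Fin p ⊕ Fin (N + 1)))) ≤ (R : WithBot ℕ∞) →
        (∀ j, (H' j).IsHomogeneous (d j)) →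
        GenK k d H' c' → HtQ.{u, v, w, x} κ f' d A H' S μ Q) →
      ∀ (f : ι → MvPolynomial (Fin p ⊕ Fin (n + 1)) k)
        (H : Fin p → MvPolynomial (Fin (n + 1)) K),
        (∀ i, (f i).IsWeightedHomogeneous (Sum.elim d fun _ => 1) (ee i)) →
        ringKrullDim (MvPolynomial (Fin (n + 1)) k ⧸ (Ideal.span (Set.range f)).comap
          (rename (Sum.inr : Fin (n + 1) → Fin p ⊕ Fin (n + 1)))) ≤ (r : WithBot ℕ∞) →
        (∀ j, (H j).IsHomogeneous (d j)) →
        GenK k d H c → HtQ.{u, v, w, x} κ f d A H S μ Q := by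
  induction s with
  | zero =>
    intro c c' n r N R hN hR hc Hh f H hf hdim hH hgen
    subst hN hR
    exact Hh f H hf hdim hH (genK_mono (by omega) hgen)
  | succ s ih =>
    intro c c' n r N R hN hR hc Hh f H hf hdim hH hgen
    obtain ⟨c₂, c₁, h1, h2, h3⟩ : ∃ c₂ c₁ : ℕ, c ≤ c₂ ∧ (c₁ + 1 = c₂ ∨ (c₁ + 2 = c₂ ∧ p < c₂)) ∧
        c₁ ≤ c' + s + min s ((c₁ + 1 - p) / 2) := by
      rcases le_or_gt c p with hcp | hcp
      · exact ⟨max c 1, max c 1 - 1, by omega, Or.inl (by omega), by omega⟩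
      · exact ⟨c, c - 2, le_rfl, Or.inr ⟨by omega, hcp⟩, by omega⟩
    exact htQ_step htr hk hd h2 (fun H' hH' hgen' => ih c₁ c' (n + 1) (r + 1) N R (by omega)
      (by omega) h3 Hh (cone f) H' (cone_hom hf) (cone_dim hdim) hH' hgen') hH
      (genK_mono h1 hgen)

/-- the condition on the numbers of the relations and of the steps -/
theorem several_htQ {κ : Type u} {K : Type v} [Field κ] [IsAlgClosed κ] [CharZero κ]
    [Field K] [CharZero K] [Algebra κ K] (hK : IsFF κ K) {k : Type x} [Field k] [CharZero k]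
    [Algebra k K] {m n μ p c c' i q θ : ℕ} (hp : 1 ≤ p) {d a : Fin p → ℕ} (hd1 : ∀ j, 1 ≤ d j)
    {e : Fin q → ℕ} {A T : Finset (Fin p)} (hc : c ≤ c' + i + min i ((c + 1 - p) / 2))
    (hT : ∀ j ∈ T, a j ≤ d j ∧ c' < (μ + a j).choose μ)
    (hd : ∑ j ∈ T, a j + 2 * (n + i) + 1 + θ ≤ ∑ j ∈ T, d j + (A ∩ T).card)
    (f : Fin q → MvPolynomial (Fin p ⊕ Fin (m + 1)) k)
    (hf : ∀ i, (f i).IsWeightedHomogeneous (Sum.elim d fun _ => 1) (e i))
    (hdim : ringKrullDim (MvPolynomial (Fin (m + 1)) k ⧸ (Ideal.span (Set.range f)).comap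
      (rename (Sum.inr : Fin (m + 1) → Fin p ⊕ Fin (m + 1)))) ≤ ((n + 1 : ℕ) : WithBot ℕ∞))
    (H : Fin p → MvPolynomial (Fin (m + 1)) K) (hH : ∀ j, (H j).IsHomogeneous (d j))
    (hgen : GenK k d H c) {S : Set (Place κ K)} (hS : S.Finite) :
    HtQ.{u, v, w, x} κ f d A H S μ (QT θ) := by
  classical
  obtain ⟨k₀, _, _, _, htk, f₀, hf₀⟩ := exists_base_field f
  let _ : Algebra k₀ K := ((algebraMap k K).comp (algebraMap k₀ k)).toAlgebra
  have s0 : IsScalarTower k₀ k K := IsScalarTower.of_algebraMap_eq fun _ => rfl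
  obtain rfl : (fun i => map (algebraMap k₀ k) (f₀ i)) = f := funext hf₀
  have hinj := (algebraMap k₀ k).injective
  refine htQ_base ?_
  have hf' : ∀ i, (f₀ i).IsWeightedHomogeneous (Sum.elim d fun _ => 1) (e i) := by
    intro i m hm
    refine hf i ?_
    rw [coeff_map]
    exact fun h0 => hm ((map_eq_zero _).1 h0)
  have hdim' := (imDim_le (k₀ := k₀) (k := k)
    (e := (Sum.inr : Fin (m + 1) → Fin p ⊕ Fin (m + 1))) Sum.inr_injective f₀).trans hdim
  have hfin : Finite {I : Fin p × (Fin (m + 1) →₀ ℕ) // I.2.degree = d I.1} := by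
    refine Finite.of_injective (fun I => (⟨I.1,
      Pool.Agent.Lib.MP_44a246_ntK.mem_jexpo.2 (mem_expo.2 I.2)⟩ :
      ↥(Pool.Agent.Lib.MP_44a246_ntK.jexpo m d))) fun I J h => Subtype.ext (congrArg (fun s => s.1) h)
  have hgen' : GenK k₀ d H c := by
    unfold GenK at hgen ⊢
    refine hgen.trans ?_
    gcongr
    exact trdeg_adjoin_le (k₀ := k₀) (k := k) _
  obtain ⟨κ', _, _, _, _, htr⟩ := exists_ext_const κ
  obtain ⟨K', _, _, _, _, _, _, _, hCE⟩ := exists_base hK (κ' := κ')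
  let _ : Algebra k₀ K' := ((algebraMap K K').comp (algebraMap k₀ K)).toAlgebra
  have s1 : IsScalarTower k₀ K K' := IsScalarTower.of_algebraMap_eq fun _ => rfl
  have hcK' : CharZero K' := charZero_of_injective_algebraMap (algebraMap K K').injective
  refine htQ_descend hCE ?_ (htQ_steps hp htr htk hd1 i c c' m (n + 1) (m + i) (n + 1 + i) rfl rfl
    hc (fun f' H' hf' hdim' hH' hgen' => several_htQ1 hCE.isFF hT hd f' hf'
      (by rw [show n + i + 1 = n + 1 + i by omega]; exact hdim') H' hH' hgen' ?_)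
    f₀ (fun j => map (algebraMap K K') (H j)) hf' hdim' (fun j => (hH j).map _) ?_)
  · intro C h F R R' N N' hR hN h1
    unfold QT at h1 ⊢
    have hN' : (N' : ℤ) ≤ N := by exact_mod_cast hN
    linarith
  · exact extSet_finite hCE hS
  · unfold GenK at hgen' ⊢
    exact gen_map hgen'

/-- **Second alternative**: several forms, many relations between the coefficients. -/
theorem baseHt_several {p r m ν μ c c' i : ℕ} (hp : 1 ≤ p) {e a : Fin p → ℕ} (he1 : ∀ j, 1 ≤ e j)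
    {A T : Finset (Fin p)} (hc : c ≤ c' + i + min i ((c + 1 - p) / 2))
    (hT : ∀ j ∈ T, a j ≤ e j ∧ c' < (μ + a j).choose μ)
    (hnum : ∑ j ∈ T, a j + 2 * (ν + i) + 2 * r ≤ ∑ j ∈ T, e j + (A ∩ T).card)
    {κ : Type u} {K : Type v} [Field κ] [IsAlgClosed κ] [CharZero κ] [Field K] [CharZero K]
    [Algebra κ K] (hK : IsFF κ K) {k : Type x} [Field k] [CharZero k] [Algebra k K]
    {s : ℕ} {E : Fin s → ℕ} {f : Fin s → MvPolynomial (Fin p ⊕ Fin (m + 1)) k}
    (hfw : ∀ i, (f i).IsWeightedHomogeneous (Sum.elim e fun _ => 1) (E i))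
    (hfd : ringKrullDim (MvPolynomial (Fin (m + 1)) k ⧸ (Ideal.span (Set.range f)).comap
      (rename (Sum.inr : Fin (m + 1) → Fin p ⊕ Fin (m + 1)))) ≤ ((ν + 1 : ℕ) : WithBot ℕ∞))
    {F : Fin p → MvPolynomial (Fin (m + 1)) K} (hF : ∀ j, (F j).IsHomogeneous (e j))
    (hgen : GenK k e F c) {S : Set (Place κ K)} (hS : S.Finite) :
    BaseHt.{u, v, w, x} κ f e A F S μ r := by
  classical
  by_cases hr0 : r = 0
  · subst hr0
    exact baseHt_zero f e A F S μ
  have h := several_htQ.{u, v, w, x} hK (A := A) (θ := 2 * r - 1) hp he1 hc hT (by omega) f hfw hfd F hF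
    hgen hS
  refine base_of_HtQ hK hF h fun C => ⟨C * r + 1, ?_⟩
  intro b D Rm N hb hD hDr hRm0 hRm hQ
  unfold QT at hQ
  have h3 : (D : ℤ) ≤ r := by exact_mod_cast hDr
  have h2 : 2 * ((D : ℤ) - 1) * b ≤ (2 * r - 2) * b :=
    mul_le_mul_of_nonneg_right (by linarith) hb
  have h4 : ((2 * r - 1 : ℕ) : ℤ) = 2 * r - 1 := by
    have : 1 ≤ 2 * r := by omega
    push_cast [this]
    ring
  rw [h4] at hQ
  have h5 : (0 : ℤ) ≤ C := Int.natCast_nonneg _
  have h6 : (C : ℤ) * D ≤ C * r := mul_le_mul_of_nonneg_left h3 h5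
  have h7 : (0 : ℤ) ≤ C * r := mul_nonneg h5 (Int.natCast_nonneg _)
  have h8 : (0 : ℤ) ≤ C * r * N := mul_nonneg h7 (Int.natCast_nonneg _)
  have h9 : (2 * (r : ℤ) - 1) * b = (2 * r - 2) * b + b := by ring
  push_cast
  nlinarith

end Pool.Agent.Lib.MP_44a246_ntFB
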