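import Mathlib
import Pool.Agent.Lib.MP_44a246_ntFB.FB0F
import Pool.Agent.Lib.MP_44a246_ntFB.FB31
import Pool.Agent.Lib.MP_44a246_ntFM.FM06
import Pool.Agent.Lib.MP_44a246_ntMU.MU10

/-!
# The height of the points of bounded degree of a variety with a rational map to a diagonal
hypersurface
-/

namespace Pool.Agent.Lib.MP_44a246_ntFB

open Pool.Agent.Lib.MP_e52354_nt
open Pool.Agent.Lib.MP_44a246_nt
open Pool.Agent.Lib.MP_44a246_ntL
open Pool.Agent.Lib.MP_44a246_ntMU (ncard_le_trunc)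
open Pool.Agent.Lib.MP_44a246_ntFM (diag_height)
open WithZero MvPolynomial Module

universe u v w u₁

/-- **The height of the points of bounded degree of a variety with a rational map to a diagonal
hypersurface.** -/
theorem base_point_diag {κ : Type u} {K : Type v} [Field κ] [IsAlgClosed κ] [CharZero κ] [Field K]
    [CharZero K] [Algebra κ K] (hK : IsFF κ K) {r m p : ℕ}
    {F : Fin p → MvPolynomial (Fin (m + 1)) K} {e : Fin p → ℕ} {A : Finset (Fin p)}
    {Ω : Type u₁} [Field Ω] [Algebra K Ω] {y₀ : Fin m → Ω} (h : Diagonal r F e A y₀)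
    {S : Set (Place κ K)} (hS : S.Finite) :
    ∃ (G : MvPolynomial (Fin (m + 1)) K) (C : ℕ),
      aeval (Fin.cons 1 y₀ : Fin (m + 1) → Ω) G ≠ 0 ∧
      ∀ (L : Type w) [Field L] [Algebra K L] [FiniteDimensional K L] [Algebra κ L]
        [IsScalarTower κ K L] (y : Fin m → L), finrank K L ≤ r →
        (∀ Q : MvPolynomial (Fin (m + 1)) K,
          aeval (Fin.cons 1 y₀ : Fin (m + 1) → Ω) Q = 0 →
          aeval (Fin.cons 1 y : Fin (m + 1) → L) Q = 0) →
        aeval (Fin.cons 1 y : Fin (m + 1) → L) G ≠ 0 →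
        hgt κ y ≤ C * (1 + truncCount κ (fun j : {j // j ∉ A} => F j) (fun j => e j) S
          (Fin.cons 1 y : Fin (m + 1) → L)) := by
  classical
  obtain ⟨hm, hA, ⟨σ, hσ, hF⟩, d, a, hd, ha, hy, hsub⟩ := h
  obtain ⟨B, hB⟩ : ∃ B : Finset (Fin (m + 1)), B = Finset.univ.image σ := ⟨_, rfl⟩
  have hBc : B.card = p := by
    rw [hB, Finset.card_image_of_injective _ hσ, Finset.card_univ, Fintype.card_fin]
  obtain ⟨D, hD⟩ : ∃ D, D = (m - 1) * (m + 1 - p) := ⟨_, rfl⟩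
  obtain ⟨P, hP⟩ : ∃ P, P = m ^ 2 * (m - 1) := ⟨_, rfl⟩
  rw [← hD, ← hP] at hd
  obtain ⟨C₁, hC₁⟩ := diag_height.{w} (d := d) hK hm B (by rw [hBc, ← hD]; omega) a ha
  rw [hBc, ← hD] at hC₁
  obtain ⟨C₂, hC₂⟩ := ncard_le_trunc.{u, v, w} hK (F := fun j : Fin p => (X (σ j) :
    MvPolynomial (Fin (m + 1)) K)) (d := fun _ => 1) (fun j => isHomogeneous_X _ _) hS
  -- the partial sums
  obtain ⟨g, hg⟩ : ∃ g : Finset (Fin (m + 1)) → MvPolynomial (Fin (m + 1)) K,
    ∀ I, g I = ∑ j ∈ I, C (a j) * X j ^ d := ⟨_, fun _ => rfl⟩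
  have hgΩ : ∀ I, aeval (Fin.cons 1 y₀ : Fin (m + 1) → Ω) (g I) =
      ∑ j ∈ I, algebraMap K Ω (a j) * (Fin.cons 1 y₀ : Fin (m + 1) → Ω) j ^ d := by
    intro I
    rw [hg, map_sum]
    refine Finset.sum_congr rfl fun j _ => ?_
    rw [map_mul, map_pow, aeval_C, aeval_X]
  have hgL : ∀ (L : Type w) [Field L] [Algebra K L] (x : Fin (m + 1) → L) (I), aeval x (g I) =
      ∑ j ∈ I, algebraMap K L (a j) * x j ^ d := by
    intro L _ _ x I
    rw [hg, map_sum]
    refine Finset.sum_congr rfl fun j _ => ?_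
    rw [map_mul, map_pow, aeval_C, aeval_X]
  obtain ⟨Z, hZ⟩ : ∃ Z : Finset (Finset (Fin (m + 1))),
    Z = Finset.univ.filter fun I : Finset (Fin (m + 1)) => I.Nonempty ∧ I ≠ Finset.univ :=
    ⟨_, rfl⟩
  obtain ⟨b₁, hb₁⟩ : ∃ b₁ : ℕ, b₁ = m * ((m - 1) * p) := ⟨_, rfl⟩
  obtain ⟨b₂, hb₂⟩ : ∃ b₂ : ℕ, b₂ = m * (m - 1) := ⟨_, rfl⟩
  refine ⟨∏ I ∈ Z, g I, r * (b₁ + b₁ * (C₂ * r) + m * (C₁ * r)), ?_, ?_⟩
  · rw [map_prod]
    refine Finset.prod_ne_zero_iff.2 fun I hI => ?_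
    rw [hZ] at hI
    rw [hgΩ]
    exact hsub I (Finset.mem_filter.1 hI).2.1 (Finset.mem_filter.1 hI).2.2
  · intro L _ _ _ _ _ y hLr hspec hne
    obtain ⟨M, _, _, _, _, _, _, _, _, _, y', hMr, hcons, hram, hgt', -⟩ := exists_subfield' hK y
    have hMf : IsFF κ M := hK.of_finite
    have hM1 : 0 < finrank K M := finrank_pos
    have hM2 : 0 < finrank M L := finrank_pos
    have hr1 : finrank K M ≤ r := (Nat.le_mul_of_pos_right _ hM2).trans (hMr.le.trans hLr)
    have hr2 : finrank M L ≤ r := (Nat.le_mul_of_pos_left _ hM1).trans (hMr.le.trans hLr)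
    have hne' : (Fin.cons 1 y' : Fin (m + 1) → M) ≠ 0 := fun h0 => by
      have h1 := congrFun h0 0
      rw [Fin.cons_zero] at h1
      exact one_ne_zero h1
    have hval : ∀ P : MvPolynomial (Fin (m + 1)) K, aeval (Fin.cons 1 y : Fin (m + 1) → L) P =
        algebraMap M L (aeval (Fin.cons 1 y' : Fin (m + 1) → M) P) := by
      intro P
      rw [hcons]
      exact aeval_algebraMap_apply L (Fin.cons 1 y' : Fin (m + 1) → M) P
    have hz : ∀ P : MvPolynomial (Fin (m + 1)) K, aeval (Fin.cons 1 y : Fin (m + 1) → L) P = 0 ↔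
        aeval (Fin.cons 1 y' : Fin (m + 1) → M) P = 0 := by
      intro P
      rw [hval]
      exact map_eq_zero _
    rw [map_prod] at hne
    have h1 : ∑ j, algebraMap K M (a j) * (Fin.cons 1 y' : Fin (m + 1) → M) j ^ d = 0 := by
      rw [← hgL]
      refine (hz _).1 (hspec _ ?_)
      rw [hgΩ]
      exact hy
    have h2 : ∀ I : Finset (Fin (m + 1)), I.Nonempty → I ≠ Finset.univ →
        ∑ j ∈ I, algebraMap K M (a j) * (Fin.cons 1 y' : Fin (m + 1) → M) j ^ d ≠ 0 := by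
      intro I hI hI'
      rw [← hgL]
      intro h0
      refine Finset.prod_ne_zero_iff.1 hne I ?_ ((hz _).2 h0)
      rw [hZ]
      exact Finset.mem_filter.2 ⟨Finset.mem_univ _, hI, hI'⟩
    have h3 := hC₁ M _ h1 h2
    have hd0 : d ≠ 0 := by omega
    have hxj : ∀ j, (Fin.cons 1 y' : Fin (m + 1) → M) j ≠ 0 := by
      intro j h0
      refine h2 {j} ⟨j, Finset.mem_singleton_self j⟩ ?_ ?_
      · intro h4
        have h5 := congrArg Finset.card h4
        rw [Finset.card_singleton, Finset.card_univ, Fintype.card_fin] at h5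
        omega
      · rw [Finset.sum_singleton, h0, zero_pow hd0, mul_zero]
    have h4 := hC₂ M (Fin.cons 1 y') hne' fun j => by
      rw [aeval_X]
      exact hxj _
    have h5 : {w : Place κ M | ∃ j ∈ B, w.1 ((Fin.cons 1 y' : Fin (m + 1) → M) j) <
        vmax w.1 (Fin.cons 1 y' : Fin (m + 1) → M)} =
        {w : Place κ M | ∃ b : Fin p, w.1 (aeval (Fin.cons 1 y' : Fin (m + 1) → M)
          (X (σ b) : MvPolynomial (Fin (m + 1)) K)) ≠
            vmax w.1 (Fin.cons 1 y' : Fin (m + 1) → M) ^ 1} := by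
      ext w
      simp only [Set.mem_ofPred_eq, aeval_X, pow_one]
      constructor
      · rintro ⟨j, hj, hw⟩
        rw [hB] at hj
        obtain ⟨b, -, rfl⟩ := Finset.mem_image.1 hj
        exact ⟨b, hw.ne⟩
      · rintro ⟨b, hw⟩
        exact ⟨σ b, by rw [hB]; exact Finset.mem_image_of_mem _ (Finset.mem_univ _),
          lt_of_le_of_ne (le_vmax w.1 _ _) hw⟩
    have h6 : {w : Place κ M | (∀ v ∈ S, ¬ (w.1.comap (algebraMap K M)).IsEquiv v.1) ∧
        ∃ b : Fin p, w.1 (aeval (Fin.cons 1 y' : Fin (m + 1) → M)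
          (X (σ b) : MvPolynomial (Fin (m + 1)) K)) <
            vmax w.1 (Fin.cons 1 y' : Fin (m + 1) → M) ^ 1}.ncard = truncCount κ
          (fun j : {j // j ∉ A} => F j) (fun j => e j) S (Fin.cons 1 y' : Fin (m + 1) → M) := by
      unfold truncCount
      congr 1
      ext w
      simp only [Set.mem_ofPred_eq]
      refine and_congr Iff.rfl ⟨?_, ?_⟩
      · rintro ⟨b, hw⟩
        refine ⟨⟨b, by rw [hA]; exact Finset.notMem_empty b⟩, ?_, ?_⟩
        · show aeval _ (F b) ≠ 0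
          rw [(hF b).1, aeval_X]
          exact hxj _
        · show w.1 (aeval _ (F b)) < _ ^ e b
          rw [(hF b).1, (hF b).2]
          exact hw
      · rintro ⟨⟨b, hb⟩, -, hw⟩
        refine ⟨b, ?_⟩
        have hw' : w.1 (aeval (Fin.cons 1 y' : Fin (m + 1) → M) (F b)) <
          vmax w.1 (Fin.cons 1 y' : Fin (m + 1) → M) ^ e b := hw
        rw [(hF b).1, (hF b).2] at hw'
        exact hw'
    rw [h5] at h3
    rw [h6] at h4
    have hN : truncCount κ (fun j : {j // j ∉ A} => F j) (fun j => e j) S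
        (Fin.cons 1 y' : Fin (m + 1) → M) ≤ truncCount κ (fun j : {j // j ∉ A} => F j)
          (fun j => e j) S (Fin.cons 1 y : Fin (m + 1) → L) := by
      have h7 := trunc_le_ext' (κ := κ) (K := K) (M := M) (L := L) hK
        (d := fun j : {j // j ∉ A} => e j) (F := fun j : {j // j ∉ A} => F j)
        (fun j => by
          rw [(hF j).1, (hF j).2]
          exact isHomogeneous_X _ _) S hne'
      rw [← hcons] at h7
      exact h7
    obtain ⟨N', hN'⟩ : ∃ N', N' = truncCount κ (fun j : {j // j ∉ A} => F j) (fun j => e j) S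
      (Fin.cons 1 y' : Fin (m + 1) → M) := ⟨_, rfl⟩
    obtain ⟨N, hNd⟩ : ∃ N, N = truncCount κ (fun j : {j // j ∉ A} => F j) (fun j => e j) S
      (Fin.cons 1 y : Fin (m + 1) → L) := ⟨_, rfl⟩
    obtain ⟨N₁, hN₁⟩ : ∃ N₁, N₁ = {w : Place κ M | ∃ b : Fin p,
      w.1 (aeval (Fin.cons 1 y' : Fin (m + 1) → M) (X (σ b) : MvPolynomial (Fin (m + 1)) K)) ≠
        vmax w.1 (Fin.cons 1 y' : Fin (m + 1) → M) ^ 1}.ncard := ⟨_, rfl⟩
    rw [← hN₁] at h3 h4
    rw [← hN'] at h4 hN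
    rw [← hNd] at hN ⊢
    rw [← hgt_eq] at h3
    obtain ⟨b, hb⟩ : ∃ b, b = hgt κ y' := ⟨_, rfl⟩
    rw [← hb] at h3 hram hgt'
    have hb0 : 0 ≤ b := by
      rw [hb]
      exact hgt_nonneg hMf y'
    rw [hgt']
    have e1 : (finrank K M : ℤ) ≤ r := by exact_mod_cast hr1
    have e2 : (finrank M L : ℤ) ≤ r := by exact_mod_cast hr2
    have e3 : (N' : ℤ) ≤ N := by exact_mod_cast hN
    have e4 : (N₁ : ℤ) ≤ N' + C₂ * finrank K M := by exact_mod_cast h4
    have hr0 : 1 ≤ r := hM1.trans_le hr1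
    have e5 : ((D + 2 * (r - 1) * P + 1 : ℕ) : ℤ) ≤ d := by exact_mod_cast hd
    have e6 : ((r - 1 : ℕ) : ℤ) = r - 1 := by
      push_cast [hr0]
      ring
    have e7 : (ramDeg κ M K : ℤ) ≤ 2 * (r - 1) * b :=
      hram.trans (mul_le_mul_of_nonneg_right (by linarith) hb0)
    have e8 : (P : ℤ) = m * ((m * (m - 1) : ℕ) : ℤ) := by
      rw [hP]
      push_cast
      ring
    have e9 : (m : ℤ) * ((m * (m - 1) : ℕ) : ℤ) * (ramDeg κ M K : ℤ) ≤ P * (2 * (r - 1) * b) := by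
      rw [← e8]
      exact mul_le_mul_of_nonneg_left e7 (Int.natCast_nonneg _)
    have e10 : (b₁ : ℤ) = m * (((m - 1) * p : ℕ) : ℤ) := by
      rw [hb₁, Nat.cast_mul]
    have e11 : ((D : ℤ) + 2 * (r - 1) * P + 1 - D) * b ≤ ((d : ℤ) - D) * b := by
      refine mul_le_mul_of_nonneg_right ?_ hb0
      push_cast at e5
      rw [e6] at e5
      linarith
    have e12 : b ≤ b₁ * N₁ + m * (C₁ * finrank K M) := by
      rw [e10]
      nlinarith
    have e13 : (b₁ : ℤ) * N₁ ≤ b₁ * (N + C₂ * r) := by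
      refine mul_le_mul_of_nonneg_left ?_ (Int.natCast_nonneg _)
      have : (C₂ : ℤ) * finrank K M ≤ C₂ * r := mul_le_mul_of_nonneg_left e1 (Int.natCast_nonneg _)
      linarith
    have e14 : (m : ℤ) * (C₁ * finrank K M) ≤ m * (C₁ * r) :=
      mul_le_mul_of_nonneg_left (mul_le_mul_of_nonneg_left e1 (Int.natCast_nonneg _))
        (Int.natCast_nonneg _)
    have e15 : b ≤ (b₁ + b₁ * (C₂ * r) + m * (C₁ * r)) * (1 + N) := by
      have f1 : (0 : ℤ) ≤ b₁ * (C₂ * r) * N := by positivity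
      have f2 : (0 : ℤ) ≤ m * (C₁ * r) * N := by positivity
      have f3 : (0 : ℤ) ≤ b₁ := by positivity
      linarith
    calc (finrank M L : ℤ) * b ≤ r * b := mul_le_mul_of_nonneg_right e2 hb0
      _ ≤ r * ((b₁ + b₁ * (C₂ * r) + m * (C₁ * r)) * (1 + N)) :=
        mul_le_mul_of_nonneg_left e15 (Int.natCast_nonneg _)
      _ = ((r * (b₁ + b₁ * (C₂ * r) + m * (C₁ * r)) : ℕ) : ℤ) * (1 + N) := by
        push_cast
        ring

end Pool.Agent.Lib.MP_44a246_ntFB
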