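import Mathlib
import Pool.Agent.Lib.MP_44a246_ntFB.FB0F
import Pool.Agent.Lib.MP_44a246_ntFB.FB22
import Pool.Agent.Lib.MP_44a246_ntFB.FB35

/-!
# The height of the points of bounded degree of coverings of arbitrary varieties
-/

namespace Pool.Agent.Lib.MP_44a246_ntFB

open Pool.Agent.Lib.MP_e52354_nt
open Pool.Agent.Lib.MP_44a246_nt
open Pool.Agent.Lib.MP_44a246_ntL
open Pool.Agent.Lib.MP_44a246_ntUV
open Pool.Agent.Lib.MP_44a246_ntMU (several_formsN several_forms)
open Pool.Agent.Lib.MP_e52354_ntSD (GenK)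
open WithZero MvPolynomial Module

universe u v w u₁

section

variable {K L : Type*} [Field K] [Field L] [Algebra K L] {k : Subfield K} {p N m : ℕ}

theorem cons_castLE {α : Type*} (h : N ≤ m) (a : α) (y : Fin m → α) :
    (fun i => (Fin.cons a y : Fin (m + 1) → α) (Fin.castLE (Nat.succ_le_succ h) i)) =
      (Fin.cons a (fun i => y (Fin.castLE h i)) : Fin (N + 1) → α) := by
  funext i
  refine Fin.cases ?_ (fun i => ?_) i
  · rfl
  · rw [Fin.cons_succ]
    rfl

/-- the polynomial `f (F (x), x)` -/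
noncomputable def evp (h : N ≤ m) (F : Fin p → MvPolynomial (Fin (N + 1)) K)
    (f : MvPolynomial (Fin p ⊕ Fin (m + 1)) k) : MvPolynomial (Fin (m + 1)) K :=
  aeval (Sum.elim (fun j => rename (Fin.castLE (Nat.succ_le_succ h)) (F j)) X)
    (map (algebraMap k K) f)

theorem aeval_cons_rename (h : N ≤ m) (y : Fin m → L) (P : MvPolynomial (Fin (N + 1)) K) :
    aeval (Fin.cons 1 y : Fin (m + 1) → L) (rename (Fin.castLE (Nat.succ_le_succ h)) P) =
      aeval (Fin.cons 1 (fun i => y (Fin.castLE h i)) : Fin (N + 1) → L) P := by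
  rw [aeval_rename, ← cons_castLE h (1 : L) y]
  rfl

theorem ev_eq (h : N ≤ m) (F : Fin p → MvPolynomial (Fin (N + 1)) K) (y : Fin m → L)
    (f : MvPolynomial (Fin p ⊕ Fin (m + 1)) k) :
    ev h F y f = aeval (Fin.cons 1 y : Fin (m + 1) → L) (evp h F f) := by
  unfold ev evp
  rw [← AlgHom.comp_apply, comp_aeval]
  congr 2
  funext i
  rcases i with j | i
  · rw [Sum.elim_inl, Sum.elim_inl, aeval_cons_rename]
  · rw [Sum.elim_inr, Sum.elim_inr, aeval_X]

end

/-- the height of a point, after a scaling with the weights -/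
theorem height_unscale {κ L : Type*} [Field κ] [IsAlgClosed κ] [CharZero κ] [Field L] [Algebra κ L]
    (hL : IsFF κ L) {m ω : ℕ} {wt : Fin (m + 1) → ℕ} (hω : ∀ i, wt i ≤ ω) (hwt : wt 0 = 1)
    {x : Fin (m + 1) → L} (hx0 : x 0 = 1) {c : L} {i₀ : Fin (m + 1)} (hi₀ : wt i₀ = 1)
    (hc : c * x i₀ = 1) :
    height κ x ≤ (1 + ω) * height κ (fun i => c ^ wt i * x i) := by
  obtain ⟨z, hz⟩ : ∃ z : Fin (m + 1) → L, z = fun i => c ^ wt i * x i := ⟨_, rfl⟩
  rw [← hz]
  have hc0 : c ≠ 0 := fun h0 => by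
    rw [h0, zero_mul] at hc
    exact zero_ne_one hc
  have hz0 : z 0 = c := by
    rw [hz]
    simp only
    rw [hx0, hwt, pow_one, mul_one]
  have hz1 : z i₀ = 1 := by
    rw [hz]
    simp only
    rw [hi₀, pow_one, hc]
  have hxne : x ≠ 0 := fun h0 => by
    have h1 := congrFun h0 0
    rw [hx0] at h1
    exact one_ne_zero h1
  have hzne : z ≠ 0 := fun h0 => by
    have h1 := congrFun h0 i₀
    rw [hz1] at h1
    exact one_ne_zero h1
  have hpt : ∀ w : Place κ L, log (vmax w.1 x) ≤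
      log (vmax w.1 z) + (ω : ℤ) * (log (vmax w.1 z) - log (w.1 c)) := by
    intro w
    obtain ⟨t, hxt, ht, -⟩ := exists_vmax w.1 hxne
    have hvz : vmax w.1 z ≠ 0 := by rwa [Ne, vmax_eq_zero_iff]
    have hwc : w.1 c ≠ 0 := (Valuation.ne_zero_iff w.1).2 hc0
    have h1 : log (w.1 (z t)) = (wt t : ℤ) * log (w.1 c) + log (w.1 (x t)) := by
      rw [hz]
      simp only
      rw [map_mul, map_pow, log_mul (pow_ne_zero _ hwc) ((Valuation.ne_zero_iff w.1).2 hxt),
        log_pow, nsmul_eq_mul]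
    have hzt : z t ≠ 0 := by
      rw [hz]
      exact mul_ne_zero (pow_ne_zero _ hc0) hxt
    have h2 : log (w.1 (z t)) ≤ log (vmax w.1 z) :=
      (log_le_log ((Valuation.ne_zero_iff w.1).2 hzt) hvz).2 (le_vmax w.1 z t)
    have h3 : log (w.1 c) ≤ log (vmax w.1 z) := by
      rw [← hz0]
      exact (log_le_log (by rw [hz0]; exact hwc) hvz).2 (le_vmax w.1 z 0)
    have h4 : 0 ≤ log (vmax w.1 z) := by
      have h5 : w.1 (z i₀) ≤ vmax w.1 z := le_vmax w.1 z i₀
      rw [hz1, map_one] at h5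
      have h6 := (log_le_log one_ne_zero hvz).2 h5
      rwa [log_one] at h6
    have h7 : (wt t : ℤ) ≤ ω := by exact_mod_cast hω t
    have h8 : (0 : ℤ) ≤ (wt t : ℤ) := Int.natCast_nonneg _
    rw [ht]
    have h9 : -((wt t : ℤ) * log (w.1 c)) ≤ (ω : ℤ) * (log (vmax w.1 z) - log (w.1 c)) := by
      have h10 : (wt t : ℤ) * (log (vmax w.1 z) - log (w.1 c)) ≤
          (ω : ℤ) * (log (vmax w.1 z) - log (w.1 c)) :=
        mul_le_mul_of_nonneg_right h7 (by linarith)
      have h11 : 0 ≤ (wt t : ℤ) * log (vmax w.1 z) := mul_nonneg h8 h4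
      nlinarith
    linarith
  have hs1 := hL.vmax_support hxne
  have hs2 := hL.vmax_support hzne
  have hs3 := hL.place_support (κ := κ) hc0
  have hs4 : (Function.support fun w : Place κ L =>
      (ω : ℤ) * (log (vmax w.1 z) - log (w.1 c))).Finite := by
    refine (hs2.union hs3).subset fun w hw => ?_
    rw [Set.mem_union]
    by_contra hcon
    push Not at hcon
    apply hw
    have h1 : log (vmax w.1 z) = 0 := by
      by_contra h0
      exact hcon.1 h0
    have h2 : log (w.1 c) = 0 := by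
      by_contra h0
      exact hcon.2 h0
    show (ω : ℤ) * (log (vmax w.1 z) - log (w.1 c)) = 0
    rw [h1, h2, sub_zero, mul_zero]
  have h1 := finsum_mono hs1 ((hs2.union hs4).subset (Function.support_add _ _)) hpt
  rw [finsum_add_distrib hs2 hs4] at h1
  have h2 : ∑ᶠ w : Place κ L, (ω : ℤ) * (log (vmax w.1 z) - log (w.1 c)) =
      (ω : ℤ) * height κ z := by
    rw [← mul_finsum, finsum_sub_distrib hs2 hs3, hL.product_formula hc0, sub_zero]
    rfl
  rw [h2] at h1
  have h3 : height κ x = ∑ᶠ w : Place κ L, log (vmax w.1 x) := rfl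
  have h4 : height κ z = ∑ᶠ w : Place κ L, log (vmax w.1 z) := rfl
  rw [← h3, ← h4] at h1
  linarith

/-- There are finitely many coefficients. -/
theorem finite_index {m p : ℕ} (e : Fin p → ℕ) :
    Finite {I : Fin p × (Fin (m + 1) →₀ ℕ) // I.2.degree = e I.1} := by
  have h1 : Set.Finite {I : Fin p × (Fin (m + 1) →₀ ℕ) | I.2.degree = e I.1} := by
    have h2 : {I : Fin p × (Fin (m + 1) →₀ ℕ) | I.2.degree = e I.1} ⊆
        ⋃ j : Fin p, (fun I => (j, I)) '' {I : Fin (m + 1) →₀ ℕ | I.degree ≤ e j} := by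
      rintro ⟨j, I⟩ hI
      refine Set.mem_iUnion.2 ⟨j, I, ?_, rfl⟩
      exact le_of_eq hI
    exact (Set.finite_iUnion fun j => (Finsupp.finite_of_degree_le (e j)).image _).subset h2
  exact h1.to_subtype

/-- The transcendence degree of the field generated by the coefficients. -/
theorem Forms.genK {K : Type v} [Field K] {k : Subfield K} {m p : ℕ}
    {F : Fin p → MvPolynomial (Fin (m + 1)) K} {e : Fin p → ℕ} {u : ℕ} (h : Forms k F e u) :
    GenK k e F u := by
  obtain ⟨-, T, hT, hT'⟩ := h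
  have hfin := finite_index (m := m) e
  unfold GenK
  obtain ⟨E, hE⟩ : ∃ E : IntermediateField k K, E = IntermediateField.adjoin k
      (Set.range fun I : {I : Fin p × (Fin (m + 1) →₀ ℕ) // I.2.degree = e I.1} =>
        (F I.1.1).coeff I.1.2) := ⟨_, rfl⟩
  rw [← hE]
  have hmem : ∀ I : {I : Fin p × (Fin (m + 1) →₀ ℕ) // I.2.degree = e I.1},
      (F I.1.1).coeff I.1.2 ∈ E := fun I => by
    rw [hE]
    exact IntermediateField.subset_adjoin _ _ ⟨I, rfl⟩
  have h1 : AlgebraicIndependent k (fun I : T => (⟨_, hmem I.1⟩ : E)) := by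
    have h2 : AlgebraicIndependent k (fun I : T => E.val ⟨_, hmem I.1⟩) := hT'
    exact AlgebraicIndependent.of_comp E.val h2
  have h3 := h1.lift_cardinalMk_le_trdeg
  have h4 : T.ncard + Tᶜ.ncard =
      Nat.card {I : Fin p × (Fin (m + 1) →₀ ℕ) // I.2.degree = e I.1} := Set.ncard_add_ncard_compl T
  have h5 : (T.ncard : Cardinal.{v}) ≤ Algebra.trdeg k E := by
    rw [← Nat.card_coe_set_eq]
    have h6 : Cardinal.lift.{v} (Cardinal.mk T) = (Nat.card T : Cardinal.{v}) := by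
      rw [← Nat.cast_card, Cardinal.lift_natCast]
    rw [h6, Cardinal.lift_id'.{0, v}] at h3
    exact h3
  rw [← h4]
  push_cast
  exact add_le_add h5 (by exact_mod_cast hT)

/-- **The height of the points of bounded degree of a variety with a rational map to a covering of
a variety**, with many relations between the coefficients. -/
theorem base_point_cover {κ : Type u} {K : Type v} [Field κ] [IsAlgClosed κ] [CharZero κ] [Field K]
    [CharZero K] [Algebra κ K] (hK : IsFF κ K) {k : Subfield K} {r N m q p ν g : ℕ}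
    (hNm : N ≤ m) {wt : Fin (m + 1) → ℕ} {f : Fin q → MvPolynomial (Fin p ⊕ Fin (m + 1)) k}
    {e : Fin p → ℕ} {A : Finset (Fin p)} (hf : Eqs k N wt f e ν)
    {F : Fin p → MvPolynomial (Fin (N + 1)) K} (hF : Forms k F e g)
    {Ω : Type u₁} [Field Ω] [Algebra K Ω] {y₀ : Fin m → Ω} (hy₀ : BaseAt hNm f F A y₀)
    (hnum : Many K r ν g hNm wt e A y₀) {S : Set (Place κ K)} (hS : S.Finite) :
    ∃ (G : MvPolynomial (Fin (m + 1)) K) (C : ℕ),
      aeval (Fin.cons 1 y₀ : Fin (m + 1) → Ω) G ≠ 0 ∧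
      ∀ (L : Type w) [Field L] [Algebra K L] [FiniteDimensional K L] [Algebra κ L]
        [IsScalarTower κ K L] (y : Fin m → L), finrank K L ≤ r →
        (∀ Q : MvPolynomial (Fin (m + 1)) K,
          aeval (Fin.cons 1 y₀ : Fin (m + 1) → Ω) Q = 0 →
          aeval (Fin.cons 1 y : Fin (m + 1) → L) Q = 0) →
        aeval (Fin.cons 1 y : Fin (m + 1) → L) G ≠ 0 →
        hgt κ y ≤ C * (1 + baseCount κ hNm F e A S y) := by
  classical
  obtain ⟨hwt, hfw, hfd, hfX⟩ := hf
  have hgen := hF.genK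
  obtain ⟨hF1, -⟩ := hF
  obtain ⟨hy1, ⟨i₀, hy2⟩, hy4⟩ := hy₀
  obtain ⟨T, a, μ, hT, hsum, hy3⟩ := hnum
  choose E hE using hfw
  obtain ⟨ω, hω⟩ : ∃ ω, ω = Finset.univ.sup wt := ⟨_, rfl⟩
  rw [← hω] at hsum
  have hω1 : ∀ i, wt i ≤ ω := fun i => by
    rw [hω]
    exact Finset.le_sup (Finset.mem_univ i)
  obtain ⟨ι, hι⟩ : ∃ ι : Fin (N + 1) → Fin (m + 1), ι = Fin.castLE (Nat.succ_le_succ hNm) := ⟨_, rfl⟩
  have hwι : ∀ l, wt (ι l) = 1 := fun l => by
    refine (hwt _).2 ?_
    rw [hι, Fin.val_castLE]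
    have := l.2
    omega
  have hU : A ∩ T ∪ T \ A = T := by
    ext j
    simp only [Finset.mem_union, Finset.mem_inter, Finset.mem_sdiff]
    tauto
  have hdis : Disjoint (A ∩ T) (T \ A) := by
    rw [Finset.disjoint_left]
    intro j h1 h2
    exact (Finset.mem_sdiff.1 h2).2 (Finset.mem_inter.1 h1).1
  have hX : ∀ y : Fin (m + 1) → AlgebraicClosure K, (∀ l, y (ι l) = 0) →
      (∀ i, aeval (Sum.elim (fun j => aeval (fun l => y (ι l)) (F j)) y :
        Fin p ⊕ Fin (m + 1) → AlgebraicClosure K) (f i) = 0) → y = 0 := by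
    intro y hy hyf
    refine hfX y (fun i hi => ?_) fun l => ?_
    · have h1 := hy ⟨i, by omega⟩
      rw [hι] at h1
      exact h1
    · have h1 : (fun l => y (ι l)) = fun _ => (0 : AlgebraicClosure K) := funext hy
      have h2 : ∀ j, aeval (fun l => y (ι l)) (F j) = 0 := by
        intro j
        rw [h1]
        have h3 := aeval_scale (hF1 j).1 (fun _ => (0 : AlgebraicClosure K)) 0
        simp only [mul_zero] at h3
        rw [h3, zero_pow (by have := (hF1 j).2; omega), zero_mul]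
      have h3 := hyf l
      simp only [h2] at h3
      exact h3
  obtain ⟨t₁, G₁, hG₁, hGd₁, hmain₁⟩ := several_formsN.{u, v, w, v} hK (N := N) (n := ν) (m := μ)
    (wt := wt) (ω := ω) (θ := 2 * (r - 1) * ω + 1) (a := a) (fun i => (hwt i).1) hω1
    hdis (by rw [hU]; exact fun j hj => (hT j hj).1) (by rw [hU]; omega)
    (by rw [hU]; exact fun j hj => (hT j hj).2) (ι := ι) hwι f hE hfd F (fun j => (hF1 j).1) hgen hX
  obtain ⟨t₂, G₂, hG₂, hGd₂, C₂, hC₂⟩ := several_forms.{u, v, w, v} hK (N := N) (n := ν) (m := μ)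
    (wt := wt) (ω := ω) (J := fun j => e j - a j) (a := a) (fun i => (hwt i).1) hω1
    hdis (by rw [hU]; exact fun j hj => by have := (hT j hj).1; omega)
    (by rw [hU]; exact fun j hj => (hT j hj).2) (ι := ι) hwι f hE hfd F (fun j => (hF1 j).1) hgen hX
  obtain ⟨C₁, hC₁⟩ := hmain₁ S hS
  have hex : ∀ (t : ℕ) (G : Fin t → MvPolynomial (Fin (N + 1)) K),
      (∀ i, (G i).IsHomogeneous (∑ j ∈ T, a j)) →
      ringKrullDim (MvPolynomial (Fin (N + 1)) K ⧸ Ideal.span (Set.range G)) ≤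
        (μ : WithBot ℕ∞) → ∃ i, aeval (Fin.cons 1 y₀ : Fin (m + 1) → Ω) (rename ι (G i)) ≠ 0 := by
    intro t G hG hGd
    by_contra hcon
    push Not at hcon
    have hcon' : ∀ i, aeval (Fin.cons 1 (fun i => y₀ (Fin.castLE hNm i)) : Fin (N + 1) → Ω)
        (G i) = 0 := fun i => by
      rw [← aeval_cons_rename hNm y₀, ← hι]
      exact hcon i
    rcases hy3 with ⟨a₀, hy3⟩ | ⟨hμ, hy3⟩
    · have h1 := card_lt_of_dim (fun i => ⟨_, hG i⟩) hGd
        (y := fun i => y₀ (Fin.castLE hNm i)) hcon' hy3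
      omega
    · have h1 : ∀ i, G i = 0 := fun i => hy3 _ (hG i) (hcon' i)
      have h2 : AlgebraicIndependent K fun i : Fin N =>
          algebraMap (MvPolynomial (Fin N) K) (FractionRing (MvPolynomial (Fin N) K)) (X i) := by
        have h3 : AlgebraicIndependent K (X : Fin N → MvPolynomial (Fin N) K) :=
          algebraicIndependent_X _ _
        exact h3.map' (f := IsScalarTower.toAlgHom K (MvPolynomial (Fin N) K)
          (FractionRing (MvPolynomial (Fin N) K))) (IsFractionRing.injective _ _)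
      have h4 := card_lt_of_dim (fun i => ⟨_, hG i⟩) hGd
        (y := fun i : Fin N => algebraMap (MvPolynomial (Fin N) K)
          (FractionRing (MvPolynomial (Fin N) K)) (X i)) (fun i => by rw [h1, map_zero])
        (j := fun i => i) h2
      omega
  rw [hU] at hG₁ hG₂
  obtain ⟨i₁, hi₁⟩ := hex t₁ G₁ hG₁ hGd₁
  obtain ⟨i₂, hi₂⟩ := hex t₂ G₂ hG₂ hGd₂
  have hren : ∀ {L' : Type w} [Field L'] [Algebra K L'] (y : Fin m → L')
      (P : MvPolynomial (Fin (N + 1)) K), aeval (Fin.cons 1 y : Fin (m + 1) → L') (rename ι P) =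
        aeval (fun l => (Fin.cons 1 y : Fin (m + 1) → L') (ι l)) P := fun y P => by
    rw [aeval_rename]
    rfl
  refine ⟨rename ι (G₁ i₁) * rename ι (G₂ i₂) * (∏ j ∈ Finset.univ \ A, rename ι (F j)) *
    (Matrix.of fun a b : A => evp hNm F (pderiv (Sum.inl (b : Fin p)) (f (i₀ a)))).det,
    r * ((1 + ω) * (ω * (1 + C₁ * r ^ 2 + C₂ * r))), ?_, ?_⟩
  · rw [map_mul, map_mul, map_mul, map_prod]
    refine mul_ne_zero (mul_ne_zero (mul_ne_zero hi₁ hi₂)
      (Finset.prod_ne_zero_iff.2 fun j hj => ?_)) ?_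
    · rw [hι, aeval_cons_rename]
      exact hy4 j (by simpa using hj)
    · intro h0
      apply hy2
      rw [← h0, AlgHom.map_det]
      congr 1
      refine Matrix.ext fun a b => ?_
      rw [AlgHom.mapMatrix_apply, Matrix.map_apply, Matrix.of_apply, Matrix.of_apply, ev_eq]
  · intro L _ _ _ _ _ y hLr hspec hne
    obtain ⟨M, _, _, _, _, _, _, _, _, _, y', hMr, hcons, -, hgt', htop⟩ := exists_subfield' hK y
    have hMf : IsFF κ M := hK.of_finite
    have hM1 : 0 < finrank K M := finrank_pos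
    have hM2 : 0 < finrank M L := finrank_pos
    have hr1 : finrank K M ≤ r := (Nat.le_mul_of_pos_right _ hM2).trans (hMr.le.trans hLr)
    have hr2 : finrank M L ≤ r := (Nat.le_mul_of_pos_left _ hM1).trans (hMr.le.trans hLr)
    have hval : ∀ P : MvPolynomial (Fin (m + 1)) K, aeval (Fin.cons 1 y : Fin (m + 1) → L) P =
        algebraMap M L (aeval (Fin.cons 1 y' : Fin (m + 1) → M) P) := by
      intro P
      rw [hcons]
      exact aeval_algebraMap_apply L (Fin.cons 1 y' : Fin (m + 1) → M) P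
    have hz : ∀ P : MvPolynomial (Fin (m + 1)) K, aeval (Fin.cons 1 y : Fin (m + 1) → L) P = 0 ↔
        aeval (Fin.cons 1 y' : Fin (m + 1) → M) P = 0 := by
      intro P
      rw [hval]
      exact map_eq_zero _
    have i2 : IsScalarTower k K M := inferInstance
    obtain ⟨x, hx⟩ : ∃ x : Fin (m + 1) → M, x = Fin.cons 1 y' := ⟨_, rfl⟩
    have hx0 : x 0 = 1 := by
      rw [hx, Fin.cons_zero]
    have hι0 : ι 0 = 0 := by
      rw [hι]
      rfl
    have hxι : (fun l => x (ι l)) = (Fin.cons 1 (fun i => y' (Fin.castLE hNm i)) :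
        Fin (N + 1) → M) := by
      rw [hx, hι]
      exact cons_castLE hNm (1 : M) y'
    have hev : ∀ P : MvPolynomial (Fin p ⊕ Fin (m + 1)) k,
        aeval (Sum.elim (fun j => aeval (fun l => x (ι l)) (F j)) x :
          Fin p ⊕ Fin (m + 1) → M) P = aeval (Fin.cons 1 y' : Fin (m + 1) → M) (evp hNm F P) := by
      intro P
      rw [← ev_eq, hxι, hx]
      unfold ev
      rw [aeval_map_algebraMap]
    have hxne : (fun l => x (ι l)) ≠ 0 := fun h0 => by
      have h1 := congrFun h0 0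
      rw [hι0, hx0] at h1
      exact one_ne_zero h1
    rw [map_mul, map_mul, map_mul, map_prod] at hne
    have hne1 := left_ne_zero_of_mul hne
    have hne2 := left_ne_zero_of_mul hne1
    have hfx : ∀ i, aeval (Sum.elim (fun j => aeval (fun l => x (ι l)) (F j)) x :
        Fin p ⊕ Fin (m + 1) → M) (f i) = 0 := by
      intro i
      rw [hev]
      refine (hz _).1 (hspec _ ?_)
      rw [← ev_eq]
      exact hy1 i
    have hren' : ∀ P : MvPolynomial (Fin (N + 1)) K,
        aeval (Fin.cons 1 y : Fin (m + 1) → L) (rename ι P) ≠ 0 →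
          aeval (fun l => x (ι l)) P ≠ 0 := by
      intro P hP h0
      apply hP
      rw [hz, aeval_rename, ← hx]
      exact h0
    have hFx : ∀ j ∉ A, aeval (fun l => x (ι l)) (F j) ≠ 0 := fun j hj =>
      hren' _ (Finset.prod_ne_zero_iff.1 (right_ne_zero_of_mul hne1) j (by simpa using hj))
    have hdet : Pool.Agent.Lib.MP_44a246_ntMU.Det f (A ∩ T) (Sum.elim (fun j => aeval (fun l => x (ι l)) (F j)) x) := by
      obtain ⟨i', hi'⟩ := exists_minor (M := fun (l : Fin q) (b : A) =>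
        aeval (Sum.elim (fun j => aeval (fun l => x (ι l)) (F j)) x : Fin p ⊕ Fin (m + 1) → M)
          (pderiv (Sum.inl (b : Fin p)) (f l))) (i := i₀) (by
            intro h0
            apply right_ne_zero_of_mul hne
            rw [hz, AlgHom.map_det, ← h0]
            congr 1
            refine Matrix.ext fun a b => ?_
            rw [AlgHom.mapMatrix_apply, Matrix.map_apply, Matrix.of_apply, Matrix.of_apply, hev])
        (τ := fun b : (A ∩ T : Finset (Fin p)) => (⟨b.1, (Finset.mem_inter.1 b.2).1⟩ : A))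
        (fun b b' hbb => Subtype.ext (congrArg (fun z : A => z.1) hbb))
      exact Or.inr ⟨i', hi'⟩
    have hBx : ∀ j ∈ T \ A, aeval (fun l => x (ι l)) (F j) ≠ 0 := fun j hj =>
      hFx j (Finset.mem_sdiff.1 hj).2
    have hadj : IntermediateField.adjoin K (Set.range x) = ⊤ := by
      rw [eq_top_iff, ← htop]
      refine IntermediateField.adjoin.mono _ _ _ ?_
      rintro _ ⟨i, rfl⟩
      exact ⟨i.succ, by rw [hx, Fin.cons_succ]⟩
    have hA := (hC₁ M x hxne hfx hdet hBx ⟨i₁, hren' _ (left_ne_zero_of_mul hne2)⟩).2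
      ⟨0, by rw [hι0, hx0]⟩ hadj
    obtain ⟨-, c, j₀, hcj, hB⟩ := hC₂ M x hxne hfx hdet hBx ⟨i₂, hren' _ (right_ne_zero_of_mul hne2)⟩
    have hU' := height_unscale hMf hω1 (by rw [← hι0]; exact hwι 0) hx0 (hwι j₀) hcj
    have hN1 : {w : Place κ M | (∀ v ∈ S, ¬ (w.1.comap (algebraMap K M)).IsEquiv v.1) ∧
        ∃ j ∈ T \ A, w.1 (aeval (fun l => x (ι l)) (F j)) <
          vmax w.1 (fun l => x (ι l)) ^ e j}.ncard ≤ baseCount κ hNm F e A S y' := by
      unfold baseCount truncCount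
      rw [← hxι]
      refine Set.ncard_le_ncard (fun w hw => ⟨hw.1, ?_⟩) ?_
      · obtain ⟨j, hj, hw2⟩ := hw.2
        exact ⟨⟨j, (Finset.mem_sdiff.1 hj).2⟩, hBx j hj, hw2⟩
      · refine (Set.finite_iUnion fun j : {j // j ∉ A} =>
          finite_small hMf (d := e j) hxne (hFx j j.2)).subset fun w hw => ?_
        obtain ⟨j, hj, hw2⟩ := hw.2
        exact Set.mem_iUnion.2 ⟨j, hw2⟩
    have hN2 : baseCount κ hNm F e A S y' ≤ baseCount κ hNm F e A S y := by
      have h7 := trunc_le_ext' (κ := κ) (K := K) (M := M) (L := L) hK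
        (d := fun j : {j // j ∉ A} => e j) (F := fun j : {j // j ∉ A} => F j)
        (fun j => (hF1 j).1) S hxne
      have h8 : (fun i => algebraMap M L (x (ι i))) =
          (Fin.cons 1 (fun i => y (Fin.castLE hNm i)) : Fin (N + 1) → L) := by
        rw [← cons_castLE hNm (1 : L) y, hcons, ← hι, hx]
      rw [h8, hxι] at h7
      exact h7
    obtain ⟨N₁, hN₁⟩ : ∃ N₁, N₁ = {w : Place κ M |
      (∀ v ∈ S, ¬ (w.1.comap (algebraMap K M)).IsEquiv v.1) ∧
        ∃ j ∈ T \ A, w.1 (aeval (fun l => x (ι l)) (F j)) <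
          vmax w.1 (fun l => x (ι l)) ^ e j}.ncard := ⟨_, rfl⟩
    obtain ⟨N₂, hN₂⟩ : ∃ N₂, N₂ = baseCount κ hNm F e A S y := ⟨_, rfl⟩
    have hN3 : N₁ ≤ N₂ := by
      rw [hN₁, hN₂]
      exact hN1.trans hN2
    rw [← hN₁] at hA
    rw [← hN₂]
    have hb : hgt κ y' = height κ x := by
      rw [hx, hgt_eq]
    rw [hgt', hb]
    obtain ⟨b, hbd⟩ : ∃ b, b = height κ x := ⟨_, rfl⟩
    obtain ⟨b', hbd'⟩ : ∃ b', b' = height κ (fun l => x (ι l)) := ⟨_, rfl⟩
    obtain ⟨b'', hbd''⟩ : ∃ b'', b'' = height κ (fun i => c ^ wt i * x i) := ⟨_, rfl⟩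
    rw [← hbd'] at hA hB
    rw [← hbd''] at hB hU'
    rw [← hbd] at hU' ⊢
    have hb0 : 0 ≤ b' := by
      rw [hbd']
      exact IsFF.height_nonneg hMf hxne
    have e1 : (finrank K M : ℤ) ≤ r := by exact_mod_cast hr1
    have e2 : (finrank M L : ℤ) ≤ r := by exact_mod_cast hr2
    have e3 : (N₁ : ℤ) ≤ N₂ := by exact_mod_cast hN3
    have e0 : (0 : ℤ) ≤ finrank K M := Int.natCast_nonneg _
    have hr0 : 1 ≤ r := hM1.trans_le hr1
    have e4 : ((2 * (r - 1) * ω + 1 : ℕ) : ℤ) = 2 * ((r : ℤ) - 1) * ω + 1 := by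
      push_cast [hr0]
      ring
    have e5 : 1 * b' ≤ (((2 * (r - 1) * ω + 1 : ℕ) : ℤ) -
        2 * (ω : ℤ) * ((finrank K M : ℤ) - 1)) * b' := by
      refine mul_le_mul_of_nonneg_right ?_ hb0
      rw [e4]
      have : 0 ≤ (ω : ℤ) * (r - finrank K M) := mul_nonneg (Int.natCast_nonneg _) (by linarith)
      nlinarith
    have e6 : (finrank K M : ℤ) ^ 2 ≤ r ^ 2 := pow_le_pow_left₀ e0 e1 2
    have e7 : b' ≤ N₂ + C₁ * r ^ 2 := by
      have : (C₁ : ℤ) * (finrank K M : ℤ) ^ 2 ≤ C₁ * r ^ 2 :=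
        mul_le_mul_of_nonneg_left e6 (Int.natCast_nonneg _)
      linarith
    have e8 : b'' ≤ ω * (N₂ + C₁ * r ^ 2 + C₂ * r) := by
      refine hB.trans (mul_le_mul_of_nonneg_left ?_ (Int.natCast_nonneg _))
      have : (C₂ : ℤ) * finrank K M ≤ C₂ * r := mul_le_mul_of_nonneg_left e1 (Int.natCast_nonneg _)
      linarith
    have e9 : b ≤ (1 + ω) * (ω * (N₂ + C₁ * r ^ 2 + C₂ * r)) :=
      hU'.trans (mul_le_mul_of_nonneg_left e8 (by positivity))
    have e10 : (1 + (ω : ℤ)) * (ω * (N₂ + C₁ * r ^ 2 + C₂ * r)) ≤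
        (1 + ω) * (ω * ((1 + C₁ * r ^ 2 + C₂ * r) * (1 + N₂))) := by
      refine mul_le_mul_of_nonneg_left (mul_le_mul_of_nonneg_left ?_ (Int.natCast_nonneg _))
        (by positivity)
      have f1 : (0 : ℤ) ≤ (C₁ * r ^ 2 + C₂ * r) * N₂ := by positivity
      nlinarith
    have hb1 : 0 ≤ b := by
      rw [hbd, ← hb]
      exact hgt_nonneg hMf y'
    calc (finrank M L : ℤ) * b ≤ r * b := mul_le_mul_of_nonneg_right e2 hb1
      _ ≤ r * ((1 + ω) * (ω * ((1 + C₁ * r ^ 2 + C₂ * r) * (1 + N₂)))) :=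
        mul_le_mul_of_nonneg_left (e9.trans e10) (Int.natCast_nonneg _)
      _ = ((r * ((1 + ω) * (ω * (1 + C₁ * r ^ 2 + C₂ * r))) : ℕ) : ℤ) * (1 + N₂) := by
        push_cast
        ring

end Pool.Agent.Lib.MP_44a246_ntFB
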