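import Mathlib
import Pool.Agent.Lib.MP_44a246_ntFB.FB0F
import Pool.Agent.Lib.MP_44a246_ntFB.FB32
import Pool.Agent.Lib.MP_44a246_ntFB.FB33
import Pool.Agent.Lib.MP_44a246_ntFB.FB35
import Pool.Agent.Lib.MP_44a246_ntFB.FB36
import Pool.Agent.Lib.MP_44a246_ntFB.FB37

/-!
# The height of the points of a variety with rational maps to varieties with bounded heights
-/

namespace Pool.Agent.Lib.MP_44a246_ntFB

open Pool.Agent.Lib.MP_e52354_nt
open Pool.Agent.Lib.MP_44a246_nt
open Pool.Agent.Lib.MP_44a246_ntL
open Pool.Agent.Lib.MP_e52354_ntSD (GenK)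
open WithZero MvPolynomial Module

universe u v w u₁

/-- **The height of the points of bounded degree of a variety with a rational map to one of the
base varieties.** -/
theorem base_point_all (p r : ℕ) :
    ∃ R : ℕ, ∀ (N m : ℕ) (hNm : N ≤ m) (e : Fin p → ℕ) (A : Finset (Fin p)),
      ∀ (κ : Type u) (K : Type v) [Field κ] [IsAlgClosed κ] [CharZero κ] [Field K] [CharZero K]
        [Algebra κ K] (_ : IsFF κ K) (F : Fin p → MvPolynomial (Fin (N + 1)) K)
        (Ω : Type u₁) [Field Ω] [Algebra K Ω] (y₀ : Fin m → Ω) (_ : Base r R hNm F e A y₀)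
        (S : Set (Place κ K)) (_ : S.Finite),
        ∃ (G : MvPolynomial (Fin (m + 1)) K) (C : ℕ),
          aeval (Fin.cons 1 y₀ : Fin (m + 1) → Ω) G ≠ 0 ∧
          ∀ (L : Type w) [Field L] [Algebra K L] [FiniteDimensional K L] [Algebra κ L]
            [IsScalarTower κ K L] (y : Fin m → L), finrank K L ≤ r →
            (∀ Q : MvPolynomial (Fin (m + 1)) K,
              aeval (Fin.cons 1 y₀ : Fin (m + 1) → Ω) Q = 0 →
              aeval (Fin.cons 1 y : Fin (m + 1) → L) Q = 0) →
            aeval (Fin.cons 1 y : Fin (m + 1) → L) G ≠ 0 →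
            hgt κ y ≤ C * (1 + baseCount κ hNm F e A S y) := by
  classical
  obtain ⟨R, hR⟩ : ∃ R : ℕ, 1 ≤ p → ∀ (m ν μ c : ℕ) (e : Fin p → ℕ) (A : Finset (Fin p)),
      (∀ j, 1 ≤ e j) → ν ≤ m →
      max (ν + min c ((c + p) / 2)) R + 2 * r ≤ ∑ j, e j →
      2 * max (ν + min c ((c + p) / 2)) R + 2 * r ≤ A.card + max μ 1 + ∑ j, e j →
      ∀ {κ : Type u} {K : Type v} [Field κ] [IsAlgClosed κ] [CharZero κ] [Field K] [CharZero K]
        [Algebra κ K] (_ : IsFF κ K) {k : Type v} [Field k] [CharZero k] [Algebra k K]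
        {ι : Type} [Finite ι] {E : ι → ℕ} {f : ι → MvPolynomial (Fin p ⊕ Fin (m + 1)) k}
        (_ : ∀ i, (f i).IsWeightedHomogeneous (Sum.elim e fun _ => 1) (E i))
        (_ : ∀ i, ∀ j ∉ A, Sum.inl j ∉ (f i).vars)
        (_ : ringKrullDim (MvPolynomial (Fin (m + 1)) k ⧸ (Ideal.span (Set.range f)).comap
          (rename (Sum.inr : Fin (m + 1) → Fin p ⊕ Fin (m + 1)))) ≤ ((ν + 1 : ℕ) : WithBot ℕ∞))
        {F : Fin p → MvPolynomial (Fin (m + 1)) K} (_ : ∀ j, (F j).IsHomogeneous (e j))
        (_ : GenK k e F c) {S : Set (Place κ K)} (_ : S.Finite),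
        BaseHt.{u, v, w, v} κ f e A F S μ r := by
    rcases Nat.eq_zero_or_pos p with hp | hp
    · exact ⟨0, fun h => by omega⟩
    · obtain ⟨R, hR⟩ := baseHt_sharp.{u, v, w, v} p r hp
      exact ⟨R, fun _ => hR⟩
  refine ⟨R, ?_⟩
  intro N m hNm e A κ K _ _ _ _ _ _ hK F Ω _ _ y₀ hB S hS
  rcases hB with ⟨k, q, ν, g, wt, f, hf, hF, hy₀, hnum⟩ | ⟨hN, hD⟩
  · rcases hnum with ⟨hN, hvars, μ, hμ, hμν₀, ⟨a₀, hy3⟩, hnum₀⟩ | hnum
    · subst hN
      have hF2 := hF.genK
      obtain ⟨hF0, -⟩ := hF
      have hF1 : ∀ j, (F j).IsHomogeneous (e j) := fun j => (hF0 j).1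
      have he1 : ∀ j, 1 ≤ e j := fun j => (hF0 j).2
      obtain ⟨hwt, hfw, hf₀, -⟩ := hf
      have hμN : μ ≤ N := by
        have h1 := Fintype.card_le_of_injective a₀ fun i j hij => hy3.injective (by
          show y₀ (Fin.castLE hNm (a₀ i)) = y₀ (Fin.castLE hNm (a₀ j))
          rw [hij])
        rwa [Fintype.card_fin, Fintype.card_fin] at h1
      obtain ⟨ν', hν'⟩ : ∃ ν', ν' = min ν N := ⟨_, rfl⟩
      have hμν : μ ≤ ν' := by omega
      have hνm : ν' ≤ N := by omega
      have hf2 : ringKrullDim (MvPolynomial (Fin (N + 1)) k ⧸ (Ideal.span (Set.range f)).comap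
          (rename (Sum.inr : Fin (N + 1) → Fin p ⊕ Fin (N + 1)))) ≤
            ((ν' + 1 : ℕ) : WithBot ℕ∞) := by
        rcases le_total ν N with h1 | h1
        · rw [hν', min_eq_left h1]
          exact hf₀
        · rw [hν', min_eq_right h1]
          refine (ringKrullDim_quotient_le _).trans (le_of_eq ?_)
          rw [MvPolynomial.ringKrullDim_of_isNoetherianRing, ringKrullDim_eq_zero_of_field,
            zero_add]
          simp
      have hnum : Large r R ν' μ g e A := by
        rcases hnum₀ with ⟨h1, h2⟩ | h1 | ⟨h1, h2, h3, h4, h5⟩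
        · exact Or.inl ⟨by omega, by omega⟩
        · exact Or.inr (Or.inl (by omega))
        · exact Or.inr (Or.inr ⟨h1, h2, h3, by omega, by omega⟩)
      obtain rfl : wt = fun _ => 1 := funext fun i => (hwt i).2 (Nat.lt_succ_iff.1 i.2)
      obtain ⟨hy1, ⟨i₀, hy2⟩, hy4⟩ := hy₀
      choose E hE using hfw
      have h : BaseHt.{u, v, w, v} κ f e A F S μ r := by
        rcases hnum with ⟨hs1, hs2⟩ | hs | ⟨hp, hA, hr1, h1, h2⟩
        · rcases Nat.eq_zero_or_pos p with hp | hp
          · subst hp
            have h2 : ∑ j, e j = 0 := Finset.sum_of_isEmpty _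
            obtain rfl : r = 0 := by omega
            exact baseHt_zero f e A F S μ
          · exact hR hp N ν' μ g e A he1 hνm hs1 (by rw [max_eq_left hμ]; omega) hK hE hvars hf2
              hF1 hF2 hS
        · rcases Nat.eq_zero_or_pos p with hp | hp
          · subst hp
            have h2 : ∑ j, e j = 0 := Finset.sum_of_isEmpty _
            have h3 : A.card = 0 := by
              rw [Finset.card_eq_zero]
              exact Finset.eq_empty_of_isEmpty A
            obtain rfl : r = 0 := by omega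
            exact baseHt_zero f e A F S μ
          · refine baseHt_several (c := g) (c' := 0) (i := min g ((g + p) / 2)) (a := fun _ => 0)
              (T := Finset.univ) hp he1 (by omega) (fun j _ => ⟨Nat.zero_le _, ?_⟩) ?_ hK hE hf2
              hF1 hF2 hS
            · rw [add_zero, Nat.choose_self]
              exact Nat.one_pos
            · rw [Finset.inter_univ, Finset.sum_const_zero]
              omega
        · subst hp hr1
          obtain ⟨d, rfl⟩ : ∃ d, e = fun _ => d :=
            ⟨e 0, funext fun j => by rw [Subsingleton.elim j 0]⟩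
          have hsum : ∑ j : Fin 1, (fun _ => d) j = d := by simp
          rw [hsum] at h1 h2
          have hAu : A = Finset.univ :=
            (Finset.card_eq_iff_eq_univ A).1 (by rw [hA, Fintype.card_fin])
          subst hAu
          exact baseHt_slope (by omega) h1 h2 hK hE hf2 hF1 hF2 S
      obtain ⟨t, G, hG, hGd, C, hC⟩ := h
      obtain ⟨i, hi⟩ : ∃ i, aeval (Fin.cons 1 y₀ : Fin (N + 1) → Ω) (G i) ≠ 0 := by
        by_contra hcon
        push Not at hcon
        have h1 := card_lt_of_dim hG hGd hcon hy3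
        omega
      have hevp : ∀ P : MvPolynomial (Fin p ⊕ Fin (N + 1)) k, evp hNm F P =
          aeval (Sum.elim F X) (map (algebraMap k K) P) := by
        intro P
        unfold evp
        congr 2
        funext s
        rcases s with j | s
        · rw [Sum.elim_inl, Sum.elim_inl]
          exact rename_id_apply (F j)
        · rfl
      refine ⟨G i * (∏ j ∈ Finset.univ \ A, F j) * (Matrix.of fun a b : A =>
        evp hNm F (pderiv (Sum.inl (b : Fin p)) (f (i₀ a)))).det, C, ?_, ?_⟩
      · rw [map_mul, map_mul, map_prod]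
        refine mul_ne_zero (mul_ne_zero hi (Finset.prod_ne_zero_iff.2 fun j hj => ?_)) ?_
        · exact hy4 j (by simpa using hj)
        · intro h0
          apply hy2
          rw [← h0, AlgHom.map_det]
          congr 1
          refine Matrix.ext fun a b => ?_
          rw [AlgHom.mapMatrix_apply, Matrix.map_apply, Matrix.of_apply, Matrix.of_apply, ev_eq]
      · intro L _ _ _ _ _ y hLr hspec hne
        rw [map_mul, map_mul, map_prod] at hne
        have hne1 := left_ne_zero_of_mul hne
        refine hC L y hLr (fun l => ?_) ⟨i₀, ?_⟩ (fun j hj => ?_) ⟨i, left_ne_zero_of_mul hne1⟩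
        · rw [← hevp]
          refine hspec _ ?_
          rw [← ev_eq]
          exact hy1 l
        · have h1 := right_ne_zero_of_mul hne
          simp only [hevp] at h1
          exact h1
        · exact Finset.prod_ne_zero_iff.1 (right_ne_zero_of_mul hne1) j (by simpa using hj)
    · exact base_point_cover hK hNm hf hF hy₀ hnum hS
  · subst hN
    exact base_point_diag hK hD hS

end Pool.Agent.Lib.MP_44a246_ntFB
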