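import Mathlib
import Pool.Agent.Lib.MP_44a246_ntFB.FB0D
import Pool.Agent.Lib.MP_44a246_ntFB.FB21

/-!
# Towers of families of curves over products of varieties with bounded heights, general counting
functions
-/

namespace Pool.Agent.Lib.MP_44a246_ntFB

open Pool.Agent.Lib.MP_e52354_nt
open Pool.Agent.Lib.MP_44a246_nt
open Pool.Agent.Lib.MP_44a246_ntL
open Pool.Agent.Lib.MP_44a246_ntMY
open WithZero MvPolynomial Module

universe u v w u₁

/-- **Towers of families of curves over a product of varieties with bounded heights.** -/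
theorem tower_abs_gen {κ : Type u} {K : Type v} [Field κ] [IsAlgClosed κ] [CharZero κ] [Field K]
    [CharZero K] [Algebra κ K] (hK : IsFF κ K) (hMY : MYP.{u, v} κ) {Ω : Type u₁} [Field Ω]
    [IsAlgClosed Ω] [Algebra K Ω] (r : ℕ) {b : ℕ} {m : Fin b → ℕ}
    (Nb : ∀ (i : Fin b) (L : Type w) [Field L] [Algebra κ L] [Algebra K L], (Fin (m i) → L) → ℕ)
    {n q : ℕ → ℕ}
    {y₀ : (Σ i : Fin b, Fin (m i)) → Ω} {x₀ : ∀ l : ℕ, Fin (n l) → Ω} {s : ℕ} {c : ℕ → ℝ}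
    {H : ∀ l : ℕ, Fin (q l + 1) →
      MvPolynomial (((Σ i : Fin b, Fin (m i)) ⊕ (Σ i : Fin l, Fin (n i))) ⊕ Fin (n l)) K}
    {d : ∀ l : ℕ, Fin (q l + 1) → ℕ} {S : Set (Place κ K)} (hS : S.Finite)
    (hbase : ∀ i : Fin b, ∃ (G : MvPolynomial (Fin (m i + 1)) K) (C : ℕ),
      aeval (Fin.cons 1 (fun j => y₀ ⟨i, j⟩) : Fin (m i + 1) → Ω) G ≠ 0 ∧
      ∀ (L : Type w) [Field L] [Algebra K L] [FiniteDimensional K L] [Algebra κ L]
        [IsScalarTower κ K L] (y : Fin (m i) → L), finrank K L ≤ r →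
        (∀ Q : MvPolynomial (Fin (m i + 1)) K,
          aeval (Fin.cons 1 (fun j => y₀ ⟨i, j⟩) : Fin (m i + 1) → Ω) Q = 0 →
          aeval (Fin.cons 1 y : Fin (m i + 1) → L) Q = 0) →
        aeval (Fin.cons 1 y : Fin (m i + 1) → L) G ≠ 0 →
        hgt κ y ≤ C * (1 + Nb i L y))
    (hdim : ∀ l ≤ s, ∀ i j, ¬ AlgebraicIndependent
      (IntermediateField.adjoin K (Set.range (low y₀ x₀ l))) ![x₀ l i, x₀ l j])
    (hH : ∀ l ≤ s, ∀ j, aeval (Sum.elim (low y₀ x₀ l) (x₀ l)) (H l j) ≠ 0)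
    (hc : ∀ l ≤ s, Slope K (low y₀ x₀ l) (x₀ l) (H l) (d l) (c l))
    (hlow : ∀ l < s, 2 * ((r : ℝ) - 1) < c l) {ε : ℝ} (hε : 0 < ε) :
    ∃ (h : MvPolynomial ((Σ i : Fin b, Fin (m i)) ⊕ (Σ i : Fin (s + 1), Fin (n i))) K)
      (C : ℕ), aeval (low y₀ x₀ (s + 1)) h ≠ 0 ∧
      ∀ (L : Type w) [Field L] [Algebra K L] [FiniteDimensional K L] [Algebra κ L]
        [IsScalarTower κ K L], finrank K L ≤ r →
      ∀ (y : (Σ i : Fin b, Fin (m i)) → L) (x : ∀ l : ℕ, Fin (n l) → L),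
        (∀ Q : MvPolynomial ((Σ i : Fin b, Fin (m i)) ⊕ (Σ i : Fin (s + 1), Fin (n i))) K,
          aeval (low y₀ x₀ (s + 1)) Q = 0 → aeval (low y x (s + 1)) Q = 0) →
        aeval (low y x (s + 1)) h ≠ 0 →
      ∀ B : ℝ, B = C * (1 +
          ∑ i, (Nb i L (fun j => y ⟨i, j⟩) : ℝ) +
          ∑ i ∈ Finset.range s, (meet κ K (H i) (d i) S (low y x i) (x i) : ℝ)) →
        hgt κ y ≤ B ∧ (∀ l < s, hgt κ (x l) ≤ B) ∧
        (c s - ε) * hgt κ (x s) ≤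
          meet κ K (H s) (d s) S (low y x s) (x s) + ramDeg κ L K + B := by
  classical
  choose G C₀ hGy hC₀ using hbase
  obtain ⟨h, C, hh0, hC⟩ := tower_gen.{u, v, w} hK hMY r s hdim hH hc hlow hS hε
  obtain ⟨D, hD⟩ : ∃ D : ∀ i : Fin b, MvPolynomial (Fin (m i + 1)) K →
      MvPolynomial ((Σ i : Fin b, Fin (m i)) ⊕ (Σ i : Fin (s + 1), Fin (n i))) K,
      D = fun i G => aeval (Fin.cons 1 (fun j => X (Sum.inl ⟨i, j⟩)) : Fin (m i + 1) →
        MvPolynomial ((Σ i : Fin b, Fin (m i)) ⊕ (Σ i : Fin (s + 1), Fin (n i))) K) G := ⟨_, rfl⟩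
  have hDv : ∀ {L : Type u₁} [Field L] [Algebra K L] (y : (Σ i : Fin b, Fin (m i)) → L)
      (x : ∀ l : ℕ, Fin (n l) → L) (i : Fin b) (G : MvPolynomial (Fin (m i + 1)) K),
      aeval (low y x (s + 1)) (D i G) =
        aeval (Fin.cons 1 (fun j => y ⟨i, j⟩) : Fin (m i + 1) → L) G := by
    intro L _ _ y x i G
    rw [hD]
    exact aeval_dehom i G y _
  have hDw : ∀ {L : Type w} [Field L] [Algebra K L] (y : (Σ i : Fin b, Fin (m i)) → L)
      (x : ∀ l : ℕ, Fin (n l) → L) (i : Fin b) (G : MvPolynomial (Fin (m i + 1)) K),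
      aeval (low y x (s + 1)) (D i G) =
        aeval (Fin.cons 1 (fun j => y ⟨i, j⟩) : Fin (m i + 1) → L) G := by
    intro L _ _ y x i G
    rw [hD]
    exact aeval_dehom i G y _
  refine ⟨h * ∏ i, D i (G i), C * (1 + ∑ i, C₀ i) + ∑ i, C₀ i, ?_, ?_⟩
  · rw [map_mul, map_prod]
    refine mul_ne_zero hh0 (Finset.prod_ne_zero_iff.2 fun i _ => ?_)
    rw [hDv]
    exact hGy i
  intro L _ _ _ _ _ hLr y x hspec hne B hB
  rw [map_mul, map_prod] at hne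
  have hL : IsFF κ L := hK.of_finite
  have hneG : ∀ i, aeval (Fin.cons 1 (fun j => y ⟨i, j⟩) : Fin (m i + 1) → L) (G i) ≠ 0 := by
    intro i
    rw [← hDw y x i]
    exact Finset.prod_ne_zero_iff.1 (right_ne_zero_of_mul hne) i (Finset.mem_univ i)
  have h1 := fun i => hC₀ i L (fun j => y ⟨i, j⟩) hLr (fun Q hQ => by
    have h2 := hspec (D i Q) (by
      rw [hDv]
      exact hQ)
    rwa [hDw] at h2) (hneG i)
  obtain ⟨h2, h3⟩ := hC L hLr y x hspec (left_ne_zero_of_mul hne)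
  obtain ⟨N, hN⟩ : ∃ N : Fin b → ℕ, N = fun i => Nb i L (fun j => y ⟨i, j⟩) := ⟨_, rfl⟩
  obtain ⟨T, hT⟩ : ∃ T : ℝ, T =
    ∑ i ∈ Finset.range s, (meet κ K (H i) (d i) S (low y x i) (x i) : ℝ) := ⟨_, rfl⟩
  have h1N : ∀ i, hgt κ (fun j => y ⟨i, j⟩) ≤ C₀ i * (1 + N i) := by
    intro i
    rw [hN]
    exact h1 i
  obtain ⟨U, hU⟩ : ∃ U : ℝ, U = ∑ i, (N i : ℝ) := ⟨_, rfl⟩
  obtain ⟨V, hV⟩ : ∃ V : ℝ, V = ∑ i, (C₀ i : ℝ) := ⟨_, rfl⟩
  have hB' : B = (C * (1 + V) + V) * (1 + U + T) := by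
    rw [hB, hT, hU, hV, hN]
    push_cast
    rfl
  rw [← hT] at h2 h3
  have hT0 : 0 ≤ T := by
    rw [hT]
    exact Finset.sum_nonneg fun i _ => Nat.cast_nonneg _
  have hU0 : 0 ≤ U := by
    rw [hU]
    exact Finset.sum_nonneg fun i _ => Nat.cast_nonneg _
  have hV0 : 0 ≤ V := by
    rw [hV]
    exact Finset.sum_nonneg fun i _ => Nat.cast_nonneg _
  have hC0 : (0 : ℝ) ≤ C := Nat.cast_nonneg _
  have h1' : (hgt κ y : ℝ) ≤ V * (1 + U) := by
    have h4 : (hgt κ y : ℝ) ≤ ∑ i, ((C₀ i : ℝ) * (1 + N i)) := by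
      have h5 : hgt κ y ≤ ∑ i, ((C₀ i : ℤ) * (1 + N i)) :=
        (hgt_prod_le hL y).trans (Finset.sum_le_sum fun i _ => h1N i)
      exact_mod_cast h5
    refine h4.trans ?_
    rw [hV, Finset.sum_mul]
    refine Finset.sum_le_sum fun i _ => mul_le_mul_of_nonneg_left ?_ (Nat.cast_nonneg _)
    have h5 : (N i : ℝ) ≤ U := by
      rw [hU]
      exact Finset.single_le_sum (f := fun i => (N i : ℝ)) (fun i _ => Nat.cast_nonneg _)
        (Finset.mem_univ i)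
    linarith
  have h4 : (C : ℝ) * (1 + hgt κ y + T) ≤ C * ((1 + V) * (1 + U + T)) := by
    refine mul_le_mul_of_nonneg_left ?_ hC0
    have h5 : (0 : ℝ) ≤ V * T := mul_nonneg hV0 hT0
    nlinarith
  have h5 : B = C * ((1 + V) * (1 + U + T)) + V * (1 + U + T) := by
    rw [hB']
    ring
  have h6 : (0 : ℝ) ≤ V * (1 + U + T) := mul_nonneg hV0 (by linarith)
  have h7 : (0 : ℝ) ≤ C * ((1 + V) * (1 + U + T)) :=
    mul_nonneg hC0 (mul_nonneg (by linarith) (by linarith))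
  have h8 : V * (1 + U) ≤ V * (1 + U + T) := mul_le_mul_of_nonneg_left (by linarith) hV0
  refine ⟨by linarith, fun l hl => ?_, ?_⟩
  · have h9 := h2 l hl
    linarith
  · linarith

end Pool.Agent.Lib.MP_44a246_ntFB
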