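import Mathlib
import Pool.Agent.Lib.MP_44a246_ntFB.FB0G
import Pool.Agent.Lib.MP_44a246_ntFB.FB31
import Pool.Agent.Lib.MP_44a246_ntFG.FG43

/-!
# The height of the points of bounded degree of a variety with a rational map to a section of an
arbitrary variety with few independent parameters
-/

namespace Pool.Agent.Lib.MP_44a246_ntFB

open Pool.Agent.Lib.MP_e52354_nt
open Pool.Agent.Lib.MP_44a246_nt
open Pool.Agent.Lib.MP_44a246_ntL
open Pool.Agent.Lib.MP_44a246_ntO (infinite_place)
open Pool.Agent.Lib.MP_44a246_ntP (ncard_over_le)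
open Pool.Agent.Lib.MP_44a246_ntFG (linP few_final₆ truncNe)
open WithZero MvPolynomial Module
open scoped IntermediateField.algebraAdjoinAdjoin

universe u v w u₁

/-- an algebraic element satisfies a relation with polynomial coefficients -/
theorem exists_relation {k E : Type*} [Field k] [Field E] [Algebra k E] {m : ℕ} {x : Fin m → E} {h : E}
    (hh : IsAlgebraic (IntermediateField.adjoin k (Set.range x)) h) :
    ∃ (D : ℕ) (c : ℕ → MvPolynomial (Fin m) k), (∃ i ≤ D, aeval x (c i) ≠ 0) ∧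
      ∑ i ∈ Finset.range (D + 1), aeval x (c i) * h ^ i = 0 := by
  classical
  have h1 : IsAlgebraic (Algebra.adjoin k (Set.range x)) h :=
    (IsFractionRing.isAlgebraic_iff (Algebra.adjoin k (Set.range x))
      (IntermediateField.adjoin k (Set.range x)) E).2 hh
  obtain ⟨P, hP0, hP⟩ := h1
  have h2 : ∀ i, ∃ c : MvPolynomial (Fin m) k, aeval x c = (P.coeff i : E) := fun i =>
    (Algebra.adjoin_range_eq_range_aeval k x).le (P.coeff i).2
  choose c hc using h2
  refine ⟨P.natDegree, c, ⟨P.natDegree, le_rfl, ?_⟩, ?_⟩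
  · rw [hc]
    intro h0
    apply hP0
    rw [← Polynomial.leadingCoeff_eq_zero]
    exact Subtype.ext h0
  · rw [Polynomial.aeval_eq_sum_range] at hP
    rw [← hP]
    refine Finset.sum_congr rfl fun i _ => ?_
    rw [hc, Algebra.smul_def]
    rfl

/-- an element which satisfies a relation is algebraic -/
theorem isAlgebraic_of_rel {k E : Type*} [Field k] [Field E] [Algebra k E] {S : Set E} {h : E}
    {D : ℕ} {c : ℕ → E} (hc : ∀ i, c i ∈ IntermediateField.adjoin k S) {i₀ : ℕ} (hi : i₀ ≤ D)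
    (hi0 : c i₀ ≠ 0) (hs : ∑ i ∈ Finset.range (D + 1), c i * h ^ i = 0) :
    IsAlgebraic (IntermediateField.adjoin k S) h := by
  classical
  refine ⟨∑ i ∈ Finset.range (D + 1), Polynomial.C ⟨c i, hc i⟩ * Polynomial.X ^ i, ?_, ?_⟩
  · intro h0
    apply hi0
    have h1 := congrArg (fun P => Polynomial.coeff P i₀) h0
    simp only [Polynomial.finsetSum_coeff, Polynomial.coeff_C_mul, Polynomial.coeff_X_pow,
      Polynomial.coeff_zero, mul_ite, mul_one, mul_zero, Finset.sum_ite_eq, Finset.mem_range] at h1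
    rw [if_pos (by omega)] at h1
    exact congrArg Subtype.val h1
  · rw [map_sum, ← hs]
    refine Finset.sum_congr rfl fun i _ => ?_
    rw [map_mul, map_pow, Polynomial.aeval_C, Polynomial.aeval_X]
    rfl

theorem aeval_cons_succ {k E : Type*} [Field k] [Field E] [Algebra k E] {m : ℕ} (y : Fin m → E)
    (P : MvPolynomial (Fin m) k) :
    aeval (Fin.cons 1 y : Fin (m + 1) → E) (rename Fin.succ P) = aeval y P := by
  rw [aeval_rename]
  congr 1

/-- **The height of the points of bounded degree of a variety with a rational map to a section of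
an arbitrary variety with few independent parameters.** -/
theorem base_point_few (r : ℕ) : ∃ Φ : ∀ q l : ℕ, MvPolynomial (Fin q × Fin (l + 1)) ℚ,
    (∀ q l, Φ q l ≠ 0) ∧
    ∀ {κ : Type u} {K : Type v} [Field κ] [IsAlgClosed κ] [CharZero κ] [Field K] [CharZero K]
    [Algebra κ K] (_ : IsFF κ K) {m : ℕ} {Ω : Type u₁} [Field Ω] [Algebra K Ω] {y₀ : Fin m → Ω}
    (_ : FewParameters r Φ K y₀),
    ∃ (G : MvPolynomial (Fin (m + 1)) K) (C : ℕ),
      aeval (Fin.cons 1 y₀ : Fin (m + 1) → Ω) G ≠ 0 ∧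
      ∀ (L : Type w) [Field L] [Algebra K L] [FiniteDimensional K L] [Algebra κ L]
        [IsScalarTower κ K L] (y : Fin m → L), finrank K L ≤ r →
        (∀ Q : MvPolynomial (Fin (m + 1)) K,
          aeval (Fin.cons 1 y₀ : Fin (m + 1) → Ω) Q = 0 →
          aeval (Fin.cons 1 y : Fin (m + 1) → L) Q = 0) →
        aeval (Fin.cons 1 y : Fin (m + 1) → L) G ≠ 0 →
        hgt κ y ≤ C := by
  classical
  choose Φ hΦ0 hΦ using fun q l : ℕ => few_final₆.{u, v, w, v} q l
  refine ⟨Φ, hΦ0, ?_⟩
  intro κ K _ _ _ _ _ _ hK m Ω _ _ y₀ h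
  obtain ⟨k, v, n, c, δ, d, q, l, s, dg, g, z, M, t, ⟨hg, hdim, hgy⟩, htk, hl, hδ, hz, hz0, hM, ht,
    hnum, halg⟩ := h
  obtain ⟨θ, hθ⟩ : ∃ θ : ℕ, θ = 2 * r - 1 := ⟨_, rfl⟩
  by_cases hr : r = 0
  · refine ⟨1, 0, by rw [map_one]; exact one_ne_zero, ?_⟩
    intro L _ _ _ _ _ y hLr _ _
    have hL1 : 0 < finrank K L := finrank_pos
    omega
  have hθr : n + θ + 2 = n + 2 * r + 1 := by omega
  obtain ⟨C₁, hC₁⟩ := hΦ q l (k := k) htk (ν := n + c) (c := c) (θ := θ) (s := s) hl hδ
    (Or.inl rfl) hg hdim hz hz0 (A := M) hM hK (e := d) t ht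
    (by
      rw [hθr]
      rcases hnum with h | h
      · exact Or.inl ⟨h.1, by omega, h.2.2⟩
      · exact Or.inr ⟨h.1, by omega, h.2.2⟩) (Set.finite_empty (α := Place κ K))
  -- the relation
  obtain ⟨D, f, ⟨i₀, hi₀, hf0⟩, hf⟩ := exists_relation halg
  obtain ⟨H, hH⟩ : ∃ H : MvPolynomial (Fin (m + 1)) K, H = ∑ j, C (t j) *
    (map (algebraMap k K) (∑ i, C (M j i) * z i)) ^ d := ⟨_, rfl⟩
  have hHval : ∀ {E : Type _} [Field E] [Algebra K E] (y : Fin m → E),
      aeval (Fin.cons 1 y : Fin (m + 1) → E) H = sumVal z M d t y := by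
    intro E _ _ y
    rw [hH, map_sum]
    unfold sumVal
    refine Finset.sum_congr rfl fun j _ => ?_
    rw [map_mul, map_pow, aeval_C, aeval_map_algebraMap, map_sum]
    congr 3
    refine funext fun i => ?_
    rw [map_mul, aeval_C]
  have hHval' : aeval (Fin.cons 1 y₀ : Fin (m + 1) → Ω) H = sumVal z M d t y₀ := by
    rw [hH, map_sum]
    unfold sumVal
    refine Finset.sum_congr rfl fun j _ => ?_
    rw [map_mul, map_pow, aeval_C, aeval_map_algebraMap, map_sum]
    congr 3
    refine funext fun i => ?_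
    rw [map_mul, aeval_C]
  obtain ⟨Q, hQ⟩ : ∃ Q : MvPolynomial (Fin (m + 1)) K, Q = ∑ i ∈ Finset.range (D + 1),
    map (algebraMap k K) (rename Fin.succ (f i)) * H ^ i := ⟨_, rfl⟩
  refine ⟨map (algebraMap k K) (rename Fin.succ (f i₀)), r * (C₁ * r), ?_, ?_⟩
  · rw [aeval_map_algebraMap, aeval_cons_succ]
    exact hf0
  · intro L _ _ _ _ _ y hLr hspec hne
    obtain ⟨E, _, _, _, _, _, _, _, _, _, y', hEr, hcons, -, hgt', htop⟩ := exists_subfield' hK y
    have hEf : IsFF κ E := hK.of_finite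
    have hEc : CharZero E := charZero_of_injective_algebraMap (algebraMap K E).injective
    have hM1 : 0 < finrank K E := finrank_pos
    have hM2 : 0 < finrank E L := finrank_pos
    have hr1 : finrank K E ≤ r := (Nat.le_mul_of_pos_right _ hM2).trans (hEr.le.trans hLr)
    have hr2 : finrank E L ≤ r := (Nat.le_mul_of_pos_left _ hM1).trans (hEr.le.trans hLr)
    have hne' : (Fin.cons 1 y' : Fin (m + 1) → E) ≠ 0 := fun h0 => by
      have h1 := congrFun h0 0
      rw [Fin.cons_zero] at h1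
      exact one_ne_zero h1
    have hval' : ∀ P : MvPolynomial (Fin (m + 1)) K, aeval (Fin.cons 1 y : Fin (m + 1) → L) P =
        algebraMap E L (aeval (Fin.cons 1 y' : Fin (m + 1) → E) P) := by
      intro P
      rw [hcons]
      exact aeval_algebraMap_apply L (Fin.cons 1 y' : Fin (m + 1) → E) P
    have hz' : ∀ P : MvPolynomial (Fin (m + 1)) K, aeval (Fin.cons 1 y : Fin (m + 1) → L) P = 0 ↔
        aeval (Fin.cons 1 y' : Fin (m + 1) → E) P = 0 := by
      intro P
      rw [hval']
      exact map_eq_zero _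
    have i2 : IsScalarTower k K E := inferInstance
    have htop' : pointField K (Fin.cons 1 y' : Fin (m + 1) → E) = ⊤ := by
      rw [eq_top_iff, ← htop]
      refine IntermediateField.adjoin_le_iff.2 ?_
      rintro _ ⟨i, rfl⟩
      refine IntermediateField.subset_adjoin _ _ ⟨i.succ, 0, ?_⟩
      rw [Fin.cons_succ, Fin.cons_zero, div_one]
    have h1 : ∀ i, aeval (Fin.cons 1 y' : Fin (m + 1) → E) (g i) = 0 := by
      intro i
      have h2 := (hz' (map (algebraMap k K) (g i))).1 (hspec _ (by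
        rw [aeval_map_algebraMap]
        exact hgy i))
      rwa [aeval_map_algebraMap] at h2
    obtain ⟨h₀, hh₀⟩ : ∃ h₀, h₀ = sumVal z M d t y' := ⟨_, rfl⟩
    have h3 : ∑ i ∈ Finset.range (D + 1), aeval y' (f i) * h₀ ^ i = 0 := by
      have h4 : aeval (Fin.cons 1 y' : Fin (m + 1) → E) Q = 0 := by
        refine (hz' _).1 (hspec _ ?_)
        rw [hQ, map_sum, ← hf]
        refine Finset.sum_congr rfl fun i _ => ?_
        rw [map_mul, map_pow, aeval_map_algebraMap, aeval_cons_succ, hHval']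
      rw [← h4, hQ, map_sum]
      refine Finset.sum_congr rfl fun i _ => ?_
      rw [map_mul, map_pow, aeval_map_algebraMap, aeval_cons_succ, hHval, hh₀]
    have h4 : aeval y' (f i₀) ≠ 0 := by
      intro h0
      apply hne
      rw [hz', aeval_map_algebraMap, aeval_cons_succ]
      exact h0
    have h5 : IsAlgebraic (IntermediateField.adjoin k
        (Set.range (Fin.cons 1 y' : Fin (m + 1) → E))) (-h₀) := by
      refine IsAlgebraic.neg (isAlgebraic_of_rel (c := fun i => aeval y' (f i)) ?_ hi₀ h4 h3)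
      intro i
      show aeval y' (f i) ∈ _
      rw [← aeval_cons_succ]
      have h6 : (aeval (Fin.cons 1 y' : Fin (m + 1) → E) (rename Fin.succ (f i))) ∈
          Algebra.adjoin k (Set.range (Fin.cons 1 y' : Fin (m + 1) → E)) := by
        rw [Algebra.adjoin_range_eq_range_aeval]
        exact ⟨_, rfl⟩
      exact IntermediateField.algebra_adjoin_le_adjoin _ _ h6
    have h6 := (hC₁ E (Fin.cons 1 y' : Fin (m + 1) → E) ⟨0, Fin.cons_zero _ _⟩ h1 0 (-h₀) h5 0 (by
      rw [hh₀]
      unfold sumVal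
      rw [eq_comm, neg_add_eq_zero]
      refine Finset.sum_congr rfl fun j _ => ?_
      rw [Pool.Agent.Lib.MP_44a246_ntFG.aeval_linP]) (Or.inl rfl)).2 htop'
    have h7 : truncNe (∅ : Set (Place κ K)) 0 (0 : E) (Fin.cons 1 y' : Fin (m + 1) → E) = 0 := by
      unfold truncNe
      refine Set.Infinite.ncard ?_
      intro h9
      have h10 := infinite_place hEf
      refine Set.infinite_univ (α := Place κ E) ?_
      refine h9.subset ?_
      intro w _
      refine ⟨fun v hv => (Set.notMem_empty v hv).elim, ?_⟩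
      rw [map_zero, pow_zero]
      exact zero_ne_one
    rw [h7, ← hgt_eq] at h6
    rw [hgt']
    obtain ⟨b, hb⟩ : ∃ b, b = hgt κ y' := ⟨_, rfl⟩
    rw [← hb] at h6 ⊢
    have hb0 : 0 ≤ b := by
      rw [hb]
      exact hgt_nonneg hEf y'
    have e1 : (finrank K E : ℤ) ≤ r := by exact_mod_cast hr1
    have e2 : (finrank E L : ℤ) ≤ r := by exact_mod_cast hr2
    have e4 : (θ : ℤ) = 2 * r - 1 := by omega
    have e5 : b ≤ ((θ : ℤ) - 2 * ((finrank K E : ℤ) - 1)) * b := by
      have : (1 : ℤ) ≤ (θ : ℤ) - 2 * ((finrank K E : ℤ) - 1) := by linarith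
      nlinarith
    have e6 : (C₁ : ℤ) * finrank K E ≤ C₁ * r := mul_le_mul_of_nonneg_left e1
      (Int.natCast_nonneg _)
    have e7 : b ≤ C₁ * r := by
      push_cast at h6
      linarith
    calc (finrank E L : ℤ) * b ≤ r * (C₁ * r) := mul_le_mul e2 e7 hb0 (Int.natCast_nonneg _)
      _ = _ := by
          push_cast
          ring

end Pool.Agent.Lib.MP_44a246_ntFB
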