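import Mathlib
import Pool.Agent.Lib.MP_44a246_ntFB.FB30
import Pool.Agent.Lib.MP_44a246_ntFB.FB40

/-!
# The varieties with bounded heights which are used as the base
-/

namespace Pool.Agent.Lib.MP_44a246_ntFB

open Pool.Agent.Lib.MP_e52354_nt
open Pool.Agent.Lib.MP_44a246_nt
open Pool.Agent.Lib.MP_44a246_ntL
open WithZero MvPolynomial Module

universe u v w u₁

theorem rename_inr_hom {k : Type*} [Field k] {σ τ : Type*} {P : MvPolynomial τ k} {E : ℕ}
    (hP : P.IsHomogeneous E) (d : σ → ℕ) :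
    (rename Sum.inr P : MvPolynomial (σ ⊕ τ) k).IsWeightedHomogeneous
      (Sum.elim d fun _ => 1) E := by
  classical
  intro m hm
  obtain ⟨m', rfl, hm'⟩ := coeff_rename_ne_zero _ _ _ hm
  have h1 := hP hm'
  rw [← h1, Finsupp.weight_apply, Finsupp.weight_apply,
    Finsupp.sum_mapDomain_index_inj Sum.inr_injective]
  rfl

/-- the counting function of no forms is zero -/
theorem baseCount_univ {κ K L : Type*} [Field κ] [Field K] [Algebra κ K] [Field L] [Algebra κ L]
    [Algebra K L] {m p N : ℕ} (h : N ≤ m) (F : Fin p → MvPolynomial (Fin (N + 1)) K)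
    (e : Fin p → ℕ) (S : Set (Place κ K)) (y : Fin m → L) :
    baseCount κ h F e Finset.univ S y = 0 := by
  unfold baseCount truncCount
  have h1 : {w : Place κ L | (∀ v ∈ S, ¬ (w.1.comap (algebraMap K L)).IsEquiv v.1) ∧
      ∃ b : {j : Fin p // j ∉ (Finset.univ : Finset (Fin p))},
        aeval (Fin.cons 1 (fun i => y (Fin.castLE h i)) : Fin (N + 1) → L) (F b) ≠ 0 ∧
        w.1 (aeval (Fin.cons 1 (fun i => y (Fin.castLE h i)) : Fin (N + 1) → L) (F b)) <
          vmax w.1 (Fin.cons 1 (fun i => y (Fin.castLE h i)) : Fin (N + 1) → L) ^ e b} = ∅ := by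
    refine Set.eq_empty_of_forall_notMem ?_
    rintro w ⟨-, b, -⟩
    exact b.2 (Finset.mem_univ _)
  exact (congrArg Set.ncard h1).trans (Set.ncard_empty _)

/-- condition (1) implies the condition for the general theorem -/
theorem ManyParameters.base {r : ℕ} (hr : 1 ≤ r) {K : Type*} {Ω : Type*} [Field K]
    [Field Ω] [Algebra K Ω] {m : ℕ} {y : Fin m → Ω} (h : ManyParameters r K y) :
    ∃ (p : ℕ) (F : Fin p → MvPolynomial (Fin (m + 1)) K) (e : Fin p → ℕ),
      ∀ R : ℕ, Base r R (le_refl m) F e Finset.univ y := by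
  classical
  obtain ⟨k, v, n, p, g, u, dg, f, F, e, a, ⟨hf, hdim, hfy⟩, hF, hFy, ha, hnum, hgen⟩ := h
  refine ⟨p, F, e, fun R => ?_⟩
  refine Or.inl ⟨k, v + p, n, g, fun _ => 1, Fin.append (fun i => rename Sum.inr (f i))
    (fun j => X (Sum.inl j)), ?_, hF, ?_, Or.inr ?_⟩
  · refine ⟨fun i => ⟨le_rfl, fun _ => rfl⟩, ?_, ?_, ?_⟩
    · intro l
      refine Fin.addCases (fun i => ?_) (fun j => ?_) l
      · refine ⟨dg i, ?_⟩
        rw [Fin.append_left]
        exact rename_inr_hom (hf i) e
      · refine ⟨e j, ?_⟩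
        rw [Fin.append_right]
        exact isWeightedHomogeneous_X _ _ _
    · refine le_trans ?_ hdim
      have h1 : Ideal.span (Set.range f) ≤ (Ideal.span (Set.range (Fin.append
          (fun i => (rename Sum.inr (f i) : MvPolynomial (Fin p ⊕ Fin (m + 1)) k))
          (fun j => X (Sum.inl j))))).comap
          (rename (Sum.inr : Fin (m + 1) → Fin p ⊕ Fin (m + 1))) := by
        rw [Ideal.span_le]
        rintro _ ⟨i, rfl⟩
        refine Ideal.subset_span ⟨Fin.castAdd p i, ?_⟩
        rw [Fin.append_left]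
      exact ringKrullDim_le_of_surjective (Ideal.Quotient.factor h1)
        (Ideal.Quotient.factor_surjective h1)
    · intro x hx _
      exact funext fun i => hx i (by omega)
  · refine ⟨?_, ?_, ?_⟩
    · intro l
      refine Fin.addCases (fun i => ?_) (fun j => ?_) l
      · rw [Fin.append_left]
        unfold ev
        rw [aeval_map_algebraMap, aeval_rename]
        exact hfy i
      · rw [Fin.append_right]
        unfold ev
        rw [map_X, aeval_X, Sum.elim_inl]
        exact hFy j
    · refine ⟨fun j => Fin.natAdd v (j : Fin p), ?_⟩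
      have h1 : (Matrix.of fun i j : (Finset.univ : Finset (Fin p)) =>
          ev (le_refl m) F y (pderiv (Sum.inl (j : Fin p)) (Fin.append
            (fun i => (rename Sum.inr (f i) : MvPolynomial (Fin p ⊕ Fin (m + 1)) k))
            (fun j => X (Sum.inl j)) (Fin.natAdd v (i : Fin p))))) = 1 := by
        refine Matrix.ext fun i j => ?_
        rw [Matrix.of_apply, Fin.append_right, pderiv_X, Matrix.one_apply]
        by_cases hij : i = j
        · rw [if_pos hij, hij, Pi.single_eq_same]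
          unfold ev
          rw [map_one, map_one]
        · rw [if_neg hij, Pi.single_eq_of_ne]
          · unfold ev
            rw [map_zero, map_zero]
          · intro h0
            apply hij
            exact Subtype.ext (Sum.inl_injective h0)
      rw [h1, Matrix.det_one]
      exact one_ne_zero
    · intro j hj
      exact (hj (Finset.mem_univ j)).elim
  · refine ⟨Finset.univ, a, u, fun j _ => ha j, ?_, ?_⟩
    · have h1 : Finset.univ.sup (fun _ : Fin (m + 1) => 1) = 1 :=
        Finset.sup_const Finset.univ_nonempty 1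
      rw [h1, Finset.sum_add_distrib] at *
      simp only [Nat.sub_self, Finset.sum_const_zero, Finset.inter_self, Finset.card_univ,
        Fintype.card_fin, Finset.sum_const, smul_eq_mul, mul_one] at hnum ⊢
      omega
    · rcases hgen with h | ⟨h1, h2⟩
      · exact Or.inl h
      · exact Or.inr ⟨h1, h2⟩

/-- condition (3) implies the condition for the general theorem -/
theorem DiagonalForm.base {r : ℕ} {K : Type*} {Ω : Type*} [Field K] [Field Ω] [Algebra K Ω]
    {m : ℕ} {y : Fin m → Ω} (h : DiagonalForm r K y) (R : ℕ) :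
    Base r R (le_refl m) (fun j : Fin 0 => (X (Fin.elim0 j) : MvPolynomial (Fin (m + 1)) K))
      (fun _ => 1) Finset.univ y := by
  classical
  obtain ⟨d, a, hd, ha, hy, hsub⟩ := h
  refine Or.inr ⟨rfl, ?_, ?_, ⟨fun j => Fin.elim0 j, fun j => Fin.elim0 j, fun j => Fin.elim0 j⟩,
    d, a, ?_, ha, hy, hsub⟩
  · rcases Nat.eq_zero_or_pos m with h0 | h0
    · exfalso
      subst h0
      rw [Fin.sum_univ_one] at hy
      rw [Fin.cons_zero, one_pow, mul_one] at hy
      exact ha 0 ((map_eq_zero _).1 hy)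
    · exact h0
  · exact Finset.eq_empty_of_isEmpty _
  · rcases Nat.eq_zero_or_pos m with h0 | h0
    · exfalso
      subst h0
      rw [Fin.sum_univ_one] at hy
      rw [Fin.cons_zero, one_pow, mul_one] at hy
      exact ha 0 ((map_eq_zero _).1 hy)
    · obtain ⟨m', rfl⟩ : ∃ m', m = m' + 1 := ⟨m - 1, by omega⟩
      refine lt_of_lt_of_le ?_ hd
      have h1 : 2 * (r - 1) * ((m' + 1) ^ 2 * (m' + 1 - 1)) ≤ 2 * (r - 1) * (m' + 1) ^ 3 := by
        refine Nat.mul_le_mul_left _ ?_
        rw [pow_succ (m' + 1) 2]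
        exact Nat.mul_le_mul_left _ (by omega)
      have h2 : (m' + 1 - 1) * (m' + 1 + 1 - 0) < (m' + 1) ^ 2 := by
        have : (m' + 1 - 1) * (m' + 1 + 1 - 0) = m' * (m' + 2) := by
          rw [Nat.add_sub_cancel, Nat.sub_zero]
        rw [this]
        nlinarith
      omega

/-- **The varieties with bounded heights.** The points of degree at most `r` off a proper closed
subset have a bounded height. -/
theorem base_bounded (r : ℕ) : ∃ Φ : ∀ q l : ℕ, MvPolynomial (Fin q × Fin (l + 1)) ℚ,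
    (∀ q l, Φ q l ≠ 0) ∧
    ∀ {κ : Type u} {K : Type v} [Field κ] [IsAlgClosed κ] [CharZero κ] [Field K] [CharZero K]
    [Algebra κ K] (_ : IsFF κ K) {m : ℕ} {Ω : Type u₁} [Field Ω] [Algebra K Ω] {y₀ : Fin m → Ω}
    (_ : BoundedBase r Φ K y₀),
    ∃ (G : MvPolynomial (Fin (m + 1)) K) (C : ℕ),
      aeval (Fin.cons 1 y₀ : Fin (m + 1) → Ω) G ≠ 0 ∧
      ∀ (L : Type w) [Field L] [Algebra K L] [FiniteDimensional K L] [Algebra κ L]
        [IsScalarTower κ K L] (y : Fin m → L), finrank K L ≤ r →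
        (∀ Q : MvPolynomial (Fin (m + 1)) K,
          aeval (Fin.cons 1 y₀ : Fin (m + 1) → Ω) Q = 0 →
          aeval (Fin.cons 1 y : Fin (m + 1) → L) Q = 0) →
        aeval (Fin.cons 1 y : Fin (m + 1) → L) G ≠ 0 →
        hgt κ y ≤ C := by
  classical
  obtain ⟨Φ, hΦ0, hΦ⟩ := base_point_few.{u, v, w, u₁} r
  choose R hR using fun p : ℕ => base_point_all.{u, v, w, u₁} p r
  refine ⟨Φ, hΦ0, ?_⟩
  intro κ K _ _ _ _ _ _ hK m Ω _ _ y₀ h
  by_cases hr : r = 0
  · refine ⟨1, 0, by rw [map_one]; exact one_ne_zero, ?_⟩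
    intro L _ _ _ _ _ y hLr _ _
    have hL1 : 0 < finrank K L := finrank_pos
    omega
  have hr' : 1 ≤ r := Nat.one_le_iff_ne_zero.2 hr
  have key : ∀ (p : ℕ) (F : Fin p → MvPolynomial (Fin (m + 1)) K) (e : Fin p → ℕ),
      Base r (R p) (le_refl m) F e Finset.univ y₀ → ∃ (G : MvPolynomial (Fin (m + 1)) K) (C : ℕ),
      aeval (Fin.cons 1 y₀ : Fin (m + 1) → Ω) G ≠ 0 ∧
      ∀ (L : Type w) [Field L] [Algebra K L] [FiniteDimensional K L] [Algebra κ L]
        [IsScalarTower κ K L] (y : Fin m → L), finrank K L ≤ r →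
        (∀ Q : MvPolynomial (Fin (m + 1)) K,
          aeval (Fin.cons 1 y₀ : Fin (m + 1) → Ω) Q = 0 →
          aeval (Fin.cons 1 y : Fin (m + 1) → L) Q = 0) →
        aeval (Fin.cons 1 y : Fin (m + 1) → L) G ≠ 0 →
        hgt κ y ≤ C := by
    intro p F e hbase
    obtain ⟨G, C, hG, hC⟩ := hR p m m (le_refl m) e Finset.univ κ K hK F Ω y₀ hbase ∅
      Set.finite_empty
    refine ⟨G, C, hG, ?_⟩
    intro L _ _ _ _ _ y hLr hspec hne
    have h1 := hC L y hLr hspec hne
    rw [baseCount_univ] at h1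
    push_cast at h1
    linarith
  rcases h with h | h | h
  · obtain ⟨p, F, e, hb⟩ := h.base hr'
    exact key p F e (hb _)
  · exact hΦ hK h
  · exact key 0 _ _ (h.base _)

end Pool.Agent.Lib.MP_44a246_ntFB
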