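import Mathlib
import Pool.Agent.Lib.MP_44a246_ntI.I06

/-!
# Algebraic points over function fields of generic sections, degeneracy loci and coverings

Let `κ` be an algebraically closed field of characteristic zero and of infinite transcendence
degree over the rational numbers, `K` a function field of one variable over `κ`, and `k` a subfield
of `K` of finite transcendence degree over the rational numbers. Let `f i` be finitely many
polynomials over `k` in the variables `t_1, ..., t_p, x_0, ..., x_n`, weighted homogeneous of degree
`e i`, where `t_j` has the weight `d j` and the `x_l` have the weight `1`. Let the closure `V` of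
the image in `P^n` of the zero set of the `f i` have dimension at most `r` (the ideal of `V` is
generated by the polynomials without `t_1, ..., t_p` in the ideal of the `f i`). Let `H j` be forms
of degree `d j` over `K` in `x_0, ..., x_n`, whose coefficients generate a field of transcendence
degree at least (their number) `- c` over `k` (for `c = 0` this means that the coefficients are
algebraically independent over `k`). Let `X` be the set of all `x` in `P^n` such that
`f i (H (x), x) = 0` for all `i` and

* the rank of the matrix of the `∂ f i / ∂ t_j` at `(H (x), x)` is at least `ρ`, or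
* `ρ = p`, and for every `j` there is an `f i` which does not depend on the `t_l` with `l ≠ j`, and
  does not vanish at `(τ, ..., τ, x)` for some `τ` (if `D > 0`, then the zero set of the `f i` is
  assumed to have dimension at most `r + 1`, in the affine space with the coordinates
  `t_1, ..., t_p, x_0, ..., x_n`).

Let `m + s` be a lower bound for all sums of `ρ` of the degrees `d j`, and suppose

* (I) `D = 0`, `2 m + ρ ≥ 3 r + 4 + c` (or `2 m + ρ ≥ 3 r + 3 + c` and `m ≥ r + p + 2`),
  `m + ρ ≥ p + 3`, `Q ≤ (m + ρ) ^ 2 + 9 + 5 p - (p + 6) (m + ρ) - 2 p m`, and for every `i`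
  `2 p s (e i + 1) < Q` or `2 p (e i + 1) ≤ P` or `m + ρ ≥ 2 r + c + 2`, or
* (II) `r ≥ 2`, `σ ≥ 4 ρ`, `σ ≥ s + 3`, `D ≥ 150 σ`, all `d j` are at least `D`,
  `ρ D ≥ r + c`, `m ≥ r + c + 75 ρ σ`, `Q ≤ D ^ 2`, and for every `i`
  `4 D (e i) ≤ Q` or `D (e i) ≤ σ P`.

Then there are finitely many forms `G` over `K`, whose set of common zeros has dimension at most
`2 r + c - m - s - ρ - 1` (and is empty if this number is negative), and a constant `C` such
that for all finite extensions `L` of `K` and all points `x` of `X` over `L` which are not common
zeros of the forms `G`, one has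

`s h(x) < deg Ram(L/K)` or `Q h(x) ≤ C [L : K] + P deg Ram(L/K)`.

If the field of definition of `x` is `L`, `2 [L : K] ≤ s + 2` and `2 P ([L : K] - 1) < Q` (for
instance if `L = K`, `s = 0`), then `h(x) ≤ C [L : K]`. In the case (I) the points which do not
satisfy these inequalities lie on lines contained in `X`.

Examples.
* `p = 1`, the equations `t` and `F l (x)`: the section of an arbitrary variety `V = {F l = 0}` of
  dimension `r` in `P^n` by the hypersurface `H = 0` of degree `d`. For the `K`-rational points
  (`s = 0`) the conditions are `2 d ≥ 3 r + 2 + c`, `d ≥ 6` (`Q = 1`), or, by (II) with `σ = 4` and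
  `D = d`, `d ≥ r + c + 300` and `d ≥ 600` (if `d < 600` and `d ≥ r + c + 300`, then (I) applies).
  The dimension of the exceptional set is at most `2 r + c - d - 2`, less than the dimension
  `r - 1` of `X` if `d ≥ r + c` (for `V = P^r` the lines in `X` cover a set of dimension
  `2 r - d - 2`, and `X` is of general type if and only if `d ≥ r + 2`).
* `p = 1` and other equations: coverings of `V` which are branched along `H = 0`, generic members of
  `|m L|` for a big line bundle `L`.
* `ρ = p`: complete intersections and their coverings, zero loci of sections of a twisted vector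
  bundle which is generated by its sections.
* `ρ < p`: degeneracy loci of matrices of forms.

Proof: The contractions of the vector of all monomials of degree `d j` in the coordinates of a
plane projection of `x` by the derivatives of `x` along the coefficients of the `H j` give subspaces
of small height and of dimension at most `r`; the slopes of the subspaces which contain such a
vector of monomials are compared in different degrees, and this gives a plane curve of small degree
and small height through the projection of `x` (in the case (I) a line). In the case (II) one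
compares instead, for a subspace of the space spanned by all the derivatives and for a generic
direction, the vanishing orders of the elements of a basis of small height (an absolute version of
the lemma of Siegel) with the number of zeros of the restriction of a form to a curve. The
derivatives of the coefficients of the curve along the coefficients of the `H j` are used in the
same way; this bounds the height of the curve independently of the height of `x`. Where the rank is
at least `ρ`, the derivatives of `ρ` of the values `H j (x)` are combinations of the derivatives of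
the coordinates and of the other values. The ramification of `L` over `K` enters only once, because
all but one of the derivations in a determinant may be chosen to kill a uniformizer of `K`. For the
dimension of the exceptional set one considers, in an ultrapower, a point with many algebraically
independent coordinates on a line or a curve in `X`, and compares the number of independent
directions in which the curve moves with the number of conditions which `X` imposes on it; the
number of the conditions imposed by the forms of degree `d j` on the curve is counted with the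
help of its plane projections.
-/

namespace Pool.Agent.Lib.MP_44a246_ntFB.SlopeTheoremA

open Pool.Agent.Lib.MP_44a246_nt Pool.Agent.Lib.MP_44a246_ntG

universe u v w

theorem result {κ : Type u} {K : Type v} [Field κ] [IsAlgClosed κ] [CharZero κ] [Field K]
    [CharZero K] [Algebra κ K] (htr : Cardinal.aleph0 ≤ Algebra.trdeg ℚ κ)
    {t : K} (ht : Transcendental κ t) [FiniteDimensional (IntermediateField.adjoin κ {t}) K]
    {k : Type*} [Field k] [CharZero k] [Algebra k K] (hk : Algebra.trdeg ℚ k < Cardinal.aleph0)
    {n p r ρ σ D c s m P Q m' : ℕ} {d : Fin p → ℕ} {ι : Type*} [Finite ι] {e : ι → ℕ}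
    {f : ι → MvPolynomial (Fin p ⊕ Fin (n + 1)) k}
    (hf : ∀ i, (f i).IsWeightedHomogeneous (Sum.elim d fun _ => 1) (e i))
    (hdim : ringKrullDim (MvPolynomial (Fin (n + 1)) k ⧸ (Ideal.span (Set.range f)).comap
      (MvPolynomial.rename (Sum.inr : Fin (n + 1) → Fin p ⊕ Fin (n + 1)))) ≤
        ((r + 1 : ℕ) : WithBot ℕ∞))
    (hr : 1 ≤ r) (hρ : 1 ≤ ρ) (hρp : ρ ≤ p)
    (hms : ∀ A : Finset (Fin p), A.card = ρ → m + s ≤ ∑ j ∈ A, d j)
    (hd : (D = 0 ∧ (∀ j, 1 ≤ d j) ∧ 3 * r + 3 + c ≤ 2 * m + ρ ∧ p + 3 ≤ m + ρ ∧
        (r + p + 2 ≤ m ∨ 2 * r + c + 2 ≤ m + ρ ∨ 3 * r + 4 + c ≤ 2 * m + ρ) ∧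
        (p + 6) * (m + ρ) + 2 * p * m + Q ≤ (m + ρ) ^ 2 + 9 + 5 * p ∧
        ∀ i, 2 * p * s * (e i + 1) < Q ∨ 2 * p * (e i + 1) ≤ P ∨ 2 * r + c + 2 ≤ m + ρ) ∨
      (2 ≤ r ∧ 4 * ρ ≤ σ ∧ s + 3 ≤ σ ∧ 150 * σ ≤ D ∧ (∀ j, D ≤ d j) ∧ r + c ≤ ρ * D ∧
        r + c + 75 * ρ * σ ≤ m ∧ Q ≤ D ^ 2 ∧ ∀ i, 4 * D * e i ≤ Q ∨ D * e i ≤ σ * P))
    (hm' : ∀ A : Finset (Fin p), A.card = ρ → 2 * r + c ≤ (∑ j ∈ A, d j) + m' + ρ)
    (H : Fin p → MvPolynomial (Fin (n + 1)) K) (hH : ∀ j, (H j).IsHomogeneous (d j))
    (hgen : (Nat.card {I : Fin p × (Fin (n + 1) →₀ ℕ) // I.2.degree = d I.1} : Cardinal) ≤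
      Algebra.trdeg k (IntermediateField.adjoin k
        (Set.range fun I : {I : Fin p × (Fin (n + 1) →₀ ℕ) // I.2.degree = d I.1} =>
          (H I.1.1).coeff I.1.2)) + c) :
    ∃ (a : ℕ) (G : Fin a → MvPolynomial (Fin (n + 1)) K), (∀ i, ∃ E, (G i).IsHomogeneous E) ∧
      ringKrullDim (MvPolynomial (Fin (n + 1)) K ⧸ Ideal.span (Set.range G)) ≤
        (m' : WithBot ℕ∞) ∧
      ∃ C : ℕ, ∀ (L : Type w) [Field L] [Algebra K L] [FiniteDimensional K L] [Algebra κ L]
        [IsScalarTower κ K L] [Algebra k L] [IsScalarTower k K L] (x : Fin (n + 1) → L), x ≠ 0 →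
        (∀ i, MvPolynomial.aeval (Sum.elim (fun j => MvPolynomial.aeval x (H j)) x :
          Fin p ⊕ Fin (n + 1) → L) (f i) = 0) →
        ((∃ (i : Fin ρ → ι) (j : Fin ρ → Fin p), (Matrix.of fun a b =>
            MvPolynomial.aeval (Sum.elim (fun j => MvPolynomial.aeval x (H j)) x :
              Fin p ⊕ Fin (n + 1) → L)
              (MvPolynomial.pderiv (Sum.inl (j b)) (f (i a)))).det ≠ 0) ∨
          (ρ = p ∧ (D = 0 ∨ ringKrullDim (MvPolynomial (Fin p ⊕ Fin (n + 1)) k ⧸
              Ideal.span (Set.range f)) ≤ ((r + 1 : ℕ) : WithBot ℕ∞)) ∧
            ∀ j : Fin p, ∃ i, (∀ j' : Fin p, j' ≠ j → Sum.inl j' ∉ (f i).vars) ∧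
              ∃ τ : L, MvPolynomial.aeval (Sum.elim (fun _ => τ) x :
                Fin p ⊕ Fin (n + 1) → L) (f i) ≠ 0)) →
        ((s * height κ x < ramDeg κ L K ∨ (Q : ℤ) * height κ x ≤
            C * Module.finrank K L + P * ramDeg κ L K) ∧
          (pointField K x = ⊤ → 2 * Module.finrank K L ≤ s + 2 →
            2 * P * (Module.finrank K L - 1) < Q →
            height κ x ≤ C * Module.finrank K L)) ∨
          (∀ i, MvPolynomial.aeval x (G i) = 0) ∧ (D = 0 →
            ∃ y z : Fin (n + 1) → L, LinearIndependent L ![y, z] ∧
              (∃ u v : L, x = u • y + v • z) ∧ ∀ (i : ι) (u v : L),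
                MvPolynomial.aeval (Sum.elim
                  (fun j => MvPolynomial.aeval (u • y + v • z) (H j)) (u • y + v • z) :
                  Fin p ⊕ Fin (n + 1) → L) (f i) = 0) :=
  Pool.Agent.Lib.MP_44a246_ntI.slope_mainRI.{u, v, w} htr ht hk hf hdim hr hρ hρp hms hd hm' H hH
    hgen

end Pool.Agent.Lib.MP_44a246_ntFB.SlopeTheoremA
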